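import Mathlib

set_option autoImplicit false

namespace Pool.Agent.Work.MP_5dd17b_co.Aao

open Finset

theorem sum_inv_sqrt_le (p : ℕ) : ∑ n ∈ range (p + 1), (√(n : ℝ))⁻¹ ≤ 2 * √(p : ℝ) := by
  induction p with
  | zero => simp
  | succ p ih =>
    rw [sum_range_succ]
    have ha : 0 ≤ √(p : ℝ) := Real.sqrt_nonneg _
    have hb : 0 < √((p + 1 : ℕ) : ℝ) := Real.sqrt_pos.mpr (by positivity)
    have ha2 : √(p : ℝ) ^ 2 = p := Real.sq_sqrt (by positivity)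
    have hb2 : √((p + 1 : ℕ) : ℝ) ^ 2 = (p : ℝ) + 1 := by
      rw [Real.sq_sqrt (by positivity)]; push_cast; ring
    have h : (√((p + 1 : ℕ) : ℝ))⁻¹ ≤ 2 * √((p + 1 : ℕ) : ℝ) - 2 * √(p : ℝ) := by
      rw [inv_le_iff_one_le_mul₀ hb]
      nlinarith [sq_nonneg (√((p + 1 : ℕ) : ℝ) - √(p : ℝ))]
    linarith

/-- The completely multiplicative function `n ↦ n^(-1/2)`. -/
noncomputable def isq : ℕ →* ℝ where
  toFun n := (√(n : ℝ))⁻¹
  map_one' := by simp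
  map_mul' a b := by
    push_cast
    rw [Real.sqrt_mul (by positivity), mul_inv]

theorem isq_le {p : ℕ} (hp : p.Prime) : 0 ≤ (√(p : ℝ))⁻¹ ∧ (√(p : ℝ))⁻¹ ≤ 3 / 4 := by
  refine ⟨by positivity, ?_⟩
  have h2 : (2 : ℝ) ≤ p := by exact_mod_cast hp.two_le
  have h : (4 / 3 : ℝ) ≤ √(p : ℝ) := Real.le_sqrt_of_sq_le (by linarith)
  calc (√(p : ℝ))⁻¹ ≤ (4 / 3 : ℝ)⁻¹ := inv_anti₀ (by norm_num) h
    _ = 3 / 4 := by norm_num

theorem rankin (y : ℕ) (T : Finset ℕ) (hT : ∀ d ∈ T, d ∈ y.smoothNumbers) :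
    ∑ d ∈ T, (√(d : ℝ))⁻¹ ≤ Real.exp (8 * √(y : ℝ)) := by
  classical
  have hs := (EulerProduct.summable_and_hasSum_smoothNumbers_prod_primesBelow_geometric
    (f := isq) (fun {p} hp => by
      have := isq_le hp
      change ‖(√(p : ℝ))⁻¹‖ < 1
      rw [Real.norm_of_nonneg this.1]
      linarith [this.2]) y).2
  have h1 : ∑ d ∈ T, (√(d : ℝ))⁻¹ ≤ ∏ p ∈ y.primesBelow, (1 - isq p)⁻¹ := by
    rw [← Finset.sum_subtype_of_mem (p := fun d => d ∈ y.smoothNumbers)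
      (fun d : ℕ => (√(d : ℝ))⁻¹) hT]
    exact sum_le_hasSum _ (fun m _ => by
      change 0 ≤ (√((m : ℕ) : ℝ))⁻¹
      positivity) hs
  refine h1.trans ?_
  have h2 : ∏ p ∈ y.primesBelow, (1 - isq p)⁻¹ ≤
      ∏ p ∈ y.primesBelow, Real.exp (4 * (√(p : ℝ))⁻¹) := by
    refine Finset.prod_le_prod (fun p hp => ?_) (fun p hp => ?_)
    · have := isq_le (Nat.prime_of_mem_primesBelow hp)
      change 0 ≤ (1 - (√(p : ℝ))⁻¹)⁻¹
      apply inv_nonneg.mpr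
      linarith [this.2]
    · have := isq_le (Nat.prime_of_mem_primesBelow hp)
      change (1 - (√(p : ℝ))⁻¹)⁻¹ ≤ _
      set t := (√(p : ℝ))⁻¹
      refine le_trans ?_ (Real.add_one_le_exp _)
      rw [inv_le_iff_one_le_mul₀ (by linarith [this.2])]
      nlinarith [this.1, this.2]
  refine h2.trans ?_
  rw [← Real.exp_sum, ← Finset.mul_sum]
  apply Real.exp_le_exp.mpr
  have h3 : ∑ p ∈ y.primesBelow, (√(p : ℝ))⁻¹ ≤ ∑ n ∈ range (y + 1), (√(n : ℝ))⁻¹ := by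
    refine Finset.sum_le_sum_of_subset_of_nonneg (fun p hp => ?_) (fun _ _ _ => by positivity)
    have := Nat.lt_of_mem_primesBelow hp
    exact mem_range.mpr (by omega)
  linarith [sum_inv_sqrt_le y]

theorem tail (y : ℕ) (D : ℝ) (hD : 0 < D) (T : Finset ℕ)
    (hT : ∀ d ∈ T, d ∈ y.smoothNumbers ∧ D < d) :
    ∑ d ∈ T, (d : ℝ)⁻¹ ≤ (√D)⁻¹ * Real.exp (8 * √(y : ℝ)) := by
  refine le_trans ?_ (mul_le_mul_of_nonneg_left (rankin y T fun d hd => (hT d hd).1)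
    (by positivity))
  rw [Finset.mul_sum]
  refine Finset.sum_le_sum fun d hd => ?_
  have h1 := (hT d hd).2
  have h2 : (0 : ℝ) < d := hD.trans h1
  have h3 : √D ≤ √(d : ℝ) := Real.sqrt_le_sqrt h1.le
  have h4 : 0 < √D := Real.sqrt_pos.mpr hD
  have h5 : (d : ℝ)⁻¹ = (√(d : ℝ))⁻¹ * (√(d : ℝ))⁻¹ := by
    rw [← mul_inv, Real.mul_self_sqrt h2.le]
  rw [h5]
  exact mul_le_mul_of_nonneg_right (inv_anti₀ h4 h3) (by positivity)

theorem head (p : ℕ) (hp : 2 ≤ p) (D : ℝ) (hD : 1 ≤ D) (T : Finset ℕ)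
    (hT : ∀ d ∈ T, 1 < d ∧ d ≡ 1 [MOD p] ∧ (d : ℝ) ≤ D) :
    ∑ d ∈ T, (d : ℝ)⁻¹ ≤ (1 + Real.log D) / p := by
  classical
  have hdec : ∀ d ∈ T, d = p * (d / p) + 1 := by
    intro d hd
    have h1 : d % p = 1 % p := (hT d hd).2.1
    rw [Nat.mod_eq_of_lt (by omega : 1 < p)] at h1
    have := Nat.div_add_mod d p
    omega
  have hp0 : (0 : ℝ) < p := by exact_mod_cast (by omega : 0 < p)
  have hk : ∀ d ∈ T, d / p ∈ Icc 1 ⌊D⌋₊ := by
    intro d hd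
    have h1 := hdec d hd
    have h2 := (hT d hd).1
    refine mem_Icc.mpr ⟨?_, ?_⟩
    · by_contra h
      have : d / p = 0 := Nat.lt_one_iff.mp (not_le.mp h)
      rw [this] at h1
      omega
    · exact (Nat.div_le_self d p).trans (Nat.le_floor (hT d hd).2.2)
  have h1 : ∑ d ∈ T, (d : ℝ)⁻¹ ≤ ∑ d ∈ T, (((d / p : ℕ) : ℝ))⁻¹ / p := by
    refine Finset.sum_le_sum fun d hd => ?_
    have h2 := hdec d hd
    have h3 : (1 : ℝ) ≤ ((d / p : ℕ) : ℝ) := by exact_mod_cast (mem_Icc.mp (hk d hd)).1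
    have h4 : (d : ℝ) = p * ((d / p : ℕ) : ℝ) + 1 := by exact_mod_cast h2
    rw [div_eq_mul_inv, ← mul_inv]
    apply inv_anti₀ (by positivity)
    rw [h4]
    linarith
  refine h1.trans ?_
  rw [← Finset.sum_div]
  apply div_le_div_of_nonneg_right _ hp0.le
  have hinj : Set.InjOn (fun d => d / p) (T : Set ℕ) := by
    intro a ha b hb hab
    have h2 := hdec a ha
    have h3 := hdec b hb
    simp only at hab
    rw [h2, h3, hab]
  have h2 : ∑ d ∈ T, (((d / p : ℕ) : ℝ))⁻¹ = ∑ k ∈ T.image (fun d => d / p), (k : ℝ)⁻¹ :=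
    (Finset.sum_image (f := fun k : ℕ => (k : ℝ)⁻¹) hinj).symm
  have h3 : ∑ k ∈ T.image (fun d => d / p), (k : ℝ)⁻¹ ≤ ∑ k ∈ Icc 1 ⌊D⌋₊, (k : ℝ)⁻¹ := by
    refine Finset.sum_le_sum_of_subset_of_nonneg (fun k hk' => ?_) (fun _ _ _ => by positivity)
    obtain ⟨d, hd, rfl⟩ := mem_image.mp hk'
    exact hk d hd
  have h4 : ∑ k ∈ Icc 1 ⌊D⌋₊, (k : ℝ)⁻¹ = (harmonic ⌊D⌋₊ : ℝ) := by
    rw [harmonic_eq_sum_Icc]
    push_cast
    rfl
  have h5 := harmonic_le_one_add_log ⌊D⌋₊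
  have h6 : Real.log (⌊D⌋₊ : ℝ) ≤ Real.log D := by
    have : 1 ≤ ⌊D⌋₊ := Nat.le_floor (by simpa using hD)
    apply Real.log_le_log (by exact_mod_cast this) (Nat.floor_le (by linarith))
  linarith

theorem prog (p : ℕ) (hp : 2 ≤ p) (T : Finset ℕ)
    (hT : ∀ d ∈ T, 1 < d ∧ d ≡ 1 [MOD p] ∧ d ∈ p.smoothNumbers) :
    ∑ d ∈ T, (d : ℝ)⁻¹ ≤ 22 / √(p : ℝ) := by
  classical
  set s := √(p : ℝ) with hs
  have hp1 : (1 : ℝ) ≤ p := by exact_mod_cast (by omega : 1 ≤ p)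
  have hs1 : 1 ≤ s := Real.le_sqrt_of_sq_le (by linarith)
  have hss : s * s = p := Real.mul_self_sqrt (by linarith)
  set D := Real.exp (20 * s) with hD
  have hD1 : 1 ≤ D := Real.one_le_exp (by linarith)
  rw [← Finset.sum_filter_add_sum_filter_not T (fun d : ℕ => (d : ℝ) ≤ D)]
  have h1 := head p hp D hD1 (T.filter fun d : ℕ => (d : ℝ) ≤ D) (fun d hd => by
    have := mem_filter.mp hd
    exact ⟨(hT d this.1).1, (hT d this.1).2.1, this.2⟩)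
  have h2 := tail p D (by linarith) (T.filter fun d : ℕ => ¬ (d : ℝ) ≤ D) (fun d hd => by
    have := mem_filter.mp hd
    exact ⟨(hT d this.1).2.2, not_le.mp this.2⟩)
  have h3 : √D = Real.exp (10 * s) := by
    rw [hD, show 20 * s = 10 * s + 10 * s by ring, Real.exp_add,
      Real.sqrt_mul_self (Real.exp_pos _).le]
  rw [h3, ← Real.exp_neg, ← Real.exp_add, ← hs] at h2
  rw [hD, Real.log_exp, ← hD] at h1
  have h4 : Real.exp (-(10 * s) + 8 * s) ≤ 1 / s := by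
    rw [show -(10 * s) + 8 * s = -(2 * s) by ring, Real.exp_neg, one_div]
    apply inv_anti₀ (by linarith)
    linarith [Real.add_one_le_exp (2 * s)]
  have h5 : (1 + 20 * s) / p ≤ 21 / s := by
    rw [div_le_div_iff₀ (by linarith) (by linarith), ← hss]
    nlinarith
  have h6 : 22 / s = 21 / s + 1 / s := by ring
  linarith

theorem sum_three_halves (z : ℕ) (hz : 1 ≤ z) (x : ℕ) :
    ∑ n ∈ Ioc z x, ((n : ℝ) * √(n : ℝ))⁻¹ ≤ 2 / √(z : ℝ) := by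
  have key : ∀ k : ℕ, ∑ n ∈ Ioc z (z + k), ((n : ℝ) * √(n : ℝ))⁻¹ ≤
      2 / √(z : ℝ) - 2 / √((z + k : ℕ) : ℝ) := by
    intro k
    induction k with
    | zero => simp
    | succ k ih =>
      rw [← add_assoc, Finset.sum_Ioc_succ_top (by omega)]
      set m := z + k with hm
      have hm1 : (1 : ℝ) ≤ m := by exact_mod_cast (by omega : 1 ≤ m)
      set a := √(m : ℝ) with ha
      set b := √((m + 1 : ℕ) : ℝ) with hb
      have ha0 : 0 < a := Real.sqrt_pos.mpr (by linarith)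
      have hb0 : 0 < b := Real.sqrt_pos.mpr (by positivity)
      have ha2 : a ^ 2 = m := Real.sq_sqrt (by positivity)
      have hb2 : b ^ 2 = (m : ℝ) + 1 := by
        rw [hb, Real.sq_sqrt (by positivity)]; push_cast; ring
      have hab : a ≤ b := Real.sqrt_le_sqrt (by push_cast; linarith)
      have h : (((m + 1 : ℕ) : ℝ) * b)⁻¹ ≤ 2 / a - 2 / b := by
        have e1 : ((m + 1 : ℕ) : ℝ) = b ^ 2 := by rw [hb2]; push_cast; ring
        rw [e1, div_sub_div _ _ ha0.ne' hb0.ne', inv_eq_one_div,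
          div_le_div_iff₀ (by positivity) (by positivity)]
        have e2 : (b - a) * (b + a) = 1 := by nlinarith
        have e3 : 0 ≤ b - a := by linarith
        have e4 : a * (b + a) ≤ 2 * b ^ 2 := by nlinarith
        have e5 : (b - a) * (a * (b + a)) ≤ (b - a) * (2 * b ^ 2) :=
          mul_le_mul_of_nonneg_left e4 e3
        have e6 : a ≤ (b - a) * (2 * b ^ 2) := by
          calc a = a * ((b - a) * (b + a)) := by rw [e2, mul_one]
            _ = (b - a) * (a * (b + a)) := by ring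
            _ ≤ _ := e5
        nlinarith [mul_le_mul_of_nonneg_right e6 hb0.le]
      linarith
  rcases le_total x z with h | h
  · rw [Finset.Ioc_eq_empty (by omega), sum_empty]
    positivity
  · obtain ⟨k, rfl⟩ := Nat.exists_eq_add_of_le h
    have := key k
    have h2 : 0 ≤ 2 / √((z + k : ℕ) : ℝ) := by positivity
    linarith

theorem card_mult (x m : ℕ) : (((Ioc 0 x).filter (m ∣ ·)).card : ℝ) ≤ x * (m : ℝ)⁻¹ := by
  rw [Nat.Ioc_filter_dvd_card_eq_div, ← div_eq_mul_inv]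
  exact Nat.cast_div_le

open Classical in
theorem bad_two (y x : ℕ) (K : ℝ) (hK : 0 < K) :
    (((Ioc 0 x).filter fun N => ∃ d ∈ y.smoothNumbers, K < d ∧ d ∣ N).card : ℝ) ≤
      x * ((√K)⁻¹ * Real.exp (8 * √(y : ℝ))) := by
  set T := (Ioc 0 x).filter fun d : ℕ => d ∈ y.smoothNumbers ∧ K < d with hT
  have h1 : ((Ioc 0 x).filter fun N => ∃ d ∈ y.smoothNumbers, K < d ∧ d ∣ N) ⊆
      T.biUnion fun d => (Ioc 0 x).filter (d ∣ ·) := by
    intro N hN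
    obtain ⟨hN1, d, hd, hKd, hdN⟩ := mem_filter.mp hN
    have hN2 := mem_Ioc.mp hN1
    refine mem_biUnion.mpr ⟨d, mem_filter.mpr ⟨mem_Ioc.mpr ⟨Nat.pos_of_ne_zero hd.1,
      (Nat.le_of_dvd hN2.1 hdN).trans hN2.2⟩, hd, hKd⟩, mem_filter.mpr ⟨hN1, hdN⟩⟩
  have h2 := (Finset.card_le_card h1).trans Finset.card_biUnion_le
  calc _ ≤ ((∑ d ∈ T, ((Ioc 0 x).filter (d ∣ ·)).card : ℕ) : ℝ) := by exact_mod_cast h2
    _ = ∑ d ∈ T, (((Ioc 0 x).filter (d ∣ ·)).card : ℝ) := by push_cast; rfl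
    _ ≤ ∑ d ∈ T, x * (d : ℝ)⁻¹ := Finset.sum_le_sum fun d _ => card_mult x d
    _ = x * ∑ d ∈ T, (d : ℝ)⁻¹ := by rw [Finset.mul_sum]
    _ ≤ _ := mul_le_mul_of_nonneg_left (tail y K hK T fun d hd => (mem_filter.mp hd).2)
        (by positivity)

open Classical in
theorem bad_one (z x : ℕ) (hz : 1 ≤ z) :
    (((Ioc 0 x).filter fun N => ∃ p d : ℕ, p.Prime ∧ z < p ∧ 1 < d ∧ d ≡ 1 [MOD p] ∧
      d ∈ p.smoothNumbers ∧ p * d ∣ N).card : ℝ) ≤ x * (44 / √(z : ℝ)) := by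
  set T : ℕ → Finset ℕ := fun p =>
    (Ioc 0 x).filter fun d : ℕ => 1 < d ∧ d ≡ 1 [MOD p] ∧ d ∈ p.smoothNumbers with hT
  have h1 : ((Ioc 0 x).filter fun N => ∃ p d : ℕ, p.Prime ∧ z < p ∧ 1 < d ∧ d ≡ 1 [MOD p] ∧
      d ∈ p.smoothNumbers ∧ p * d ∣ N) ⊆
      (Ioc z x).biUnion fun p => (T p).biUnion fun d => (Ioc 0 x).filter (p * d ∣ ·) := by
    intro N hN
    obtain ⟨hN1, p, d, hp, hzp, hd1, hd2, hd3, hdN⟩ := mem_filter.mp hN
    have hN2 := mem_Ioc.mp hN1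
    have hpx : p ≤ x := (Nat.le_of_dvd hN2.1 (Dvd.dvd.trans (Dvd.intro _ rfl) hdN)).trans hN2.2
    have hdx : d ≤ x :=
      (Nat.le_of_dvd hN2.1 (Dvd.dvd.trans (Dvd.intro_left _ rfl) hdN)).trans hN2.2
    exact mem_biUnion.mpr ⟨p, mem_Ioc.mpr ⟨hzp, hpx⟩, mem_biUnion.mpr ⟨d,
      mem_filter.mpr ⟨mem_Ioc.mpr ⟨by omega, hdx⟩, hd1, hd2, hd3⟩, mem_filter.mpr ⟨hN1, hdN⟩⟩⟩
  have h2 := (Finset.card_le_card h1).trans (Finset.card_biUnion_le.trans
    (Finset.sum_le_sum fun p _ => Finset.card_biUnion_le))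
  calc _ ≤ ((∑ p ∈ Ioc z x, ∑ d ∈ T p, ((Ioc 0 x).filter (p * d ∣ ·)).card : ℕ) : ℝ) := by
        exact_mod_cast h2
    _ = ∑ p ∈ Ioc z x, ∑ d ∈ T p, (((Ioc 0 x).filter (p * d ∣ ·)).card : ℝ) := by
        push_cast; rfl
    _ ≤ ∑ p ∈ Ioc z x, x * (22 * ((p : ℝ) * √(p : ℝ))⁻¹) := by
        refine Finset.sum_le_sum fun p hp => ?_
        have hp2 : 2 ≤ p := by have := (mem_Ioc.mp hp).1; omega
        have hp0 : (0 : ℝ) < p := by exact_mod_cast (by omega : 0 < p)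
        have h3 := prog p hp2 (T p) fun d hd => (mem_filter.mp hd).2
        calc _ ≤ ∑ d ∈ T p, x * ((p * d : ℕ) : ℝ)⁻¹ :=
              Finset.sum_le_sum fun d _ => card_mult x (p * d)
          _ = x * (p : ℝ)⁻¹ * ∑ d ∈ T p, (d : ℝ)⁻¹ := by
              rw [Finset.mul_sum]
              refine Finset.sum_congr rfl fun d _ => ?_
              push_cast
              rw [mul_inv, mul_assoc]
          _ ≤ x * (p : ℝ)⁻¹ * (22 / √(p : ℝ)) := mul_le_mul_of_nonneg_left h3 (by positivity)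
          _ = _ := by rw [mul_inv]; ring
    _ = x * (22 * ∑ p ∈ Ioc z x, ((p : ℝ) * √(p : ℝ))⁻¹) := by
        rw [← Finset.mul_sum, ← Finset.mul_sum]
    _ ≤ x * (22 * (2 / √(z : ℝ))) := by
        gcongr
        exact sum_three_halves z hz x
    _ = _ := by ring

end Pool.Agent.Work.MP_5dd17b_co.Aao
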