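import Mathlib

set_option autoImplicit false

namespace Pool.Agent.Work.MP_5dd17b_co.Aao

/-- Sylow tower above `z`: if no `p * d` with `p > z` prime and `1 < d ≡ 1 mod p`, `d` a product
of primes below `p`, divides the order, then there is a solvable subgroup whose order has only
prime factors above `z` and whose index has only prime factors at most `z`. -/
theorem exists_solvable (z : ℕ) : ∀ (N : ℕ) (G : Type) [Group G] [Finite G], Nat.card G = N →
    (∀ p d : ℕ, p.Prime → z < p → 1 < d → d ≡ 1 [MOD p] → d ∈ p.smoothNumbers → ¬ p * d ∣ N) →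
    ∃ P : Subgroup G, Group.IsSolvable P ∧ (∀ q : ℕ, q.Prime → q ∣ Nat.card P → z < q) ∧
      P.index ∈ (z + 1).smoothNumbers := by
  intro N
  induction N using Nat.strong_induction_on with
  | _ N ih =>
  intro G _ _ hN hyp
  have hN0 : N ≠ 0 := hN ▸ Nat.card_pos.ne'
  by_cases hall : ∀ q : ℕ, q.Prime → q ∣ N → q < z + 1
  · refine ⟨⊥, inferInstance, ?_, ?_⟩
    · intro q hq hd
      rw [Subgroup.card_bot] at hd
      exact absurd (Nat.dvd_one.mp hd) hq.ne_one
    · rw [Subgroup.index_bot, hN]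
      exact Nat.mem_smoothNumbers'.mpr hall
  · push Not at hall
    obtain ⟨q₀, hq₀, hq₀N, hq₀z⟩ := hall
    have hne : N.primeFactors.Nonempty := ⟨q₀, Nat.mem_primeFactors.mpr ⟨hq₀, hq₀N, hN0⟩⟩
    set p := N.primeFactors.max' hne with hp
    have hpmem : p ∈ N.primeFactors := Finset.max'_mem _ _
    have hpp : p.Prime := Nat.prime_of_mem_primeFactors hpmem
    have hpN : p ∣ N := Nat.dvd_of_mem_primeFactors hpmem
    have hmax : ∀ q : ℕ, q.Prime → q ∣ N → q ≤ p := fun q hq hqN =>
      Finset.le_max' _ _ (Nat.mem_primeFactors.mpr ⟨hq, hqN, hN0⟩)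
    have hzp : z < p := lt_of_lt_of_le (by omega) (hmax q₀ hq₀ hq₀N)
    have : Fact p.Prime := ⟨hpp⟩
    obtain ⟨Q⟩ : Nonempty (Sylow p G) := inferInstance
    have hQN : Nat.card Q * (Q : Subgroup G).index = N := by
      rw [Subgroup.card_mul_index, hN]
    have hpQ : p ∣ Nat.card Q := Q.dvd_card_of_dvd_card (hN ▸ hpN)
    have hidx : (Q : Subgroup G).index ∈ p.smoothNumbers := by
      refine Nat.mem_smoothNumbers'.mpr fun q hq hqd => ?_
      have h1 : q ≤ p := hmax q hq (hQN ▸ Dvd.dvd.mul_left hqd _)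
      rcases h1.lt_or_eq with h | h
      · exact h
      · exact absurd (h ▸ hqd) Q.not_dvd_index
    have hone : Nat.card (Sylow p G) = 1 := by
      by_contra h1
      have hpos : 0 < Nat.card (Sylow p G) := Nat.card_pos
      refine hyp p (Nat.card (Sylow p G)) hpp hzp (by omega) (card_sylow_modEq_one p G)
        (Nat.mem_smoothNumbers_of_dvd hidx Q.card_dvd_index) ?_
      rw [← hQN]
      exact Nat.mul_dvd_mul hpQ Q.card_dvd_index
    have : Subsingleton (Sylow p G) := (Nat.card_eq_one_iff_unique.mp hone).1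
    have hQn : (Q : Subgroup G).Normal := Q.normal_of_subsingleton
    have hcq : Nat.card (G ⧸ (Q : Subgroup G)) = (Q : Subgroup G).index := rfl
    have hlt : (Q : Subgroup G).index < N := by
      have h2 : 2 ≤ Nat.card Q := le_trans hpp.two_le (Nat.le_of_dvd Nat.card_pos hpQ)
      have h3 : 0 < (Q : Subgroup G).index := Nat.pos_of_ne_zero hidx.1
      nlinarith
    obtain ⟨P', hs, hpr, hi⟩ := ih _ hlt (G ⧸ (Q : Subgroup G)) hcq
      (fun p' d h1 h2 h3 h4 h5 h6 => hyp p' d h1 h2 h3 h4 h5 (hQN ▸ Dvd.dvd.mul_left h6 _))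
    have hsurj := QuotientGroup.mk'_surjective (Q : Subgroup G)
    have hindex : (P'.comap (QuotientGroup.mk' (Q : Subgroup G))).index = P'.index :=
      P'.index_comap_of_surjective hsurj
    have hle : (Q : Subgroup G) ≤ P'.comap (QuotientGroup.mk' (Q : Subgroup G)) := by
      intro x hx
      rw [Subgroup.mem_comap, QuotientGroup.mk'_apply, (QuotientGroup.eq_one_iff x).mpr hx]
      exact P'.one_mem
    refine ⟨P'.comap (QuotientGroup.mk' (Q : Subgroup G)), ?_, ?_, hindex ▸ hi⟩
    · have : Group.IsNilpotent (Q : Subgroup G) := Q.2.isNilpotent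
      have := hs
      refine Group.isSolvable_of_ker_le_range (Subgroup.inclusion hle)
        ((QuotientGroup.mk' (Q : Subgroup G)).subgroupComap P') ?_
      intro x hx
      have hx' : ((x : G) : G ⧸ (Q : Subgroup G)) = 1 := by
        have := congrArg Subtype.val (MonoidHom.mem_ker.mp hx)
        simpa using this
      exact ⟨⟨x, (QuotientGroup.eq_one_iff _).mp hx'⟩, Subtype.ext rfl⟩
    · intro q hq hqd
      have h1 : Nat.card (P'.comap (QuotientGroup.mk' (Q : Subgroup G))) * P'.index = N := by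
        rw [← hindex, Subgroup.card_mul_index, hN]
      have h2 : Nat.card P' * P'.index = (Q : Subgroup G).index := by
        rw [Subgroup.card_mul_index, hcq]
      have h3 : Nat.card (P'.comap (QuotientGroup.mk' (Q : Subgroup G))) =
          Nat.card Q * Nat.card P' := by
        have h4 : 0 < P'.index := Nat.pos_of_ne_zero hi.1
        apply Nat.eq_of_mul_eq_mul_right h4
        rw [h1, mul_assoc, h2, hQN]
      rw [h3] at hqd
      rcases (Nat.Prime.dvd_mul hq).mp hqd with h | h
      · obtain ⟨n, hn⟩ := IsPGroup.iff_card.mp Q.2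
        rw [hn] at h
        have := (Nat.prime_dvd_prime_iff_eq hq hpp).mp (hq.dvd_of_dvd_pow h)
        omega
      · exact hpr q hq h

/-- In a subgroup of odd order squaring is injective. -/
theorem card_sqrt_le {G : Type} [Group G] [Finite G] (P : Subgroup G)
    (h : ∀ q : ℕ, q.Prime → q ∣ Nat.card P → 3 < q) (y : G) :
    Nat.card {x : G // x ∈ P ∧ x ^ 2 = y} ≤ 1 := by
  have hodd : Odd (Nat.card P) := by
    rcases Nat.even_or_odd (Nat.card P) with he | ho
    · exact absurd (h 2 Nat.prime_two he.two_dvd) (by norm_num)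
    · exact ho
  obtain ⟨k, hk⟩ := hodd
  have key : ∀ x ∈ P, x = (x ^ 2) ^ (k + 1) := by
    intro x hx
    have h1 : (⟨x, hx⟩ : P) ^ Nat.card P = 1 := pow_card_eq_one'
    have h2 : x ^ Nat.card P = 1 := congrArg Subtype.val h1
    rw [← pow_mul, show 2 * (k + 1) = Nat.card P + 1 by omega, pow_succ, h2, one_mul]
  have : Subsingleton {x : G // x ∈ P ∧ x ^ 2 = y} := ⟨fun a b => Subtype.ext (by
    rw [key a.1 a.2.1, key b.1 b.2.1, a.2.2, b.2.2])⟩
  exact Finite.card_le_one_iff_subsingleton.mpr inferInstance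

/-- A subgroup of exponent dividing 6 of a group of order coprime to 6 is trivial. -/
theorem card_exp_six_le {G : Type} [Group G] [Finite G] (P : Subgroup G)
    (h : ∀ q : ℕ, q.Prime → q ∣ Nat.card P → 3 < q) (H : Subgroup G) (hH : H ≤ P)
    (h6 : ∀ x ∈ H, x ^ (2 ^ 3 - 2) = 1) : Nat.card H ≤ 1 := by
  have hcop : Nat.Coprime 6 (Nat.card P) := by
    apply Nat.coprime_of_dvd
    intro q hq hq6 hqP
    have h1 := h q hq hqP
    have h2 : q ∣ 2 * 3 := hq6
    rcases (Nat.Prime.dvd_mul hq).mp h2 with h3 | h3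
    · have := Nat.le_of_dvd (by norm_num) h3
      omega
    · have := Nat.le_of_dvd (by norm_num) h3
      omega
  have hbot : H = ⊥ := by
    rw [Subgroup.eq_bot_iff_forall]
    intro x hx
    have h1 : (⟨x, hH hx⟩ : P) ^ Nat.card P = 1 := pow_card_eq_one'
    have h2 : x ^ Nat.card P = 1 := congrArg Subtype.val h1
    have h3 : x ^ 6 = 1 := h6 x hx
    have h4 : orderOf x ∣ Nat.gcd 6 (Nat.card P) :=
      Nat.dvd_gcd (orderOf_dvd_of_pow_eq_one h3) (orderOf_dvd_of_pow_eq_one h2)
    rw [hcop] at h4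
    exact orderOf_eq_one_iff.mp (Nat.dvd_one.mp h4)
  rw [hbot, Subgroup.card_bot]

end Pool.Agent.Work.MP_5dd17b_co.Aao
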