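import Pool.Agent.Work.MP_5dd17b_co.SolMain
import Pool.Agent.Work.MP_5dd17b_co.AaoGroup
import Pool.Agent.Work.MP_5dd17b_co.AaoCount

set_option autoImplicit false

namespace Pool.Agent.Work.MP_5dd17b_co.Aao

open Finset

theorem est_two (L : ℝ) (hL : 128 ≤ L) :
    (√(√(Real.exp L / 2)))⁻¹ * Real.exp (8 * √(((⌊L / 64⌋₊ ^ 2 + 1 : ℕ)) : ℝ)) ≤
      8 * Real.exp 9 / L := by
  set j := ⌊L / 64⌋₊ with hj
  have hj1 : (j : ℝ) ≤ L / 64 := Nat.floor_le (by linarith)
  have hj0 : (0 : ℝ) ≤ j := by positivity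
  have h1 : √(((j ^ 2 + 1 : ℕ)) : ℝ) ≤ L / 64 + 1 := by
    apply Real.sqrt_le_iff.mpr ⟨by linarith, ?_⟩
    push_cast
    nlinarith
  have h2 : Real.exp ((L - 1) / 4) ≤ √(√(Real.exp L / 2)) := by
    apply Real.le_sqrt_of_sq_le
    apply Real.le_sqrt_of_sq_le
    rw [← pow_mul, ← Real.exp_nat_mul]
    have e1 : ((2 * 2 : ℕ) : ℝ) * ((L - 1) / 4) = L - 1 := by push_cast; ring
    rw [e1, Real.exp_sub]
    apply div_le_div_of_nonneg_left (Real.exp_pos _).le (by norm_num)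
    linarith [Real.add_one_le_exp (1 : ℝ)]
  have h3 : (√(√(Real.exp L / 2)))⁻¹ ≤ Real.exp (-((L - 1) / 4)) := by
    rw [Real.exp_neg]
    exact inv_anti₀ (Real.exp_pos _) h2
  have h4 : Real.exp (8 * √(((j ^ 2 + 1 : ℕ)) : ℝ)) ≤ Real.exp (L / 8 + 8) :=
    Real.exp_le_exp.mpr (by linarith)
  have h5 : Real.exp (-(L / 8)) ≤ 8 / L := by
    rw [Real.exp_neg, show 8 / L = (L / 8)⁻¹ by rw [inv_div]]
    apply inv_anti₀ (by linarith)
    linarith [Real.add_one_le_exp (L / 8)]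
  calc _ ≤ Real.exp (-((L - 1) / 4)) * Real.exp (L / 8 + 8) :=
        mul_le_mul h3 h4 (Real.exp_pos _).le (Real.exp_pos _).le
    _ = Real.exp (-((L - 1) / 4) + (L / 8 + 8)) := (Real.exp_add _ _).symm
    _ ≤ Real.exp (9 + -(L / 8)) := Real.exp_le_exp.mpr (by linarith)
    _ = Real.exp 9 * Real.exp (-(L / 8)) := Real.exp_add _ _
    _ ≤ Real.exp 9 * (8 / L) := mul_le_mul_of_nonneg_left h5 (Real.exp_pos _).le
    _ = _ := by ring

theorem est_one (L : ℝ) (hL : 128 ≤ L) :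
    44 / √(((⌊L / 64⌋₊ ^ 2 : ℕ)) : ℝ) ≤ 5632 / L := by
  set j := ⌊L / 64⌋₊ with hj
  have hj1 : L / 64 < j + 1 := Nat.lt_floor_add_one _
  have h1 : √(((j ^ 2 : ℕ)) : ℝ) = j := by
    push_cast
    exact Real.sqrt_sq (by positivity)
  rw [h1, div_le_div_iff₀ (by linarith) (by linarith)]
  linarith

theorem est_zero (x : ℝ) (hx : 3 ≤ x) : 0 < Real.log (Real.log x) ∧
    √x ≤ 2 * x / Real.log (Real.log x) := by
  have h1 : 1 < Real.log x := by
    rw [Real.lt_log_iff_exp_lt (by linarith)]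
    linarith [Real.exp_one_lt_d9]
  have h2 : 0 < Real.log (Real.log x) := Real.log_pos h1
  refine ⟨h2, ?_⟩
  have hs : 0 < √x := Real.sqrt_pos.mpr (by linarith)
  have h3 : Real.log (Real.log x) ≤ Real.log x := by
    linarith [Real.log_le_sub_one_of_pos (by linarith : 0 < Real.log x)]
  have h4 : Real.log x ≤ 2 * √x := by
    have e := Real.log_sqrt (by linarith : 0 ≤ x)
    linarith [Real.log_le_sub_one_of_pos hs]
  have h5 : √x * √x = x := Real.mul_self_sqrt (by linarith)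
  rw [le_div_iff₀ h2]
  nlinarith

theorem almost_all_orders :
    ∃ C D : ℝ, ∀ x : ℕ, 3 ≤ x →
      (Set.ncard {N : ℕ | 2 ≤ N ∧ N ≤ x ∧
        ¬ ∀ (G : Type) [Group G] [Fintype G], Fintype.card G = N →
          ∃ S : Set G, 1 ∉ S ∧ (∀ g, g⁻¹ ∈ S ↔ g ∈ S) ∧ ∀ s : Finset G,
            ((SimpleGraph.fromRel (fun a b : G => a⁻¹ * b ∈ S)).IsClique (s : Set G) ∨
              (SimpleGraph.fromRel (fun a b : G => a⁻¹ * b ∈ S))ᶜ.IsClique (s : Set G)) →
            (s.card : ℝ) ≤ C * Real.log (Fintype.card G)} : ℝ)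
        ≤ D * x / Real.log (Real.log x) := by
  classical
  obtain ⟨C, hC⟩ := solvable_groups 2 1 1 (1 / 2) le_rfl (by norm_num)
  refine ⟨C, 5634 + 8 * Real.exp 9, fun x hx => ?_⟩
  have hx3 : (3 : ℝ) ≤ x := by exact_mod_cast hx
  obtain ⟨hL0, hL1⟩ := est_zero x hx3
  set L := Real.log (Real.log x) with hLdef
  have he : 0 < Real.exp 9 := Real.exp_pos _
  set Bad : Set ℕ := {N : ℕ | 2 ≤ N ∧ N ≤ x ∧
        ¬ ∀ (G : Type) [Group G] [Fintype G], Fintype.card G = N →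
          ∃ S : Set G, 1 ∉ S ∧ (∀ g, g⁻¹ ∈ S ↔ g ∈ S) ∧ ∀ s : Finset G,
            ((SimpleGraph.fromRel (fun a b : G => a⁻¹ * b ∈ S)).IsClique (s : Set G) ∨
              (SimpleGraph.fromRel (fun a b : G => a⁻¹ * b ∈ S))ᶜ.IsClique (s : Set G)) →
            (s.card : ℝ) ≤ C * Real.log (Fintype.card G)} with hBad
  rcases lt_or_ge L 128 with hL | hL
  · have h1 : Bad ⊆ ((Ioc 0 x : Finset ℕ) : Set ℕ) := by
      intro N hN
      exact Finset.mem_coe.mpr (mem_Ioc.mpr ⟨by have := hN.1; omega, hN.2.1⟩)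
    have h2 := Set.ncard_le_ncard h1 (Finset.finite_toSet _)
    rw [Set.ncard_coe_finset, Nat.card_Ioc, Nat.sub_zero] at h2
    have h3 : (Bad.ncard : ℝ) ≤ x := by exact_mod_cast h2
    refine h3.trans ?_
    rw [le_div_iff₀ hL0]
    nlinarith
  · set j := ⌊L / 64⌋₊ with hj
    have hj2 : 2 ≤ j := Nat.le_floor (by push_cast; linarith)
    have hz3 : 3 ≤ j ^ 2 := by nlinarith
    have hlogx : 0 < Real.log x := Real.log_pos (by linarith)
    have hexp : Real.exp L = Real.log x := Real.exp_log hlogx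
    set K := √(Real.exp L / 2) with hK
    have hK0 : 0 < K := Real.sqrt_pos.mpr (by positivity)
    set B0 : Finset ℕ := Ioc 0 ⌊√(x : ℝ)⌋₊ with hB0
    set B1 : Finset ℕ := (Ioc 0 x).filter fun N => ∃ p d : ℕ, p.Prime ∧ j ^ 2 < p ∧ 1 < d ∧
      d ≡ 1 [MOD p] ∧ d ∈ p.smoothNumbers ∧ p * d ∣ N with hB1
    set B2 : Finset ℕ := (Ioc 0 x).filter fun N => ∃ d : ℕ, d ∈ (j ^ 2 + 1).smoothNumbers ∧
      K < d ∧ d ∣ N with hB2
    have h1 : Bad ⊆ ((B0 ∪ B1 ∪ B2 : Finset ℕ) : Set ℕ) := by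
      intro N hN
      obtain ⟨hN2, hNx, hNG⟩ := hN
      by_contra hcon
      apply hNG
      intro G _ _ hG
      have hNI : N ∈ Ioc 0 x := mem_Ioc.mpr ⟨by omega, hNx⟩
      rw [Finset.mem_coe, mem_union, mem_union, not_or, not_or] at hcon
      obtain ⟨⟨n0, n1⟩, n2⟩ := hcon
      have hcard : Nat.card G = N := by rw [Nat.card_eq_fintype_card, hG]
      obtain ⟨P, hs, hpr, hi⟩ := exists_solvable (j ^ 2) N G hcard
        (fun p d a1 a2 a3 a4 a5 a6 => n1 (mem_filter.mpr ⟨hNI, p, d, a1, a2, a3, a4, a5, a6⟩))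
      have hpr3 : ∀ q : ℕ, q.Prime → q ∣ Nat.card P → 3 < q := fun q a1 a2 =>
        lt_of_le_of_lt hz3 (hpr q a1 a2)
      have hnt : Nontrivial G := Fintype.one_lt_card_iff_nontrivial.mp (by omega)
      refine hC G P hnt hs (card_sqrt_le P hpr3)
        (fun H hH _ h6 => card_exp_six_le P hpr3 H hH h6) ?_
      have hiK : (P.index : ℝ) ≤ K := by
        by_contra h
        exact n2 (mem_filter.mpr ⟨hNI, P.index, hi, not_le.mp h, hcard ▸ P.index_dvd_card⟩)
      refine hiK.trans ?_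
      have hsN : √(x : ℝ) < N := by
        by_contra h
        exact n0 (mem_Ioc.mpr ⟨by omega, Nat.le_floor (not_lt.mp h)⟩)
      have hs0 : 0 < √(x : ℝ) := Real.sqrt_pos.mpr (by linarith)
      have hlog : Real.log x / 2 ≤ Real.log N := by
        rw [← Real.log_sqrt (by linarith)]
        exact Real.log_le_log hs0 hsN.le
      rw [hG, hK, hexp, show (1 : ℝ) - 1 / 2 = 1 / 2 by norm_num, ← Real.sqrt_eq_rpow]
      exact Real.sqrt_le_sqrt hlog
    have h2 := Set.ncard_le_ncard h1 (Finset.finite_toSet _)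
    rw [Set.ncard_coe_finset] at h2
    have h3 : Bad.ncard ≤ B0.card + B1.card + B2.card :=
      h2.trans ((Finset.card_union_le _ _).trans
        (Nat.add_le_add_right (Finset.card_union_le _ _) _))
    have h4 : (Bad.ncard : ℝ) ≤ B0.card + B1.card + B2.card := by exact_mod_cast h3
    have e0 : (B0.card : ℝ) ≤ 2 * x / L := by
      rw [hB0, Nat.card_Ioc, Nat.sub_zero]
      exact (Nat.floor_le (Real.sqrt_nonneg _)).trans hL1
    have e1 : (B1.card : ℝ) ≤ x * (5632 / L) :=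
      (bad_one (j ^ 2) x (by omega)).trans
        (mul_le_mul_of_nonneg_left (est_one L hL) (by positivity))
    have e2 : (B2.card : ℝ) ≤ x * (8 * Real.exp 9 / L) :=
      (bad_two (j ^ 2 + 1) x K hK0).trans
        (mul_le_mul_of_nonneg_left (est_two L hL) (by positivity))
    have e3 : (5634 + 8 * Real.exp 9) * x / L =
        2 * x / L + x * (5632 / L) + x * (8 * Real.exp 9 / L) := by ring
    linarith

end Pool.Agent.Work.MP_5dd17b_co.Aao
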