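import Pool.Agent.Work.MP_5dd17b_co.AaoMain

set_option autoImplicit false

theorem Pool.Agent.Work.MP_5dd17b_co.AlmostAllOrdersParked.result :
    ∃ C D : ℝ, ∀ x : ℕ, 3 ≤ x →
      (Set.ncard {N : ℕ | 2 ≤ N ∧ N ≤ x ∧
        ¬ ∀ (G : Type) [Group G] [Fintype G], Fintype.card G = N →
          ∃ S : Set G, 1 ∉ S ∧ (∀ g, g⁻¹ ∈ S ↔ g ∈ S) ∧ ∀ s : Finset G,
            ((SimpleGraph.fromRel (fun a b : G => a⁻¹ * b ∈ S)).IsClique (s : Set G) ∨
              (SimpleGraph.fromRel (fun a b : G => a⁻¹ * b ∈ S))ᶜ.IsClique (s : Set G)) →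
            (s.card : ℝ) ≤ C * Real.log (Fintype.card G)} : ℝ)
        ≤ D * x / Real.log (Real.log x) :=
  Pool.Agent.Work.MP_5dd17b_co.Aao.almost_all_orders
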