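import Mathlib

-- merged part: Pool.Agent.Work.MP_5dd17b_co.Colour
section
-- merged part: Pool.Agent.Work.MP_5dd17b_co.Stage
section
/-!
Greedy selection lemmas for subsets of a group with a small quotient set.
-/

set_option autoImplicit false

namespace Pool.Agent.Work.MP_5dd17b_co

open Finset
open scoped Pointwise

lemma greedy {S : Type} (valid : ℕ → S → Prop) (fin : S → Prop) (Φ : S → ℝ) (g M : ℝ) (n : ℕ)
    (s0 : S) (h0 : valid 0 s0) (hΦ0 : 0 ≤ Φ s0) (hb : ∀ i s, valid i s → Φ s ≤ M)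
    (hstep : ∀ i ≤ n, ∀ s, valid i s → ¬ fin s → ∃ s', valid (i + 1) s' ∧ Φ s + g ≤ Φ s')
    (hn : M < (n + 1) * g) : ∃ i ≤ n, ∃ s, valid i s ∧ fin s := by
  by_contra hc
  push Not at hc
  have key : ∀ i ≤ n + 1, ∃ s, valid i s ∧ i * g ≤ Φ s := by
    intro i
    induction i with
    | zero => exact fun _ => ⟨s0, h0, by simpa using hΦ0⟩
    | succ j ih =>
      intro hj
      obtain ⟨s, hs, hΦ⟩ := ih (by omega)
      obtain ⟨s', hs', hΦ'⟩ := hstep j (by omega) s hs (hc j (by omega) s hs)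
      exact ⟨s', hs', by push_cast; linarith only [hΦ, hΦ']⟩
  obtain ⟨s, hs, hΦ⟩ := key (n + 1) le_rfl
  have := hb _ s hs
  push_cast at hΦ
  linarith

/-- growth of a truncated potential -/
lemma pot_step {α : Type} (Y U : Finset α) (hU : U ⊆ Y) (a a' w : α → ℝ) (cap : ℝ)
    (h1 : ∀ v ∈ Y, a v ≤ a' v) (h2 : ∀ v ∈ U, a v + w v ≤ a' v ∧ a v + w v ≤ cap ∧ 0 ≤ w v) :
    ∑ v ∈ Y, min (a v) cap + ∑ v ∈ U, w v ≤ ∑ v ∈ Y, min (a' v) cap := by
  classical
  rw [← sum_sdiff hU, ← sum_sdiff hU (f := fun v => min (a' v) cap), add_assoc, ← sum_add_distrib]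
  refine add_le_add (sum_le_sum fun v hv => min_le_min (h1 v (mem_sdiff.mp hv).1) le_rfl)
    (sum_le_sum fun v hv => ?_)
  obtain ⟨b1, b2, b3⟩ := h2 v hv
  have := min_le_left (a v) cap
  exact le_min (by linarith) (by linarith)

variable {G : Type} [Group G] [DecidableEq G]

/-- the indicator function -/
noncomputable def io (A : Finset G) (x : G) : ℝ := if x ∈ A then 1 else 0

omit [Group G] in
lemma io_nonneg (A : Finset G) (x : G) : 0 ≤ io A x := by unfold io; split_ifs <;> norm_num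

omit [Group G] in
lemma io_le (A : Finset G) (x : G) : io A x ≤ 1 := by unfold io; split_ifs <;> norm_num

lemma sum_io {A : Finset G} {t : G} (ht : t ∈ A) (φ : G → ℝ) :
    ∑ d ∈ A⁻¹ * A, io A (t * d) * φ d = ∑ y ∈ A, φ (t⁻¹ * y) := by
  have h1 : ∑ d ∈ A⁻¹ * A, io A (t * d) * φ d = ∑ d ∈ (A⁻¹ * A).filter (fun d => t * d ∈ A), φ d := by
    rw [sum_filter]
    refine sum_congr rfl fun d _ => ?_
    unfold io
    split_ifs <;> simp
  rw [h1]
  refine sum_bij' (fun d _ => t * d) (fun y _ => t⁻¹ * y) ?_ ?_ ?_ ?_ ?_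
  · exact fun d hd => (mem_filter.mp hd).2
  · intro y hy
    exact mem_filter.mpr ⟨mul_mem_mul (inv_mem_inv ht) hy, by simpa using hy⟩
  · intro d _; simp
  · intro y _; simp
  · intro d _; simp

/-- the number of common differences -/
noncomputable def hh (A : Finset G) (t t' : G) : ℝ := ∑ d ∈ A⁻¹ * A, io A (t * d) * io A (t' * d)

lemma hh_nonneg (A : Finset G) (t t' : G) : 0 ≤ hh A t t' :=
  sum_nonneg fun _ _ => mul_nonneg (io_nonneg _ _) (io_nonneg _ _)

lemma hh_le {A : Finset G} {t : G} (ht : t ∈ A) (t' : G) : hh A t t' ≤ #A := by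
  rw [hh, sum_io ht (fun d => io A (t' * d))]
  exact (sum_le_sum fun y _ => io_le _ _).trans (by simp)

/-- correlation of two blocks -/
noncomputable def aa (A T B : Finset G) : ℝ := ∑ t ∈ T, ∑ t' ∈ B, hh A t t'

lemma aa_nonneg (A T B : Finset G) : 0 ≤ aa A T B :=
  sum_nonneg fun _ _ => sum_nonneg fun _ _ => hh_nonneg _ _ _

lemma exists_center (A U : Finset G) (B : G → Finset G) (K σ : ℕ) (hK : 0 < K)
    (hA : A.Nonempty) (hD : #(A⁻¹ * A) ≤ K * #A) (hU : U.Nonempty)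
    (hB : ∀ v ∈ U, B v ⊆ A ∧ #(B v) = σ) :
    ∃ z ∈ U, (#U : ℝ) * σ ^ 2 * #A / K ≤ ∑ v ∈ U, aa A (B z) (B v) := by
  obtain ⟨n, hn⟩ : ∃ n : G → ℝ, ∀ d, n d = ∑ v ∈ U, ∑ t ∈ B v, io A (t * d) := ⟨_, fun _ => rfl⟩
  have h1 : ∑ d ∈ A⁻¹ * A, n d = #U * σ * #A := by
    simp only [hn]
    rw [sum_comm]
    have : ∀ v ∈ U, ∑ d ∈ A⁻¹ * A, ∑ t ∈ B v, io A (t * d) = σ * #A := by
      intro v hv
      rw [sum_comm]
      have : ∀ t ∈ B v, ∑ d ∈ A⁻¹ * A, io A (t * d) = #A := fun t ht => by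
        simpa using sum_io ((hB v hv).1 ht) fun _ => 1
      rw [sum_congr rfl this, sum_const, (hB v hv).2, nsmul_eq_mul]
    rw [sum_congr rfl this, sum_const, nsmul_eq_mul, mul_assoc]
  have h2 : ∑ z ∈ U, ∑ v ∈ U, aa A (B z) (B v) = ∑ d ∈ A⁻¹ * A, n d ^ 2 := by
    simp only [hn, sq, sum_mul_sum, aa, hh]
    rw [sum_comm (s := A⁻¹ * A)]
    refine sum_congr rfl fun z _ => ?_
    rw [sum_comm (s := A⁻¹ * A)]
    refine sum_congr rfl fun v _ => ?_
    rw [sum_comm (s := A⁻¹ * A)]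
    refine sum_congr rfl fun t _ => ?_
    rw [sum_comm (s := A⁻¹ * A)]
  have h3 := sq_sum_le_card_mul_sum_sq (s := A⁻¹ * A) (f := n)
  rw [h1, ← h2] at h3
  refine exists_le_of_sum_le hU ?_
  rw [sum_const, nsmul_eq_mul]
  have hk : (0 : ℝ) < #A := by exact_mod_cast hA.card_pos
  have hK' : (0 : ℝ) < K := by exact_mod_cast hK
  have hD' : (#(A⁻¹ * A) : ℝ) ≤ K * #A := by exact_mod_cast hD
  have h4 : 0 ≤ ∑ z ∈ U, ∑ v ∈ U, aa A (B z) (B v) :=
    sum_nonneg fun _ _ => sum_nonneg fun _ _ => aa_nonneg _ _ _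
  have h5 := h3.trans (mul_le_mul_of_nonneg_right hD' h4)
  rw [← mul_div_assoc, div_le_iff₀ hK']
  refine le_of_mul_le_mul_right ?_ hk
  linarith only [h5]

theorem stageA (A Y : Finset G) (B : G → Finset G) (K σ q : ℕ) (hK : 0 < K) (hσ : 0 < σ)
    (hq : 0 < q) (hA : A.Nonempty) (hD : #(A⁻¹ * A) ≤ K * #A) (hY : Y ⊆ A)
    (hB : ∀ v ∈ Y, B v ⊆ A ∧ #(B v) = σ) :
    ∃ Z T : Finset G, Z ⊆ Y ∧ #Z ≤ 2 * q * K ∧ (∀ t ∈ T, ∃ z ∈ Z, t ∈ B z) ∧
      #T ≤ 2 * q * K * σ ∧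
      q * #(Y.filter fun v => aa A T (B v) < σ ^ 2 * #A ∧ Disjoint (B v) T) < #A := by
  have hk : (0 : ℝ) < #A := by exact_mod_cast hA.card_pos
  have hK' : (0 : ℝ) < K := by exact_mod_cast hK
  have hq' : (0 : ℝ) < q := by exact_mod_cast hq
  have hσ' : (0 : ℝ) < σ := by exact_mod_cast hσ
  obtain ⟨i, hi, s, hs, hf⟩ := greedy (S := Finset G × Finset G)
    (fun i s => s.1 ⊆ Y ∧ #s.1 ≤ i ∧ (∀ t ∈ s.2, ∃ z ∈ s.1, t ∈ B z) ∧ #s.2 ≤ i * σ)
    (fun s => q * #(Y.filter fun v => aa A s.2 (B v) < σ ^ 2 * #A ∧ Disjoint (B v) s.2) < #A)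
    (fun s => ∑ v ∈ Y, min (aa A s.2 (B v)) (2 * (σ ^ 2 * #A)))
    (σ ^ 2 * (#A : ℝ) ^ 2 / (q * K)) (2 * (σ ^ 2 * (#A : ℝ) ^ 2)) (2 * q * K) (∅, ∅)
    (by simp) (sum_nonneg fun v _ => le_min (aa_nonneg _ _ _) (by positivity))
    (by
      intro i s _
      refine (sum_le_sum fun v _ => min_le_right _ _).trans ?_
      rw [sum_const, nsmul_eq_mul]
      have : (#Y : ℝ) ≤ #A := by exact_mod_cast card_le_card hY
      linarith only [this, hσ', hk, mul_pos (pow_pos hσ' 2) hk, mul_nonneg_of_nonpos_of_nonpos (Mathlib.Tactic.Linarith.sub_nonpos_of_le this) (le_of_lt (Mathlib.Tactic.Linarith.sub_neg_of_lt (mul_pos (pow_pos hσ' (2 : ℕ)) hk)))])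
    (by
      rintro i - ⟨Z, T⟩ ⟨h1, h2, h3, h4⟩ hf
      obtain ⟨U, hU⟩ : ∃ U, U = Y.filter fun v => aa A T (B v) < σ ^ 2 * #A ∧
        Disjoint (B v) T := ⟨_, rfl⟩
      simp only [← hU, not_lt] at hf
      have hUY : U ⊆ Y := hU ▸ filter_subset _ _
      have hUn : U.Nonempty := by
        rw [← card_pos]
        by_contra h
        have : #U = 0 := by omega
        rw [this] at hf
        have := hA.card_pos
        omega
      obtain ⟨z, hz, hz2⟩ := exists_center A U B K σ hK hA hD hUn fun v hv => hB v (hUY hv)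
      have hz3 := (mem_filter.mp (hU ▸ hz)).2.2
      refine ⟨(insert z Z, T ∪ B z), ⟨insert_subset (hUY hz) h1, (card_insert_le _ _).trans
        (by simpa using h2), ?_, (card_union_le _ _).trans ?_⟩, ?_⟩
      · intro t ht
        rcases mem_union.mp ht with ht | ht
        · obtain ⟨z', a, b⟩ := h3 t ht
          exact ⟨z', mem_insert_of_mem a, b⟩
        · exact ⟨z, mem_insert_self _ _, ht⟩
      · rw [(hB z (hUY hz)).2, add_mul, one_mul]
        exact Nat.add_le_add_right h4 _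
      · have e : ∀ v, aa A (T ∪ B z) (B v) = aa A T (B v) + aa A (B z) (B v) := fun v => by
          simp only [aa]
          rw [sum_union hz3.symm]
        refine le_trans ?_ (pot_step Y U hUY (fun v => aa A T (B v)) _
          (fun v => aa A (B z) (B v)) _ (fun v _ => ?_) fun v hv => ⟨(e v).ge, ?_, aa_nonneg _ _ _⟩)
        · refine add_le_add le_rfl (le_trans ?_ hz2)
          have : (#A : ℝ) ≤ q * #U := by exact_mod_cast hf
          rw [div_le_div_iff₀ (by positivity) hK']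
          have h5 : 0 ≤ (σ : ℝ) ^ 2 * #A * K := by positivity
          linarith only [this, h5, mul_nonneg_of_nonpos_of_nonpos (Mathlib.Tactic.Linarith.sub_nonpos_of_le this) (Mathlib.Tactic.Linarith.sub_nonpos_of_le h5)]
        · simp only [e]
          linarith only [aa_nonneg A (B z) (B v)]
        · have h5 := (mem_filter.mp (hU ▸ hv)).2.1
          have h6 : aa A (B z) (B v) ≤ σ ^ 2 * #A := by
            refine (sum_le_sum fun t ht => sum_le_sum fun t' _ =>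
              hh_le ((hB z (hUY hz)).1 ht) t').trans (le_of_eq ?_)
            simp only [sum_const, nsmul_eq_mul, (hB z (hUY hz)).2, (hB v (hUY hv)).2]
            ring
          linarith only [h5, h6])
    (by
      push_cast
      rw [← mul_div_assoc, lt_div_iff₀ (by positivity)]
      linarith only [hσ', hk, mul_pos (pow_pos hσ' 2) (pow_pos hk 2)])
  exact ⟨s.1, s.2, hs.1, hs.2.1.trans hi, hs.2.2.1,
    hs.2.2.2.trans (Nat.mul_le_mul_right _ hi), hf⟩

/-- total degree of a block with respect to a set of differences -/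
noncomputable def gg (A E B : Finset G) : ℝ := ∑ t' ∈ B, ∑ d ∈ E, io A (t' * d)

lemma gg_nonneg (A E B : Finset G) : 0 ≤ gg A E B :=
  sum_nonneg fun _ _ => sum_nonneg fun _ _ => io_nonneg _ _

theorem stageB (A Y T : Finset G) (B : G → Finset G) (K σ σ' q j : ℕ) (hσ : 0 < σ)
    (hq : 0 < q) (hA : A.Nonempty) (hY : Y ⊆ A) (hT : T ⊆ A) (hTc : #T ≤ j * σ)
    (hB : ∀ v ∈ Y, #(B v) = σ ∧ (σ : ℝ) ^ 2 * #A ≤ aa A T (B v))
    (h1 : σ' ≤ K * σ) (h2 : 2 * j * σ' ≤ #A) :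
    ∃ F : Finset G, F ⊆ A ∧ #F ≤ 2 * q * (K + j) ∧
      q * #(Y.filter fun v => gg A (T⁻¹ * F) (B v) < σ * σ') < #A := by
  have hk : (0 : ℝ) < #A := by exact_mod_cast hA.card_pos
  have hq' : (0 : ℝ) < q := by exact_mod_cast hq
  have hσ' : (0 : ℝ) < σ := by exact_mod_cast hσ
  have hTc' : (#T : ℝ) ≤ j * σ := by exact_mod_cast hTc
  have h1' : (σ' : ℝ) ≤ K * σ := by exact_mod_cast h1
  have h2' : 2 * j * (σ' : ℝ) ≤ #A := by exact_mod_cast h2
  obtain ⟨i, hi, F, hs, hf⟩ := greedy (S := Finset G) (fun i F => F ⊆ A ∧ #F ≤ i)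
    (fun F => q * #(Y.filter fun v => gg A (T⁻¹ * F) (B v) < σ * σ') < #A)
    (fun F => ∑ v ∈ Y, min (gg A (T⁻¹ * F) (B v)) ((K + j) * σ ^ 2))
    (σ ^ 2 * (#A : ℝ) / (2 * q)) ((K + j) * σ ^ 2 * (#A : ℝ)) (2 * q * (K + j)) ∅
    (by simp) (sum_nonneg fun v _ => le_min (gg_nonneg _ _ _) (by positivity))
    (by
      intro i s _
      refine (sum_le_sum fun v _ => min_le_right _ _).trans ?_
      rw [sum_const, nsmul_eq_mul, mul_comm]
      have : (#Y : ℝ) ≤ #A := by exact_mod_cast card_le_card hY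
      gcongr)
    (by
      rintro i - F ⟨h3, h4⟩ hf
      obtain ⟨E, hE⟩ : ∃ E, E = T⁻¹ * F := ⟨_, rfl⟩
      obtain ⟨U, hU⟩ : ∃ U, U = Y.filter fun v => gg A E (B v) < σ * σ' := ⟨_, rfl⟩
      simp only [← hE, ← hU, not_lt] at hf ⊢
      have hUY : U ⊆ Y := hU ▸ filter_subset _ _
      obtain ⟨inc, hinc⟩ : ∃ inc : G → G → ℝ, ∀ y v, inc y v = ∑ t' ∈ B v, ∑ t ∈ T,
        (if t⁻¹ * y ∈ E then 0 else io A (t' * (t⁻¹ * y))) := ⟨_, fun _ _ => rfl⟩
      have i0 : ∀ (t' d : G), 0 ≤ (if d ∈ E then 0 else io A (t' * d)) := fun t' d => by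
        split_ifs
        · exact le_rfl
        · exact io_nonneg _ _
      have i1 : ∀ (t' d : G), (if d ∈ E then 0 else io A (t' * d)) ≤ 1 := fun t' d => by
        split_ifs
        · exact zero_le_one
        · exact io_le _ _
      have a1 : ∀ v ∈ U, (σ : ℝ) ^ 2 * #A / 2 ≤ ∑ y ∈ A, inc y v := by
        clear * - G U A E B σ σ' Y hU T hB hUY inc hinc hT j hTc' hσ h2' hσ'
        intro v hv
        have b1 := (mem_filter.mp (hU ▸ hv)).2
        have b2 := (hB v (hUY hv)).2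
        have b3 : aa A T (B v) - #T * gg A E (B v) ≤ ∑ y ∈ A, inc y v := by
          clear * - G A T B v E inc hinc hT
          simp only [hinc]
          rw [sum_comm, aa, sum_comm, gg, mul_sum, ← sum_sub_distrib]
          refine sum_le_sum fun t' _ => ?_
          rw [sum_comm, ← nsmul_eq_mul, ← sum_const, ← sum_sub_distrib]
          refine sum_le_sum fun t ht => ?_
          rw [← sum_io (hT ht) fun d => if d ∈ E then 0 else io A (t' * d), hh, sub_le_iff_le_add]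
          have c1 : ∑ d ∈ A⁻¹ * A, (if d ∈ E then io A (t' * d) else 0) ≤
              ∑ d ∈ E, io A (t' * d) := by
            rw [← sum_filter]
            exact sum_le_sum_of_subset_of_nonneg (fun d hd => (mem_filter.mp hd).2)
              fun _ _ _ => io_nonneg _ _
          refine le_trans ?_ (add_le_add le_rfl c1)
          rw [← sum_add_distrib]
          refine sum_le_sum fun d _ => ?_
          have := io_le A (t * d)
          have := io_nonneg A (t' * d)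
          split_ifs <;> nlinarith
        have b4 : #T * gg A E (B v) ≤ (j * σ) * (σ * σ') :=
          mul_le_mul hTc' b1.le (gg_nonneg _ _ _) (by positivity)
        linarith only [b2, b3, b4, h2', pow_pos hσ' 2, mul_nonneg_of_nonpos_of_nonpos (Mathlib.Tactic.Linarith.sub_nonpos_of_le (sq_nonneg ↑σ)) (Mathlib.Tactic.Linarith.sub_nonpos_of_le h2')]
      obtain ⟨y, hy, hy2⟩ : ∃ y ∈ A, (#U : ℝ) * σ ^ 2 / 2 ≤ ∑ v ∈ U, inc y v := by
        refine exists_le_of_sum_le hA ?_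
        rw [sum_comm, sum_const, nsmul_eq_mul]
        refine le_trans (le_of_eq ?_) (sum_le_sum a1)
        rw [sum_const, nsmul_eq_mul]
        ring
      have hsub : E ⊆ T⁻¹ * insert y F := hE ▸ mul_subset_mul_left (subset_insert _ _)
      have e : ∀ v, gg A E (B v) + inc y v ≤ gg A (T⁻¹ * insert y F) (B v) := by
        intro v
        rw [hinc, gg, gg, ← sum_add_distrib]
        refine sum_le_sum fun t' _ => ?_
        rw [← sum_sdiff hsub, add_comm]
        refine add_le_add ?_ le_rfl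
        rw [← sum_image (s := T) (g := fun t => t⁻¹ * y)
          (f := fun d => if d ∈ E then 0 else io A (t' * d))
          (fun a _ b _ h => by simpa using h)]
        have c1 : ∀ S : Finset G, ∑ d ∈ S, (if d ∈ E then 0 else io A (t' * d))
            = ∑ d ∈ S \ E, io A (t' * d) := fun S => by
          rw [sdiff_eq_filter, sum_filter]
          refine sum_congr rfl fun d _ => ?_
          split_ifs <;> rfl
        rw [c1]
        refine sum_le_sum_of_subset_of_nonneg (sdiff_subset_sdiff ?_ subset_rfl)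
          fun _ _ _ => io_nonneg _ _
        intro d hd
        obtain ⟨t, ht, rfl⟩ := mem_image.mp hd
        exact mul_mem_mul (inv_mem_inv ht) (mem_insert_self _ _)
      have e0 : ∀ v, 0 ≤ inc y v := fun v => by
        rw [hinc]
        exact sum_nonneg fun _ _ => sum_nonneg fun _ _ => i0 _ _
      refine ⟨insert y F, ⟨insert_subset hy h3, (card_insert_le _ _).trans (by simpa using h4)⟩,
        le_trans ?_ (pot_step Y U hUY (fun v => gg A E (B v)) _ (inc y) _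
          (fun v _ => by linarith only [e, e0, e v, e0 v]) fun v hv => ⟨e v, ?_, e0 v⟩)⟩
      · refine add_le_add le_rfl (le_trans ?_ hy2)
        have : (#A : ℝ) ≤ q * #U := by exact_mod_cast hf
        rw [div_le_div_iff₀ (by positivity) (by norm_num)]
        linarith only [this, pow_pos hσ' 2, mul_nonneg_of_nonpos_of_nonpos (Mathlib.Tactic.Linarith.sub_nonpos_of_le (sq_nonneg ↑σ)) (Mathlib.Tactic.Linarith.sub_nonpos_of_le this)]
      · have b1 := (mem_filter.mp (hU ▸ hv)).2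
        have b2 : inc y v ≤ σ * #T := by
          rw [hinc]
          refine (sum_le_sum fun t' _ => sum_le_sum fun t _ => i1 _ _).trans (le_of_eq ?_)
          simp [(hB v (hUY hv)).1]
        linarith only [b1, b2, hTc', h1', mul_nonneg_of_nonpos_of_nonpos (Mathlib.Tactic.Linarith.sub_nonpos_of_le (Mathlib.Tactic.Linarith.natCast_nonneg ℝ σ)) (Mathlib.Tactic.Linarith.sub_nonpos_of_le hTc'), mul_nonneg_of_nonpos_of_nonpos (Mathlib.Tactic.Linarith.sub_nonpos_of_le (Mathlib.Tactic.Linarith.natCast_nonneg ℝ σ)) (Mathlib.Tactic.Linarith.sub_nonpos_of_le h1')])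
    (by
      push_cast
      rw [← mul_div_assoc, lt_div_iff₀ (by positivity)]
      linarith only [hσ', hk, mul_pos (pow_pos hσ' 2) hk])
  exact ⟨F, hs.1, hs.2.trans hi, hf⟩

end Pool.Agent.Work.MP_5dd17b_co
end

-- merged part: Pool.Agent.Work.MP_5dd17b_co.Gen
section
/-!
A set with small quotient set is generated by few elements through short words.
-/

set_option autoImplicit false

namespace Pool.Agent.Work.MP_5dd17b_co

open Finset
open scoped Pointwise

variable {G : Type} [Group G] [DecidableEq G]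

/-- the words of length at most `L` -/
def wd (Γ : Finset G) (L : ℕ) : Finset G := (insert 1 (Γ ∪ Γ⁻¹)) ^ L

lemma wd_mul {Γ : Finset G} {L L' : ℕ} {x y : G} (hx : x ∈ wd Γ L) (hy : y ∈ wd Γ L') :
    x * y ∈ wd Γ (L + L') := by
  rw [wd, pow_add]
  exact mul_mem_mul hx hy

lemma wd_inv {Γ : Finset G} {L : ℕ} {x : G} (hx : x ∈ wd Γ L) : x⁻¹ ∈ wd Γ L := by
  have : (insert 1 (Γ ∪ Γ⁻¹) : Finset G)⁻¹ = insert 1 (Γ ∪ Γ⁻¹) := by
    ext z
    simp only [mem_inv', mem_insert, mem_union, inv_inv, inv_eq_one]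
    tauto
  rw [wd, ← this, inv_pow]
  exact inv_mem_inv hx

lemma wd_mono {Γ Γ' : Finset G} {L L' : ℕ} (h : Γ ⊆ Γ') (hL : L ≤ L') : wd Γ L ⊆ wd Γ' L' :=
  pow_subset_pow (insert_subset_insert _ (union_subset_union h (inv_subset_inv h)))
    (mem_insert_self _ _) hL

lemma wd_of_mem {Γ : Finset G} {x : G} (hx : x ∈ Γ) : x ∈ wd Γ 1 := by
  simp [wd, hx]

lemma one_mem_wd (Γ : Finset G) (L : ℕ) : (1 : G) ∈ wd Γ L := one_mem_pow (mem_insert_self _ _)

lemma card_wd (Γ : Finset G) (L : ℕ) : #(wd Γ L) ≤ (2 * #Γ + 1) ^ L := by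
  refine card_pow_le.trans (Nat.pow_le_pow_left ((card_insert_le _ _).trans ?_) _)
  have := card_union_le Γ Γ⁻¹
  rw [card_inv] at this
  omega

/-- neighbourhood through short words -/
def nb (A Γ : Finset G) (L : ℕ) (v : G) : Finset G := A.filter fun u => v⁻¹ * u ∈ wd Γ L

lemma exists_blocks (A Γ Y : Finset G) (L σ : ℕ) (hY : ∀ v ∈ Y, σ ≤ #(nb A Γ L v)) :
    ∃ B : G → Finset G, ∀ v ∈ Y, (B v ⊆ A ∧ #(B v) = σ) ∧ ∀ u ∈ B v, v⁻¹ * u ∈ wd Γ L := by
  have : ∀ v, ∃ B : Finset G, v ∈ Y → (B ⊆ A ∧ #B = σ) ∧ ∀ u ∈ B, v⁻¹ * u ∈ wd Γ L := by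
    intro v
    by_cases hv : v ∈ Y
    · obtain ⟨B, h1, h2⟩ := exists_subset_card_eq (hY v hv)
      exact ⟨B, fun _ => ⟨⟨h1.trans (filter_subset _ _), h2⟩, fun u hu => (mem_filter.mp (h1 hu)).2⟩⟩
    · exact ⟨∅, fun h => absurd h hv⟩
  choose B hB using this
  exact ⟨B, hB⟩

lemma adj_known {Γ Γ' : Finset G} {L : ℕ} {v z t : G} (h : Γ ⊆ Γ') (hz : z ∈ Γ')
    (h1 : z⁻¹ * t ∈ wd Γ L) (h2 : v⁻¹ * t ∈ wd Γ L) : v ∈ wd Γ' (2 * L + 1) := by
  have := wd_mul (wd_mul (wd_of_mem hz) (wd_mono h le_rfl h1)) (wd_inv (wd_mono h le_rfl h2))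
  have e : z * (z⁻¹ * t) * (v⁻¹ * t)⁻¹ = v := by group
  rw [e] at this
  exact wd_mono subset_rfl (by omega) this

theorem phase (A Y Γ : Finset G) (K L σ σ' q : ℕ) (hK : 0 < K) (hσ : 0 < σ) (hq : 0 < q)
    (hA : A.Nonempty) (hD : #(A⁻¹ * A) ≤ K * #A) (hY : Y ⊆ A) (hΓ : Γ ⊆ A)
    (hdeg : ∀ v ∈ Y, σ ≤ #(nb A Γ L v)) (h1 : σ' ≤ K * σ) (h2 : 2 * (2 * q * K) * σ' ≤ #A) :
    ∃ Γ' : Finset G, Γ ⊆ Γ' ∧ Γ' ⊆ A ∧ #Γ' ≤ #Γ + 8 * q ^ 2 * K ∧
      (#A ≤ q * #(A ∩ wd Γ' (2 * L + 1)) ∨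
        ∃ Y' ⊆ Y, q * #Y ≤ q * #Y' + 3 * #A ∧ ∀ v ∈ Y', σ' ≤ #(nb A Γ' (2 * L + 2) v)) := by
  obtain ⟨B, hB⟩ := exists_blocks A Γ Y L σ hdeg
  obtain ⟨Z, T, z1, z2, z3, z4, z5⟩ := stageA A Y B K σ q hK hσ hq hA hD hY fun v hv => (hB v hv).1
  have hT : T ⊆ A := fun t ht => by
    obtain ⟨z, a, b⟩ := z3 t ht
    exact (hB z (z1 a)).1.1 b
  obtain ⟨Y1, hY1⟩ : ∃ Y1, Y1 = Y.filter fun v => (σ : ℝ) ^ 2 * #A ≤ aa A T (B v) := ⟨_, rfl⟩
  have hY1Y : Y1 ⊆ Y := hY1 ▸ filter_subset _ _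
  obtain ⟨F, f1, f2, f3⟩ := stageB A Y1 T B K σ σ' q (2 * q * K) hσ hq hA (hY1Y.trans hY) hT z4
    (fun v hv => ⟨(hB v (hY1Y hv)).1.2, by rw [hY1] at hv; exact (mem_filter.mp hv).2⟩) h1 h2
  have s1 : Γ ⊆ Γ ∪ (Z ∪ F) := subset_union_left
  have s2 : Z ⊆ Γ ∪ (Z ∪ F) := subset_union_left.trans subset_union_right
  have s3 : F ⊆ Γ ∪ (Z ∪ F) := subset_union_right.trans subset_union_right
  refine ⟨Γ ∪ (Z ∪ F), s1, union_subset hΓ (union_subset (z1.trans hY) f1), ?_, ?_⟩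
  · refine (card_union_le _ _).trans (Nat.add_le_add_left ((card_union_le _ _).trans ?_) _)
    have : q * K ≤ q ^ 2 * K := Nat.mul_le_mul_right _ (by nlinarith only [hq])
    linarith only [z2, f2, this]
  by_cases hc : #A ≤ q * #(A ∩ wd (Γ ∪ (Z ∪ F)) (2 * L + 1))
  · exact Or.inl hc
  refine Or.inr ⟨Y1.filter fun v => ¬ gg A (T⁻¹ * F) (B v) < σ * σ',
    (filter_subset _ _).trans hY1Y, ?_, ?_⟩
  · have c1 := card_filter_add_card_filter_not (s := Y1)
      (fun v => gg A (T⁻¹ * F) (B v) < σ * σ')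
    have c2 : Y ⊆ Y1 ∪ ((Y.filter fun v => aa A T (B v) < σ ^ 2 * #A ∧ Disjoint (B v) T) ∪
        (A ∩ wd (Γ ∪ (Z ∪ F)) (2 * L + 1))) := by
      intro v hv
      simp only [mem_union, hY1, mem_filter, mem_inter]
      by_cases h3 : (σ : ℝ) ^ 2 * #A ≤ aa A T (B v)
      · exact Or.inl ⟨hv, h3⟩
      by_cases h4 : Disjoint (B v) T
      · exact Or.inr (Or.inl ⟨hv, not_le.mp h3, h4⟩)
      obtain ⟨t, t1, t2⟩ := not_disjoint_iff.mp h4
      obtain ⟨z, a, b⟩ := z3 t t2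
      exact Or.inr (Or.inr ⟨hY hv, adj_known s1 (s2 a) ((hB z (z1 a)).2 t b) ((hB v hv).2 t t1)⟩)
    have c3 := (card_le_card c2).trans ((card_union_le _ _).trans
      (Nat.add_le_add_left (card_union_le _ _) _))
    have c4 := Nat.mul_le_mul_left q c3
    rw [← c1] at c4
    simp only [mul_add] at c4
    omega
  · intro v hv
    obtain ⟨v1, v2⟩ := mem_filter.mp hv
    have hvY := hY1Y v1
    have hne : (B v).Nonempty := by
      rw [← card_pos, (hB v hvY).1.2]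
      exact hσ
    obtain ⟨t', t1, t2⟩ : ∃ t' ∈ B v, (σ' : ℝ) ≤ ∑ d ∈ T⁻¹ * F, io A (t' * d) := by
      refine exists_le_of_sum_le hne ?_
      rw [sum_const, (hB v hvY).1.2, nsmul_eq_mul]
      exact not_lt.mp v2
    have t3 : ∑ d ∈ T⁻¹ * F, io A (t' * d) = #((T⁻¹ * F).filter fun d => t' * d ∈ A) := by
      simp [io]
    rw [t3, Nat.cast_le] at t2
    refine t2.trans (card_le_card_of_injOn (fun d => t' * d) (fun d hd => ?_)
      fun a _ b _ h => by simpa using h)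
    obtain ⟨d1, d2⟩ := mem_filter.mp (mem_coe.mp hd)
    obtain ⟨t, ht, y, hy, rfl⟩ := mem_mul.mp d1
    obtain ⟨z, a, b⟩ := z3 _ (mem_inv'.mp ht)
    refine mem_coe.mpr (mem_filter.mpr ⟨d2, ?_⟩)
    have := wd_mul (wd_mul (wd_mono s1 le_rfl ((hB v hvY).2 t' t1))
      (wd_inv (wd_mul (wd_of_mem (s2 a)) (wd_mono s1 le_rfl ((hB z (z1 a)).2 _ b)))))
      (wd_of_mem (s3 hy))
    have e : v⁻¹ * t' * (z * (z⁻¹ * t⁻¹))⁻¹ * y = v⁻¹ * (t' * (t * y)) := by group
    rw [e] at this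
    exact wd_mono subset_rfl (by omega) this

lemma cover (A Y Γ : Finset G) (L s n : ℕ) (hY : Y ⊆ A)
    (hdeg : ∀ v ∈ Y, s ≤ #(nb A Γ L v)) (hn : #A < (n + 1) * s) :
    ∃ Z ⊆ A, #Z ≤ n ∧ Y ⊆ wd (Γ ∪ Z) (2 * L + 1) := by
  obtain ⟨B, hB⟩ := exists_blocks A Γ Y L s hdeg
  obtain ⟨i, hi, p, hp, hf⟩ := greedy (S := Finset G × Finset G)
    (fun i p => p.1 ⊆ Y ∧ #p.1 ≤ i ∧ (∀ t ∈ p.2, ∃ z ∈ p.1, t ∈ B z) ∧ p.2 ⊆ A)
    (fun p => ∀ v ∈ Y, ¬ Disjoint (B v) p.2) (fun p => #p.2) s (#A) n (∅, ∅) (by simp) (by simp)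
    (fun i p hp => by exact_mod_cast card_le_card hp.2.2.2)
    (by
      rintro i - ⟨Z, T⟩ ⟨h1, h2, h3, h4⟩ hf
      push Not at hf
      obtain ⟨z, hz, hz3⟩ := hf
      refine ⟨(insert z Z, T ∪ B z), ⟨insert_subset hz h1, (card_insert_le _ _).trans
        (by simpa using h2), ?_, union_subset h4 (hB z hz).1.1⟩, ?_⟩
      · intro t ht
        rcases mem_union.mp ht with ht | ht
        · obtain ⟨z', a, b⟩ := h3 t ht
          exact ⟨z', mem_insert_of_mem a, b⟩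
        · exact ⟨z, mem_insert_self _ _, ht⟩
      · simp only [card_union_of_disjoint hz3.symm, (hB z hz).1.2]
        push_cast
        exact le_rfl)
    (by exact_mod_cast hn)
  refine ⟨p.1, hp.1.trans hY, hp.2.1.trans hi, fun v hv => ?_⟩
  obtain ⟨t, t1, t2⟩ := not_disjoint_iff.mp (hf v hv)
  obtain ⟨z, a, b⟩ := hp.2.2.1 t t2
  exact adj_known subset_union_left (subset_union_right a) ((hB z (hp.1 a)).2 t b)
    ((hB v hv).2 t t1)

lemma finish (A Γ : Finset G) (K L q : ℕ) (hA : A.Nonempty) (hD : #(A⁻¹ * A) ≤ K * #A)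
    (hΓ : Γ ⊆ A) (h : #A ≤ q * #(A ∩ wd Γ L)) :
    ∃ Γ' ⊆ A, #Γ' ≤ #Γ + q * K ∧ A ⊆ wd Γ' (2 * L + 1) := by
  have hne : (A ∩ wd Γ L).Nonempty := by
    rw [← card_pos]
    have := hA.card_pos
    by_contra hc
    have h0 : #(A ∩ wd Γ L) = 0 := by omega
    rw [h0] at h
    omega
  obtain ⟨F, f1, f2, f3⟩ := ruzsa_covering_mul (A := A⁻¹) (K := (q * K : ℕ)) hne (by
    have a1 : #(A⁻¹ * (A ∩ wd Γ L)) ≤ K * #A :=
      (card_le_card (mul_subset_mul_left inter_subset_left)).trans hD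
    have a2 : #(A⁻¹ * (A ∩ wd Γ L)) ≤ q * K * #(A ∩ wd Γ L) :=
      a1.trans ((Nat.mul_le_mul_left K h).trans (le_of_eq (by ring)))
    exact_mod_cast a2)
  refine ⟨Γ ∪ F⁻¹, union_subset hΓ (by simpa using inv_subset_inv f1), ?_, fun a ha => ?_⟩
  · refine (card_union_le _ _).trans (Nat.add_le_add_left ?_ _)
    rw [card_inv]
    exact_mod_cast f2
  · obtain ⟨x, hx, y, hy, e⟩ := mem_mul.mp (f3 (inv_mem_inv ha))
    obtain ⟨b, hb, c, hc, rfl⟩ := mem_div.mp hy
    have s1 : Γ ⊆ Γ ∪ F⁻¹ := subset_union_left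
    have := wd_mul (wd_mul (wd_mono s1 le_rfl (mem_inter.mp hc).2)
      (wd_inv (wd_mono s1 le_rfl (mem_inter.mp hb).2)))
      (wd_of_mem (subset_union_right (inv_mem_inv hx) : x⁻¹ ∈ Γ ∪ F⁻¹))
    have e2 : c * b⁻¹ * x⁻¹ = a := by
      rw [← inv_inv a, ← e, div_eq_mul_inv]
      group
    rw [e2] at this
    exact wd_mono subset_rfl (by omega) this

theorem few_gens (P : ℕ) (hP : 0 < P) (A : Finset G) (K : ℕ) (hA : A.Nonempty)
    (hD : #(A⁻¹ * A) ≤ K * #A) (hK : #A ≤ K ^ P) :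
    ∃ Γ ⊆ A, #Γ ≤ 400 * P ^ 3 * K ∧ A ⊆ wd Γ (4 ^ (P + 2)) := by
  have hk := hA.card_pos
  have hK0 : 0 < K := by
    by_contra h
    have : K = 0 := by omega
    subst this
    rw [zero_pow hP.ne'] at hK
    omega
  have hPP : P ≤ P ^ 3 := Nat.le_self_pow (by norm_num) P
  obtain ⟨q, hq⟩ : ∃ q, q = 6 * P := ⟨_, rfl⟩
  have hq0 : 0 < q := by omega
  obtain ⟨j, hj⟩ : ∃ j, j = 2 * (2 * q * K) := ⟨_, rfl⟩
  have hj0 : 0 < j := by rw [hj]; positivity
  have hjP : j = 24 * (P * K) := by rw [hj, hq]; ring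
  have hPK : P * K ≤ P ^ 3 * K := Nat.mul_le_mul_right _ hPP
  by_cases hs : #A < j
  · refine ⟨A, subset_rfl, by linarith only [hk, hjP, hPK, hs], fun a ha => wd_mono subset_rfl ?_ (wd_of_mem ha)⟩
    exact Nat.one_le_pow _ _ (by norm_num)
  obtain ⟨s, hs'⟩ : ∃ s, s = #A / j := ⟨_, rfl⟩
  have hs0 : 0 < s := hs' ▸ Nat.div_pos (by omega) hj0
  have hs1 : j * s ≤ #A := hs' ▸ Nat.mul_div_le _ _
  have hs2 : #A < (2 * j + 1) * s := by
    have := Nat.lt_mul_div_succ (#A) hj0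
    rw [← hs'] at this
    nlinarith only [hs0, this]
  have key : ∀ i, ∃ Γ ⊆ A, #Γ ≤ i * (8 * q ^ 2 * K) ∧ (#A ≤ q * #(A ∩ wd Γ (4 ^ i)) ∨
      ∃ Y ⊆ A, q * #A ≤ q * #Y + 3 * i * #A ∧ ∀ v ∈ Y, min (K ^ i) s ≤ #(nb A Γ (4 ^ i) v)) := by
    intro i
    induction i with
    | zero =>
      refine ⟨∅, empty_subset _, by simp, Or.inr ⟨A, subset_rfl, by simp, fun v hv => ?_⟩⟩
      refine (min_le_left _ _).trans (card_pos.mpr ⟨v, mem_filter.mpr ⟨hv, ?_⟩⟩)
      rw [inv_mul_cancel]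
      exact one_mem_wd _ _
    | succ i ih =>
      obtain ⟨Γ, g1, g2, g3⟩ := ih
      have p4 : 2 * 4 ^ i + 2 ≤ 4 ^ (i + 1) := by
        have := Nat.one_le_pow i 4 (by norm_num)
        rw [pow_succ]
        omega
      rcases g3 with g3 | ⟨Y, y1, y2, y3⟩
      · refine ⟨Γ, g1, g2.trans (Nat.mul_le_mul_right _ (by omega)), Or.inl (g3.trans ?_)⟩
        exact Nat.mul_le_mul_left _ (card_le_card (inter_subset_inter_left
          (wd_mono subset_rfl (by omega))))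
      · obtain ⟨Γ', a1, a2, a3, a4⟩ := phase A Y Γ K (4 ^ i) (min (K ^ i) s) (min (K ^ (i + 1)) s)
          q hK0 (lt_min (pow_pos hK0 _) hs0) hq0 hA hD y1 g1 y3
          (by
            rcases le_total (K ^ i) s with h | h
            · rw [min_eq_left h, pow_succ, mul_comm]
              exact min_le_left _ _
            · rw [min_eq_right h]
              exact (min_le_right _ _).trans (Nat.le_mul_of_pos_left _ hK0))
          (hj ▸ (Nat.mul_le_mul_left j (min_le_right _ _)).trans hs1)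
        refine ⟨Γ', a2, by rw [add_mul]; omega, ?_⟩
        rcases a4 with a4 | ⟨Y', b1, b2, b3⟩
        · exact Or.inl (a4.trans (Nat.mul_le_mul_left _ (card_le_card (inter_subset_inter_left
            (wd_mono subset_rfl (by omega))))))
        · refine Or.inr ⟨Y', b1.trans y1, by rw [mul_add 3, add_mul]; omega,
            fun v hv => (b3 v hv).trans (card_le_card fun u hu => ?_)⟩
          exact mem_filter.mpr ⟨(mem_filter.mp hu).1, wd_mono subset_rfl p4 (mem_filter.mp hu).2⟩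
  obtain ⟨Γ, g1, g2, g3⟩ := key P
  have g2' : #Γ ≤ 288 * (P ^ 3 * K) := g2.trans (le_of_eq (by rw [hq]; ring))
  have p4 : 1 ≤ 4 ^ P := Nat.one_le_pow P 4 (by norm_num)
  have fin : ∀ Γ1 ⊆ A, #Γ1 ≤ 340 * (P ^ 3 * K) → #A ≤ q * #(A ∩ wd Γ1 (2 * 4 ^ P + 1)) →
      ∃ Γ ⊆ A, #Γ ≤ 400 * P ^ 3 * K ∧ A ⊆ wd Γ (4 ^ (P + 2)) := by
    intro Γ1 c1 c2 c3
    obtain ⟨Γ', d1, d2, d3⟩ := finish A Γ1 K _ q hA hD c1 c3
    refine ⟨Γ', d1, ?_, d3.trans (wd_mono subset_rfl (by rw [pow_add]; omega))⟩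
    have : q * K = 6 * (P * K) := by rw [hq]; ring
    rw [mul_assoc]
    omega
  rcases g3 with g3 | ⟨Y, y1, y2, y3⟩
  · exact fin Γ g1 (by omega) (g3.trans (Nat.mul_le_mul_left _ (card_le_card
      (inter_subset_inter_left (wd_mono subset_rfl (by omega))))))
  · have hsK : s ≤ K ^ P := le_trans (hs' ▸ Nat.div_le_self _ _) hK
    obtain ⟨Z, z1, z2, z3⟩ := cover A Y Γ (4 ^ P) s (2 * j) y1
      (fun v hv => by simpa [min_eq_right hsK] using y3 v hv) hs2
    refine fin (Γ ∪ Z) (union_subset g1 z1) ((card_union_le _ _).trans (by omega)) ?_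
    have c1 : #Y ≤ #(A ∩ wd (Γ ∪ Z) (2 * 4 ^ P + 1)) := card_le_card (subset_inter y1 z3)
    have c2 := Nat.mul_le_mul_left q c1
    have c3 : #A ≤ P * #A := Nat.le_mul_of_pos_left _ hP
    rw [hq] at y2 c2 ⊢
    linarith only [hk, y2, c2, c3]

end Pool.Agent.Work.MP_5dd17b_co
end

-- merged part: Pool.Agent.Work.MP_5dd17b_co.Union
section
/-!
The union bound for sets with large quotient set.
-/

set_option autoImplicit false

namespace Pool.Agent.Work.MP_5dd17b_co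

open Finset
open scoped Pointwise

lemma numeric (c L P f : ℕ) (hc : 0 < c) (hP : 0 < P) (hf : 0 < f) : ∃ K0 : ℕ, 1 ≤ K0 ∧
    ∀ K k n : ℕ, K0 ≤ K → 1 ≤ k → k ≤ K ^ P → 1 ≤ n → 8 * f * c * Real.log n ≤ k →
      3 * (k + 1) * (n ^ (c * K) * ((2 * (c * K) + 1) ^ L) ^ k * 2) ≤ 2 ^ ((K - 1) * k / f) := by
  obtain ⟨b, hb⟩ : ∃ b : ℝ, b = f * (L + P) := ⟨_, rfl⟩
  obtain ⟨a, ha⟩ : ∃ a : ℝ, a = f * (L * Real.log (3 * c) + Real.log 24 + 1) := ⟨_, rfl⟩
  have hf' : (0 : ℝ) < f := by exact_mod_cast hf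
  have hP' : (0 : ℝ) < P := by exact_mod_cast hP
  have hc' : (1 : ℝ) ≤ c := by exact_mod_cast hc
  have hb0 : 0 < b := by rw [hb]; positivity
  obtain ⟨K0, hK0⟩ := exists_nat_ge (4 * (a + b * Real.log (8 * b)))
  refine ⟨K0 + 1, by omega, fun K k n h1 h2 h3 h4 h5 => ?_⟩
  have hK1 : 1 ≤ K := by omega
  have hK : (1 : ℝ) ≤ K := by exact_mod_cast hK1
  have hk : (1 : ℝ) ≤ k := by exact_mod_cast h2
  have hn : (1 : ℝ) ≤ n := by exact_mod_cast h4
  have hK0' : 4 * (a + b * Real.log (8 * b)) ≤ K := hK0.trans (by exact_mod_cast (by omega))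
  have l2 := Real.log_two_gt_d9
  have l3 := Real.log_two_lt_d9
  have e1 : b * Real.log K ≤ K / 8 + b * Real.log (8 * b) := by
    have := Real.log_le_sub_one_of_pos (show 0 < K / (8 * b) by positivity)
    rw [Real.log_div (by positivity) (by positivity)] at this
    have h6 : b * (K / (8 * b)) = K / 8 := by field_simp
    linarith only [h6, hb0, l2, l3, this, mul_pos_of_neg_of_neg (Mathlib.Tactic.Linarith.sub_neg_of_lt hb0) (Mathlib.Tactic.Linarith.sub_neg_of_lt l2), mul_pos_of_neg_of_neg (Mathlib.Tactic.Linarith.sub_neg_of_lt hb0) (Mathlib.Tactic.Linarith.sub_neg_of_lt l3), mul_nonneg_of_nonpos_of_nonpos (le_of_lt (Mathlib.Tactic.Linarith.sub_neg_of_lt hb0)) (Mathlib.Tactic.Linarith.sub_nonpos_of_le this)]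
  have e2 : Real.log (2 * (c * K) + 1) ≤ Real.log (3 * c) + Real.log K := by
    rw [← Real.log_mul (by positivity) (by positivity)]
    exact Real.log_le_log (by positivity) (by linarith only [hc', hK, mul_nonneg_of_nonpos_of_nonpos (Mathlib.Tactic.Linarith.sub_nonpos_of_le (Mathlib.Tactic.Linarith.natCast_nonneg ℝ c)) (Mathlib.Tactic.Linarith.sub_nonpos_of_le hK)])
  have e3 : Real.log (3 * (k + 1) * 4) ≤ Real.log 24 + P * Real.log K := by
    rw [← Real.log_pow, ← Real.log_mul (by norm_num) (by positivity)]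
    have : (k : ℝ) ≤ K ^ P := by exact_mod_cast h3
    exact Real.log_le_log (by positivity) (by linarith only [hk, this])
  have e4 : ((K : ℝ) - 1) * k ≤ f * (((K - 1) * k / f : ℕ) + 1) := by
    have := (Nat.lt_mul_div_succ ((K - 1) * k) hf).le
    have h6 : (((K - 1) * k : ℕ) : ℝ) = ((K : ℝ) - 1) * k := by push_cast [Nat.cast_sub hK1]; ring
    rw [← h6]
    exact_mod_cast this
  obtain ⟨e, he⟩ : ∃ e, e = (K - 1) * k / f := ⟨_, rfl⟩
  rw [← he] at e4 ⊢
  have g0 : (0 : ℝ) ≤ Real.log K := Real.log_nonneg hK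
  have g1 : (0 : ℝ) ≤ Real.log 24 := Real.log_nonneg (by norm_num)
  have goal : Real.log (3 * (k + 1) * 4) + c * K * Real.log n
      + k * (L * Real.log (2 * (c * K) + 1)) ≤ (e + 1) * Real.log 2 := by
    refine le_of_mul_le_mul_left ?_ hf'
    have s1 : f * (c * K * Real.log n) ≤ K * k / 8 := by linarith only [h5, mul_nonneg_of_nonpos_of_nonpos (Mathlib.Tactic.Linarith.sub_nonpos_of_le (Mathlib.Tactic.Linarith.natCast_nonneg ℝ K)) (Mathlib.Tactic.Linarith.sub_nonpos_of_le h5)]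
    have s2 : Real.log (3 * (k + 1) * 4) ≤ k * (Real.log 24 + P * Real.log K) :=
      e3.trans (le_mul_of_one_le_left (by positivity) hk)
    have s3 : (L : ℝ) * Real.log (2 * (c * K) + 1) ≤ L * (Real.log (3 * c) + Real.log K) :=
      mul_le_mul_of_nonneg_left e2 (Nat.cast_nonneg _)
    have s4 : f * (Real.log 24 + P * Real.log K + L * (Real.log (3 * c) + Real.log K))
        = a - f + b * Real.log K := by rw [ha, hb]; ring
    have hf1 : (1 : ℝ) ≤ f := by exact_mod_cast hf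
    have s5 : a - f + b * Real.log K ≤ 3 * K / 8 - 1 := by linarith only [hK0', e1, hf1]
    calc f * (Real.log (3 * (k + 1) * 4) + c * K * Real.log n
          + k * (L * Real.log (2 * (c * K) + 1)))
        ≤ f * (k * (Real.log 24 + P * Real.log K) + c * K * Real.log n
          + k * (L * (Real.log (3 * c) + Real.log K))) := by gcongr
      _ = k * (a - f + b * Real.log K) + f * (c * K * Real.log n) := by rw [← s4]; ring
      _ ≤ k * (3 * K / 8 - 1) + K * k / 8 := by gcongr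
      _ ≤ ((K : ℝ) - 1) * k * Real.log 2 := by
        have : (0 : ℝ) ≤ (K - 1) * k := by linarith only [hK, mul_nonneg_of_nonpos_of_nonpos (Mathlib.Tactic.Linarith.sub_nonpos_of_le (Mathlib.Tactic.Linarith.natCast_nonneg ℝ k)) (Mathlib.Tactic.Linarith.sub_nonpos_of_le hK)]
        linarith only [hk, l3, this, l2, mul_pos_of_neg_of_neg (Mathlib.Tactic.Linarith.sub_neg_of_lt l2) (Mathlib.Tactic.Linarith.sub_neg_of_lt l2), mul_pos_of_neg_of_neg (Mathlib.Tactic.Linarith.sub_neg_of_lt l2) (Mathlib.Tactic.Linarith.sub_neg_of_lt l3), mul_nonneg_of_nonpos_of_nonpos (le_of_lt (Mathlib.Tactic.Linarith.sub_neg_of_lt l2)) (Mathlib.Tactic.Linarith.sub_nonpos_of_le this)]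
      _ ≤ f * ((e + 1) * Real.log 2) := by linarith only [e4, l2, mul_nonneg_of_nonpos_of_nonpos (le_of_lt (Mathlib.Tactic.Linarith.sub_neg_of_lt l2)) (Mathlib.Tactic.Linarith.sub_nonpos_of_le e4)]
  have fin : ((3 * (k + 1) * (n ^ (c * K) * ((2 * (c * K) + 1) ^ L) ^ k * 2) * 2 : ℕ) : ℝ)
      ≤ ((2 ^ e * 2 : ℕ) : ℝ) := by
    rw [← Real.log_le_log_iff (by positivity) (by positivity)]
    push_cast
    rw [← pow_succ, Real.log_pow, show (3 * ((k : ℝ) + 1) * ((n : ℝ) ^ (c * K) *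
      ((2 * ((c : ℝ) * K) + 1) ^ L) ^ k * 2) * 2) = 3 * (k + 1) * 4 * n ^ (c * K) *
      ((2 * (c * K) + 1) ^ L) ^ k by ring, Real.log_mul (by positivity) (by positivity),
      Real.log_mul (by positivity) (by positivity), Real.log_pow, Real.log_pow, Real.log_pow]
    push_cast
    exact goal
  have := Nat.cast_le.mp fin
  omega

variable {G : Type} [Group G] [DecidableEq G] [Fintype G]

/-- all quotients of distinct elements of `A` have the colour `c` -/
def Mono (π : G → G) (s : G → Bool) (ω : G → Bool) (A : Finset G) (c : Bool) : Prop :=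
  ∀ a ∈ A, ∀ b ∈ A, a ≠ b → xor (ω (π (a⁻¹ * b))) (s (a⁻¹ * b)) = c

open Classical in
lemma count_one (π : G → G) (s : G → Bool) (f : ℕ) (hf : 0 < f)
    (hπ : ∀ z, #(univ.filter fun x => π x = z) ≤ f) (A : Finset G) (c : Bool) (e : ℕ)
    (he : e < #(A⁻¹ * A)) :
    #(univ.filter fun ω => Mono π s ω A c) * 2 ^ (e / f) ≤ 2 ^ Fintype.card G := by
  obtain ⟨I, hI⟩ : ∃ I, I = ((A⁻¹ * A).erase 1).image π := ⟨_, rfl⟩
  have h1 : e / f ≤ #I := by
    have := card_le_mul_card_image (f := π) ((A⁻¹ * A).erase 1) f fun z _ =>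
      (card_le_card (filter_subset_filter _ (subset_univ _))).trans (hπ z)
    have h2 := pred_card_le_card_erase (s := A⁻¹ * A) (a := 1)
    rw [← hI] at this
    exact Nat.div_le_of_le_mul (by omega)
  rcases (univ.filter fun ω => Mono π s ω A c).eq_empty_or_nonempty with h0 | ⟨ω0, h0⟩
  · simp [h0]
  have h2 : (univ.filter fun ω => Mono π s ω A c) ⊆
      Fintype.piFinset fun g => if g ∈ I then {ω0 g} else univ := by
    intro ω hω
    rw [Fintype.mem_piFinset]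
    intro g
    split_ifs with hg
    · rw [hI] at hg
      obtain ⟨d, hd, rfl⟩ := mem_image.mp hg
      obtain ⟨d1, d2⟩ := mem_erase.mp hd
      obtain ⟨a, ha, b, hb, rfl⟩ := mem_mul.mp d2
      have hab : a⁻¹ ≠ b := fun h => d1 (by rw [← h, mul_inv_cancel])
      have a1 := (mem_filter.mp hω).2 _ (mem_inv'.mp ha) b hb hab
      have a2 := (mem_filter.mp h0).2 _ (mem_inv'.mp ha) b hb hab
      rw [inv_inv] at a1 a2
      rw [mem_singleton]
      revert a1 a2
      cases ω (π (a * b)) <;> cases ω0 (π (a * b)) <;> cases s (a * b) <;> cases c <;> simp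
    · exact mem_univ _
  have h3 : #(Fintype.piFinset fun g => if g ∈ I then ({ω0 g} : Finset Bool) else univ) * 2 ^ #I
      = 2 ^ Fintype.card G := by
    have e2 : 2 ^ #I = ∏ g : G, if g ∈ I then 2 else 1 := by
      rw [prod_ite_mem, univ_inter, prod_const]
    rw [Fintype.card_piFinset, ← card_univ, ← prod_const (s := univ), e2, ← prod_mul_distrib]
    refine prod_congr rfl fun g _ => ?_
    split_ifs <;> simp
  rw [← h3]
  exact Nat.mul_le_mul (card_le_card h2) (Nat.pow_le_pow_right (by norm_num) h1)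

/-- the quotient set is large -/
def Big (P : ℕ) (A : Finset G) : Prop := ∀ K, #(A⁻¹ * A) ≤ K * #A → #A ≤ K ^ P

open Classical in
theorem union_bound (P f : ℕ) (hP : 0 < P) (hf : 0 < f) : ∃ k0 : ℕ, 1 ≤ k0 ∧
    ∀ (G : Type) [Group G] [DecidableEq G] [Fintype G] (π : G → G) (s : G → Bool),
      (∀ z, #(univ.filter fun x => π x = z) ≤ f) → ∀ (W : Finset G) (k : ℕ), k0 ≤ k →
      8 * f * (400 * P ^ 3 : ℕ) * Real.log #W ≤ k →
      3 * #(univ.filter fun ω => ∃ A ⊆ W, #A = k ∧ Big P A ∧ ∃ c, Mono π s ω A c)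
        ≤ 2 ^ Fintype.card G := by
  obtain ⟨K0, h1, hK0⟩ := numeric (400 * P ^ 3) (4 ^ (P + 2)) P f (by positivity) hP hf
  refine ⟨K0 ^ P, Nat.one_le_pow _ _ h1, fun G _ _ _ π s hπ W k hk hW => ?_⟩
  have hk1 : 1 ≤ k := (Nat.one_le_pow _ _ h1).trans hk
  obtain ⟨c, hc⟩ : ∃ c, c = 400 * P ^ 3 := ⟨_, rfl⟩
  obtain ⟨L, hL⟩ : ∃ L, L = 4 ^ (P + 2) := ⟨_, rfl⟩
  rw [← hc] at hW hK0
  rw [← hL] at hK0
  rcases W.eq_empty_or_nonempty with rfl | hWn
  · rw [filter_eq_empty_iff.mpr]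
    · simp
    · rintro ω - ⟨A, a1, a2, -⟩
      rw [subset_empty.mp a1, card_empty] at a2
      omega
  obtain ⟨S, hS⟩ : ∃ S : ℕ → Finset (G → Bool), ∀ K, S K =
      (powersetCard (min (c * K) k) W).biUnion fun Γ =>
        ((powersetCard k (wd Γ L)).filter fun A => (K - 1) * k < #(A⁻¹ * A)).biUnion fun A =>
          univ.biUnion fun b => univ.filter fun ω => Mono π s ω A b := ⟨_, fun _ => rfl⟩
  have h2 : (univ.filter fun ω => ∃ A ⊆ W, #A = k ∧ Big P A ∧ ∃ c, Mono π s ω A c) ⊆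
      ((range (k + 1)).filter fun K => k ≤ K ^ P).biUnion S := by
    intro ω hω
    obtain ⟨A, a1, a2, a3, b, a4⟩ := (mem_filter.mp hω).2
    have hA : A.Nonempty := card_pos.mp (by omega)
    have ex : #(A⁻¹ * A) ≤ k * #A := card_mul_le.trans (by rw [card_inv, a2])
    have ex' : ∃ K, #(A⁻¹ * A) ≤ K * #A := ⟨k, ex⟩
    have b1 := Nat.find_spec ex'
    have b2 := Nat.find_min' ex' ex
    have b3 := a3 _ b1
    have b4 : 0 < Nat.find ex' := by
      by_contra h
      rw [show Nat.find ex' = 0 by omega, zero_pow hP.ne'] at b3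
      omega
    have b5 := Nat.find_min ex' (m := Nat.find ex' - 1) (by omega)
    obtain ⟨Γ, g1, g2, g3⟩ := few_gens P hP A _ hA b1 b3
    obtain ⟨Γ', u1, u2, u3⟩ := exists_subsuperset_card_eq (n := min (c * Nat.find ex') k) g1
      (le_min (hc ▸ g2) (a2 ▸ card_le_card g1)) (a2 ▸ min_le_right _ _)
    refine mem_biUnion.mpr ⟨Nat.find ex', mem_filter.mpr ⟨mem_range.mpr (by omega), a2 ▸ b3⟩, ?_⟩
    rw [hS]
    refine mem_biUnion.mpr ⟨Γ', mem_powersetCard.mpr ⟨u2.trans a1, u3⟩,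
      mem_biUnion.mpr ⟨A, mem_filter.mpr ⟨mem_powersetCard.mpr
        ⟨g3.trans (wd_mono u1 hL.ge), a2⟩, ?_⟩,
        mem_biUnion.mpr ⟨b, mem_univ _, mem_filter.mpr ⟨mem_univ _, a4⟩⟩⟩⟩
    rw [← a2]
    omega
  have h3 : ∀ K, k ≤ K ^ P → 3 * (k + 1) * #(S K) ≤ 2 ^ Fintype.card G := by
    intro K hK
    have n1 : 1 ≤ #W := hWn.card_pos
    have b1 := hK0 K k #W (le_of_not_gt fun h => by
      have := Nat.pow_lt_pow_left h hP.ne'
      omega) hk1 hK n1 hW
    obtain ⟨X, hX⟩ : ∃ X, X = 2 ^ Fintype.card G / 2 ^ ((K - 1) * k / f) := ⟨_, rfl⟩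
    have b2 : #(S K) ≤ #W ^ (c * K) * (((2 * (c * K) + 1) ^ L) ^ k * (2 * X)) := by
      rw [hS]
      refine (card_biUnion_le_card_mul _ _ _ fun Γ hΓ => ?_).trans (Nat.mul_le_mul_right _ ?_)
      · refine (card_biUnion_le_card_mul _ _ (2 * X) fun A hA => ?_).trans
          (Nat.mul_le_mul_right _ ?_)
        · refine (card_biUnion_le_card_mul _ _ X fun b _ => ?_).trans (by simp)
          rw [hX, Nat.le_div_iff_mul_le (by positivity)]
          convert count_one π s f hf hπ A b _ (mem_filter.mp hA).2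
        · refine (card_filter_le _ _).trans ?_
          rw [card_powersetCard]
          refine (Nat.choose_le_pow _ _).trans (Nat.pow_le_pow_left ((card_wd _ _).trans
            (Nat.pow_le_pow_left ?_ _)) _)
          rw [(mem_powersetCard.mp hΓ).2]
          have := min_le_left (c * K) k
          omega
      · rw [card_powersetCard]
        exact (Nat.choose_le_pow _ _).trans (Nat.pow_le_pow_right n1 (min_le_left _ _))
    calc 3 * (k + 1) * #(S K)
        ≤ 3 * (k + 1) * (#W ^ (c * K) * ((2 * (c * K) + 1) ^ L) ^ k * 2) * X :=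
          (Nat.mul_le_mul_left _ b2).trans (le_of_eq (by ring))
      _ ≤ 2 ^ ((K - 1) * k / f) * X := Nat.mul_le_mul_right _ b1
      _ ≤ _ := hX ▸ Nat.mul_div_le _ _
  refine Nat.le_of_mul_le_mul_left (c := k + 1) ?_ (by omega)
  have h4 := (card_le_card h2).trans card_biUnion_le
  calc (k + 1) * (3 * #(univ.filter fun ω => ∃ A ⊆ W, #A = k ∧ Big P A ∧ ∃ c, Mono π s ω A c))
      ≤ 3 * (k + 1) * ∑ K ∈ (range (k + 1)).filter fun K => k ≤ K ^ P, #(S K) := by
        rw [← mul_assoc, mul_comm (k + 1)]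
        exact Nat.mul_le_mul_left _ h4
    _ ≤ ∑ K ∈ (range (k + 1)).filter fun K => k ≤ K ^ P, 2 ^ Fintype.card G := by
        rw [mul_sum]
        exact sum_le_sum fun K hK => h3 K (mem_filter.mp hK).2
    _ ≤ _ := by
        rw [sum_const, smul_eq_mul]
        exact Nat.mul_le_mul_right _ ((card_filter_le _ _).trans (by simp))

end Pool.Agent.Work.MP_5dd17b_co
end

-- merged part: Pool.Agent.Work.MP_5dd17b_co.Colour
section
/-!
The correlated colouring and the sets with small quotient set.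
-/

set_option autoImplicit false

namespace Pool.Agent.Work.MP_5dd17b_co

open Finset
open scoped Pointwise

lemma quasi_kernel {α : Type} [DecidableEq α] (f : α → α) (V : Finset α) (h : ∀ v ∈ V, f v ≠ v) :
    ∃ I ⊆ V, (∀ v ∈ I, f v ∉ I) ∧ ∀ v ∈ V, v ∈ I ∨ f v ∈ I ∨ f (f v) ∈ I := by
  induction V using Finset.strongInduction with
  | H V ih =>
    rcases V.eq_empty_or_nonempty with rfl | ⟨v, hv⟩
    · exact ⟨∅, subset_rfl, by simp, by simp⟩
    obtain ⟨I, i1, i2, i3⟩ := ih (V.filter fun u => u ≠ v ∧ f u ≠ v)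
      (filter_ssubset.mpr ⟨v, hv, by simp⟩) fun u hu => h u (mem_filter.mp hu).1
    have i4 : I ⊆ V := i1.trans (filter_subset _ _)
    by_cases hf : f v ∈ I
    · refine ⟨I, i4, i2, fun u hu => ?_⟩
      by_cases h1 : u = v
      · exact Or.inr (Or.inl (h1 ▸ hf))
      by_cases h2 : f u = v
      · exact Or.inr (Or.inr (h2 ▸ hf))
      exact i3 u (mem_filter.mpr ⟨hu, h1, h2⟩)
    · refine ⟨insert v I, insert_subset hv i4, fun u hu => ?_, fun u hu => ?_⟩
      · rw [mem_insert, not_or]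
        rcases mem_insert.mp hu with rfl | hu
        · exact ⟨h u hv, hf⟩
        · exact ⟨(mem_filter.mp (i1 hu)).2.2, i2 u hu⟩
      · simp only [mem_insert]
        by_cases h1 : u = v
        · exact Or.inl (Or.inl h1)
        by_cases h2 : f u = v
        · exact Or.inr (Or.inl (Or.inl h2))
        have := i3 u (mem_filter.mpr ⟨hu, h1, h2⟩)
        tauto

variable {G : Type} [Group G] [DecidableEq G] [Fintype G]

omit [DecidableEq G] in
lemma exists_rep : ∃ ρ : G → G, (∀ x, ρ x⁻¹ = ρ x) ∧ ∀ x, ρ x = x ∨ ρ x = x⁻¹ := by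
  obtain ⟨e⟩ : Nonempty (G ≃ Fin (Fintype.card G)) := ⟨Fintype.equivFin G⟩
  refine ⟨fun x => if e x ≤ e x⁻¹ then x else x⁻¹, fun x => ?_, fun x => ?_⟩
  · simp only [inv_inv]
    split_ifs with h1 h2 h2
    · exact e.injective (le_antisymm h1 h2)
    · rfl
    · rfl
    · exact absurd (le_of_not_ge h1) h2
  · dsimp only
    split_ifs <;> simp

open Classical in
theorem exists_colour (P : Subgroup G) (hP : ∀ x ∈ P, ∀ y ∈ P, Commute x y) (l B : ℕ)
    (hl : 2 ≤ l) (hB : #(univ.filter fun x => x ∈ P ∧ x ^ l = 1) ≤ B) :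
    ∃ (π : G → G) (s : G → Bool), (∀ x, π x⁻¹ = π x) ∧ (∀ x, s x⁻¹ = s x) ∧
      (∀ z, #(univ.filter fun x => π x = z) ≤ 2 + 2 * B) ∧
      ∀ x ∈ P, x ^ (l ^ 3 - l) ≠ 1 → ∃ i ≤ 2, x ^ l ^ (i + 1) ≠ 1 ∧
        π (x ^ l ^ i) = π (x ^ l ^ (i + 1)) ∧ s (x ^ l ^ i) ≠ s (x ^ l ^ (i + 1)) := by
  obtain ⟨ρ, r1, r2⟩ := exists_rep (G := G)
  have r3 : ∀ x, ρ (ρ x ^ l) = ρ (x ^ l) := fun x => by
    rcases r2 x with h | h
    · rw [h]
    · rw [h, inv_pow, r1]
  obtain ⟨m, rfl⟩ : ∃ m, l = m + 1 := ⟨l - 1, by omega⟩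
  have e1 : (m + 1) ^ 3 - (m + 1) = m * (m + 1) * (m + 2) := by
    rw [Nat.sub_eq_iff_eq_add (Nat.le_self_pow (by norm_num) _)]
    ring
  rw [e1]
  obtain ⟨I, i1, i2, i3⟩ := quasi_kernel (fun v => ρ (v ^ (m + 1)))
    (univ.filter fun v => v ∈ P ∧ v ^ (m * (m + 1) * (m + 2)) ≠ 1) (by
      intro v hv h
      apply (mem_filter.mp hv).2.2
      rcases r2 (v ^ (m + 1)) with h1 | h1
      · have : v ^ m = 1 := by
          rw [h, pow_succ] at h1
          exact (mul_eq_right.mp h1.symm)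
        rw [mul_assoc, pow_mul, this, one_pow]
      · have : v ^ (m + 2) = 1 := by
          rw [h] at h1
          rw [pow_succ]
          exact mul_eq_one_iff_inv_eq.mpr h1.symm
        rw [mul_comm, pow_mul, this, one_pow])
  have root : ∀ y, #(univ.filter fun x => x ∈ P ∧ x ^ (m + 1) = y) ≤ B := by
    intro y
    rcases (univ.filter fun x => x ∈ P ∧ x ^ (m + 1) = y).eq_empty_or_nonempty with h | ⟨x0, h⟩
    · simp [h]
    obtain ⟨a1, a2⟩ := (mem_filter.mp h).2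
    refine le_trans (card_le_card_of_injOn (fun x => x * x0⁻¹) (fun x hx => ?_)
      fun a _ b _ h => by simpa using h) hB
    obtain ⟨b1, b2⟩ := (mem_filter.mp (mem_coe.mp hx)).2
    refine mem_coe.mpr (mem_filter.mpr ⟨mem_univ _, mul_mem b1 (inv_mem a1), ?_⟩)
    rw [(hP x b1 _ (inv_mem a1)).mul_pow, inv_pow, a2, b2, mul_inv_cancel]
  refine ⟨fun x => if ρ x ∈ I then ρ (x ^ (m + 1)) else ρ x, fun x => decide (ρ x ∈ I),
    fun x => by simp only [r1, inv_pow], fun x => by simp only [r1], fun z => ?_, ?_⟩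
  · have : (univ.filter fun x => (if ρ x ∈ I then ρ (x ^ (m + 1)) else ρ x) = z) ⊆
        {z, z⁻¹} ∪ ((univ.filter fun x => x ∈ P ∧ x ^ (m + 1) = z) ∪
          (univ.filter fun x => x ∈ P ∧ x ^ (m + 1) = z⁻¹)) := by
      intro x hx
      have h1 := (mem_filter.mp hx).2
      simp only [mem_union, mem_insert, mem_singleton, mem_filter, mem_univ, true_and]
      split_ifs at h1 with h2
      · have h3 : x ∈ P := by
          have := (mem_filter.mp (i1 h2)).2.1
          rcases r2 x with h | h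
          · exact h ▸ this
          · exact inv_mem_iff.mp (h ▸ this)
        rcases r2 (x ^ (m + 1)) with h | h
        · exact Or.inr (Or.inl ⟨h3, h ▸ h1⟩)
        · exact Or.inr (Or.inr ⟨h3, by rw [← h1, h, inv_inv]⟩)
      · rcases r2 x with h | h
        · exact Or.inl (Or.inl (h ▸ h1))
        · exact Or.inl (Or.inr (by rw [← h1, h, inv_inv]))
    have h2 := (card_le_card this).trans ((card_union_le _ _).trans
      (Nat.add_le_add card_le_two ((card_union_le _ _).trans (Nat.add_le_add (root _) (root _)))))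
    exact h2.trans (by omega)
  · intro x hx hx2
    have key : ∀ i ≤ 2, ρ (x ^ (m + 1) ^ i) ∈ I → ∃ i ≤ 2, x ^ (m + 1) ^ (i + 1) ≠ 1 ∧
        (if ρ (x ^ (m + 1) ^ i) ∈ I then ρ ((x ^ (m + 1) ^ i) ^ (m + 1)) else ρ (x ^ (m + 1) ^ i))
          = (if ρ (x ^ (m + 1) ^ (i + 1)) ∈ I then ρ ((x ^ (m + 1) ^ (i + 1)) ^ (m + 1))
            else ρ (x ^ (m + 1) ^ (i + 1))) ∧
        decide (ρ (x ^ (m + 1) ^ i) ∈ I) ≠ decide (ρ (x ^ (m + 1) ^ (i + 1)) ∈ I) := by
      intro i hi h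
      have h1 := i2 _ h
      simp only [r3] at h1
      rw [← pow_mul, ← pow_succ] at h1
      refine ⟨i, hi, fun h2 => ?_, by rw [if_pos h, if_neg h1, ← pow_mul, ← pow_succ],
        by simp [h, h1]⟩
      apply (mem_filter.mp (i1 h)).2.2
      have h3 : (x ^ (m + 1) ^ i) ^ (m * (m + 1) * (m + 2)) = 1 := by
        rw [← pow_mul, show (m + 1) ^ i * (m * (m + 1) * (m + 2))
          = (m + 1) ^ (i + 1) * (m * (m + 2)) by ring, pow_mul, h2, one_pow]
      rcases r2 (x ^ (m + 1) ^ i) with h4 | h4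
      · rw [h4, h3]
      · rw [h4, inv_pow, h3, inv_one]
    have hv : ρ x ∈ univ.filter fun v => v ∈ P ∧ v ^ (m * (m + 1) * (m + 2)) ≠ 1 := by
      rcases r2 x with h | h
      · rw [h]
        exact mem_filter.mpr ⟨mem_univ _, hx, hx2⟩
      · rw [h]
        exact mem_filter.mpr ⟨mem_univ _, inv_mem hx, by rwa [inv_pow, inv_ne_one]⟩
    rcases i3 _ hv with h | h | h
    · exact key 0 (by norm_num) (by simpa using h)
    · exact key 1 (by norm_num) (by simpa [r3] using h)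
    · exact key 2 (by norm_num) (by simpa [r3, ← pow_mul, sq] using h)

lemma plu {H : Type} [CommGroup H] [DecidableEq H] (X X' : Finset H) (K n : ℕ) (h0 : X'.Nonempty)
    (h1 : #(X' / X) ≤ K * #X') (h2 : #X' ≤ #X) : #(X / X ^ n) ≤ K ^ (n + 1) * #X := by
  have h := pluennecke_ruzsa_inequality_pow_div_pow_div h0 X 1 n
  have h3 : (#(X' / X) / #X' : ℚ≥0) ≤ K := by
    rw [div_le_iff₀ (by exact_mod_cast h0.card_pos)]
    exact_mod_cast h1
  rw [pow_one, add_comm] at h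
  have h4 : (#(X / X ^ n) : ℚ≥0) ≤ K ^ (n + 1) * #X := h.trans (by gcongr)
  exact_mod_cast h4

open Classical in
lemma comm_fibre {H : Type} [CommGroup H] [DecidableEq H] (X X' : Finset H) (K l : ℕ)
    (T : H → Prop) (h0 : X'.Nonempty) (h1 : #(X' / X) ≤ K * #X') (h2 : #X' ≤ #X)
    (hT : ∀ x, (∀ i ≤ 3, x ^ l ^ i ∈ X / X) → T x) :
    ∃ a ∈ X, #X ≤ K ^ (l + l ^ 2 + l ^ 3 + 3) * #(X.filter fun x => T (x / a)) := by
  have hX : X.Nonempty := card_pos.mp (h0.card_pos.trans_le h2)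
  obtain ⟨a, ha, hm⟩ := exists_max_image X (fun a => #(X.filter fun x => T (x / a))) hX
  refine ⟨a, ha, ?_⟩
  have h3 := card_le_mul_card_image_of_maps_to (s := X ×ˢ X ×ˢ X ×ˢ X)
    (t := (X / X ^ l) ×ˢ (X / X ^ l ^ 2) ×ˢ (X / X ^ l ^ 3))
    (f := fun p => (p.2.1 / p.1 ^ l, p.2.2.1 / p.1 ^ l ^ 2, p.2.2.2 / p.1 ^ l ^ 3))
    (by
      intro p hp
      simp only [mem_product] at hp ⊢
      exact ⟨div_mem_div hp.2.1 (pow_mem_pow hp.1), div_mem_div hp.2.2.1 (pow_mem_pow hp.1),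
        div_mem_div hp.2.2.2 (pow_mem_pow hp.1)⟩) #(X.filter fun x => T (x / a))
    (by
      intro z _
      rcases ((X ×ˢ X ×ˢ X ×ˢ X).filter fun p => (p.2.1 / p.1 ^ l, p.2.2.1 / p.1 ^ l ^ 2,
        p.2.2.2 / p.1 ^ l ^ 3) = z).eq_empty_or_nonempty with h | ⟨p0, h⟩
      · rw [h]
        simp
      obtain ⟨a1, a2⟩ := mem_filter.mp h
      simp only [mem_product] at a1
      have k : ∀ {b b' u u' : H} {n : ℕ}, b / u ^ n = b' / u' ^ n → (u / u') ^ n = b / b' := by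
        intro b b' u u' n h
        rw [div_pow, div_eq_div_iff_mul_eq_mul, mul_comm]
        exact (div_eq_div_iff_mul_eq_mul.mp h).symm
      refine le_trans (card_le_card_of_injOn (fun p => p.1) (fun p hp => ?_) ?_) (hm _ a1.1)
      · obtain ⟨b1, b2⟩ := mem_filter.mp (mem_coe.mp hp)
        simp only [mem_product] at b1
        have e := b2.trans a2.symm
        simp only [Prod.mk.injEq] at e
        refine mem_coe.mpr (mem_filter.mpr ⟨b1.1, hT _ fun i hi => ?_⟩)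
        interval_cases i
        · simpa using div_mem_div b1.1 a1.1
        · rw [pow_one, k e.1]
          exact div_mem_div b1.2.1 a1.2.1
        · rw [k e.2.1]
          exact div_mem_div b1.2.2.1 a1.2.2.1
        · rw [k e.2.2]
          exact div_mem_div b1.2.2.2 a1.2.2.2
      · rintro ⟨u, b, c, d⟩ hp ⟨u', b', c', d'⟩ hp' e
        have e2 := (mem_filter.mp (mem_coe.mp hp)).2.trans
          (mem_filter.mp (mem_coe.mp hp')).2.symm
        simp only at e
        subst e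
        simpa using e2)
  simp only [card_product] at h3
  have h4 := Nat.mul_le_mul (plu X X' K l h0 h1 h2)
    (Nat.mul_le_mul (plu X X' K (l ^ 2) h0 h1 h2) (plu X X' K (l ^ 3) h0 h1 h2))
  refine Nat.le_of_mul_le_mul_right (c := #X * (#X * #X)) (h3.trans
    ((Nat.mul_le_mul_left _ h4).trans (le_of_eq (by ring)))) ?_
  have := hX.card_pos
  positivity

open Classical in
theorem small_case (P : Subgroup G) [P.Normal] (hP : ∀ x ∈ P, ∀ y ∈ P, Commute x y) (l : ℕ)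
    (π : G → G) (s : G → Bool)
    (hπ : ∀ x ∈ P, x ^ (l ^ 3 - l) ≠ 1 → ∃ i ≤ 2, x ^ l ^ (i + 1) ≠ 1 ∧
        π (x ^ l ^ i) = π (x ^ l ^ (i + 1)) ∧ s (x ^ l ^ i) ≠ s (x ^ l ^ (i + 1)))
    (ω : G → Bool) (A : Finset G) (c : Bool) (hA : A.Nonempty) (hm : Mono π s ω A c) (K : ℕ)
    (hK : #(A⁻¹ * A) ≤ K * #A) :
    ∃ F ⊆ univ.filter fun x => x ∈ P ∧ x ^ (l ^ 3 - l) = 1, Mono π s ω F c ∧
      #A ≤ P.index * (K ^ (l + l ^ 2 + l ^ 3 + 3) * #F) := by
  let _ : CommGroup P := { (inferInstance : Group P) with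
    mul_comm := fun a b => Subtype.ext (hP a a.2 b b.2) }
  obtain ⟨q, hq⟩ : ∃ q : G → G ⧸ P, q = QuotientGroup.mk' P := ⟨_, rfl⟩
  have q1 : ∀ a b, q a = q b ↔ b * a⁻¹ ∈ P := fun a b => by
    rw [hq, eq_comm, ← mul_inv_eq_one, ← map_inv, ← map_mul, QuotientGroup.mk'_apply,
      QuotientGroup.eq_one_iff]
  obtain ⟨a1, ha1, hmax⟩ := exists_max_image A (fun a => #(A.filter fun b => q b = q a)) hA
  have c1 : #A ≤ #(A.filter fun b => q b = q a1) * P.index := by
    refine (card_le_mul_card_image (f := q) A _ fun z hz => ?_).trans (Nat.mul_le_mul_left _ ?_)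
    · obtain ⟨a, ha, rfl⟩ := mem_image.mp hz
      exact hmax a ha
    · rw [Subgroup.index, Nat.card_eq_fintype_card]
      exact card_le_univ _
  have c2 : ∀ g, #(univ.filter fun y : P => a1 * y * a1⁻¹ * g ∈ A)
      = #(A.filter fun b => q b = q g) := by
    intro g
    refine card_bij (fun y _ => a1 * y * a1⁻¹ * g) (fun y hy => mem_filter.mpr
      ⟨(mem_filter.mp hy).2, ((q1 _ _).2 ?_).symm⟩) (fun a _ b _ h => ?_) fun b hb => ?_
    · rw [mul_inv_cancel_right]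
      exact Subgroup.Normal.conj_mem inferInstance _ y.2 _
    · exact Subtype.ext (by simpa using h)
    · obtain ⟨b1, b2⟩ := mem_filter.mp hb
      refine ⟨⟨a1⁻¹ * (b * g⁻¹) * a1⁻¹⁻¹, Subgroup.Normal.conj_mem inferInstance _
        ((q1 _ _).1 b2.symm) _⟩, mem_filter.mpr ⟨mem_univ _, ?_⟩, ?_⟩
      · simpa [mul_assoc] using b1
      · simp [mul_assoc]
  obtain ⟨z, hz, hz2⟩ : ∃ z ∈ A.image q, #((A⁻¹ * A).filter fun d => q (a1 * d) = z) ≤
      K * #(A.filter fun b => q b = z) := by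
    refine exists_le_of_sum_le (hA.image q) ?_
    rw [← mul_sum, ← card_eq_sum_card_image, sum_card_fiberwise_eq_card_filter]
    exact (card_filter_le _ _).trans hK
  obtain ⟨g, hg, rfl⟩ := mem_image.mp hz
  obtain ⟨X, hX⟩ : ∃ X, X = univ.filter fun y : P => a1 * y * a1⁻¹ * a1 ∈ A := ⟨_, rfl⟩
  have mX : ∀ y, y ∈ X ↔ a1 * y ∈ A := fun y => by simp [hX]
  obtain ⟨a, ha, ha2⟩ := comm_fibre X (univ.filter fun y : P => a1 * y * a1⁻¹ * g ∈ A) K l
    (fun x => (x : G) ^ (l ^ 3 - l) = 1) ⟨1, by simpa using hg⟩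
    (by
      rw [c2]
      refine le_trans (card_le_card_of_injOn (fun y => (y : G) * (a1⁻¹ * g)) (fun y hy => ?_)
        fun a _ b _ h => Subtype.ext (by simpa using h)) hz2
      obtain ⟨u, hu, x, hx, rfl⟩ := mem_div.mp (mem_coe.mp hy)
      refine mem_coe.mpr (mem_filter.mpr ⟨?_, ((q1 _ _).2 ?_).symm⟩)
      · have := mul_mem_mul (inv_mem_inv ((mX x).1 hx)) (mem_filter.mp hu).2
        rw [div_eq_inv_mul]
        convert this using 1
        push_cast
        group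
      · have := Subgroup.Normal.conj_mem inferInstance _ (u / x).2 a1
        convert this using 1
        group)
    (by rw [hX, c2, c2]; exact hmax g hg)
    (by
      intro x hx
      by_contra h
      obtain ⟨i, hi, b1, b2, b3⟩ := hπ x x.2 h
      have k : ∀ j ≤ 3, (x : G) ^ l ^ j ≠ 1 →
          xor (ω (π ((x : G) ^ l ^ j))) (s ((x : G) ^ l ^ j)) = c := by
        intro j hj hne
        obtain ⟨u, hu, v, hv, e⟩ := mem_div.mp (hx j hj)
        have e2 : (a1 * v)⁻¹ * (a1 * u) = (x : G) ^ l ^ j := by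
          rw [← Subgroup.coe_pow, ← e, div_eq_inv_mul]
          push_cast
          group
        have := hm _ ((mX v).1 hv) _ ((mX u).1 hu) fun h => hne (by rw [← e2, h, inv_mul_cancel])
        rwa [e2] at this
      have k1 := k i (by omega) fun h => b1 (by rw [pow_succ, pow_mul, h, one_pow])
      have k2 := k (i + 1) (by omega) b1
      rw [b2] at k1
      revert k1 k2 b3
      cases ω (π ((x : G) ^ l ^ (i + 1))) <;> cases s ((x : G) ^ l ^ i) <;>
        cases s ((x : G) ^ l ^ (i + 1)) <;> cases c <;> simp)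
  refine ⟨(X.filter fun x => ((x / a : P) : G) ^ (l ^ 3 - l) = 1).image fun x => ((x / a : P) : G),
    fun y hy => ?_, ?_, ?_⟩
  · obtain ⟨x, hx, rfl⟩ := mem_image.mp hy
    exact mem_filter.mpr ⟨mem_univ _, (x / a).2, (mem_filter.mp hx).2⟩
  · intro u hu v hv huv
    obtain ⟨x, hx, rfl⟩ := mem_image.mp hu
    obtain ⟨y, hy, rfl⟩ := mem_image.mp hv
    have e : ((x / a : P) : G)⁻¹ * ((y / a : P) : G) = (a1 * x)⁻¹ * (a1 * y) := by
      rw [div_eq_inv_mul, div_eq_inv_mul]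
      push_cast
      group
    rw [e]
    exact hm _ ((mX x).1 (mem_filter.mp hx).1) _ ((mX y).1 (mem_filter.mp hy).1)
      fun h => huv (by rw [Subtype.ext (mul_left_cancel h : (x : G) = y)])
  · rw [card_image_of_injective _ fun x y h => div_left_injective (Subtype.ext h)]
    rw [← c2, ← hX, mul_comm] at c1
    exact c1.trans (Nat.mul_le_mul_left _ (by convert ha2))

omit [Fintype G] in
lemma spread (F : Finset G) (M : ℕ) (hM : 2 * M ≤ #F) (j : ℕ) (hj : j ≤ #F) :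
    ∃ A ⊆ F, #A = j ∧ (M ≤ #(A⁻¹ * A) ∨ j * j ≤ 4 * #(A⁻¹ * A) + j) := by
  induction j with
  | zero => exact ⟨∅, empty_subset _, rfl, Or.inr (by simp)⟩
  | succ j ih =>
    obtain ⟨A, a1, a2, a3⟩ := ih (by omega)
    have sub : ∀ a, A⁻¹ * A ⊆ (insert a A)⁻¹ * insert a A := fun a =>
      mul_subset_mul (inv_subset_inv (subset_insert _ _)) (subset_insert _ _)
    by_cases hc : M ≤ #(A⁻¹ * A) ∨ j = 0
    · obtain ⟨a, b1, b2⟩ := exists_mem_notMem_of_card_lt_card (show #A < #F by omega)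
      refine ⟨insert a A, insert_subset b1 a1, by rw [card_insert_of_notMem b2, a2], ?_⟩
      rcases hc with hc | rfl
      · exact Or.inl (hc.trans (card_le_card (sub a)))
      · exact Or.inr (by omega)
    push Not at hc
    obtain ⟨a, b1, b2⟩ : ∃ a ∈ F, 2 * #(A.filter fun t => t⁻¹ * a ∈ A⁻¹ * A) < j := by
      by_contra h
      push Not at h
      have h1 := sum_le_sum h
      have h0 := sum_card_bipartiteAbove_eq_sum_card_bipartiteBelow
        (s := F) (t := A) (fun a t => t⁻¹ * a ∈ A⁻¹ * A)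
      rw [sum_const, smul_eq_mul, ← mul_sum] at h1
      replace h1 := h1.trans (Nat.mul_le_mul_left 2 h0.le)
      have h2 : ∑ t ∈ A, #(bipartiteBelow (fun a t => t⁻¹ * a ∈ A⁻¹ * A) F t)
          ≤ ∑ t ∈ A, #(A⁻¹ * A) := sum_le_sum fun t _ =>
        card_le_card_of_injOn (fun a => t⁻¹ * a) (fun a ha => (mem_filter.mp (mem_coe.mp ha)).2)
          fun a _ b _ h => by simpa using h
      rw [sum_const, smul_eq_mul, a2] at h2
      have := Nat.pos_of_ne_zero hc.2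
      nlinarith only [h1, h2, this, hM, hc]
    have b3 : a ∉ A := fun h => by
      rw [filter_true_of_mem fun t ht => mul_mem_mul (inv_mem_inv ht) h] at b2
      omega
    refine ⟨insert a A, insert_subset b1 a1, by rw [card_insert_of_notMem b3, a2], Or.inr ?_⟩
    have b4 : A⁻¹ * A ∪ (A.filter fun t => ¬ t⁻¹ * a ∈ A⁻¹ * A).image (fun t => t⁻¹ * a) ⊆
        (insert a A)⁻¹ * insert a A := by
      refine union_subset (sub a) fun d hd => ?_
      obtain ⟨t, ht, rfl⟩ := mem_image.mp hd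
      exact mul_mem_mul (inv_mem_inv (mem_insert_of_mem (mem_filter.mp ht).1)) (mem_insert_self _ _)
    have b5 := card_le_card b4
    rw [card_union_of_disjoint (disjoint_right.mpr fun d hd => by
      obtain ⟨t, ht, rfl⟩ := mem_image.mp hd
      exact (mem_filter.mp ht).2), card_image_of_injective _ fun x y h => by simpa using h] at b5
    have b6 := card_filter_add_card_filter_not (s := A) (fun t => t⁻¹ * a ∈ A⁻¹ * A)
    have b7 := a3.resolve_left (not_le.mpr hc.1)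
    linarith only [a2, b2, b5, b6, b7]

end Pool.Agent.Work.MP_5dd17b_co
end
end

-- merged part: Pool.Agent.Work.MP_5dd17b_co.Main
section
/-!
Ramsey Cayley graphs on groups with a large abelian normal subgroup.
-/

set_option autoImplicit false

namespace Pool.Agent.Work.MP_5dd17b_co

open Finset
open scoped Pointwise

lemma exists_root (P k : ℕ) (hP : 2 ≤ P) (hk : 21 ≤ k) :
    ∃ u : ℕ, k ≤ u ^ P ∧ u ^ P ≤ 2 ^ P * k ∧ 4 * u + 1 ≤ k := by
  have ex : ∃ u : ℕ, k ≤ u ^ P := ⟨k, Nat.le_self_pow (by omega) k⟩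
  have h1 := Nat.find_spec ex
  have h2 : 2 ≤ Nat.find ex := by
    by_contra h
    have : Nat.find ex ^ P ≤ 1 ^ P := Nat.pow_le_pow_left (by omega) P
    rw [one_pow] at this
    omega
  obtain ⟨v, hv⟩ : ∃ v, Nat.find ex = v + 1 := ⟨Nat.find ex - 1, by omega⟩
  have h3 := not_le.mp (Nat.find_min ex (m := v) (by omega))
  rw [hv] at h1 h2
  refine ⟨v + 1, h1, ?_, ?_⟩
  · calc (v + 1) ^ P ≤ (2 * v) ^ P := Nat.pow_le_pow_left (by omega) P
      _ ≤ _ := by rw [mul_pow]; exact Nat.mul_le_mul_left _ h3.le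
  · have h4 : v ^ 2 ≤ v ^ P := Nat.pow_le_pow_right (by omega) hP
    by_contra h
    rcases le_or_gt v 4 with h5 | h5
    · omega
    · nlinarith only [hk, h3, h4, h5, h]

lemma Mono.sub {G : Type} [Group G] {π : G → G} {s ω : G → Bool} {A A' : Finset G} {c : Bool}
    (h : Mono π s ω A c) (h' : A' ⊆ A) : Mono π s ω A' c :=
  fun a ha b hb => h a (h' ha) b (h' hb)

open Classical in
theorem core (l B : ℕ) (η : ℝ) (hl : 2 ≤ l) (hη : 0 < η) : ∃ C X0 : ℝ, 0 ≤ C ∧
    ∀ (G : Type) [Group G] [Fintype G] (P : Subgroup G) [P.Normal],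
      (∀ x ∈ P, ∀ y ∈ P, Commute x y) → #(univ.filter fun x => x ∈ P ∧ x ^ l = 1) ≤ B →
      (P.index : ℝ) * (1 + Real.log #(univ.filter fun x => x ∈ P ∧ x ^ (l ^ 3 - l) = 1))
        ≤ Real.log (Fintype.card G) ^ (1 - η) → X0 < Real.log (Fintype.card G) →
      ∃ χ : G → Bool, (∀ x, χ x⁻¹ = χ x) ∧ ∀ (A : Finset G) (c : Bool),
        (∀ a ∈ A, ∀ b ∈ A, a ≠ b → χ (a⁻¹ * b) = c) → (#A : ℝ) ≤ C * Real.log (Fintype.card G) := by
  obtain ⟨c, hc⟩ : ∃ c, c = l + l ^ 2 + l ^ 3 + 3 := ⟨_, rfl⟩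
  obtain ⟨p, hp⟩ := exists_nat_ge ((c + 2) / η)
  obtain ⟨R, hR⟩ : ∃ R, R = c + 2 + p := ⟨_, rfl⟩
  obtain ⟨k0, -, hU⟩ := union_bound R (2 + 2 * B) (by omega) (by omega)
  obtain ⟨C1, hC1⟩ : ∃ C1 : ℝ, C1 = 8 * (2 + 2 * B : ℕ) * (400 * R ^ 3 : ℕ) := ⟨_, rfl⟩
  have hC1' : 1 ≤ C1 := by
    have h1 : (1 : ℝ) ≤ (2 + 2 * B : ℕ) := by exact_mod_cast (by omega)
    have h2 : (1 : ℝ) ≤ (400 * R ^ 3 : ℕ) := by
      have := Nat.one_le_pow 3 R (by omega)
      exact_mod_cast (by omega)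
    rw [hC1]
    linarith only [h1, h2, mul_nonneg_of_nonpos_of_nonpos (Mathlib.Tactic.Linarith.sub_nonpos_of_le (Mathlib.Tactic.Linarith.natCast_nonneg ℝ ((2 : ℕ) + (2 : ℕ) * B))) (Mathlib.Tactic.Linarith.sub_nonpos_of_le h2)]
  rw [← hC1] at hU
  obtain ⟨C2, hC2⟩ : ∃ C2 : ℝ, C2 = C1 + (k0 + 22) := ⟨_, rfl⟩
  have hC2' : 1 ≤ C2 := by rw [hC2]; linarith only [hC1', show (0 : ℝ) ≤ k0 from Nat.cast_nonneg _]
  refine ⟨C2, (4 * C2) ^ R, by linarith only [hC1', hC2], fun G _ _ P _ hP hB hI hX => ?_⟩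
  obtain ⟨X, hXe⟩ : ∃ X, X = Real.log (Fintype.card G) := ⟨_, rfl⟩
  obtain ⟨W, hW⟩ : ∃ W, W = univ.filter fun x => x ∈ P ∧ x ^ (l ^ 3 - l) = 1 := ⟨_, rfl⟩
  rw [← hXe, ← hW] at hI
  rw [← hXe] at hX ⊢
  have hX1 : 1 ≤ X := (one_le_pow₀ (by linarith only [hC1', hC2])).trans hX.le
  have hW1 : (1 : ℝ) ≤ #W := by
    have : 0 < #W := card_pos.mpr ⟨1, by simp [hW]⟩
    exact_mod_cast this
  have hW0 : 0 ≤ Real.log #W := Real.log_nonneg hW1
  have hW2 : Real.log #W ≤ X :=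
    hXe ▸ Real.log_le_log (by linarith only [hW1]) (by exact_mod_cast card_le_univ W)
  obtain ⟨π, s, p1, p2, p3, p4⟩ := exists_colour P hP l B hl hB
  obtain ⟨k, hk⟩ : ∃ k, k = ⌈C1 * X⌉₊ + (k0 + 21) := ⟨_, rfl⟩
  obtain ⟨k', hk'⟩ : ∃ k', k' = ⌈C1 * Real.log #W⌉₊ + (k0 + 21) := ⟨_, rfl⟩
  have kk : k' ≤ k := by
    have := Nat.ceil_mono (mul_le_mul_of_nonneg_left hW2 (by linarith only [hC1'] : 0 ≤ C1))
    omega
  have k1 : C1 * X ≤ k := (Nat.le_ceil _).trans (by exact_mod_cast (by omega))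
  have k2 : C1 * Real.log #W ≤ k' := (Nat.le_ceil _).trans (by exact_mod_cast (by omega))
  have k3 : ∀ Y : ℝ, 0 ≤ Y → ((⌈C1 * Y⌉₊ + (k0 + 21) : ℕ) : ℝ) ≤ C1 * Y + (k0 + 22) := by
    intro Y hY
    have := (Nat.ceil_lt_add_one (show 0 ≤ C1 * Y by positivity)).le
    push_cast
    linarith only [this]
  have u1 := hU G π s p3 univ k (by omega) (by rwa [card_univ, ← hXe])
  have u2 := hU G π s p3 W k' (by omega) k2
  have key : ∀ S1 S2 : Finset (G → Bool), 3 * #S1 ≤ 2 ^ Fintype.card G →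
      3 * #S2 ≤ 2 ^ Fintype.card G → ∃ ω, ω ∉ S1 ∧ ω ∉ S2 := by
    intro S1 S2 h1 h2
    obtain ⟨ω, -, hω⟩ := exists_mem_notMem_of_card_lt_card (t := (univ : Finset (G → Bool)))
      (s := S1 ∪ S2) (by
        refine (card_union_le _ _).trans_lt ?_
        rw [card_univ, Fintype.card_fun, Fintype.card_bool]
        have := Nat.one_le_pow (Fintype.card G) 2 (by norm_num)
        omega)
    exact ⟨ω, by simpa using hω⟩
  obtain ⟨ω, hω⟩ := key _ _ u1 u2
  simp only [mem_filter, mem_univ, true_and, not_exists, not_and] at hω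
  refine ⟨fun x => xor (ω (π x)) (s x), fun x => by simp only [p1, p2], fun A0 b hA0 => ?_⟩
  by_contra hlt
  have k4 : (k : ℝ) ≤ C2 * X := by
    have := k3 X (by linarith only [hX1])
    rw [← hk] at this
    rw [hC2]
    linarith only [hX1, this, show (0 : ℝ) ≤ k0 from Nat.cast_nonneg _, mul_nonneg_of_nonpos_of_nonpos (Mathlib.Tactic.Linarith.sub_nonpos_of_le (Mathlib.Tactic.Linarith.natCast_nonneg ℝ k0)) (Mathlib.Tactic.Linarith.sub_nonpos_of_le hX1)]
  obtain ⟨A, a1, a2⟩ := exists_subset_card_eq (s := A0) (n := k)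
    (by exact_mod_cast (k4.trans (not_le.mp hlt).le))
  have hm : Mono π s ω A b := Mono.sub hA0 a1
  have nb : ¬ Big R A := fun h => hω.1 A (subset_univ _) a2 h b hm
  simp only [Big, not_forall, not_le, exists_prop] at nb
  obtain ⟨K, b1, b2⟩ := nb
  obtain ⟨F, f1, f2, f3⟩ := small_case P hP l π s p4 ω A b (card_pos.mp (by omega)) hm K b1
  rw [← hW] at f1
  rw [← hc, a2] at f3
  obtain ⟨u, v1, v2, v3⟩ := exists_root R k' (by omega) (by omega)
  have hu : 0 < u := by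
    by_contra h
    rw [show u = 0 by omega, zero_pow (by omega)] at v1
    omega
  by_cases hF : 2 * (k' * u) ≤ #F
  · obtain ⟨A', c1, c2, c3⟩ := spread F (k' * u) hF k' (by nlinarith only [hk', hF, hu])
    refine hω.2 A' (c1.trans f1) c2 (fun K' hK' => ?_) b (f2.sub c1)
    rw [c2] at hK' ⊢
    refine v1.trans (Nat.pow_le_pow_left (Nat.le_of_mul_le_mul_right (c := k') ?_ (by omega)) _)
    rcases c3 with c3 | c3
    · linarith only [hK', c3]
    · nlinarith only [hK', c3, v3]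
  have g1 : k ^ R ≤ (4 * (P.index * k')) ^ R * k ^ (c + 1) := by
    clear * - k R G P k' c K u F f3 l B p k0 C1 X W π s A hF hk hk' a2 b2 v2 kk
    calc k ^ R ≤ (P.index * (K ^ c * (2 * (k' * u)))) ^ R := Nat.pow_le_pow_left (f3.trans
          (Nat.mul_le_mul_left _ (Nat.mul_le_mul_left _ (by omega)))) _
      _ = (2 * (P.index * k')) ^ R * ((K ^ R) ^ c * u ^ R) := by
          rw [← pow_mul, mul_comm R c, pow_mul, ← mul_pow, ← mul_pow]
          congr 1
          ring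
      _ ≤ (2 * (P.index * k')) ^ R * (k ^ c * (2 ^ R * k)) :=
          Nat.mul_le_mul_left _ (Nat.mul_le_mul (Nat.pow_le_pow_left (by omega) _)
            (v2.trans (Nat.mul_le_mul_left _ kk)))
      _ = _ := by
          rw [show 4 * (P.index * k') = 2 * (P.index * k') * 2 by ring, mul_pow _ 2]
          ring
  have g2 : (P.index : ℝ) * k' ≤ C2 * X ^ (1 - η) := by
    clear * - C1 G W k0 k3 hW0 k' C2 hC2 hC1' hk' P X η hI hC2'
    have h1 := k3 _ hW0
    rw [← hk'] at h1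
    have h2 : (k' : ℝ) ≤ C2 * (1 + Real.log #W) := by
      rw [hC2]
      linarith only [hC1', hW0, h1, show (0 : ℝ) ≤ k0 from Nat.cast_nonneg _, mul_nonneg_of_nonpos_of_nonpos (Mathlib.Tactic.Linarith.sub_nonpos_of_le (Mathlib.Tactic.Linarith.natCast_nonneg ℝ k0)) (Mathlib.Tactic.Linarith.sub_nonpos_of_le hW0)]
    calc (P.index : ℝ) * k' ≤ P.index * (C2 * (1 + Real.log #W)) := by gcongr
      _ = C2 * (P.index * (1 + Real.log #W)) := by ring
      _ ≤ _ := by gcongr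
  have g3 : (X ^ (1 - η)) ^ R ≤ X ^ p := by
    rw [← Real.rpow_natCast, ← Real.rpow_mul (by linarith only [hX1]), ← Real.rpow_natCast]
    refine Real.rpow_le_rpow_of_exponent_le hX1 ?_
    rw [div_le_iff₀ hη] at hp
    rw [hR]
    push_cast
    linarith only [hη, hp, show (0 : ℝ) ≤ c from Nat.cast_nonneg _, mul_nonneg_of_nonpos_of_nonpos (Mathlib.Tactic.Linarith.sub_nonpos_of_le (Mathlib.Tactic.Linarith.natCast_nonneg ℝ c)) (le_of_lt (Mathlib.Tactic.Linarith.sub_neg_of_lt hη))]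
  have g4 : (k : ℝ) ^ (p + 1) ≤ (4 * C2) ^ R * X ^ p := by
    clear * - k R G P k' c g1 l B p k0 C1 X W π s hk hk' A a2 K b2 F u C2 hR η g2 g3 hC2'
    have h1 : (k : ℝ) ^ R ≤ (4 * (P.index * k')) ^ R * k ^ (c + 1) := by exact_mod_cast g1
    have h2 : (0 : ℝ) < k := by exact_mod_cast (by omega)
    rw [show (k : ℝ) ^ R = k ^ (p + 1) * k ^ (c + 1) by rw [hR]; ring] at h1
    refine (le_of_mul_le_mul_right h1 (by positivity)).trans ?_
    calc (4 * ((P.index : ℝ) * k')) ^ R ≤ (4 * (C2 * X ^ (1 - η))) ^ R := by clear * - G P k' C2 X η g2 R; gcongr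
      _ = (4 * C2) ^ R * (X ^ (1 - η)) ^ R := by rw [← mul_assoc, mul_pow]
      _ ≤ _ := by gcongr
  have g5 : X ^ (p + 1) ≤ (k : ℝ) ^ (p + 1) := by
    have : X ≤ k := by linarith only [hC1', k1, hX1, mul_nonneg_of_nonpos_of_nonpos (Mathlib.Tactic.Linarith.sub_nonpos_of_le hC1') (Mathlib.Tactic.Linarith.sub_nonpos_of_le hX1)]
    gcongr
  have g6 : 0 < X ^ p := by positivity
  rw [pow_succ] at g5
  linarith only [g4, g5, hX, g6, mul_pos_of_neg_of_neg (Mathlib.Tactic.Linarith.sub_neg_of_lt hX) (Mathlib.Tactic.Linarith.sub_neg_of_lt g6)]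

theorem ramsey_cayley (l B : ℕ) (η : ℝ) (hl : 2 ≤ l) (hη : 0 < η) : ∃ C : ℝ,
    ∀ (G : Type) [Group G] [Fintype G] (P : Subgroup G), Nontrivial G → P.Normal →
      (∀ x ∈ P, ∀ y ∈ P, x * y = y * x) → Nat.card {x : G // x ∈ P ∧ x ^ l = 1} ≤ B →
      (P.index : ℝ) * (1 + Real.log (Nat.card {x : G // x ∈ P ∧ x ^ (l ^ 3 - l) = 1}))
        ≤ Real.log (Fintype.card G) ^ (1 - η) →
      ∃ S : Set G, 1 ∉ S ∧ (∀ x, x⁻¹ ∈ S ↔ x ∈ S) ∧ ∀ s : Finset G,
        ((SimpleGraph.fromRel (fun x y : G => x⁻¹ * y ∈ S)).IsClique (s : Set G) ∨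
          (SimpleGraph.fromRel (fun x y : G => x⁻¹ * y ∈ S))ᶜ.IsClique (s : Set G)) →
        (s.card : ℝ) ≤ C * Real.log (Fintype.card G) := by
  classical
  obtain ⟨C, X0, hC, h⟩ := core l B η hl hη
  refine ⟨C + 2 * Real.exp X0, fun G _ _ P hG hN hP hB hI => ?_⟩
  have h2 : (2 : ℝ) ≤ Fintype.card G := by exact_mod_cast Fintype.one_lt_card
  have h3 : 1 / 2 ≤ Real.log (Fintype.card G) :=
    le_trans (by linarith only [Real.log_two_gt_d9]) (Real.log_le_log (by norm_num) h2)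
  have h4 := Real.exp_pos X0
  rcases le_or_gt (Real.log (Fintype.card G)) X0 with hX | hX
  · refine ⟨∅, by simp, by simp, fun s _ => ?_⟩
    have h5 : (s.card : ℝ) ≤ Fintype.card G := by exact_mod_cast card_le_univ s
    have h6 := (Real.log_le_iff_le_exp (by linarith only [h2])).mp hX
    linarith only [hC, h5, h6, h3, h4, mul_nonneg_of_nonpos_of_nonpos (Mathlib.Tactic.Linarith.sub_nonpos_of_le hC) (Mathlib.Tactic.Linarith.sub_nonpos_of_le h3), mul_nonneg_of_nonpos_of_nonpos (Mathlib.Tactic.Linarith.sub_nonpos_of_le h3) (le_of_lt (Mathlib.Tactic.Linarith.sub_neg_of_lt h4))]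
  rw [Nat.card_eq_fintype_card, Fintype.card_subtype] at hB hI
  obtain ⟨χ, c1, c2⟩ := h G P hP (by convert hB) (by convert hI) hX
  refine ⟨{x | x ≠ 1 ∧ χ x = true}, by simp, fun x => by simp [c1], fun s hs => ?_⟩
  have e : ∀ a b : G, χ (b⁻¹ * a) = χ (a⁻¹ * b) := fun a b => by rw [← c1]; simp
  have : (s.card : ℝ) ≤ C * Real.log (Fintype.card G) := by
    rcases hs with hs | hs
    · refine c2 s true fun a ha b hb hab => ?_
      rcases ((SimpleGraph.fromRel_adj _ _ _).mp (hs ha hb hab)).2 with h5 | h5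
      · exact h5.2
      · exact (e a b).symm.trans h5.2
    · refine c2 s false fun a ha b hb hab => ?_
      have h5 := ((SimpleGraph.compl_adj _ _ _).mp (hs ha hb hab)).2
      by_contra h6
      exact h5 ((SimpleGraph.fromRel_adj _ _ _).mpr ⟨hab, Or.inl
        ⟨fun h7 => hab (inv_mul_eq_one.mp h7), by simpa using h6⟩⟩)
  linarith only [h4, this, h3, mul_nonneg_of_nonpos_of_nonpos (Mathlib.Tactic.Linarith.sub_nonpos_of_le h3) (le_of_lt (Mathlib.Tactic.Linarith.sub_neg_of_lt h4))]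

end Pool.Agent.Work.MP_5dd17b_co
end
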