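import Mathlib
import Pool.Agent.Work.MP_5dd17b_co.Main

-- merged part: Pool.Agent.Work.MP_5dd17b_co.LinDefs
section
/-!
Tame sets (symmetric sets whose powers grow at most geometrically) and commuting sets.
-/

set_option autoImplicit false

namespace Pool.Agent.Work.MP_5dd17b_co

open Finset
open scoped Pointwise

variable {G : Type} [Group G] [DecidableEq G]

/-- symmetric set containing 1 whose `m`-th power has at most `K ^ m` times as many elements -/
def Tame (K : ℕ) (S : Finset G) : Prop := 1 ∈ S ∧ S⁻¹ = S ∧ ∀ m, #(S ^ m) ≤ K ^ m * #S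

/-- the elements of `B` commute pairwise -/
def Comm (B : Finset G) : Prop := ∀ a ∈ B, ∀ b ∈ B, Commute a b

lemma Tame.one_le {K : ℕ} {S : Finset G} (h : Tame K S) : 1 ≤ K := by
  have h1 := h.2.2 1
  have h2 : 0 < #S := card_pos.mpr ⟨1, h.1⟩
  rw [pow_one, pow_one] at h1
  by_contra h3
  rw [show K = 0 by omega] at h1
  omega

lemma Tame.inv_mem {K : ℕ} {S : Finset G} (h : Tame K S) {x : G} (hx : x ∈ S) : x⁻¹ ∈ S := by
  rw [← h.2.1]
  exact inv_mem_inv hx

lemma Tame.inv_mul_mem {K : ℕ} {S : Finset G} (h : Tame K S) {x y : G} (hx : x ∈ S)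
    (hy : y ∈ S) : x⁻¹ * y ∈ S ^ 2 := by
  rw [sq]
  exact mul_mem_mul (h.inv_mem hx) hy

open Classical in
lemma card_pow_inter {K : ℕ} {S : Finset G} (h : Tame K S) (H : Subgroup G) (m : ℕ) :
    #S * #((S ^ m).filter (· ∈ H)) ≤ #((S ^ 2).filter (· ∈ H)) * #(S ^ (m + 1)) := by
  rw [← card_product]
  refine card_le_mul_card_image_of_maps_to (f := fun p : G × G => p.1 * p.2) (fun p hp => ?_) _
    fun z _ => ?_
  · rw [pow_succ']
    exact mul_mem_mul (mem_product.mp hp).1 (mem_filter.mp (mem_product.mp hp).2).1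
  rcases ((S ×ˢ (S ^ m).filter (· ∈ H)).filter fun p : G × G => p.1 * p.2 = z).eq_empty_or_nonempty
    with h0 | ⟨q, hq⟩
  · rw [h0]
    simp
  obtain ⟨q1, q2⟩ := mem_filter.mp hq
  refine card_le_card_of_injOn (fun p => q.1⁻¹ * p.1) (fun p hp => ?_) fun p hp p' hp' e => ?_
  · obtain ⟨p1, p2⟩ := mem_filter.mp (mem_coe.mp hp)
    refine mem_coe.mpr (mem_filter.mpr ⟨h.inv_mul_mem (mem_product.mp q1).1
      (mem_product.mp p1).1, ?_⟩)
    have e : q.1⁻¹ * p.1 = q.2 * p.2⁻¹ := by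
      rw [inv_mul_eq_iff_eq_mul, ← mul_assoc, q2, ← p2, mul_inv_cancel_right]
    show q.1⁻¹ * p.1 ∈ H
    rw [e]
    exact mul_mem (mem_filter.mp (mem_product.mp q1).2).2
      (inv_mem (mem_filter.mp (mem_product.mp p1).2).2)
  · have e1 : p.1 = p'.1 := mul_left_cancel e
    have e2 := (mem_filter.mp (mem_coe.mp hp)).2.trans (mem_filter.mp (mem_coe.mp hp')).2.symm
    rw [e1] at e2
    exact Prod.ext e1 (mul_left_cancel e2)

open Classical in
lemma inter_pow_subset (S : Finset G) (H : Subgroup G) (m : ℕ) :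
    ((S ^ 2).filter (· ∈ H)) ^ m ⊆ (S ^ (2 * m)).filter (· ∈ H) := by
  induction m with
  | zero =>
    intro x hx
    rw [pow_zero, mem_one] at hx
    simp [hx]
  | succ m ih =>
    intro x hx
    rw [pow_succ] at hx
    obtain ⟨a, ha, b, hb, rfl⟩ := mem_mul.mp hx
    obtain ⟨a1, a2⟩ := mem_filter.mp (ih ha)
    obtain ⟨b1, b2⟩ := mem_filter.mp hb
    refine mem_filter.mpr ⟨?_, mul_mem a2 b2⟩
    rw [mul_add, mul_one, pow_add]
    exact mul_mem_mul a1 b1

open Classical in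
lemma Tame.inter {K : ℕ} {S : Finset G} (h : Tame K S) (H : Subgroup G) :
    Tame (K ^ 3) ((S ^ 2).filter (· ∈ H)) := by
  have h1 : (1 : G) ∈ (S ^ 2).filter (· ∈ H) := mem_filter.mpr ⟨one_mem_pow h.1, one_mem H⟩
  refine ⟨h1, ?_, fun m => ?_⟩
  · ext x
    rw [mem_inv', mem_filter, mem_filter, H.inv_mem_iff, ← mem_inv', ← inv_pow, h.2.1]
  rcases Nat.eq_zero_or_pos m with rfl | hm
  · rw [pow_zero, pow_zero, card_one, one_mul]
    exact card_pos.mpr ⟨1, h1⟩
  have h2 : 0 < #S := card_pos.mpr ⟨1, h.1⟩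
  refine (card_le_card (inter_pow_subset S H m)).trans (Nat.le_of_mul_le_mul_left ?_ h2)
  calc #S * #((S ^ (2 * m)).filter (· ∈ H))
      ≤ #((S ^ 2).filter (· ∈ H)) * (K ^ (2 * m + 1) * #S) :=
        (card_pow_inter h H _).trans (Nat.mul_le_mul_left _ (h.2.2 _))
    _ ≤ #((S ^ 2).filter (· ∈ H)) * (K ^ (3 * m) * #S) :=
        Nat.mul_le_mul_left _ (Nat.mul_le_mul_right _ (Nat.pow_le_pow_right h.one_le (by omega)))
    _ = _ := by rw [← pow_mul]; ring

end Pool.Agent.Work.MP_5dd17b_co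
end

-- merged part: Pool.Agent.Work.MP_5dd17b_co.LinTao
section
/-!
Popular quotients of a set with small quotient set (a lemma of Tao), for arbitrary groups.

Plan. For a finite set A put r_A(x) = number of c in A with x * c in A, and
pop A K = the x with |A| ≤ 2 K r_A(x).
* `pop_inv`: r_A(x⁻¹) = r_A(x) (bijection c ↦ x * c). 1 is in pop A K as K ≥ 1.
* `pop_step`: for every finite Z, |Z * pop * A| ≤ 2 K^2 |Z * A|. For u in Z * pop * A choose
  u = z s a (choice function of u). The pairs (u, c) with c in A, s c in A map injectively to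
  (z * (s * c), c⁻¹ * a) in (Z * A) × (A⁻¹ * A): the product of the two entries is u, and u
  determines a, hence c. So |Z pop A| * |A| ≤ 2 K |Z A| |A⁻¹ A| ≤ 2 K^2 |Z A| |A|.
  (use a sigma type or `Finset.sigma`, `card_sigma`, `card_le_card_of_injOn`.)
* `pop_pow`: |pop ^ m * A| ≤ (2 K^2)^m |A| by induction (Z = pop ^ m), and |pop^m| ≤ |pop^m * A|.
* `pop_many`: some a0 in A has |A| ≤ 2 K |{a in A : a * a0⁻¹ in pop}|. Energy: by
  `Finset.le_card_mul_mul_mulEnergy A⁻¹ A`, |A|^4 ≤ K |A| E with E the number of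
  (a1,a2,b1,b2) in A^4 with a1⁻¹ b1 = a2⁻¹ b2, that is a2 a1⁻¹ = b2 b1⁻¹. So E is the sum over pairs
  (a2,a1) of r_A(a2 a1⁻¹). Pairs with a2 a1⁻¹ not in pop give 2K r < |A|, pairs in pop give r ≤ |A|.
  Hence 2K E ≤ |A|^3 + 2K |A| n with n the number of pairs in pop, so |A|^2 ≤ 2 K n; average over a1.
* `tao`: take A' = image of A under a ↦ a0⁻¹ * a. Then A'⁻¹ A' = A⁻¹ A, |A'| = |A|,
  r_{A'}(a0⁻¹ a) = r_A(a a0⁻¹). S = pop A' K, Y = A'.filter (· ∈ S). For m ≥ 1,
  (2K^2)^m * 2K ≤ (4K^3)^m; for m = 0 use Y nonempty.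
-/

set_option autoImplicit false

namespace Pool.Agent.Work.MP_5dd17b_co

open Finset
open scoped Pointwise

variable {G : Type} [Group G] [DecidableEq G] [Fintype G]

/-- the elements of `A` that are moved into `A` by `x` -/
def LinTao_r (A : Finset G) (x : G) : Finset G := A.filter fun c => x * c ∈ A

/-- the popular quotients -/
def LinTao_pop (A : Finset G) (K : ℕ) : Finset G :=
  univ.filter fun x => #A ≤ 2 * K * #(LinTao_r A x)

lemma LinTao_mem {A : Finset G} {K : ℕ} {x : G} :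
    x ∈ LinTao_pop A K ↔ #A ≤ 2 * K * #(LinTao_r A x) := by
  rw [LinTao_pop, mem_filter]
  exact and_iff_right (mem_univ x)

omit [Fintype G] in
lemma LinTao_r_inv (A : Finset G) (x : G) : #(LinTao_r A x) ≤ #(LinTao_r A x⁻¹) := by
  refine card_le_card_of_injOn (fun c => x * c) (fun c hc => ?_) fun c _ c' _ e => mul_left_cancel e
  obtain ⟨h1, h2⟩ := mem_filter.1 (mem_coe.1 hc)
  exact mem_coe.2 (mem_filter.2 ⟨h2, by rwa [inv_mul_cancel_left]⟩)

lemma LinTao_inv (A : Finset G) (K : ℕ) : (LinTao_pop A K)⁻¹ = LinTao_pop A K := by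
  ext x
  rw [mem_inv', LinTao_mem, LinTao_mem]
  refine ⟨fun h => h.trans (Nat.mul_le_mul_left _ ?_),
    fun h => h.trans (Nat.mul_le_mul_left _ (LinTao_r_inv A x))⟩
  simpa using LinTao_r_inv A x⁻¹

lemma LinTao_one (A : Finset G) {K : ℕ} (hK : 1 ≤ K) : 1 ∈ LinTao_pop A K := by
  have : LinTao_r A 1 = A := filter_true_of_mem fun c hc => by rwa [one_mul]
  rw [LinTao_mem, this]
  exact Nat.le_mul_of_pos_left _ (by omega)

lemma LinTao_step {A : Finset G} {K : ℕ} (hA : A.Nonempty) (hK : #(A⁻¹ * A) ≤ K * #A)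
    (Z : Finset G) : #(Z * LinTao_pop A K * A) ≤ 2 * K ^ 2 * #(Z * A) := by
  have h1 : ∀ u : G, ∃ z s a : G, u ∈ Z * LinTao_pop A K * A →
      z ∈ Z ∧ s ∈ LinTao_pop A K ∧ a ∈ A ∧ z * s * a = u := fun u => by
    by_cases hu : u ∈ Z * LinTao_pop A K * A
    · obtain ⟨w, hw, a, ha, rfl⟩ := mem_mul.1 hu
      obtain ⟨z, hz, s, hs, rfl⟩ := mem_mul.1 hw
      exact ⟨z, s, a, fun _ => ⟨hz, hs, ha, rfl⟩⟩
    · exact ⟨1, 1, 1, fun h => absurd h hu⟩
  choose z s a h1 using h1
  have h2 : #((Z * LinTao_pop A K * A).sigma fun u => LinTao_r A (s u)) ≤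
      #((Z * A) ×ˢ (A⁻¹ * A)) := by
    refine card_le_card_of_injOn (fun p => (z p.1 * (s p.1 * p.2), p.2⁻¹ * a p.1))
      (fun p hp => ?_) fun p hp q hq e => ?_
    · obtain ⟨p1, p2⟩ := mem_sigma.1 (mem_coe.1 hp)
      obtain ⟨k1, -, k3, -⟩ := h1 _ p1
      obtain ⟨p3, p4⟩ := mem_filter.1 p2
      exact mem_coe.2 (mem_product.2 ⟨mul_mem_mul k1 p4, mul_mem_mul (inv_mem_inv p3) k3⟩)
    · obtain ⟨u, c⟩ := p
      obtain ⟨v, d⟩ := q
      have k1 := (h1 u (mem_sigma.1 (mem_coe.1 hp)).1).2.2.2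
      have k2 := (h1 v (mem_sigma.1 (mem_coe.1 hq)).1).2.2.2
      obtain ⟨e1, e2⟩ := Prod.mk.inj e
      have e3 : u = v := by
        have e4 : z u * (s u * c) * (c⁻¹ * a u) = z v * (s v * d) * (d⁻¹ * a v) := by
          rw [e1, e2]
        rw [← k1, ← k2]
        simpa [mul_assoc] using e4
      subst e3
      have e5 : c = d := inv_injective (mul_right_cancel e2)
      rw [e5]
  rw [card_sigma, card_product] at h2
  refine Nat.le_of_mul_le_mul_right ?_ hA.card_pos
  calc #(Z * LinTao_pop A K * A) * #A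
      = ∑ _u ∈ Z * LinTao_pop A K * A, #A := by rw [sum_const, smul_eq_mul]
    _ ≤ ∑ u ∈ Z * LinTao_pop A K * A, 2 * K * #(LinTao_r A (s u)) :=
        sum_le_sum fun u hu => LinTao_mem.1 (h1 u hu).2.1
    _ ≤ 2 * K * (#(Z * A) * (K * #A)) := by
        rw [← mul_sum]
        exact Nat.mul_le_mul_left _ (h2.trans (Nat.mul_le_mul_left _ hK))
    _ = _ := by ring

lemma LinTao_pow {A : Finset G} {K : ℕ} (hA : A.Nonempty) (hK : #(A⁻¹ * A) ≤ K * #A) (m : ℕ) :
    #(LinTao_pop A K ^ m * A) ≤ (2 * K ^ 2) ^ m * #A := by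
  induction m with
  | zero => simp
  | succ m ih =>
    rw [pow_succ, pow_succ', mul_assoc (2 * K ^ 2)]
    exact (LinTao_step hA hK _).trans (Nat.mul_le_mul_left _ ih)

omit [Fintype G] in
lemma LinTao_energy (A : Finset G) :
    mulEnergy A⁻¹ A ≤ ∑ b ∈ A, ∑ a ∈ A, #(LinTao_r A (a * b⁻¹)) := by
  have h : mulEnergy A⁻¹ A ≤ #((A ×ˢ A).sigma fun p => LinTao_r A (p.2 * p.1⁻¹)) := by
    refine card_le_card_of_injOn (fun x => ⟨(x.1.1⁻¹, x.1.2⁻¹), x.2.1⟩) (fun x hx => ?_)
      fun x hx y hy e => ?_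
    · obtain ⟨x1, x2⟩ := mem_filter.1 (mem_coe.1 hx)
      obtain ⟨x3, x4⟩ := mem_product.1 x1
      refine mem_coe.2 (mem_sigma.2 ⟨mem_product.2 ⟨mem_inv'.1 (mem_product.1 x3).1,
        mem_inv'.1 (mem_product.1 x3).2⟩, mem_filter.2 ⟨(mem_product.1 x4).1, ?_⟩⟩)
      show x.1.2⁻¹ * x.1.1⁻¹⁻¹ * x.2.1 ∈ A
      rw [inv_inv, mul_assoc, x2, inv_mul_cancel_left]
      exact (mem_product.1 x4).2
    · have x2 := (mem_filter.1 (mem_coe.1 hx)).2
      have y2 := (mem_filter.1 (mem_coe.1 hy)).2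
      obtain ⟨e1, e2⟩ := Sigma.mk.inj e
      obtain ⟨e3, e4⟩ := Prod.mk.inj e1
      have e5 : x.2.1 = y.2.1 := eq_of_heq e2
      have e6 := inv_injective e3
      have e7 := inv_injective e4
      rw [e6, e7, e5, y2] at x2
      exact Prod.ext (Prod.ext e6 e7) (Prod.ext e5 (mul_left_cancel x2).symm)
  rwa [card_sigma, sum_product] at h

lemma LinTao_many {A : Finset G} {K : ℕ} (hA : A.Nonempty) (hK : #(A⁻¹ * A) ≤ K * #A) :
    ∃ b ∈ A, #A ≤ 2 * K * #(A.filter fun a => a * b⁻¹ ∈ LinTao_pop A K) := by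
  have h0 := hA.card_pos
  have h1 := (le_card_mul_mul_mulEnergy A⁻¹ A).trans
    (Nat.mul_le_mul hK (LinTao_energy A))
  rw [card_inv] at h1
  have h2 : ∀ b ∈ A, 2 * K * ∑ a ∈ A, #(LinTao_r A (a * b⁻¹)) ≤
      #A * #A + #A * (2 * K * #(A.filter fun a => a * b⁻¹ ∈ LinTao_pop A K)) := fun b _ => by
    rw [mul_sum, card_filter, mul_sum, mul_sum, ← smul_eq_mul (#A) (#A), ← sum_const,
      ← sum_add_distrib]
    refine sum_le_sum fun a _ => ?_
    split_ifs with k
    · have : #(LinTao_r A (a * b⁻¹)) ≤ #A := card_filter_le _ _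
      nlinarith [Nat.mul_le_mul_left (2 * K) this]
    · have := not_le.1 fun h => k (LinTao_mem.2 h)
      omega
  have h3 := sum_le_sum h2
  rw [← mul_sum, sum_add_distrib, sum_const, smul_eq_mul, ← mul_sum] at h3
  refine exists_le_of_sum_le hA ?_
  rw [sum_const, smul_eq_mul]
  refine Nat.le_of_mul_le_mul_left ?_ h0
  have h4 : #A * (#A * #A) ≤ K * ∑ b ∈ A, ∑ a ∈ A, #(LinTao_r A (a * b⁻¹)) := by
    refine Nat.le_of_mul_le_mul_left ?_ h0
    calc #A * (#A * (#A * #A)) = #A ^ 2 * #A ^ 2 := by ring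
      _ ≤ _ := h1
      _ = _ := by ring
  rw [mul_assoc 2 K] at h3
  omega

theorem tao (A : Finset G) (K : ℕ) (hA : A.Nonempty) (hK : #(A⁻¹ * A) ≤ K * #A) :
    ∃ S Y : Finset G, Y ⊆ S ∧ 1 ∈ S ∧ S⁻¹ = S ∧ Y⁻¹ * Y ⊆ A⁻¹ * A ∧ #A ≤ 2 * K * #Y ∧
      ∀ m, #(S ^ m) ≤ (4 * K ^ 3) ^ m * #Y := by
  have h0 := hA.card_pos
  have hK1 : 1 ≤ K := by
    have : 0 < #(A⁻¹ * A) := (hA.inv.mul hA).card_pos
    by_contra h
    rw [show K = 0 by omega] at hK
    omega
  obtain ⟨b, -, hb⟩ := LinTao_many hA hK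
  obtain ⟨B, hB, hc⟩ : ∃ B : Finset G, (∀ x, x ∈ B ↔ b * x ∈ A) ∧ #B = #A := by
    refine ⟨A.image fun a => b⁻¹ * a, fun x => ?_, card_image_of_injective _ (mul_right_injective _)⟩
    rw [mem_image]
    refine ⟨?_, fun h => ⟨_, h, inv_mul_cancel_left _ _⟩⟩
    rintro ⟨a, ha, rfl⟩
    rwa [mul_inv_cancel_left]
  have hsub : B⁻¹ * B ⊆ A⁻¹ * A := fun x hx => by
    obtain ⟨u, hu, v, hv, rfl⟩ := mem_mul.1 hx
    have := mul_mem_mul (inv_mem_inv ((hB _).1 (mem_inv'.1 hu))) ((hB _).1 hv)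
    simpa [mul_assoc] using this
  have hBn : B.Nonempty := card_pos.1 (hc ▸ h0)
  have hBK : #(B⁻¹ * B) ≤ K * #B := hc ▸ (card_le_card hsub).trans hK
  have hY : #A ≤ 2 * K * #(B.filter (· ∈ LinTao_pop B K)) := by
    refine hb.trans (Nat.mul_le_mul_left _ (card_le_card_of_injOn (fun a => b⁻¹ * a)
      (fun a ha => ?_) fun a _ a' _ e => mul_left_cancel e))
    obtain ⟨a1, a2⟩ := mem_filter.1 (mem_coe.1 ha)
    refine mem_coe.2 (mem_filter.2 ⟨(hB _).2 (by rwa [mul_inv_cancel_left]), LinTao_mem.2 ?_⟩)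
    rw [hc]
    refine (LinTao_mem.1 a2).trans (Nat.mul_le_mul_left _ (card_le_card_of_injOn
      (fun c => b⁻¹ * c) (fun c hc' => ?_) fun c _ c' _ e => mul_left_cancel e))
    obtain ⟨c1, c2⟩ := mem_filter.1 (mem_coe.1 hc')
    refine mem_coe.2 (mem_filter.2 ⟨(hB _).2 (by rwa [mul_inv_cancel_left]), (hB _).2 ?_⟩)
    simpa [mul_assoc] using c2
  refine ⟨LinTao_pop B K, B.filter (· ∈ LinTao_pop B K), fun x hx => (mem_filter.1 hx).2,
    LinTao_one B hK1, LinTao_inv B K,
    (mul_subset_mul (inv_subset_inv (filter_subset _ _)) (filter_subset _ _)).trans hsub, hY,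
    fun m => ?_⟩
  rcases Nat.eq_zero_or_pos m with rfl | hm
  · rw [pow_zero, pow_zero, card_one, one_mul]
    exact Nat.pos_of_mul_pos_left (h0.trans_le hY)
  calc #(LinTao_pop B K ^ m) ≤ #(LinTao_pop B K ^ m * B) := card_le_card_mul_right hBn
    _ ≤ (2 * K ^ 2) ^ m * #B := LinTao_pow hBn hBK m
    _ ≤ (2 * K ^ 2) ^ m * ((2 * K) ^ m * #(B.filter (· ∈ LinTao_pop B K))) :=
        Nat.mul_le_mul_left _ (hc ▸ hY.trans (Nat.mul_le_mul_right _
          (Nat.le_self_pow hm.ne' _)))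
    _ = _ := by
        rw [← mul_assoc, ← mul_pow]
        congr 2
        ring

end Pool.Agent.Work.MP_5dd17b_co
end

-- merged part: Pool.Agent.Work.MP_5dd17b_co.LinFlat
section
/-!
A linear form of the Larsen-Pink inequality: a tame set has few points in a proper subspace unless
many of its elements stabilise a proper subspace.

Plan. Induction on j (W general). For j = 0, W = ⊥ and ψ g is a unit, so nonzero: the set is empty.
Step: let N = the g in S^3 with ψ g in W; if N is empty done, otherwise hM applies to W.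
`Finset.le_card_mul_mul_mulEnergy S N`: |S|^2 |N|^2 ≤ |S * N| E and S * N ⊆ S^4, |S^4| ≤ K^4 |S|.
E counts (g, g', u, u') with g u = g' u'; for fixed (g, g') with h = g⁻¹ g' in S^2 the pair (u,u') is
determined by u' in N with h u' in N. If ψ h * W ⊆ W bound this by |N|; there are at most |S| M such
pairs (g' = g h). Otherwise u' lies in S^3 and ψ u' in W' = W ⊓ comap (LinearMap.mulLeft F (ψ h)) W,
W' < W so finrank W' ≤ j (`Submodule.finrank_lt_finrank_of_lt`); let N' be the `Finset.sup` over such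
h of these counts; by `Finset.sup_induction` N' ^ 2 ^ j ≤ (2 K^4 M)^(2^j) |S|^(2^j - 1).
So |N|^2 ≤ K^4 (M |N| + |S| N'). Either |N| ≤ 2 K^4 M, or |N|^2 ≤ 2 K^4 |S| N'; raise to the power
2^j (M ≥ 1, K ≥ 1 by `Tame.one_le`, |S| ≥ 1).
-/

set_option autoImplicit false

namespace Pool.Agent.Work.MP_5dd17b_co

open Finset Module
open scoped Pointwise

theorem LinFlat_energy {G : Type} [Group G] [DecidableEq G] {S N : Finset G} {K M B : ℕ}
    (hS : Tame K S) (P : G → Prop) [DecidablePred P] (hM : #((S ^ 2).filter P) ≤ M)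
    (hB : ∀ h ∈ S ^ 2, ¬ P h → #(N.filter fun u => h * u ∈ N) ≤ B) :
    mulEnergy S N ≤ #S * (M * #N + #S * B) := by
  have h1 : mulEnergy S N ≤
      #((S ×ˢ S).sigma fun g : G × G => N.filter fun u => g.1⁻¹ * g.2 * u ∈ N) := by
    refine card_le_card_of_injOn (fun x => ⟨x.1, x.2.2⟩) (fun x hx => ?_) fun x hx y hy e => ?_
    · obtain ⟨a1, a2⟩ := mem_filter.1 (mem_coe.1 hx)
      obtain ⟨a3, a4⟩ := mem_product.1 a1
      refine mem_coe.2 (mem_sigma.2 ⟨a3, mem_filter.2 ⟨(mem_product.1 a4).2, ?_⟩⟩)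
      show x.1.1⁻¹ * x.1.2 * x.2.2 ∈ N
      rw [mul_assoc, ← a2, inv_mul_cancel_left]
      exact (mem_product.1 a4).1
    · have a1 := (mem_filter.1 (mem_coe.1 hx)).2
      have a2 := (mem_filter.1 (mem_coe.1 hy)).2
      have e1 : x.1 = y.1 := congrArg Sigma.fst e
      have e2 : x.2.2 = y.2.2 := congrArg (fun z : (Σ _ : G × G, G) => z.2) e
      rw [e1, e2, ← a2] at a1
      exact Prod.ext e1 (Prod.ext (mul_left_cancel a1) e2)
  rw [card_sigma, sum_product] at h1
  refine h1.trans (sum_le_card_nsmul _ _ _ fun g hg => ?_)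
  have h2 : #(S.filter fun g' => P (g⁻¹ * g')) ≤ M := by
    refine le_trans (card_le_card_of_injOn (fun g' => g⁻¹ * g') (fun x hx => ?_)
      fun x _ y _ e => mul_left_cancel e) hM
    obtain ⟨a1, a2⟩ := mem_filter.1 (mem_coe.1 hx)
    exact mem_coe.2 (mem_filter.2 ⟨hS.inv_mul_mem hg a1, a2⟩)
  rw [← sum_filter_add_sum_filter_not S fun g' => P (g⁻¹ * g')]
  refine add_le_add ?_ ?_
  · exact (sum_le_card_nsmul _ _ #N fun x _ => card_filter_le _ _).trans
      (Nat.mul_le_mul_right _ h2)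
  · exact (sum_le_card_nsmul _ _ B fun x hx => hB _ (hS.inv_mul_mem hg (mem_filter.1 hx).1)
      (mem_filter.1 hx).2).trans (Nat.mul_le_mul_right _ (card_filter_le _ _))

theorem LinFlat_num {n s L M B e : ℕ} (hs : 1 ≤ s) (hM : 1 ≤ M) (he : 1 ≤ e)
    (h : s ^ 2 * n ^ 2 ≤ L * s * (s * (M * n + s * B)))
    (hB : B ^ e ≤ (2 * L * M) ^ e * s ^ (e - 1)) :
    n ^ (e * 2) ≤ (2 * L * M) ^ (e * 2) * s ^ (e * 2 - 1) := by
  have h1 : n ^ 2 ≤ L * (M * n + s * B) := by
    refine Nat.le_of_mul_le_mul_left (c := s ^ 2) (h.trans (le_of_eq ?_)) (by positivity)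
    ring
  by_cases c : n ≤ 2 * L * M
  · exact (Nat.pow_le_pow_left c _).trans (Nat.le_mul_of_pos_right _ (by positivity))
  · have h2 : 2 * L * M * n ≤ n * n := Nat.mul_le_mul_right _ (not_le.1 c).le
    have h3 : L * (s * B) ≤ L * M * (s * B) :=
      Nat.mul_le_mul_right _ (Nat.le_mul_of_pos_right _ hM)
    have h4 : n ^ 2 ≤ 2 * L * M * s * B := by nlinarith
    calc n ^ (e * 2) = (n ^ 2) ^ e := by rw [← pow_mul, mul_comm]
      _ ≤ (2 * L * M * s * B) ^ e := Nat.pow_le_pow_left h4 _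
      _ = (2 * L * M) ^ e * s ^ e * B ^ e := by rw [mul_pow _ B, mul_pow _ s]
      _ ≤ (2 * L * M) ^ e * s ^ e * ((2 * L * M) ^ e * s ^ (e - 1)) := Nat.mul_le_mul_left _ hB
      _ = _ := by
        rw [show e * 2 - 1 = e + (e - 1) by omega, mul_two e, pow_add, pow_add]
        ring

open Classical in
theorem flat {F R G : Type} [Field F] [Ring R] [Nontrivial R] [Algebra F R] [FiniteDimensional F R]
    [Group G] [DecidableEq G] (ψ : G →* R) (S : Finset G) (K M d : ℕ) (hS : Tame K S) (hM1 : 1 ≤ M)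
    (hM : ∀ W : Submodule F R, finrank F W < d → (∃ g ∈ S ^ 3, ψ g ∈ W) →
      #((S ^ 2).filter fun g => ∀ w ∈ W, ψ g * w ∈ W) ≤ M)
    (j : ℕ) (hj : j < d) (W : Submodule F R) (hW : finrank F W ≤ j) :
    #((S ^ 3).filter fun g => ψ g ∈ W) ^ 2 ^ j ≤ (2 * K ^ 4 * M) ^ 2 ^ j * #S ^ (2 ^ j - 1) := by
  induction j generalizing W with
  | zero =>
    have h1 : W = ⊥ := Submodule.finrank_eq_zero.1 (Nat.le_zero.1 hW)
    have h2 : ((S ^ 3).filter fun g => ψ g ∈ W) = ∅ := filter_eq_empty_iff.2 fun g _ hg => by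
      rw [h1, Submodule.mem_bot] at hg
      exact ((Group.isUnit g).map ψ).ne_zero hg
    rw [h2]
    simp
  | succ j ih =>
    obtain ⟨N, hN⟩ : ∃ N, N = (S ^ 3).filter fun g => ψ g ∈ W := ⟨_, rfl⟩
    rw [← hN]
    rcases N.eq_empty_or_nonempty with h0 | ⟨g₀, hg₀⟩
    · rw [h0]
      simp
    have h1 := hM W (by omega) ⟨g₀, mem_filter.1 (hN ▸ hg₀)⟩
    have h2 := LinFlat_energy (N := N) hS _ h1
      (B := ((S ^ 2).filter fun g => ¬ ∀ w ∈ W, ψ g * w ∈ W).sup
        fun h => #(N.filter fun u => h * u ∈ N))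
      fun h a b => le_sup (f := fun h => #(N.filter fun u => h * u ∈ N)) (mem_filter.2 ⟨a, b⟩)
    have h3 : #(S * N) ≤ K ^ 4 * #S := by
      refine le_trans (card_le_card ?_) (hS.2.2 4)
      rw [pow_succ' S 3, hN]
      exact mul_subset_mul_left (filter_subset _ _)
    rw [pow_succ 2 j]
    refine LinFlat_num (card_pos.2 ⟨1, hS.1⟩) hM1 Nat.one_le_two_pow
      ((le_card_mul_mul_mulEnergy S N).trans (Nat.mul_le_mul h3 h2)) ?_
    refine sup_induction
      (p := fun n : ℕ => n ^ 2 ^ j ≤ (2 * K ^ 4 * M) ^ 2 ^ j * #S ^ (2 ^ j - 1)) (by simp)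
      (fun a ha b hb => ?_) fun h hh => ?_
    · rcases le_total a b with c | c
      · rwa [sup_eq_right.2 c]
      · rwa [sup_eq_left.2 c]
    · have h4 : W ⊓ W.comap (LinearMap.mulLeft F (ψ h)) < W :=
        lt_of_le_of_ne inf_le_left fun e => (mem_filter.1 hh).2 fun w hw =>
          (e.ge hw).2
      have h5 := Submodule.finrank_lt_finrank_of_lt h4
      refine le_trans (Nat.pow_le_pow_left (card_le_card fun u hu => ?_) _)
        (ih (by omega) (W ⊓ W.comap (LinearMap.mulLeft F (ψ h))) (by omega))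
      obtain ⟨a1, a2⟩ := mem_filter.1 hu
      rw [hN] at a1 a2
      refine mem_filter.2 ⟨(mem_filter.1 a1).1, (mem_filter.1 a1).2, ?_⟩
      show ψ h * ψ u ∈ W
      rw [← map_mul]
      exact (mem_filter.1 a2).2

end Pool.Agent.Work.MP_5dd17b_co
end

-- merged part: Pool.Agent.Work.MP_5dd17b_co.LinAug
section
/-!
An augmentation ideal spanned by commutators vanishes.

Plan for `aug_zero`. I = ker ε as a left ideal of A. (1) I ≤ Ring.jacobson A: A is Artinian
(`IsArtinianRing.of_finite F A`), so A ⧸ Ring.jacobson A is semisimple (`IsSemiprimaryRing`) and by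
`IsSemisimpleRing.exists_algEquiv_pi_matrix_of_isAlgClosed` a product of matrix algebras. Let ρ_i be
the surjective algebra map from A to the i-th factor. trace ∘ ρ_i kills commutators, so it kills I
by hypothesis. For a in I and any b, a * b is in I, so trace (ρ_i a * x) = 0 for all x, so ρ_i a = 0
(`Matrix.ext_iff_trace_mul_right`). So a maps to 0 in the quotient. (2) x y - y x = x' y' - y' x'
with x' = x - algebraMap (ε x), y' likewise, both in I; so I ≤ jacobson • I (an F-span of elements of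
a left ideal lies in it). (3) `Submodule.FG.eq_bot_of_le_jacobson_smul` (I is finitely generated as
A is Noetherian: finite dimensional over F).
-/

set_option autoImplicit false

namespace Pool.Agent.Work.MP_5dd17b_co

open Module

theorem LinAug_jac {F A : Type} [Field F] [IsAlgClosed F] [Ring A] [Algebra F A]
    [FiniteDimensional F A] (ε : A →ₐ[F] F)
    (h : ∀ a, ε a = 0 → a ∈ Submodule.span F {z : A | ∃ x y, z = x * y - y * x}) (a : A)
    (ha : ε a = 0) : a ∈ Ring.jacobson A := by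
  have := IsArtinianRing.of_finite F A
  have : FiniteDimensional F (A ⧸ Ring.jacobson A) :=
    Module.Finite.of_surjective (Ideal.Quotient.mkₐ F (Ring.jacobson A)).toLinearMap
      (Ideal.Quotient.mkₐ_surjective F _)
  obtain ⟨n, d, -, ⟨e⟩⟩ :=
    IsSemisimpleRing.exists_algEquiv_pi_matrix_of_isAlgClosed F (A ⧸ Ring.jacobson A)
  let ρ : A →ₐ[F] Π i, Matrix (Fin (d i)) (Fin (d i)) F :=
    e.toAlgHom.comp (Ideal.Quotient.mkₐ F (Ring.jacobson A))
  have hρ : Function.Surjective ρ := e.surjective.comp (Ideal.Quotient.mkₐ_surjective F _)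
  have h1 : ∀ i, ∀ z ∈ Submodule.span F {z : A | ∃ x y, z = x * y - y * x},
      (ρ z i).trace = 0 := fun i z hz => by
    induction hz using Submodule.span_induction with
    | mem z hz =>
      obtain ⟨x, y, rfl⟩ := hz
      rw [map_sub, map_mul, map_mul, Pi.sub_apply, Pi.mul_apply, Pi.mul_apply, Matrix.trace_sub,
        Matrix.trace_mul_comm, sub_self]
    | zero => rw [map_zero, Pi.zero_apply, Matrix.trace_zero]
    | add x y _ _ hx hy => rw [map_add, Pi.add_apply, Matrix.trace_add, hx, hy, add_zero]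
    | smul c x _ hx => rw [map_smul, Pi.smul_apply, Matrix.trace_smul, hx, smul_zero]
  have h2 : ρ a = 0 := by
    funext i
    refine Matrix.ext_iff_trace_mul_right.2 fun x => ?_
    obtain ⟨b, hb⟩ := hρ (Pi.single i x)
    have h3 := h1 i (a * b) (h _ (by rw [map_mul, ha, zero_mul]))
    rw [map_mul, Pi.mul_apply, hb, Pi.single_eq_same] at h3
    rw [h3, Pi.zero_apply, Matrix.zero_mul, Matrix.trace_zero]
  exact Ideal.Quotient.eq_zero_iff_mem.1 (e.map_eq_zero_iff.1 h2)

theorem aug_zero {F A : Type} [Field F] [IsAlgClosed F] [Ring A] [Algebra F A]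
    [FiniteDimensional F A] (ε : A →ₐ[F] F)
    (h : ∀ a, ε a = 0 → a ∈ Submodule.span F {z : A | ∃ x y, z = x * y - y * x}) (a : A)
    (ha : ε a = 0) : a = 0 := by
  have := isNoetherian_of_tower F (inferInstance : IsNoetherian F A) (S := A)
  have hI : RingHom.ker ε = ⊥ := by
    refine Submodule.FG.eq_bot_of_le_jacobson_smul (IsNoetherian.noetherian _) fun z hz => ?_
    have h0 : ∀ x, ε (x - algebraMap F A (ε x)) = 0 := fun x => by simp
    have h1 := h z hz
    clear hz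
    induction h1 using Submodule.span_induction with
    | mem z hz =>
      obtain ⟨x, y, rfl⟩ := hz
      have e : x * y - y * x = (x - algebraMap F A (ε x)) • (y - algebraMap F A (ε y)) -
          (y - algebraMap F A (ε y)) • (x - algebraMap F A (ε x)) := by
        simp only [smul_eq_mul, sub_mul, mul_sub]
        rw [Algebra.commutes (ε x) y, Algebra.commutes (ε y) x, Algebra.commutes (ε x)]
        abel
      rw [e]
      exact sub_mem (Submodule.smul_mem_smul (LinAug_jac ε h _ (h0 x)) (h0 y))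
        (Submodule.smul_mem_smul (LinAug_jac ε h _ (h0 y)) (h0 x))
    | zero => exact zero_mem _
    | add x y _ _ hx hy => exact add_mem hx hy
    | smul c x _ hx => exact Submodule.smul_of_tower_mem _ c hx
  exact (Submodule.eq_bot_iff _).1 hI a ha

end Pool.Agent.Work.MP_5dd17b_co
end

-- merged part: Pool.Agent.Work.MP_5dd17b_co.LinAlg
section
/-!
The span of a conjugacy class is a proper subspace of the span of the group.

Plan for `conj_span`. Let V = span of ψ '' Γ; it is closed under products and contains 1, so it is a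
subalgebra A (`Submodule.toSubalgebra`, or `Algebra.adjoin`). The span W of the conjugates is ≤ V.
If finrank W is not smaller, W = V (`Submodule.eq_of_le_of_finrank_le`). Each conjugate satisfies
ψ (g x g⁻¹) - ψ x = ψ g * ψ (x g⁻¹) - ψ (x g⁻¹) * ψ g, a commutator of elements of A. So every a in A
is c • ψ x + (element of the span C of commutators in A); ε kills C and ε (ψ x) = 1, so ε a = 0
gives a in C. `aug_zero` for A and ε restricted (`ε.comp A.val`) gives ψ y - 1 = 0.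
-/

set_option autoImplicit false

namespace Pool.Agent.Work.MP_5dd17b_co

open Module

theorem conj_span {F R G : Type} [Field F] [IsAlgClosed F] [Ring R] [Algebra F R]
    [FiniteDimensional F R] [Group G] (ψ : G →* R) (ε : R →ₐ[F] F) (hε : ∀ g, ε (ψ g) = 1)
    (Γ : Subgroup G) (x y : G) (hx : x ∈ Γ) (hy : y ∈ Γ) (hy1 : ψ y ≠ 1) :
    finrank F (Submodule.span F {z : R | ∃ g ∈ Γ, z = ψ (g * x * g⁻¹)}) <
      finrank F (Submodule.span F (ψ '' (Γ : Set G))) := by
  set V := Submodule.span F (ψ '' (Γ : Set G)) with hV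
  set W := Submodule.span F {z : R | ∃ g ∈ Γ, z = ψ (g * x * g⁻¹)} with hW
  have hm : ∀ g ∈ Γ, ψ g ∈ V := fun g hg => Submodule.subset_span ⟨g, hg, rfl⟩
  have hWV : W ≤ V := Submodule.span_le.2 <| by
    rintro _ ⟨g, hg, rfl⟩
    exact hm _ (Γ.mul_mem (Γ.mul_mem hg hx) (Γ.inv_mem hg))
  by_contra hn
  have hE : W = V := Submodule.eq_of_le_of_finrank_le hWV (not_lt.1 hn)
  have h1 : (1 : R) ∈ V := map_one ψ ▸ hm 1 Γ.one_mem
  have hmul : ∀ a b, a ∈ V → b ∈ V → a * b ∈ V := by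
    intro a b ha hb
    have := Submodule.mul_mem_mul ha hb
    rw [hV, Submodule.span_mul_span] at this
    refine Submodule.span_le.2 ?_ this
    rintro _ ⟨_, ⟨g, hg, rfl⟩, _, ⟨k, hk, rfl⟩, rfl⟩
    have := hm _ (Γ.mul_mem hg hk)
    rwa [map_mul] at this
  let A : Subalgebra F R := V.toSubalgebra h1 hmul
  let C : Submodule F A := Submodule.span F {z : A | ∃ p q, z = p * q - q * p}
  have key : ∀ a ∈ W, a - ε a • ψ x ∈ C.map A.val.toLinearMap := by
    intro a ha
    induction ha using Submodule.span_induction with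
    | mem z hz =>
      obtain ⟨g, hg, rfl⟩ := hz
      refine ⟨_, Submodule.subset_span ⟨⟨ψ g, hm g hg⟩,
        ⟨ψ (x * g⁻¹), hm _ (Γ.mul_mem hx (Γ.inv_mem hg))⟩, rfl⟩, ?_⟩
      change ψ g * ψ (x * g⁻¹) - ψ (x * g⁻¹) * ψ g = _
      rw [hε, one_smul, ← map_mul, ← map_mul, inv_mul_cancel_right, mul_assoc]
    | zero => simp
    | add a b _ _ ha hb =>
      rw [map_add, add_smul, add_sub_add_comm]
      exact add_mem ha hb
    | smul c a _ ha =>
      rw [map_smul, smul_assoc, ← smul_sub]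
      exact Submodule.smul_mem _ c ha
  have h0 := aug_zero (ε.comp A.val) (fun a ha => by
    obtain ⟨b, hb, e⟩ := key a.1 (hE ▸ a.2)
    have ha' : ε a.1 = 0 := ha
    rw [ha', zero_smul, sub_zero] at e
    exact (Subtype.ext e : b = a) ▸ hb) ⟨ψ y - 1, sub_mem (hm y hy) h1⟩ (by
    change ε (ψ y - 1) = 0
    rw [map_sub, hε, map_one, sub_self])
  exact hy1 (sub_eq_zero.1 (congrArg Subtype.val h0))

end Pool.Agent.Work.MP_5dd17b_co
end

-- merged part: Pool.Agent.Work.MP_5dd17b_co.LinComm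
section
/-!
A tame set in a linear group contains, in a bounded power, a commuting set of polynomial size.
-/

set_option autoImplicit false

namespace Pool.Agent.Work.MP_5dd17b_co

open Finset Module
open scoped Pointwise

/-- the elements that map the subspace `W` into itself -/
def stab {F R G : Type} [Field F] [Ring R] [Algebra F R] [Group G] [Finite G] (ψ : G →* R)
    (W : Submodule F R) : Subgroup G where
  carrier := {g | ∀ w ∈ W, ψ g * w ∈ W}
  one_mem' := fun w hw => by simpa using hw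
  mul_mem' := fun ha hb w hw => by
    rw [map_mul, mul_assoc]
    exact ha _ (hb w hw)
  inv_mem' := fun {g} hg => by
    have h1 : ∀ k : ℕ, ∀ w ∈ W, ψ (g ^ k) * w ∈ W := by
      intro k
      induction k with
      | zero => exact fun w hw => by simpa using hw
      | succ k ih =>
        intro w hw
        rw [pow_succ, map_mul, mul_assoc]
        exact ih _ (hg w hw)
    have h2 : g⁻¹ = g ^ (orderOf g - 1) := by
      rw [inv_eq_iff_mul_eq_one, ← pow_succ', Nat.sub_add_cancel (orderOf_pos g), pow_orderOf_eq_one]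
    rw [h2]
    exact h1 _

lemma finrank_stab {F R G : Type} [Field F] [Ring R] [Algebra F R] [FiniteDimensional F R] [Group G]
    [Finite G] (ψ : G →* R) (W : Submodule F R) (u : G) (hu : ψ u ∈ W) :
    finrank F (Submodule.span F (ψ '' (stab ψ W : Set G))) ≤ finrank F W := by
  have h1 : Submodule.span F (ψ '' (stab ψ W : Set G)) ≤ W.map (LinearMap.mulRight F (ψ u⁻¹)) := by
    rw [Submodule.span_le]
    rintro _ ⟨g, hg, rfl⟩
    refine ⟨ψ g * ψ u, hg _ hu, ?_⟩
    rw [LinearMap.mulRight_apply, ← map_mul, ← map_mul, mul_inv_cancel_right]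
  exact (Submodule.finrank_mono h1).trans (Submodule.finrank_map_le _ _)

lemma finrank_cent {F R G : Type} [Field F] [Ring R] [Algebra F R] [FiniteDimensional F R] [Group G]
    (ψ : G →* R) (hψ : Function.Injective ψ) (Γ : Subgroup G) (x y : G) (hy : y ∈ Γ)
    (h : ¬ Commute x y) :
    finrank F (Submodule.span F (ψ '' ((Γ ⊓ Subgroup.centralizer {x} : Subgroup G) : Set G))) <
      finrank F (Submodule.span F (ψ '' (Γ : Set G))) := by
  refine Submodule.finrank_lt_finrank_of_lt (lt_of_le_of_ne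
    (Submodule.span_mono (Set.image_mono fun g hg => hg.1)) fun e => h ?_)
  have h1 : Submodule.span F (ψ '' ((Γ ⊓ Subgroup.centralizer {x} : Subgroup G) : Set G)) ≤
      LinearMap.eqLocus (LinearMap.mulLeft F (ψ x)) (LinearMap.mulRight F (ψ x)) := by
    rw [Submodule.span_le]
    rintro _ ⟨g, hg, rfl⟩
    have := Subgroup.mem_centralizer_iff.mp hg.2 x rfl
    show ψ x * ψ g = ψ g * ψ x
    rw [← map_mul, this, map_mul]
  have h2 : ψ x * ψ y = ψ y * ψ x := h1 (e ▸ Submodule.subset_span ⟨y, hy, rfl⟩)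
  exact hψ (by rw [map_mul, map_mul, h2])

open Classical in
theorem comm_step {F R G : Type} [Field F] [IsAlgClosed F] [Ring R] [Algebra F R]
    [FiniteDimensional F R] [Group G] [DecidableEq G] [Finite G] (ψ : G →* R)
    (hψ : Function.Injective ψ) (ε : R →ₐ[F] F) (hε : ∀ g, ε (ψ g) = 1) (Γ : Subgroup G) (d : ℕ)
    (hd : finrank F (Submodule.span F (ψ '' (Γ : Set G))) ≤ d + 1) (K : ℕ) (S : Finset G)
    (hS : Tame K S) (hΓ : ∀ g ∈ S, g ∈ Γ) (hc : ¬ Comm S) :
    ∃ H : Subgroup G, finrank F (Submodule.span F (ψ '' (H : Set G))) ≤ d ∧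
      #S ≤ (2 * K ^ 4 * #((S ^ 2).filter (· ∈ H)) ^ 2) ^ 2 ^ d := by
  have : Nontrivial R := ε.toRingHom.domain_nontrivial
  simp only [Comm, not_forall] at hc
  obtain ⟨x, hx, y, hy, hxy⟩ := hc
  have c1 : finrank F (Submodule.span F
      (ψ '' ((Γ ⊓ Subgroup.centralizer {x} : Subgroup G) : Set G))) ≤ d :=
    Nat.le_of_lt_succ ((finrank_cent ψ hψ Γ x y (hΓ y hy) hxy).trans_le hd)
  obtain ⟨H, hH, hmax⟩ := Set.exists_max_image
    {H : Subgroup G | finrank F (Submodule.span F (ψ '' (H : Set G))) ≤ d}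
    (fun H => #((S ^ 2).filter (· ∈ H))) (Set.toFinite _) ⟨_, c1⟩
  refine ⟨H, hH, ?_⟩
  obtain ⟨M, hM⟩ : ∃ M, M = #((S ^ 2).filter (· ∈ H)) := ⟨_, rfl⟩
  rw [← hM] at hmax ⊢
  have hM1 : 1 ≤ M := hM ▸ card_pos.mpr ⟨1, mem_filter.mpr ⟨one_mem_pow hS.1, one_mem H⟩⟩
  have hy1 : ψ y ≠ 1 := fun h => hxy (by rw [hψ (h.trans ψ.map_one.symm)]; exact Commute.one_right x)
  obtain ⟨W, hW⟩ : ∃ W, W = Submodule.span F {z : R | ∃ g ∈ Γ, z = ψ (g * x * g⁻¹)} := ⟨_, rfl⟩
  have c2 : finrank F W ≤ d :=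
    hW ▸ Nat.le_of_lt_succ ((conj_span ψ ε hε Γ x y (hΓ x hx) (hΓ y hy) hy1).trans_le hd)
  have c3 := flat ψ S K M (d + 1) hS hM1 (by
    rintro V hV ⟨u, -, hu⟩
    exact hmax (stab ψ V) ((finrank_stab ψ V u hu).trans (Nat.le_of_lt_succ hV))) d (by omega) W c2
  obtain ⟨N, hN⟩ : ∃ N, N = (S ^ 3).filter fun g => ψ g ∈ W := ⟨_, rfl⟩
  rw [← hN] at c3
  have c4 : #S ≤ M * #N := by
    refine card_le_mul_card_image_of_maps_to (f := fun g => g * x * g⁻¹) (fun g hg => ?_) _
      fun z _ => ?_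
    · rw [hN, mem_filter, hW]
      refine ⟨?_, Submodule.subset_span ⟨g, hΓ g hg, rfl⟩⟩
      rw [pow_succ, sq]
      exact mul_mem_mul (mul_mem_mul hg hx) (hS.inv_mem hg)
    rcases (S.filter fun g => g * x * g⁻¹ = z).eq_empty_or_nonempty with h0 | ⟨q, hq⟩
    · rw [h0]
      simp
    obtain ⟨q1, q2⟩ := mem_filter.mp hq
    refine le_trans (card_le_card_of_injOn (fun g => q⁻¹ * g) (fun g hg => ?_)
      fun a _ b _ e => mul_left_cancel e) (hmax _ c1)
    obtain ⟨g1, g2⟩ := mem_filter.mp (mem_coe.mp hg)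
    refine mem_coe.mpr (mem_filter.mpr ⟨hS.inv_mul_mem q1 g1,
      Subgroup.mem_inf.mpr ⟨Γ.mul_mem (Γ.inv_mem (hΓ q q1)) (hΓ g g1),
        Subgroup.mem_centralizer_iff.mpr fun x' hx' => ?_⟩⟩)
    rw [Set.mem_singleton_iff.mp hx']
    have e := g2.trans q2.symm
    calc x * (q⁻¹ * g) = q⁻¹ * (q * x * q⁻¹) * g := by group
      _ = q⁻¹ * g * x := by rw [← e]; group
  have h0 : 0 < #S := card_pos.mpr ⟨1, hS.1⟩
  refine Nat.le_of_mul_le_mul_right (c := #S ^ (2 ^ d - 1)) ?_ (by positivity)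
  calc #S * #S ^ (2 ^ d - 1) = #S ^ 2 ^ d := by
        rw [← pow_succ', Nat.sub_add_cancel Nat.one_le_two_pow]
    _ ≤ (M * #N) ^ 2 ^ d := Nat.pow_le_pow_left c4 _
    _ ≤ M ^ 2 ^ d * ((2 * K ^ 4 * M) ^ 2 ^ d * #S ^ (2 ^ d - 1)) := by
        rw [mul_pow]
        exact Nat.mul_le_mul_left _ c3
    _ = _ := by
        rw [← mul_assoc, ← mul_pow]
        congr 2
        ring

theorem commuting (d : ℕ) : ∃ c m : ℕ, 1 ≤ c ∧ ∀ (F R G : Type) [Field F] [IsAlgClosed F] [Ring R]
    [Algebra F R] [FiniteDimensional F R] [Group G] [DecidableEq G] [Finite G] (ψ : G →* R),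
    Function.Injective ψ → ∀ ε : R →ₐ[F] F, (∀ g, ε (ψ g) = 1) → ∀ Γ : Subgroup G,
    finrank F (Submodule.span F (ψ '' (Γ : Set G))) ≤ d → ∀ (K : ℕ) (S : Finset G), Tame K S →
    (∀ g ∈ S, g ∈ Γ) → ∃ B ⊆ S ^ m, Comm B ∧ #S ≤ (2 * K * #B) ^ c := by
  classical
  induction d with
  | zero =>
    refine ⟨1, 1, le_rfl, fun F R G _ _ _ _ _ _ _ _ ψ _ ε hε Γ hd => ?_⟩
    rw [Nat.le_zero, Submodule.finrank_eq_zero] at hd
    have h1 : ψ 1 ∈ Submodule.span F (ψ '' (Γ : Set G)) := Submodule.subset_span ⟨1, one_mem Γ, rfl⟩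
    rw [hd, Submodule.mem_bot] at h1
    have h2 := hε 1
    rw [h1, map_zero] at h2
    exact absurd h2 zero_ne_one
  | succ d ih =>
    obtain ⟨c, m, hc, ih⟩ := ih
    have hc' : 1 ≤ (4 + 6 * c) * 2 ^ d := Nat.mul_pos (by omega) (by positivity)
    refine ⟨(4 + 6 * c) * 2 ^ d, 2 * m + 1, hc',
      fun F R G _ _ _ _ _ _ _ _ ψ hψ ε hε Γ hd K S hS hΓ => ?_⟩
    have hK := hS.one_le
    by_cases h : Comm S
    · refine ⟨S, subset_pow hS.1 (by omega), h, le_trans ?_ (Nat.le_self_pow (by omega) _)⟩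
      exact Nat.le_mul_of_pos_left _ (by omega)
    obtain ⟨H, h1, h2⟩ := comm_step ψ hψ ε hε Γ d hd K S hS hΓ h
    obtain ⟨B, b1, b2, b3⟩ := ih F R G ψ hψ ε hε H h1 _ _ (hS.inter H)
      fun g hg => (mem_filter.mp hg).2
    refine ⟨B, b1.trans ((inter_pow_subset S H m).trans ((filter_subset _ _).trans
      (pow_subset_pow_right hS.1 (by omega)))), b2, h2.trans ?_⟩
    have hB : 1 ≤ #B := by
      by_contra h3
      have := card_pos.mpr ⟨1, (hS.inter H).1⟩
      rw [show #B = 0 by omega, mul_zero, zero_pow (by omega)] at b3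
      omega
    rw [pow_mul]
    refine Nat.pow_le_pow_left ?_ _
    have e1 : 2 * K ^ 4 ≤ (2 * K * #B) ^ 4 := by
      rw [mul_pow, mul_pow]
      exact le_trans (Nat.mul_le_mul_right _ (by norm_num)) (Nat.le_mul_of_pos_right _ (by positivity))
    have e2 : 2 * K ^ 3 * #B ≤ (2 * K * #B) ^ 3 := by
      rw [mul_pow, mul_pow]
      exact Nat.mul_le_mul (Nat.mul_le_mul_right _ (by norm_num)) (Nat.le_self_pow (by norm_num) _)
    calc 2 * K ^ 4 * #((S ^ 2).filter (· ∈ H)) ^ 2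
        ≤ (2 * K * #B) ^ 4 * (((2 * K * #B) ^ 3) ^ c) ^ 2 :=
          Nat.mul_le_mul e1 (Nat.pow_le_pow_left (b3.trans (Nat.pow_le_pow_left e2 _)) _)
      _ = _ := by
          rw [← pow_mul, ← pow_mul, ← pow_add]
          congr 1
          ring

end Pool.Agent.Work.MP_5dd17b_co
end

-- merged part: Pool.Agent.Work.MP_5dd17b_co.LinTors
section
/-!
In a linear group, commuting torsion elements of order prime to the characteristic are few.

Plan for `torsion`. Let f b = Matrix.toLin' (ψ b) for b in the subtype B, a commuting family of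
endomorphisms of Fin n → F. `Module.End.iSup_maxGenEigenspace_eq_top`,
`Module.End.iSup_iInf_maxGenEigenspace_eq_top_of_iSup_maxGenEigenspace_eq_top_of_commute` and
`Module.End.independent_iInf_maxGenEigenspace_of_forall_mapsTo` give an independent spanning family
V χ, χ : B → F; `iSupIndep.subtype_ne_bot_le_finrank` bounds the number of χ with V χ ≠ ⊥ by n.
Each f b is killed by X^e - 1, which is separable (`Polynomial.separable_X_pow_sub_C`), so it is
semisimple (`Module.End.isSemisimple_of_squarefree_aeval_eq_zero`) and maximal generalised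
eigenspaces are eigenspaces; so f b acts on V χ as the scalar χ b, and χ b ^ e = 1 when V χ ≠ ⊥.
The map b ↦ (χ ↦ χ b) from B to functions {χ // V χ ≠ ⊥} → nthRootsFinset e 1 is injective
(f a = f b on a spanning family) and `Polynomial.card_nthRoots` gives at most e roots; e ≥ 1.
-/

set_option autoImplicit false

namespace Pool.Agent.Work.MP_5dd17b_co

open Finset Module

theorem torsion {F G : Type} [Field F] [IsAlgClosed F] [Group G] [DecidableEq G] (n e : ℕ)
    (he : (e : F) ≠ 0) (ψ : G →* Matrix (Fin n) (Fin n) F) (hψ : Function.Injective ψ)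
    (B : Finset G) (hB : Comm B) (h : ∀ b ∈ B, b ^ e = 1) : #B ≤ e ^ n := by
  classical
  have he0 : 0 < e := Nat.pos_of_ne_zero fun h0 => he (by rw [h0, Nat.cast_zero])
  let T : Matrix (Fin n) (Fin n) F ≃ₐ[F] End F (Fin n → F) := Matrix.toLinAlgEquiv'
  let f : B → End F (Fin n → F) := fun b => T (ψ b)
  have hc : ∀ a b : B, Commute (f a) (f b) := fun a b => ((hB a a.2 b b.2).map ψ).map T
  have hp : ∀ b : B, f b ^ e = 1 := fun b => by
    show T (ψ b) ^ e = 1
    rw [← map_pow, ← map_pow, h b b.2, map_one, map_one]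
  have hs : ∀ (b : B) (μ : F), (f b).maxGenEigenspace μ = (f b).eigenspace μ := fun b =>
    (End.isSemisimple_of_squarefree_aeval_eq_zero
      (Polynomial.separable_X_pow_sub_C 1 he one_ne_zero).squarefree
      (by simp [hp b])).isFinitelySemisimple.maxGenEigenspace_eq_eigenspace
  let V : (B → F) → Submodule F (Fin n → F) := fun χ => ⨅ b, (f b).maxGenEigenspace (χ b)
  have htop : ⨆ χ, V χ = ⊤ :=
    End.iSup_iInf_maxGenEigenspace_eq_top_of_iSup_maxGenEigenspace_eq_top_of_commute f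
      (fun a b _ => hc a b) fun b => End.iSup_maxGenEigenspace_eq_top _
  have hind : iSupIndep V := End.independent_iInf_maxGenEigenspace_of_forall_mapsTo f
    fun a b φ => End.mapsTo_maxGenEigenspace_of_comm (hc b a) φ
  have hact : ∀ (χ : B → F) (b : B), ∀ v ∈ V χ, f b v = χ b • v := fun χ b v hv => by
    have h1 := (Submodule.mem_iInf _).1 hv b
    rwa [hs, End.mem_eigenspace_iff] at h1
  let _ := hind.fintypeNeBotOfFiniteDimensional
  have hcard : Fintype.card {χ // V χ ≠ ⊥} ≤ n := by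
    simpa using hind.subtype_ne_bot_le_finrank
  have hroot : ∀ (χ : {χ // V χ ≠ ⊥}) (b : B), χ.1 b ∈ Polynomial.nthRootsFinset e (1 : F) := by
    intro χ b
    obtain ⟨v, hv, hv0⟩ := (Submodule.ne_bot_iff _).1 χ.2
    have h1 : (f b).HasEigenvector (χ.1 b) v :=
      ⟨End.mem_eigenspace_iff.2 (hact _ b v hv), hv0⟩
    have h2 := h1.pow_apply e
    rw [hp, End.one_apply] at h2
    rw [Polynomial.mem_nthRootsFinset he0]
    have h3 : (χ.1 b ^ e - 1) • v = 0 := by rw [sub_smul, one_smul, ← h2, sub_self]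
    exact sub_eq_zero.1 ((smul_eq_zero.1 h3).resolve_right hv0)
  have hinj : Function.Injective fun (b : B) (χ : {χ // V χ ≠ ⊥}) =>
      (⟨χ.1 b, hroot χ b⟩ : Polynomial.nthRootsFinset e (1 : F)) := by
    intro a b hab
    refine Subtype.ext (hψ (T.injective (LinearMap.ext fun v => ?_)))
    show f a v = f b v
    have hv : v ∈ ⨆ χ, V χ := htop ▸ Submodule.mem_top
    refine Submodule.iSup_induction V (motive := fun v => f a v = f b v) hv (fun χ w hw => ?_)
      (by simp) fun x y hx hy => by rw [map_add, map_add, hx, hy]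
    by_cases h0 : V χ = ⊥
    · rw [h0, Submodule.mem_bot] at hw
      simp [hw]
    · have h1 : χ a = χ b := congrArg Subtype.val (congrFun hab ⟨χ, h0⟩)
      rw [hact χ a w hw, hact χ b w hw, h1]
  have h1 := Fintype.card_le_of_injective _ hinj
  rw [Fintype.card_coe, Fintype.card_fun, Fintype.card_coe] at h1
  have h2 : #(Polynomial.nthRootsFinset e (1 : F)) ≤ e :=
    (Multiset.toFinset_card_le _).trans (Polynomial.card_nthRoots e 1)
  exact h1.trans ((Nat.pow_le_pow_left h2 _).trans (Nat.pow_le_pow_right he0 hcard))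

end Pool.Agent.Work.MP_5dd17b_co
end

-- merged part: Pool.Agent.Work.MP_5dd17b_co.LinGood
section
/-!
In a linear group some power map from a coprime family keeps the centraliser.

Plan for `good_exp`. Suppose every i ≤ D is bad, with witness g i commuting with x ^ l i but not
with x. Let U k be the submodule of r in R commuting with ψ x ^ (∏ i in range k, l i)
(`LinearMap.eqLocus` of mulLeft and mulRight, or the submodule of `Subalgebra.centralizer`).
U k ≤ U (k+1); ψ (g k) is in U (k+1); if it were in U k then (ψ injective) g k commutes with x ^ a and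
x ^ b for coprime a = ∏ i in range k, l i and b = l k (`Nat.Coprime.prod_left`), so with x
(`Nat.exists_mul_mod_eq_one_of_coprime` or Bezout `Int.gcd_eq_gcd_ab` with `zpow`, `Commute.zpow_right`).
So finrank (U k) ≥ k for k ≤ D + 1, against finrank (U (D+1)) ≤ finrank R ≤ D.
-/

set_option autoImplicit false

namespace Pool.Agent.Work.MP_5dd17b_co

open Finset Module

theorem LinGood_cop {G : Type} [Group G] {g x : G} {a b : ℕ} (hab : Nat.Coprime a b)
    (h1 : Commute g (x ^ a)) (h2 : Commute g (x ^ b)) : Commute g x := by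
  have e := Nat.gcd_eq_gcd_ab a b
  rw [hab, Nat.cast_one] at e
  have h3 := (h1.zpow_right (a.gcdA b)).mul_right (h2.zpow_right (a.gcdB b))
  rwa [← zpow_natCast, ← zpow_natCast, ← zpow_mul, ← zpow_mul, ← zpow_add, ← e, zpow_one] at h3

theorem good_exp {F R G : Type} [Field F] [Ring R] [Algebra F R] [FiniteDimensional F R] [Group G]
    (ψ : G →* R) (hψ : Function.Injective ψ) (D : ℕ) (hD : finrank F R ≤ D) (l : ℕ → ℕ)
    (hl : ∀ i j, i ≠ j → Nat.Coprime (l i) (l j)) (x : G) :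
    ∃ i ≤ D, ∀ g, Commute g (x ^ l i) → Commute g x := by
  by_contra hc
  push Not at hc
  let U : ℕ → Submodule F R := fun k =>
    (Subalgebra.centralizer F {ψ x ^ ∏ i ∈ range k, l i}).toSubmodule
  have hU : ∀ k r, r ∈ U k ↔ Commute r (ψ x ^ ∏ i ∈ range k, l i) := fun k r => by
    simp only [U, Subalgebra.mem_toSubmodule, Subalgebra.mem_centralizer_iff,
      Set.mem_singleton_iff, forall_eq]
    exact eq_comm
  have key : ∀ k, k ≤ D + 1 → k ≤ finrank F (U k) := by
    intro k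
    induction k with
    | zero => exact fun _ => Nat.zero_le _
    | succ k ih =>
      intro hk
      obtain ⟨g, hg1, hg2⟩ := hc k (by omega)
      have hlt : U k < U (k + 1) := by
        refine lt_of_le_of_ne (fun r hr => ?_) fun e => hg2 ?_
        · rw [hU] at hr ⊢
          rw [prod_range_succ, pow_mul]
          exact hr.pow_right _
        · have h1 : ψ g ∈ U (k + 1) := by
            rw [hU, prod_range_succ, mul_comm, pow_mul, ← map_pow]
            exact (hg1.map ψ).pow_right _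
          rw [← e, hU, ← map_pow] at h1
          refine LinGood_cop (Nat.Coprime.prod_left fun i hi => hl i k (mem_range.1 hi).ne)
            (hψ ?_) hg1
          rw [map_mul, map_mul]
          exact h1
      exact lt_of_le_of_lt (ih (by omega)) (Submodule.finrank_lt_finrank_of_lt hlt)
  have h1 := (key (D + 1) le_rfl).trans (Submodule.finrank_le _)
  omega

end Pool.Agent.Work.MP_5dd17b_co
end

-- merged part: Pool.Agent.Work.MP_5dd17b_co.LinColour
section
/-!
The correlated colouring for a group in which some power map keeps the centraliser.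

Plan: port of `exists_colour` in Colour.lean. Let ρ come from `exists_rep`. Choose k : G → ℕ with
k v ≤ D good for v (choice from hgood) and put λ x = l (k (ρ x)); then λ x⁻¹ = λ x, λ (ρ x) = λ x
(ρ (ρ x) = ρ x) and λ x is good for x (Commute with inverse). Apply `quasi_kernel` to
f v = ρ (v ^ λ v) on V = {v : v ^ e ≠ 1}: f v = v gives v ^ (λ - 1) = 1 or v ^ (λ + 1) = 1, and
λ (λ^2 - 1) = λ (λ - 1) (λ + 1) divides e. Note f (ρ x) = ρ (x ^ λ x).
π x = if ρ x ∈ I then ρ (x ^ λ x) else ρ x, s x = decide (ρ x ∈ I).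
Fibres: π x = z forces x ∈ {z, z⁻¹} or, for some i ≤ D and y ∈ {z, z⁻¹}, x in
R i y = {x : x ^ l i = y and every g commuting with x ^ l i commutes with x}. Elements of R i y
commute pairwise (x' commutes with x' ^ l i = x ^ l i), so the image of R i y under x ↦ x * x0⁻¹ is
a commuting set of elements killed by l i, hence by e: at most t elements.
Forced pairs: for x with x ^ e ≠ 1 put x0 = x, x1 = x0 ^ λ x0, x2 = x1 ^ λ x1, x3 = x2 ^ λ x2,
powers of x with exponents in [1, L^3]. One of ρ x0, ρ x1, ρ x2 is in I; if ρ xi ∈ I then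
ρ x(i+1) ∉ I, π xi = ρ x(i+1) = π x(i+1), s differs, and xi ^ e ≠ 1 gives xi ≠ 1, x(i+1) ≠ 1.
-/

set_option autoImplicit false

namespace Pool.Agent.Work.MP_5dd17b_co

open Finset

theorem lin_colour {G : Type} [Group G] [DecidableEq G] [Fintype G] (D e L t : ℕ) (l : ℕ → ℕ)
    (hl : ∀ i, 2 ≤ l i) (hgood : ∀ x : G, ∃ i ≤ D, ∀ g, Commute g (x ^ l i) → Commute g x)
    (he : ∀ i ≤ D, l i * (l i ^ 2 - 1) ∣ e) (hL : ∀ i ≤ D, l i ≤ L)
    (ht : ∀ B : Finset G, Comm B → (∀ b ∈ B, b ^ e = 1) → #B ≤ t) :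
    ∃ (π : G → G) (s : G → Bool), (∀ x, π x⁻¹ = π x) ∧ (∀ x, s x⁻¹ = s x) ∧
      (∀ z, #(univ.filter fun x => π x = z) ≤ 2 + 2 * (D + 1) * t) ∧
      ∀ x, x ^ e ≠ 1 → ∃ i j, 1 ≤ i ∧ i ≤ L ^ 3 ∧ 1 ≤ j ∧ j ≤ L ^ 3 ∧ x ^ i ≠ 1 ∧ x ^ j ≠ 1 ∧
        π (x ^ i) = π (x ^ j) ∧ s (x ^ i) ≠ s (x ^ j) := by
  classical
  obtain ⟨ρ, r1, r2⟩ := exists_rep (G := G)
  obtain ⟨k, k1, k2, k3⟩ : ∃ k : G → ℕ, (∀ x, k x ≤ D) ∧ (∀ x, k x⁻¹ = k x) ∧
      ∀ x g, Commute g (x ^ l (k x)) → Commute g x := by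
    choose k k1 k2 using hgood
    refine ⟨fun x => k (ρ x), fun x => k1 _, fun x => by simp only [r1], fun x g hg => ?_⟩
    have := k2 (ρ x) g
    beta_reduce at hg
    generalize k (ρ x) = n at hg this
    rcases r2 x with h | h <;> rw [h] at this
    · exact this hg
    · rw [inv_pow] at this
      simpa using this hg.inv_right
  have r3 : ∀ x, ρ (ρ x ^ l (k (ρ x))) = ρ (x ^ l (k x)) := fun x => by
    rcases r2 x with h | h
    · rw [h]
    · rw [h, k2, inv_pow, r1]
  have r4 : ∀ x, ρ x ^ e ≠ 1 ↔ x ^ e ≠ 1 := fun x => by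
    rcases r2 x with h | h
    · rw [h]
    · rw [h, inv_pow, inv_ne_one]
  have d0 : ∀ i ≤ D, ∀ (n : ℕ) (x : G), n ∣ l i * (l i ^ 2 - 1) → x ^ n = 1 → x ^ e = 1 := by
    intro i hi n x h1 h2
    obtain ⟨c, rfl⟩ := h1.trans (he i hi)
    rw [pow_mul, h2, one_pow]
  obtain ⟨I, i1, i2, i3⟩ := quasi_kernel (fun v => ρ (v ^ l (k v)))
    (univ.filter fun v => v ^ e ≠ 1) (by
      intro v hv h
      apply (mem_filter.mp hv).2
      have d1 := d0 _ (k1 v)
      obtain ⟨m, hm⟩ : ∃ m, l (k v) = m + 1 := ⟨l (k v) - 1, by have := hl (k v); omega⟩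
      have e1 : (m + 1) ^ 2 - 1 = m * (m + 2) := by
        rw [Nat.sub_eq_iff_eq_add (Nat.one_le_pow _ _ (by omega))]
        ring
      rw [hm] at h
      rw [hm, e1] at d1
      rcases r2 (v ^ (m + 1)) with h1 | h1
      · refine d1 m v ⟨(m + 1) * (m + 2), by ring⟩ ?_
        rw [h, pow_succ] at h1
        exact (mul_eq_right.mp h1.symm)
      · refine d1 (m + 2) v ⟨(m + 1) * m, by ring⟩ ?_
        rw [h] at h1
        rw [pow_succ]
        exact mul_eq_one_iff_inv_eq.mpr h1.symm)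
  have root : ∀ i ≤ D, ∀ y, #(univ.filter fun x => k x = i ∧ x ^ l i = y) ≤ t := by
    intro i hi y
    rcases (univ.filter fun x => k x = i ∧ x ^ l i = y).eq_empty_or_nonempty with h | ⟨x0, h⟩
    · simp [h]
    have cm : ∀ a ∈ univ.filter fun x => k x = i ∧ x ^ l i = y,
        ∀ b ∈ univ.filter fun x => k x = i ∧ x ^ l i = y, Commute a b := by
      intro a ha b hb
      obtain ⟨a1, a2⟩ := (mem_filter.mp ha).2
      obtain ⟨b1, b2⟩ := (mem_filter.mp hb).2
      refine k3 b a ?_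
      rw [b1, b2, ← a2]
      exact Commute.self_pow _ _
    rw [← card_image_of_injective _ (mul_left_injective x0⁻¹)]
    refine ht _ (fun a' ha' b' hb' => ?_) fun b' hb' => ?_
    · obtain ⟨a, ha, rfl⟩ := mem_image.mp ha'
      obtain ⟨b, hb, rfl⟩ := mem_image.mp hb'
      exact ((cm a ha b hb).mul_right (cm a ha x0 h).inv_right).mul_left
        ((cm x0 h b hb).inv_left.mul_right (Commute.refl _))
    · obtain ⟨b, hb, rfl⟩ := mem_image.mp hb'
      refine d0 i hi (l i) _ (dvd_mul_right _ _) ?_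
      rw [(cm b hb x0 h).inv_right.mul_pow, inv_pow, (mem_filter.mp hb).2.2,
        (mem_filter.mp h).2.2, mul_inv_cancel]
  refine ⟨fun x => if ρ x ∈ I then ρ (x ^ l (k x)) else ρ x, fun x => decide (ρ x ∈ I),
    fun x => by simp only [r1, k2, inv_pow], fun x => by simp only [r1], fun z => ?_, ?_⟩
  · have : (univ.filter fun x => (if ρ x ∈ I then ρ (x ^ l (k x)) else ρ x) = z) ⊆
        {z, z⁻¹} ∪ (range (D + 1)).biUnion fun i =>
          (univ.filter fun x => k x = i ∧ x ^ l i = z) ∪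
            (univ.filter fun x => k x = i ∧ x ^ l i = z⁻¹) := by
      intro x hx
      have h1 := (mem_filter.mp hx).2
      simp only [mem_union, mem_insert, mem_singleton, mem_filter, mem_univ, true_and,
        mem_biUnion, mem_range]
      split_ifs at h1 with h2
      · refine Or.inr ⟨k x, Nat.lt_succ_of_le (k1 x), ?_⟩
        rcases r2 (x ^ l (k x)) with h | h
        · exact Or.inl ⟨rfl, h ▸ h1⟩
        · exact Or.inr ⟨rfl, by rw [← h1, h, inv_inv]⟩
      · rcases r2 x with h | h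
        · exact Or.inl (Or.inl (h ▸ h1))
        · exact Or.inl (Or.inr (by rw [← h1, h, inv_inv]))
    have h2 := (card_le_card this).trans ((card_union_le _ _).trans
      (Nat.add_le_add card_le_two (card_biUnion_le_card_mul _ _ (t + t) fun i hi =>
        (card_union_le _ _).trans (Nat.add_le_add (root i (Nat.le_of_lt_succ (mem_range.mp hi)) _)
          (root i (Nat.le_of_lt_succ (mem_range.mp hi)) _)))))
    rw [card_range] at h2
    exact h2.trans (le_of_eq (by ring))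
  · intro x hx
    have L1 : 1 ≤ L := by
      have := hl 0
      have := hL 0 (Nat.zero_le _)
      omega
    have l1 : ∀ y, 1 ≤ l (k y) := fun y => by
      have := hl (k y)
      omega
    have key : ∀ i, 1 ≤ i → i ≤ L ^ 2 → ρ (x ^ i) ∈ I → ∃ i j, 1 ≤ i ∧ i ≤ L ^ 3 ∧ 1 ≤ j ∧
        j ≤ L ^ 3 ∧ x ^ i ≠ 1 ∧ x ^ j ≠ 1 ∧
        (if ρ (x ^ i) ∈ I then ρ ((x ^ i) ^ l (k (x ^ i))) else ρ (x ^ i)) =
          (if ρ (x ^ j) ∈ I then ρ ((x ^ j) ^ l (k (x ^ j))) else ρ (x ^ j)) ∧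
        decide (ρ (x ^ i) ∈ I) ≠ decide (ρ (x ^ j) ∈ I) := by
      intro i hi hi' h
      have h1 := i2 _ h
      simp only [r3] at h1
      rw [← pow_mul] at h1
      have h2 := (r4 _).1 (mem_filter.mp (i1 h)).2
      refine ⟨i, i * l (k (x ^ i)), hi, hi'.trans (Nat.pow_le_pow_right L1 (by norm_num)),
        Nat.mul_pos hi (l1 _), ?_, fun h3 => h2 (by rw [h3, one_pow]), fun h3 => h2 ?_,
        by rw [if_pos h, if_neg h1, ← pow_mul], by simp [h, h1]⟩
      · rw [pow_succ]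
        exact Nat.mul_le_mul hi' (hL _ (k1 _))
      · exact d0 _ (k1 (x ^ i)) _ _ (dvd_mul_right _ _) (by rw [← pow_mul, h3])
    rcases i3 _ (mem_filter.mpr ⟨mem_univ _, (r4 x).2 hx⟩) with h | h | h
    · exact key 1 le_rfl (Nat.one_le_pow _ _ L1) (by rwa [pow_one])
    · exact key (l (k x)) (l1 _) ((hL _ (k1 _)).trans (Nat.le_self_pow (by norm_num) _))
        (by simpa only [r3] using h)
    · refine key (l (k x) * l (k (x ^ l (k x)))) (Nat.mul_pos (l1 _) (l1 _)) ?_ ?_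
      · rw [sq]
        exact Nat.mul_le_mul (hL _ (k1 _)) (hL _ (k1 _))
      · rw [pow_mul]
        simpa only [r3] using h

end Pool.Agent.Work.MP_5dd17b_co
end

-- merged part: Pool.Agent.Work.MP_5dd17b_co.LinPigeon
section
/-!
Pigeonhole on simultaneous translates, and a coprime family of exponents.

Plan for `pigeon`. Map B ×ˢ Fintype.piFinset (fun _ : Fin J => Y) to
Fintype.piFinset (fun _ : Fin J => S ^ (1 + m * J)) by (b, y) ↦ (j ↦ y j * b ^ (j + 1))
(`pow_mem_pow`, `pow_subset_pow_right` with 1 ∈ S). In a nonempty fibre fix (b0, y0); any (b, y) in it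
has (y0 j)⁻¹ * y j = b0 ^ (j+1) * (b ^ (j+1))⁻¹ = (b0 * b⁻¹) ^ (j+1) as b, b0 commute, so
(b0 * b⁻¹) ^ e = 1 by h; (b, y) ↦ b0 * b⁻¹ is injective on the fibre and its image is a commuting set,
so the fibre has at most t elements. `card_le_mul_card_image_of_maps_to`, `Fintype.card_piFinset`,
then cancel |Y| ^ J. See `comm_fibre` in Colour.lean for the same argument with three translates.

Plan for `family`. Let q 0 = 1, q (i+1) = q i * (2 + P * q i), l i = 2 + P * q i. All q i and l i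
are odd, l i ∣ q j for i < j, so a common divisor of l i and l j divides 2 and is odd.
-/

set_option autoImplicit false

namespace Pool.Agent.Work.MP_5dd17b_co

open Finset
open scoped Pointwise

theorem pigeon {G : Type} [Group G] [DecidableEq G] (S Y B : Finset G) (m J e t K : ℕ)
    (hY : Y ⊆ S) (hY0 : Y.Nonempty) (h1 : 1 ∈ S) (hB : B ⊆ S ^ m) (hc : Comm B)
    (hS : ∀ r, #(S ^ r) ≤ K ^ r * #Y)
    (ht : ∀ B : Finset G, Comm B → (∀ b ∈ B, b ^ e = 1) → #B ≤ t)
    (h : ∀ x, (∀ j, 1 ≤ j → j ≤ J → x ^ j ∈ Y⁻¹ * Y) → x ^ e = 1) :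
    #B ≤ t * K ^ ((1 + m * J) * J) := by
  have key : #(B ×ˢ Fintype.piFinset (fun _ : Fin J => Y)) ≤
      t * #(Fintype.piFinset (fun _ : Fin J => S ^ (1 + m * J))) := by
    refine card_le_mul_card_image_of_maps_to
      (f := fun p : G × (Fin J → G) => fun j : Fin J => p.2 j * p.1 ^ (j.val + 1))
      (fun p hp => ?_) _ fun z _ => ?_
    · obtain ⟨p1, p2⟩ := mem_product.mp hp
      refine Fintype.mem_piFinset.mpr fun j => ?_
      rw [pow_add, pow_one]
      refine mul_mem_mul (hY (Fintype.mem_piFinset.mp p2 j)) ?_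
      refine pow_subset_pow_right h1 (Nat.mul_le_mul_left m (show j.val + 1 ≤ J from j.2)) ?_
      rw [pow_mul]
      exact pow_mem_pow (hB p1)
    generalize hF : ((B ×ˢ Fintype.piFinset (fun _ : Fin J => Y)).filter
      fun p : G × (Fin J → G) => (fun j : Fin J => p.2 j * p.1 ^ (j.val + 1)) = z) = F
    have hm : ∀ p ∈ F, p.1 ∈ B ∧ ∀ j : Fin J, p.2 j ∈ Y ∧ p.2 j * p.1 ^ (j.val + 1) = z j := by
      intro p hp
      rw [← hF] at hp
      obtain ⟨p1, p2⟩ := mem_filter.mp hp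
      exact ⟨(mem_product.mp p1).1, fun j =>
        ⟨Fintype.mem_piFinset.mp (mem_product.mp p1).2 j, congrFun p2 j⟩⟩
    rcases F.eq_empty_or_nonempty with h0 | ⟨q, hq⟩
    · rw [h0]
      simp
    obtain ⟨q1, q2⟩ := hm q hq
    have hinj : Set.InjOn (fun p : G × (Fin J → G) => q.1 * p.1⁻¹) F := by
      intro p hp p' hp' e1
      have e2 : p.1 = p'.1 := inv_injective (mul_left_cancel e1)
      refine Prod.ext e2 (funext fun j => ?_)
      have e3 := ((hm p hp).2 j).2.trans ((hm p' hp').2 j).2.symm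
      rw [e2] at e3
      exact mul_right_cancel e3
    rw [← card_image_of_injOn hinj]
    refine ht _ (fun a ha b hb => ?_) fun a ha => ?_
    · obtain ⟨p, hp, rfl⟩ := mem_image.mp ha
      obtain ⟨p', hp', rfl⟩ := mem_image.mp hb
      have a1 := (hm p hp).1
      have a2 := (hm p' hp').1
      exact ((Commute.refl _).mul_right (hc _ q1 _ a2).inv_right).mul_left
        ((hc _ a1 _ q1).inv_left.mul_right (hc _ a1 _ a2).inv_inv)
    · obtain ⟨p, hp, rfl⟩ := mem_image.mp ha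
      obtain ⟨p1, p2⟩ := hm p hp
      refine h _ fun j j1 j2 => ?_
      obtain ⟨j, rfl⟩ : ∃ i, j = i + 1 := ⟨j - 1, by omega⟩
      obtain ⟨a1, a2⟩ := q2 ⟨j, j2⟩
      obtain ⟨b1, b2⟩ := p2 ⟨j, j2⟩
      have e1 : (q.1 * p.1⁻¹) ^ (j + 1) = (q.2 ⟨j, j2⟩)⁻¹ * p.2 ⟨j, j2⟩ := by
        rw [(hc _ q1 _ p1).inv_right.mul_pow, inv_pow, eq_inv_mul_iff_mul_eq, ← mul_assoc,
          mul_inv_eq_iff_eq_mul]
        exact a2.trans b2.symm
      rw [e1]
      exact mul_mem_mul (inv_mem_inv a1) b1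
  rw [card_product, Fintype.card_piFinset, Fintype.card_piFinset, prod_const, prod_const,
    card_univ, Fintype.card_fin] at key
  refine Nat.le_of_mul_le_mul_right (key.trans ?_) (pow_pos (card_pos.mpr hY0) J)
  rw [mul_assoc, pow_mul, ← mul_pow]
  exact Nat.mul_le_mul_left _ (Nat.pow_le_pow_left (hS _) _)

theorem family (P : ℕ) (hP : Odd P) : ∃ l : ℕ → ℕ, (∀ i, 2 ≤ l i) ∧
    (∀ i j, i ≠ j → Nat.Coprime (l i) (l j)) ∧ ∀ i, ∃ q, l i = 2 + P * q := by
  let q : ℕ → ℕ := fun n => Nat.rec 1 (fun _ a => a * (2 + P * a)) n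
  have q1 : ∀ n, q (n + 1) = q n * (2 + P * q n) := fun _ => rfl
  have ho : ∀ n, Odd (q n) := by
    intro n
    induction n with
    | zero => exact odd_one
    | succ n ih =>
      rw [q1]
      exact ih.mul (even_two.add_odd (hP.mul ih))
  have hd : ∀ i j, i < j → 2 + P * q i ∣ q j := by
    intro i j hij
    induction j, hij using Nat.le_induction with
    | base => exact Dvd.intro_left _ (q1 i).symm
    | succ j _ ih =>
      rw [q1]
      exact ih.mul_right _
  have hlt : ∀ i j, i < j → Nat.Coprime (2 + P * q i) (2 + P * q j) := by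
    intro i j hij
    obtain ⟨c, hc⟩ := hd i j hij
    rw [hc, mul_left_comm, Nat.coprime_add_mul_left_right]
    exact Nat.coprime_two_right.mpr (even_two.add_odd (hP.mul (ho i)))
  refine ⟨fun i => 2 + P * q i, fun i => Nat.le_add_right _ _, fun i j hij => ?_,
    fun i => ⟨q i, rfl⟩⟩
  rcases lt_or_gt_of_ne hij with h | h
  · exact hlt i j h
  · exact (hlt j i h).symm

end Pool.Agent.Work.MP_5dd17b_co
end

-- merged part: Pool.Agent.Work.MP_5dd17b_co.LinMain
section
/-!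
Ramsey Cayley graphs on finite linear groups of bounded degree in characteristic not 2 or 3.
-/

set_option autoImplicit false

namespace Pool.Agent.Work.MP_5dd17b_co

open Finset Module
open scoped Pointwise

theorem lin_small (n e J : ℕ) : ∃ a b : ℕ, 0 < b ∧ ∀ (F G : Type) [Field F] [IsAlgClosed F]
    [Group G] [DecidableEq G] [Fintype G] (ψ : G →* Matrix (Fin n) (Fin n) F),
    Function.Injective ψ → (e : F) ≠ 0 → ∀ (A : Finset G) (K : ℕ), A.Nonempty →
    #(A⁻¹ * A) ≤ K * #A → (∀ x : G, (∀ j, 1 ≤ j → j ≤ J → x ^ j ∈ A⁻¹ * A) → x ^ e = 1) →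
    #A ≤ a * K ^ b := by
  obtain ⟨c, m, -, hc⟩ := commuting (n * n + 1)
  refine ⟨2 * (8 * e ^ n * 4 ^ ((1 + m * J) * J)) ^ c, 1 + (3 + 3 * ((1 + m * J) * J)) * c,
    by omega, fun F G _ _ _ _ _ ψ hψ he A K hA hK h => ?_⟩
  obtain ⟨S, Y, t1, t2, t3, t4, t5, t6⟩ := tao A K hA hK
  have hY : Y.Nonempty := by
    rw [← card_pos]
    by_contra h1
    have := hA.card_pos
    rw [show #Y = 0 by omega] at t5
    omega
  have hS : Tame (4 * K ^ 3) S :=
    ⟨t2, t3, fun r => (t6 r).trans (Nat.mul_le_mul_left _ (card_le_card t1))⟩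
  obtain ⟨B, b1, b2, b3⟩ := hc F (Matrix (Fin n) (Fin n) F × F) G (ψ.prod 1)
    (fun x y hxy => hψ (congrArg Prod.fst hxy)) (AlgHom.snd F _ F) (fun _ => rfl) ⊤
    ((Submodule.finrank_le _).trans (by simp [Module.finrank_matrix])) _ S hS
    fun _ _ => Subgroup.mem_top _
  have b4 := pigeon S Y B m J e (e ^ n) _ t1 hY t2 b1 b2 t6 (torsion n e he ψ hψ)
    fun x hx => h x fun j h1 h2 => t4 (hx j h1 h2)
  calc #A ≤ 2 * K * (2 * (4 * K ^ 3) * (e ^ n * (4 * K ^ 3) ^ ((1 + m * J) * J))) ^ c :=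
        t5.trans (Nat.mul_le_mul_left _ ((card_le_card t1).trans (b3.trans
          (Nat.pow_le_pow_left (Nat.mul_le_mul_left _ b4) _))))
    _ = _ := by
        rw [show 2 * (4 * K ^ 3) * (e ^ n * (4 * K ^ 3) ^ ((1 + m * J) * J)) =
          8 * e ^ n * 4 ^ ((1 + m * J) * J) * K ^ (3 + 3 * ((1 + m * J) * J)) by
            rw [mul_pow, ← pow_mul, pow_add]; ring, mul_pow, ← pow_mul, pow_add]
        ring

lemma of_colour {G : Type} [Group G] (χ : G → Bool) (c1 : ∀ x, χ x⁻¹ = χ x) (X : ℝ)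
    (c2 : ∀ (A : Finset G) (c : Bool), (∀ a ∈ A, ∀ b ∈ A, a ≠ b → χ (a⁻¹ * b) = c) → (#A : ℝ) ≤ X) :
    ∃ S : Set G, 1 ∉ S ∧ (∀ x, x⁻¹ ∈ S ↔ x ∈ S) ∧ ∀ s : Finset G,
      ((SimpleGraph.fromRel (fun x y : G => x⁻¹ * y ∈ S)).IsClique (s : Set G) ∨
        (SimpleGraph.fromRel (fun x y : G => x⁻¹ * y ∈ S))ᶜ.IsClique (s : Set G)) →
      (s.card : ℝ) ≤ X := by
  refine ⟨{x | x ≠ 1 ∧ χ x = true}, by simp, fun x => by simp [c1], fun s hs => ?_⟩
  have e : ∀ a b : G, χ (b⁻¹ * a) = χ (a⁻¹ * b) := fun a b => by rw [← c1]; simp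
  rcases hs with hs | hs
  · refine c2 s true fun a ha b hb hab => ?_
    rcases ((SimpleGraph.fromRel_adj _ _ _).mp (hs ha hb hab)).2 with h5 | h5
    · exact h5.2
    · exact (e a b).symm.trans h5.2
  · refine c2 s false fun a ha b hb hab => ?_
    have h5 := ((SimpleGraph.compl_adj _ _ _).mp (hs ha hb hab)).2
    by_contra h6
    exact h5 ((SimpleGraph.fromRel_adj _ _ _).mpr ⟨hab, Or.inl
      ⟨fun h7 => hab (inv_mul_eq_one.mp h7), by simpa using h6⟩⟩)

theorem lin_core (n : ℕ) (l : ℕ → ℕ) (hl : ∀ i, 2 ≤ l i)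
    (hl' : ∀ i j, i ≠ j → Nat.Coprime (l i) (l j)) : ∃ C : ℝ,
    ∀ (F G : Type) [Field F] [IsAlgClosed F] [Group G] [Fintype G]
      (ψ : G →* Matrix (Fin n) (Fin n) F), Nontrivial G → Function.Injective ψ →
      ((∏ i ∈ range (n * n + 1), l i * (l i ^ 2 - 1) : ℕ) : F) ≠ 0 →
      ∃ χ : G → Bool, (∀ x, χ x⁻¹ = χ x) ∧ ∀ (A : Finset G) (c : Bool),
        (∀ a ∈ A, ∀ b ∈ A, a ≠ b → χ (a⁻¹ * b) = c) → (#A : ℝ) ≤ C * Real.log (Fintype.card G) := by
  classical
  obtain ⟨e, he⟩ : ∃ e, e = ∏ i ∈ range (n * n + 1), l i * (l i ^ 2 - 1) := ⟨_, rfl⟩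
  obtain ⟨L, hL⟩ : ∃ L, L = ∑ i ∈ range (n * n + 1), l i := ⟨_, rfl⟩
  obtain ⟨f, hf⟩ : ∃ f, f = 2 + 2 * (n * n + 1) * e ^ n := ⟨_, rfl⟩
  obtain ⟨a, b, hb, hs⟩ := lin_small n e (L ^ 3)
  obtain ⟨k0, -, hU⟩ := union_bound (2 * b) f (by omega) (by omega)
  obtain ⟨C1, hC1⟩ : ∃ C1 : ℝ, C1 = 8 * f * (400 * (2 * b) ^ 3 : ℕ) := ⟨_, rfl⟩
  have hC0 : 0 ≤ C1 := by rw [hC1]; positivity
  rw [← hC1] at hU
  rw [← he]
  refine ⟨C1 + 2 * (k0 + a ^ 2 + 2), fun F G _ _ _ _ ψ hG hψ hF => ?_⟩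
  obtain ⟨X, hX⟩ : ∃ X, X = Real.log (Fintype.card G) := ⟨_, rfl⟩
  have h2 : (2 : ℝ) ≤ Fintype.card G := by exact_mod_cast Fintype.one_lt_card
  have h3 : 1 / 2 ≤ X :=
    hX ▸ le_trans (by linarith [Real.log_two_gt_d9]) (Real.log_le_log (by norm_num) h2)
  rw [← hX]
  obtain ⟨π, s, p1, p2, p3, p4⟩ := lin_colour (G := G) (n * n) e L (e ^ n) l hl
    (good_exp (F := F) ψ hψ _ (by simp [Module.finrank_matrix]) l hl')
    (fun i hi => he ▸ dvd_prod_of_mem (fun i => l i * (l i ^ 2 - 1)) (mem_range.mpr (by omega)))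
    (fun i hi => hL ▸ single_le_sum (f := l) (fun _ _ => Nat.zero_le _) (mem_range.mpr (by omega)))
    (torsion n e hF ψ hψ)
  obtain ⟨k, hk⟩ : ∃ k, k = ⌈C1 * X⌉₊ + (k0 + a ^ 2 + 1) := ⟨_, rfl⟩
  have k1 : C1 * X ≤ k := (Nat.le_ceil _).trans (by exact_mod_cast (by omega))
  have k4 : (k : ℝ) ≤ (C1 + 2 * (k0 + a ^ 2 + 2)) * X := by
    have := (Nat.ceil_lt_add_one (show 0 ≤ C1 * X by positivity)).le
    have h4 : (0 : ℝ) ≤ k0 + a ^ 2 + 2 := by positivity
    rw [hk]
    push_cast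
    nlinarith
  have u1 := hU G π s (hf ▸ p3) univ k (by omega) (by rwa [card_univ, ← hX])
  have key : ∀ S1 : Finset (G → Bool), 3 * #S1 ≤ 2 ^ Fintype.card G → ∃ ω, ω ∉ S1 := by
    intro S1 h1
    obtain ⟨ω, -, hω⟩ := exists_mem_notMem_of_card_lt_card (t := (univ : Finset (G → Bool)))
      (s := S1) (by
        rw [card_univ, Fintype.card_fun, Fintype.card_bool]
        have := Nat.one_le_pow (Fintype.card G) 2 (by norm_num)
        omega)
    exact ⟨ω, hω⟩
  obtain ⟨ω, hω⟩ := key _ u1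
  simp only [mem_filter, mem_univ, true_and, not_exists, not_and] at hω
  refine ⟨fun x => xor (ω (π x)) (s x), fun x => by simp only [p1, p2], fun A0 c hA0 => ?_⟩
  by_contra hlt
  obtain ⟨A, a1, a2⟩ := exists_subset_card_eq (s := A0) (n := k)
    (by exact_mod_cast (k4.trans (not_le.mp hlt).le))
  have hm : Mono π s ω A c := Mono.sub hA0 a1
  have nb : ¬ Big (2 * b) A := fun h => hω A (subset_univ _) a2 h c hm
  simp only [Big, not_forall, not_le, exists_prop] at nb
  obtain ⟨K, b1, b2⟩ := nb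
  have b3 := hs F G ψ hψ hF A K (card_pos.mp (by omega)) b1 (by
    intro x hx
    by_contra h
    obtain ⟨i, j, i1, i2, j1, j2, i3, j3, e1, e2⟩ := p4 x h
    have key : ∀ r, 1 ≤ r → r ≤ L ^ 3 → x ^ r ≠ 1 → xor (ω (π (x ^ r))) (s (x ^ r)) = c := by
      intro r r1 r2 r3
      obtain ⟨u, hu, v, hv, e3⟩ := mem_mul.mp (hx r r1 r2)
      have := hm _ (mem_inv'.mp hu) v hv fun h => r3 (by rw [← e3, ← h, mul_inv_cancel])
      rwa [inv_inv, e3] at this
    have k1 := key i i1 i2 i3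
    have k2 := key j j1 j2 j3
    rw [e1] at k1
    revert k1 k2 e2
    cases ω (π (x ^ j)) <;> cases s (x ^ i) <;> cases s (x ^ j) <;> cases c <;> simp)
  rw [a2] at b2 b3
  have b4 : k * k ≤ a ^ 2 * k := by
    calc k * k ≤ a * K ^ b * (a * K ^ b) := Nat.mul_le_mul b3 b3
      _ = a ^ 2 * K ^ (2 * b) := by ring
      _ ≤ _ := Nat.mul_le_mul_left _ b2.le
  have := Nat.le_of_mul_le_mul_right b4 (by omega)
  omega

theorem linear_groups (n : ℕ) : ∃ C : ℝ, ∀ (F : Type) [Field F], (6 : F) ≠ 0 →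
    ∀ (G : Type) [Group G] [Fintype G] (φ : G →* Matrix.GeneralLinearGroup (Fin n) F),
      Nontrivial G → Function.Injective φ →
      ∃ S : Set G, 1 ∉ S ∧ (∀ x, x⁻¹ ∈ S ↔ x ∈ S) ∧ ∀ s : Finset G,
        ((SimpleGraph.fromRel (fun x y : G => x⁻¹ * y ∈ S)).IsClique (s : Set G) ∨
          (SimpleGraph.fromRel (fun x y : G => x⁻¹ * y ∈ S))ᶜ.IsClique (s : Set G)) →
        (s.card : ℝ) ≤ C * Real.log (Fintype.card G) := by
  have h1 := fun P : ℕ => family (2 * P + 1) ⟨P, rfl⟩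
  choose l l1 l2 l3 using h1
  choose C hC using fun P => lin_core n (l P) (l1 P) (l2 P)
  obtain ⟨e, he⟩ : ∃ e, e = ∏ i ∈ range (n * n + 1), l 0 i * (l 0 i ^ 2 - 1) := ⟨_, rfl⟩
  have he0 : 0 < e := by
    rw [he]
    refine prod_pos fun i _ => ?_
    have := l1 0 i
    exact Nat.mul_pos (by omega) (Nat.sub_pos_of_lt (by nlinarith))
  refine ⟨∑ P ∈ range (e + 1), |C P|, fun F _ h6 G _ _ φ hG hφ => ?_⟩
  obtain ⟨P, hP, hP2⟩ : ∃ P ≤ e,
      ((∏ i ∈ range (n * n + 1), l P i * (l P i ^ 2 - 1) : ℕ) : F) ≠ 0 := by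
    by_cases h : (e : F) = 0
    · have h2 := (ringChar.spec F e).mp h
      have h3 := Nat.le_of_dvd he0 h2
      obtain ⟨P, h4⟩ : Odd (ringChar F) := by
        rw [← Nat.not_even_iff_odd]
        rintro ⟨r, hr⟩
        have h5 : (2 : F) * r = 0 := by
          have := ringChar.Nat.cast_ringChar (R := F)
          rw [hr] at this
          push_cast at this
          linear_combination this
        have h7 : (2 : F) ≠ 0 := fun h7 => h6 (by linear_combination 3 * h7)
        have h8 := Nat.eq_zero_of_dvd_of_lt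
          ((ringChar.spec F r).mp ((mul_eq_zero.mp h5).resolve_left h7))
        have := Nat.pos_of_dvd_of_pos h2 he0
        omega
      refine ⟨P, by omega, ?_⟩
      rw [Nat.cast_prod]
      refine prod_ne_zero_iff.mpr fun i _ => ?_
      obtain ⟨q, hq⟩ := l3 P i
      have h5 : (l P i : F) = 2 := by
        rw [hq, ← h4]
        simp
      have h7 := l1 P i
      rw [Nat.cast_mul, Nat.cast_sub (by nlinarith), Nat.cast_pow, h5]
      convert h6 using 1
      norm_num
    · exact ⟨0, by omega, he ▸ h⟩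
  let ι := algebraMap F (AlgebraicClosure F)
  obtain ⟨χ, c1, c2⟩ := hC P (AlgebraicClosure F) G
    (((ι.mapMatrix : Matrix (Fin n) (Fin n) F →+* _) : Matrix (Fin n) (Fin n) F →* _).comp
      ((Units.coeHom _).comp φ)) hG
    (fun x y h => hφ (Units.ext (Matrix.map_injective ι.injective h)))
    (by rw [← map_natCast ι]; exact (map_ne_zero ι).mpr hP2)
  refine of_colour χ c1 _ fun A c h => (c2 A c h).trans ?_
  refine mul_le_mul_of_nonneg_right ((le_abs_self _).trans (single_le_sum (f := fun P => |C P|)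
    (fun _ _ => abs_nonneg _) (mem_range.mpr (by omega)))) (Real.log_natCast_nonneg _)

end Pool.Agent.Work.MP_5dd17b_co
end
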