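import Mathlib
import Pool.Agent.Work.MP_5dd17b_co.LinMain
import Pool.Agent.Work.MP_5dd17b_co.Main

-- merged part: Pool.Agent.Work.MP_5dd17b_co.SolChern
section
/-!
A Chernoff bound by counting.

Plan. One-sided version: with p = #B / #S, λ = ε / 2, X a = number of i with a i in B, the sum over a
in S^n of exp (λ X a) is (#S + (exp λ - 1) #B)^n (`Finset.prod_univ_sum` or `Finset.sum_pow'`), at most
#S^n exp (n p (exp λ - 1)) ≤ #S^n exp (n (λ p + λ^2)) by exp λ ≤ 1 + λ + λ^2 for λ ≤ 1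
(`Real.abs_exp_sub_one_sub_id_le`) and p ≤ 1. Each a with X a - n p > ε n contributes at least
exp (λ n (p + ε)). So their number is at most exp (n (λ^2 - λ ε)) #S^n = exp (- n ε^2 / 4) #S^n.
The lower tail is the upper tail for S \ B.
-/

set_option autoImplicit false
set_option linter.unusedSectionVars false

namespace Pool.Agent.Work.MP_5dd17b_co

open Finset
open scoped Pointwise

variable {G : Type} [Group G] [DecidableEq G]

lemma SolChern_mgf {α : Type} [DecidableEq α] (S B : Finset α) (hB : B ⊆ S) (n : ℕ) (t : ℝ) :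
    ∑ a ∈ Fintype.piFinset fun _ : Fin n => S,
        Real.exp (t * (#(univ.filter fun i => a i ∈ B) : ℝ)) =
      ((#S : ℝ) + (Real.exp t - 1) * #B) ^ n := by
  have h1 : ∀ a : Fin n → α, Real.exp (t * (#(univ.filter fun i => a i ∈ B) : ℝ)) =
      ∏ i, (if a i ∈ B then Real.exp t else 1) := by
    intro a
    rw [prod_ite, prod_const, prod_const_one, mul_one, mul_comm, Real.exp_nat_mul]
  have h2 : ∑ x ∈ S, (if x ∈ B then Real.exp t else 1) =
      (#S : ℝ) + (Real.exp t - 1) * #B := by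
    have h3 : ∀ x, (if x ∈ B then Real.exp t else 1) =
        1 + (if x ∈ B then Real.exp t - 1 else 0) := by
      intro x
      split_ifs <;> ring
    simp only [h3]
    rw [sum_add_distrib, ← sum_filter, filter_mem_eq_inter, inter_eq_right.2 hB]
    rw [sum_const, sum_const, nsmul_eq_mul, nsmul_eq_mul]
    ring
  simp only [h1]
  rw [← prod_univ_sum (fun _ : Fin n => S) fun _ x => if x ∈ B then Real.exp t else 1]
  simp only [h2]
  rw [prod_const, card_univ, Fintype.card_fin]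

lemma SolChern_up {α : Type} [DecidableEq α] (S B : Finset α) (hB : B ⊆ S) (hS : S.Nonempty)
    (n : ℕ) (ε : ℝ) (h0 : 0 < ε) (h1 : ε ≤ 1) :
    (#((Fintype.piFinset fun _ : Fin n => S).filter fun a =>
      ε * n < (#(univ.filter fun i => a i ∈ B) : ℝ) - n * (#B / #S)) : ℝ)
      ≤ Real.exp (-(n * ε ^ 2 / 4)) * (#S : ℝ) ^ n := by
  have hs : (0 : ℝ) < #S := by exact_mod_cast hS.card_pos
  set p : ℝ := #B / #S with hp
  have hp0 : 0 ≤ p := by positivity
  have hp1 : p ≤ 1 := by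
    rw [hp, div_le_one hs]
    exact_mod_cast card_le_card hB
  have hBp : (#B : ℝ) = p * #S := by rw [hp, div_mul_cancel₀ _ hs.ne']
  have he : Real.exp (ε / 2) - 1 ≤ ε / 2 + (ε / 2) ^ 2 := by
    have h2 := Real.abs_exp_sub_one_sub_id_le (x := ε / 2) (by rw [abs_of_pos] <;> linarith only [h1, h0])
    have := (abs_le.1 h2).2
    linarith only [this]
  have he0 : 0 ≤ Real.exp (ε / 2) - 1 := by
    have := Real.add_one_le_exp (ε / 2)
    linarith only [h0, this]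
  have h3 : (#S : ℝ) + (Real.exp (ε / 2) - 1) * #B ≤
      Real.exp (ε / 2 * p + (ε / 2) ^ 2) * #S := by
    have h4 := Real.add_one_le_exp (ε / 2 * p + (ε / 2) ^ 2)
    have h5 : (Real.exp (ε / 2) - 1) * p ≤ ε / 2 * p + (ε / 2) ^ 2 := by
      have := mul_le_mul_of_nonneg_right he hp0
      have := mul_le_mul_of_nonneg_left hp1 (sq_nonneg (ε / 2))
      linarith
    have h6 := mul_le_mul_of_nonneg_right
      (show 1 + (Real.exp (ε / 2) - 1) * p ≤ Real.exp (ε / 2 * p + (ε / 2) ^ 2) by linarith only [h4, h5]) hs.le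
    rw [hBp]
    linarith only [h6]
  have h7 := pow_le_pow_left₀ (add_nonneg hs.le (mul_nonneg he0 (Nat.cast_nonneg _))) h3 n
  rw [← SolChern_mgf S B hB n (ε / 2), mul_pow, ← Real.exp_nat_mul] at h7
  set T := (Fintype.piFinset fun _ : Fin n => S).filter fun a =>
      ε * n < (#(univ.filter fun i => a i ∈ B) : ℝ) - n * p with hT
  have h8 : (#T : ℝ) * Real.exp (ε / 2 * (n * (p + ε))) ≤
      ∑ a ∈ Fintype.piFinset fun _ : Fin n => S,
        Real.exp (ε / 2 * (#(univ.filter fun i => a i ∈ B) : ℝ)) := by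
    rw [← nsmul_eq_mul, ← sum_const]
    refine (sum_le_sum fun a ha => ?_).trans
      (sum_le_sum_of_subset_of_nonneg (filter_subset _ _) fun _ _ _ => (Real.exp_pos _).le)
    have h9 := (mem_filter.1 ha).2
    exact Real.exp_le_exp.2 (mul_le_mul_of_nonneg_left (by linarith only [h9]) (by linarith only [h0]))
  have h10 : Real.exp (n * (ε / 2 * p + (ε / 2) ^ 2)) =
      Real.exp (-(n * ε ^ 2 / 4)) * Real.exp (ε / 2 * (n * (p + ε))) := by
    rw [← Real.exp_add]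
    congr 1
    ring
  refine le_of_mul_le_mul_right ((h8.trans h7).trans (le_of_eq ?_)) (Real.exp_pos _)
  rw [h10]
  ring

theorem chern {α : Type} [DecidableEq α] (S B : Finset α) (hB : B ⊆ S) (hS : S.Nonempty) (n : ℕ)
    (ε : ℝ) (h0 : 0 < ε) (h1 : ε ≤ 1) :
    (#((Fintype.piFinset fun _ : Fin n => S).filter fun a =>
      ε * n < |(#(univ.filter fun i => a i ∈ B) : ℝ) - n * (#B / #S)|) : ℝ)
      ≤ 2 * Real.exp (-(n * ε ^ 2 / 4)) * (#S : ℝ) ^ n := by
  have hs : (0 : ℝ) < #S := by exact_mod_cast hS.card_pos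
  have u1 := SolChern_up S B hB hS n ε h0 h1
  have u2 := SolChern_up S (S \ B) sdiff_subset hS n ε h0 h1
  have hc : (#(S \ B) : ℝ) / #S = 1 - #B / #S := by
    rw [card_sdiff_of_subset hB, Nat.cast_sub (card_le_card hB)]
    field_simp
  have hsub : ((Fintype.piFinset fun _ : Fin n => S).filter fun a =>
      ε * n < |(#(univ.filter fun i => a i ∈ B) : ℝ) - n * (#B / #S)|) ⊆
      ((Fintype.piFinset fun _ : Fin n => S).filter fun a =>
        ε * n < (#(univ.filter fun i => a i ∈ B) : ℝ) - n * (#B / #S)) ∪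
      ((Fintype.piFinset fun _ : Fin n => S).filter fun a =>
        ε * n < (#(univ.filter fun i => a i ∈ S \ B) : ℝ) - n * (#(S \ B) / #S)) := by
    intro a ha
    obtain ⟨ha1, ha2⟩ := mem_filter.1 ha
    rw [mem_union, mem_filter, mem_filter]
    rcases lt_abs.1 ha2 with h | h
    · exact Or.inl ⟨ha1, h⟩
    · refine Or.inr ⟨ha1, ?_⟩
      have e1 : (univ.filter fun i => a i ∈ S \ B) = univ.filter fun i => ¬ a i ∈ B := by
        ext i
        simp [Fintype.mem_piFinset.1 ha1 i]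
      have e2 := card_filter_add_card_filter_not (s := (univ : Finset (Fin n))) fun i => a i ∈ B
      rw [card_univ, Fintype.card_fin] at e2
      have e3 : (#(univ.filter fun i => a i ∈ B) : ℝ) + #(univ.filter fun i => ¬ a i ∈ B) = n := by
        exact_mod_cast e2
      rw [e1, hc]
      linarith only [h, e3]
  have h2 := (card_le_card hsub).trans (card_union_le _ _)
  have h3 := (Nat.cast_le (α := ℝ)).2 h2
  rw [Nat.cast_add] at h3
  linarith only [u1, u2, h3]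

end Pool.Agent.Work.MP_5dd17b_co
end

-- merged part: Pool.Agent.Work.MP_5dd17b_co.SolCS
section
/-!
The Croot-Sisask-Sanders lemma: a large symmetric set whose L-th power lies in S^4.

Plan. n = 64 L^2 w, ε = 1 / (4 L). f x = #(a in S with a⁻¹ * x in S^2) / #S, so f = 1 on S and f x ≠ 0
forces x in S^3. For a : Fin n → G put g a x = #(i with (a i)⁻¹ * x in S^2) / n (n > 0 as w ≥ 1) and
Bad a = the x in G with ε < |g a x - f x|. For a in S^n (piFinset), Bad a ⊆ S^3. By `chern` (B = the a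
in S with a⁻¹ * x in S^2) and double counting, the sum of #(Bad a) over a in S^n is at most
K^3 #S * 2 exp (- w) * #S^n, and exp w ≥ 2^w ≥ 16 L K^3. So at least half of the a are good:
4 L #(Bad a) ≤ #S. Map S × Good to (S^2)^n by (s, a) ↦ (i ↦ s * a i); #(S^2) ≤ K^2 #S, so some fibre,
over b, has at least #S / (2 K^(2n)) elements; it injects into S by (s, a) ↦ s, with image T0, and for
s in T0 the tuple s⁻¹ b is good. T = T0⁻¹ * T0. For t = s⁻¹ * s': g (s⁻¹ b) (t * x) = g (s'⁻¹ b) x, so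
|f (t * x) - f x| ≤ 2 ε outside a set of at most #S / (2 L) points x. Induction on j: for t in T^j the x
with 2 ε j < |f (t * x) - f x| number at most j #S / (2 L) (write t = t1 * t2, t1 in T, t2 in T^j).
For j = L some x in S is not exceptional, f (t * x) ≥ 1/2, t * x in S^3, t in S^4.
-/

set_option autoImplicit false
set_option linter.unusedSectionVars false

namespace Pool.Agent.Work.MP_5dd17b_co

open Finset
open scoped Pointwise

variable {G : Type} [Group G] [DecidableEq G]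

/-- the averaged indicator -/
noncomputable def SolCS_f (S : Finset G) (x : G) : ℝ := #(S.filter fun a => a⁻¹ * x ∈ S ^ 2) / #S

/-- the sampled count -/
def SolCS_g (S : Finset G) {n : ℕ} (a : Fin n → G) (x : G) : ℝ :=
  #(univ.filter fun i => (a i)⁻¹ * x ∈ S ^ 2)

/-- the points where the sample is off -/
noncomputable def SolCS_B [Fintype G] (S : Finset G) (ε : ℝ) {n : ℕ} (a : Fin n → G) : Finset G :=
  univ.filter fun x => ε * n < |SolCS_g S a x - n * SolCS_f S x|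

lemma SolCS_three {S : Finset G} {a x : G} (ha : a ∈ S) (h : a⁻¹ * x ∈ S ^ 2) : x ∈ S ^ 3 := by
  rw [pow_succ', ← mul_inv_cancel_left a x]
  exact mul_mem_mul ha h

lemma SolCS_f0 {S : Finset G} {x : G} (h : x ∉ S ^ 3) : SolCS_f S x = 0 := by
  rw [SolCS_f, filter_false_of_mem fun a ha k => h (SolCS_three ha k), card_empty, Nat.cast_zero,
    zero_div]

lemma SolCS_f1 {K : ℕ} {S : Finset G} (hS : Tame K S) {x : G} (h : x ∈ S) : SolCS_f S x = 1 := by
  rw [SolCS_f, filter_true_of_mem fun a ha => hS.inv_mul_mem ha h, div_self]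
  exact_mod_cast (card_pos.2 ⟨x, h⟩).ne'

lemma SolCS_sum [Fintype G] {S : Finset G} (hS : S.Nonempty) (n : ℕ) {ε : ℝ} (h0 : 0 < ε)
    (h1 : ε ≤ 1) : ∑ a ∈ Fintype.piFinset fun _ : Fin n => S, (#(SolCS_B S ε a) : ℝ)
      ≤ #(S ^ 3) * (2 * Real.exp (-(n * ε ^ 2 / 4)) * (#S : ℝ) ^ n) := by
  have e1 : ∀ a ∈ Fintype.piFinset fun _ : Fin n => S, (#(SolCS_B S ε a) : ℝ)
      = ∑ x ∈ S ^ 3, if ε * n < |SolCS_g S a x - n * SolCS_f S x| then 1 else 0 := fun a ha => by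
    rw [sum_boole]
    congr 2
    ext x
    simp only [SolCS_B, mem_filter, mem_univ, true_and]
    refine ⟨fun h => ⟨by_contra fun k => ?_, h⟩, fun h => h.2⟩
    rw [SolCS_f0 k, SolCS_g, filter_false_of_mem fun i _ k' =>
      k (SolCS_three (Fintype.mem_piFinset.1 ha i) k'), card_empty, Nat.cast_zero, mul_zero,
      sub_zero, abs_zero] at h
    exact absurd h (not_lt.2 (by positivity))
  rw [sum_congr rfl e1, sum_comm, ← nsmul_eq_mul]
  refine sum_le_card_nsmul _ _ _ fun x _ => ?_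
  rw [sum_boole]
  refine le_trans (le_of_eq ?_)
    (chern S (S.filter fun a => a⁻¹ * x ∈ S ^ 2) (filter_subset _ _) hS n ε h0 h1)
  congr 2
  refine filter_congr fun a ha => ?_
  have e : (univ.filter fun i => a i ∈ S.filter fun a => a⁻¹ * x ∈ S ^ 2)
      = univ.filter fun i => (a i)⁻¹ * x ∈ S ^ 2 :=
    filter_congr fun i _ => by rw [mem_filter, and_iff_right (Fintype.mem_piFinset.1 ha i)]
  rw [e]
  rfl

lemma SolCS_markov {α : Type} (P : Finset α) (u : α → ℕ) {m : ℕ} (hm : 0 < m)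
    (h : 2 * ∑ a ∈ P, u a ≤ m * #P) : #P ≤ 2 * #(P.filter fun a => u a ≤ m) := by
  have h1 := card_filter_add_card_filter_not (s := P) fun a => u a ≤ m
  have h2 : #(P.filter fun a => ¬ u a ≤ m) * m ≤ ∑ a ∈ P, u a :=
    (card_nsmul_le_sum _ u m fun a ha => (not_le.1 (mem_filter.1 ha).2).le).trans
      (sum_le_sum_of_subset (filter_subset _ _))
  have h3 : m * (2 * #(P.filter fun a => ¬ u a ≤ m)) ≤ m * #P := by linarith only [h, h2]
  have := Nat.le_of_mul_le_mul_left h3 hm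
  omega

lemma SolCS_fib {K n : ℕ} {S : Finset G} (hS : Tame K S) {Q : Finset (Fin n → G)}
    (hQ : Q ⊆ Fintype.piFinset fun _ => S) (h : #S ^ n ≤ 2 * #Q) : ∃ b : Fin n → G,
    #S ≤ 2 * K ^ (2 * n) * #(S.filter fun s => (fun i => s⁻¹ * b i) ∈ Q) := by
  have h0 : 0 < #S := card_pos.2 ⟨1, hS.1⟩
  obtain ⟨b, -, hb⟩ := exists_max_image (Fintype.piFinset fun _ : Fin n => S ^ 2)
    (fun b => #(S.filter fun s => (fun i => s⁻¹ * b i) ∈ Q))
    ⟨fun _ => 1, Fintype.mem_piFinset.2 fun _ => one_mem_pow hS.1⟩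
  have h1 := card_le_mul_card_image_of_maps_to (s := S ×ˢ Q)
    (t := Fintype.piFinset fun _ : Fin n => S ^ 2) (f := fun p i => p.1 * p.2 i)
    (fun p hp => Fintype.mem_piFinset.2 fun i => by
      rw [sq]
      exact mul_mem_mul (mem_product.1 hp).1 (Fintype.mem_piFinset.1 (hQ (mem_product.1 hp).2) i))
    _ fun c hc => le_trans (card_le_card_of_injOn (fun p => p.1) (fun p hp => by
      obtain ⟨k1, rfl⟩ := mem_filter.1 (mem_coe.1 hp)
      refine mem_coe.2 (mem_filter.2 ⟨(mem_product.1 k1).1, ?_⟩)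
      simpa only [inv_mul_cancel_left] using (mem_product.1 k1).2) fun p hp p' hp' e => by
      have e2 := (mem_filter.1 (mem_coe.1 hp)).2.trans (mem_filter.1 (mem_coe.1 hp')).2.symm
      have e1 : p.1 = p'.1 := e
      refine Prod.ext e1 (funext fun i => ?_)
      have e3 := congrFun e2 i
      simp only [e1] at e3
      exact mul_left_cancel e3) (hb c hc)
  rw [card_product, Fintype.card_piFinset, prod_const, card_univ, Fintype.card_fin] at h1
  refine ⟨b, Nat.le_of_mul_le_mul_right ?_ (pow_pos h0 n)⟩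
  have h2 := Nat.pow_le_pow_left (hS.2.2 2) n
  rw [mul_pow, ← pow_mul] at h2
  calc #S * #S ^ n ≤ #S * (2 * #Q) := Nat.mul_le_mul_left _ h
    _ = 2 * (#S * #Q) := by ring
    _ ≤ 2 * (_ * (K ^ (2 * n) * #S ^ n)) :=
      Nat.mul_le_mul_left _ (h1.trans (Nat.mul_le_mul_left _ h2))
    _ = _ := by ring

lemma SolCS_tr [Fintype G] (B : Finset G) (t : G) : #(univ.filter fun x => t * x ∈ B) = #B :=
  card_equiv (Equiv.mulLeft t) fun x => by simp

lemma SolCS_pow [Fintype G] (f : G → ℝ) (T : Finset G) (c : ℝ) (k m : ℕ)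
    (h : ∀ t ∈ T, k * #(univ.filter fun x => c < |f (t * x) - f x|) ≤ m) (j : ℕ) :
    ∀ t ∈ T ^ j, k * #(univ.filter fun x => c * j < |f (t * x) - f x|) ≤ j * m := by
  induction j with
  | zero =>
    intro t ht
    rw [pow_zero, mem_one] at ht
    simp [ht]
  | succ j ih =>
    intro t ht
    rw [pow_succ'] at ht
    obtain ⟨t1, h1, t2, h2, rfl⟩ := mem_mul.1 ht
    have hs : (univ.filter fun x => c * (j + 1 : ℕ) < |f (t1 * t2 * x) - f x|) ⊆
        (univ.filter fun x => t2 * x ∈ univ.filter fun x => c < |f (t1 * x) - f x|) ∪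
          univ.filter fun x => c * j < |f (t2 * x) - f x| := fun x hx => by
      simp only [mem_filter, mem_univ, true_and, mem_union] at hx ⊢
      by_contra hn
      push Not at hn
      have := abs_sub_le (f (t1 * (t2 * x))) (f (t2 * x)) (f x)
      rw [mul_assoc, Nat.cast_succ] at hx
      linarith [hn.1, hn.2]
    have h3 := Nat.mul_le_mul_left k ((card_le_card hs).trans (card_union_le _ _))
    rw [SolCS_tr, mul_add] at h3
    have h4 := h t1 h1
    have h5 := ih t2 h2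
    rw [add_mul, one_mul]
    omega

lemma SolCS_pair [Fintype G] (S : Finset G) (ε : ℝ) {n : ℕ} (hn : 0 < n) (b : Fin n → G)
    (s s' : G) : #(univ.filter fun x => 2 * ε < |SolCS_f S (s⁻¹ * s' * x) - SolCS_f S x|)
      ≤ #(SolCS_B S ε fun i => s⁻¹ * b i) + #(SolCS_B S ε fun i => s'⁻¹ * b i) := by
  rw [← SolCS_tr (SolCS_B S ε fun i => s⁻¹ * b i) (s⁻¹ * s')]
  refine (card_le_card fun x hx => ?_).trans (card_union_le _ _)
  simp only [SolCS_B, mem_filter, mem_univ, true_and, mem_union] at hx ⊢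
  have e : SolCS_g S (fun i => s⁻¹ * b i) (s⁻¹ * s' * x) = SolCS_g S (fun i => s'⁻¹ * b i) x := by
    unfold SolCS_g
    congr 2
    refine filter_congr fun i _ => ?_
    have : (s⁻¹ * b i)⁻¹ * (s⁻¹ * s' * x) = (s'⁻¹ * b i)⁻¹ * x := by group
    rw [this]
  rw [e]
  by_contra hc
  push Not at hc
  have h0 : (0 : ℝ) < n := by exact_mod_cast hn
  have h1 := abs_sub_le (n * SolCS_f S (s⁻¹ * s' * x)) (SolCS_g S (fun i => s'⁻¹ * b i) x)
    (n * SolCS_f S x)
  rw [← mul_sub, abs_mul, abs_of_pos h0, abs_sub_comm _ (SolCS_g _ _ _)] at h1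
  have h2 := mul_lt_mul_of_pos_left hx h0
  linarith only [hc, h1, h2, hc.1, hc.2]

theorem croot_sisask [Fintype G] (S : Finset G) (K L w : ℕ) (hS : Tame K S) (hL : 1 ≤ L)
    (hw : 16 * L * K ^ 3 ≤ 2 ^ w) :
    ∃ T : Finset G, 1 ∈ T ∧ T⁻¹ = T ∧ T ^ L ⊆ S ^ 4 ∧ #S ≤ 2 * K ^ (128 * L ^ 2 * w) * #T := by
  have hK := hS.one_le
  have h0 : 0 < #S := card_pos.2 ⟨1, hS.1⟩
  have hL0 : (1 : ℝ) ≤ L := by exact_mod_cast hL
  have hw0 : 0 < w := by
    refine Nat.pos_of_ne_zero fun e => ?_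
    have : 16 * 1 * 1 ≤ 16 * L * K ^ 3 :=
      Nat.mul_le_mul (Nat.mul_le_mul_left _ hL) (Nat.one_le_pow _ _ hK)
    rw [e] at hw
    omega
  obtain ⟨n, hn⟩ : ∃ n, n = 64 * L ^ 2 * w := ⟨_, rfl⟩
  have hn0 : 0 < n := by rw [hn]; positivity
  obtain ⟨ε, hε⟩ : ∃ ε : ℝ, ε = 1 / (4 * L) := ⟨_, rfl⟩
  have hs := SolCS_sum ⟨1, hS.1⟩ n (ε := ε) (by rw [hε]; positivity)
    (by rw [hε, div_le_one (by positivity)]; linarith only [hL0])
  have e1 : (n : ℝ) * ε ^ 2 / 4 = w := by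
    rw [hn, hε]
    push_cast
    field_simp
    norm_num
  have e2 : 16 * L * (K : ℝ) ^ 3 * Real.exp (-w) ≤ 1 := by
    have a1 : (16 * L * (K : ℝ) ^ 3) ≤ 2 ^ w := by exact_mod_cast hw
    have a2 : (2 : ℝ) ^ w ≤ Real.exp w := by
      rw [← mul_one (w : ℝ), Real.exp_nat_mul]
      exact pow_le_pow_left₀ two_pos.le (by linarith only [Real.add_one_le_exp 1]) w
    rw [Real.exp_neg, ← div_eq_mul_inv, div_le_one (Real.exp_pos _)]
    exact a1.trans a2
  have e3 : (#(S ^ 3) : ℝ) ≤ K ^ 3 * #S := by exact_mod_cast hS.2.2 3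
  have hP : #(Fintype.piFinset fun _ : Fin n => S) = #S ^ n := by
    rw [Fintype.card_piFinset, prod_const, card_univ, Fintype.card_fin]
  have hm := SolCS_markov (Fintype.piFinset fun _ : Fin n => S)
    (fun a => 4 * L * #(SolCS_B S ε a)) h0 (by
      rw [hP, ← mul_sum, ← @Nat.cast_le ℝ]
      push_cast
      rw [e1] at hs
      calc _ ≤ 2 * (4 * L * (K ^ 3 * #S * (2 * Real.exp (-w) * (#S : ℝ) ^ n))) := by
            gcongr
            exact hs.trans (mul_le_mul_of_nonneg_right e3 (by positivity))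
        _ = 16 * L * (K : ℝ) ^ 3 * Real.exp (-w) * (#S * (#S : ℝ) ^ n) := by ring
        _ ≤ _ := mul_le_of_le_one_left (by positivity) e2)
  rw [hP] at hm
  obtain ⟨b, hb⟩ := SolCS_fib hS (filter_subset _ _) hm
  generalize hT : (S.filter fun s => (fun i => s⁻¹ * b i) ∈
    (Fintype.piFinset fun _ : Fin n => S).filter fun a => 4 * L * #(SolCS_B S ε a) ≤ #S) = T at hb
  have hT' : ∀ s ∈ T, 4 * L * #(SolCS_B S ε fun i => s⁻¹ * b i) ≤ #S := fun s hs => by
    rw [← hT] at hs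
    exact (mem_filter.1 (mem_filter.1 hs).2).2
  obtain ⟨s₀, hs₀⟩ : T.Nonempty := by
    rw [nonempty_iff_ne_empty]
    rintro rfl
    rw [card_empty, mul_zero] at hb
    omega
  refine ⟨T⁻¹ * T, mem_mul.2 ⟨s₀⁻¹, inv_mem_inv hs₀, s₀, hs₀, inv_mul_cancel _⟩,
    by rw [mul_inv_rev, inv_inv], fun t ht => ?_, ?_⟩
  · have h1 := SolCS_pow (SolCS_f S) (T⁻¹ * T) (2 * ε) (4 * L) (2 * #S) (fun t ht => by
      obtain ⟨u, hu, s', hs', rfl⟩ := mem_mul.1 ht
      obtain ⟨s, hs, rfl⟩ := mem_inv.1 hu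
      have a1 := Nat.mul_le_mul_left (4 * L) (SolCS_pair S ε hn0 b s s')
      have a2 := hT' s hs
      have a3 := hT' s' hs'
      rw [mul_add] at a1
      omega) L t ht
    have e4 : 2 * ε * L = 1 / 2 := by
      rw [hε]
      field_simp
      norm_num
    rw [e4] at h1
    have h2 : #(univ.filter fun x => 1 / 2 < |SolCS_f S (t * x) - SolCS_f S x|) < #S := by
      have : L * (2 * (2 * #(univ.filter fun x => 1 / 2 < |SolCS_f S (t * x) - SolCS_f S x|)))
          ≤ L * (2 * #S) := by linarith only [h1]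
      have := Nat.le_of_mul_le_mul_left this hL
      omega
    obtain ⟨x, hx, hx'⟩ := exists_mem_notMem_of_card_lt_card h2
    have h3 : t * x ∈ S ^ 3 := by_contra fun k => hx' (mem_filter.2 ⟨mem_univ _, by
      rw [SolCS_f0 k, SolCS_f1 hS hx]
      norm_num⟩)
    rw [pow_succ, ← mul_inv_cancel_right t x]
    exact mul_mem_mul h3 (hS.inv_mem hx)
  · have e : 128 * L ^ 2 * w = 2 * n := by rw [hn]; ring
    rw [e]
    exact hb.trans (Nat.mul_le_mul_left _ (card_le_card_mul_left ⟨_, inv_mem_inv hs₀⟩))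

end Pool.Agent.Work.MP_5dd17b_co
end

-- merged part: Pool.Agent.Work.MP_5dd17b_co.SolDefs
section
/-!
Overlaps, energy, classes connected by a set of colours, blocks, derivable sets.
A colour is a group element `γ`; it joins `a` to `a * γ`.
-/

set_option autoImplicit false
set_option linter.unusedSectionVars false

namespace Pool.Agent.Work.MP_5dd17b_co

open Finset
open scoped Pointwise

variable {G : Type} [Group G] [DecidableEq G]

/-- the number of colours `γ` with `a * γ ∈ A` and `b * γ ∈ A` (put `c = a * γ`) -/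
def ov (A : Finset G) (a b : G) : ℕ := #(A.filter fun c => b * a⁻¹ * c ∈ A)

/-- the multiplicative energy -/
def En (A : Finset G) : ℕ := ∑ a ∈ A, ∑ b ∈ A, ov A a b

/-- one edge of `A` whose colour lies in `Γ` -/
def Adj (A Γ : Finset G) (a b : G) : Prop := a ∈ A ∧ b ∈ A ∧ (a⁻¹ * b ∈ Γ ∨ b⁻¹ * a ∈ Γ)

/-- connected in `A` through colours of `Γ` -/
def Conn (A Γ : Finset G) : G → G → Prop := Relation.ReflTransGen (Adj A Γ)

open Classical in
/-- the class of `a` -/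
noncomputable def cls (A Γ : Finset G) (a : G) : Finset G := A.filter (Conn A Γ a)

/-- disjoint blocks of size `β`, each connected, made of points with few parallel partners, with
pairwise non-parallel points (`a`, `b` are parallel if `#A < s ^ 3 * ov A a b`) -/
def Blocks (A Γ : Finset G) (s β : ℕ) (𝔅 : Finset (Finset G)) : Prop :=
  (∀ Z ∈ 𝔅, Z ⊆ A ∧ #Z = β ∧ (∀ a ∈ Z, s ^ 4 * #(A.filter fun b => #A < s ^ 3 * ov A a b) ≤ #A) ∧
    ∀ a ∈ Z, ∀ b ∈ Z, Conn A Γ a b ∧ (a ≠ b → s ^ 3 * ov A a b ≤ #A)) ∧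
  ∀ Z ∈ 𝔅, ∀ Z' ∈ 𝔅, Z ≠ Z' → Disjoint Z Z'

/-- sets obtained from `{a}` by `j` insertions of a neighbour or of a triple product -/
def Der (Γ : Finset G) (a : G) : ℕ → Finset (Finset G)
  | 0 => {{a}}
  | j + 1 => (Der Γ a j).biUnion fun Z =>
      (Z * (Γ ∪ Γ⁻¹) ∪ Z * Z⁻¹ * Z).image fun x => insert x Z

lemma ov_comm (A : Finset G) (a b : G) : ov A a b = ov A b a := by
  have h : ∀ a b : G, ov A a b ≤ ov A b a := fun a b => by
    have := LinTao_r_inv A (b * a⁻¹)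
    rwa [mul_inv_rev, inv_inv] at this
  exact le_antisymm (h a b) (h b a)

lemma ov_le (A : Finset G) (a b : G) : ov A a b ≤ #A := card_filter_le _ _

lemma pow_four_le_En (A : Finset G) : #A ^ 4 ≤ #(A⁻¹ * A) * En A := by
  have h := le_card_mul_mul_mulEnergy A⁻¹ A
  rw [card_inv, ← pow_add] at h
  exact h.trans (Nat.mul_le_mul_left _ (LinTao_energy A))

lemma le_of_lowE {A : Finset G} {K κ : ℕ} (hA : A.Nonempty) (hK : #(A⁻¹ * A) ≤ K * #A)
    (hE : κ * En A ≤ #A ^ 3) : κ ≤ K := by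
  have h0 := hA.card_pos
  have h1 : #A ^ 3 * #A ≤ K * En A * #A := by
    rw [← pow_succ, mul_right_comm]
    exact (pow_four_le_En A).trans (Nat.mul_le_mul_right _ hK)
  have h2 := Nat.le_of_mul_le_mul_right h1 h0
  refine Nat.le_of_mul_le_mul_right (hE.trans h2) (Nat.pos_of_ne_zero fun h => ?_)
  rw [h, mul_zero] at h2
  exact absurd h2 (not_le.mpr (by positivity))

lemma Conn.refl (A Γ : Finset G) (a : G) : Conn A Γ a a := Relation.ReflTransGen.refl

lemma Conn.trans {A Γ : Finset G} {a b c : G} (h : Conn A Γ a b) (h' : Conn A Γ b c) :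
    Conn A Γ a c := Relation.ReflTransGen.trans h h'

lemma Conn.symm {A Γ : Finset G} {a b : G} (h : Conn A Γ a b) : Conn A Γ b a := by
  induction h with
  | refl => exact Relation.ReflTransGen.refl
  | tail _ h ih => exact Relation.ReflTransGen.head ⟨h.2.1, h.1, h.2.2.symm⟩ ih

lemma Conn.mono {A Γ Γ' : Finset G} (hΓ : Γ ⊆ Γ') {a b : G} (h : Conn A Γ a b) :
    Conn A Γ' a b := by
  induction h with
  | refl => exact Relation.ReflTransGen.refl
  | tail _ h ih => exact Relation.ReflTransGen.tail ih ⟨h.1, h.2.1, h.2.2.imp (@hΓ _) (@hΓ _)⟩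

lemma Conn.single {A Γ : Finset G} {a b : G} (ha : a ∈ A) (hb : b ∈ A) (h : a⁻¹ * b ∈ Γ) :
    Conn A Γ a b := Relation.ReflTransGen.single ⟨ha, hb, Or.inl h⟩

lemma mem_cls {A Γ : Finset G} {a b : G} : b ∈ cls A Γ a ↔ b ∈ A ∧ Conn A Γ a b := by
  simp [cls]

lemma cls_eq {A Γ : Finset G} {a b : G} (h : Conn A Γ a b) : cls A Γ a = cls A Γ b := by
  ext c
  rw [mem_cls, mem_cls]
  exact and_congr_right fun _ => ⟨h.symm.trans, h.trans⟩

lemma Blocks.mono {A Γ Γ' : Finset G} {s β : ℕ} {𝔅 𝔅' : Finset (Finset G)} (h : Blocks A Γ s β 𝔅)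
    (hΓ : Γ ⊆ Γ') (h' : 𝔅' ⊆ 𝔅) : Blocks A Γ' s β 𝔅' :=
  ⟨fun Z hZ => ⟨(h.1 Z (h' hZ)).1, (h.1 Z (h' hZ)).2.1, (h.1 Z (h' hZ)).2.2.1, fun a ha b hb =>
    ⟨((h.1 Z (h' hZ)).2.2.2 a ha b hb).1.mono hΓ, ((h.1 Z (h' hZ)).2.2.2 a ha b hb).2⟩⟩,
    fun Z hZ Z' hZ' => h.2 Z (h' hZ) Z' (h' hZ')⟩

lemma Blocks.card_biUnion {A Γ : Finset G} {s β : ℕ} {𝔅 : Finset (Finset G)}
    (h : Blocks A Γ s β 𝔅) : #(𝔅.biUnion id) = β * #𝔅 := by
  rw [Finset.card_biUnion (t := id) (fun Z hZ Z' hZ' => h.2 Z hZ Z' hZ'), mul_comm, ← smul_eq_mul,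
    ← sum_const]
  exact sum_congr rfl fun Z hZ => (h.1 Z hZ).2.1

lemma Blocks.biUnion_subset {A Γ : Finset G} {s β : ℕ} {𝔅 : Finset (Finset G)}
    (h : Blocks A Γ s β 𝔅) : 𝔅.biUnion id ⊆ A :=
  Finset.biUnion_subset.mpr fun Z hZ => (h.1 Z hZ).1

end Pool.Agent.Work.MP_5dd17b_co
end

-- merged part: Pool.Agent.Work.MP_5dd17b_co.SolMerge
section
/-!
While all classes are small, one colour lowers the number of classes by the factor 1 - s / (8 K).

Plan. k = #A, U = union of the blocks (2 #U ≥ k by `Blocks.card_biUnion`), 𝒞 = U.image (cls A Γ).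
If 𝒞 is empty there is nothing to prove. For c in 𝒞 choose a block Z c ⊆ c (the block of a point a
with c = cls A Γ a; `mem_cls`), let A' = U \ c, so 8 #A' ≥ 3 k, and Col c = (Z c)⁻¹ * A' ⊆ A⁻¹ * A.
s #A' ≤ #(Col c) + k / s: the pairs (z, a') in Z × A' for which no w ≠ z in Z has w * z⁻¹ * a' in A
inject into Col c under z⁻¹ * a', the others number at most the sum of ov A z w over w ≠ z, at most
s^2 k / s^3. So 4 #(Col c) ≥ s k as s^2 ≥ 8. Double counting
(`sum_card_bipartiteAbove_eq_sum_card_bipartiteBelow`, `exists_le_of_sum_le`) gives γ in A⁻¹ * A with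
s #𝒞 ≤ 4 K #J, J = the c in 𝒞 with γ in Col c. Let φ c = cls A (insert γ Γ) (a point of c); then
U.image (cls A (insert γ Γ)) = 𝒞.image φ (`cls_eq`, `Conn.mono`), and each c in J has another c2 ≠ c
in 𝒞 with φ c2 = φ c (the class of a' = z * γ; `Conn.single`). General lemma: then
2 #(𝒞.image φ) + #J ≤ 2 #𝒞 (sum over the fibres, `card_eq_sum_card_image`).
-/

set_option autoImplicit false
set_option linter.unusedSectionVars false

namespace Pool.Agent.Work.MP_5dd17b_co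

open Finset
open scoped Pointwise

variable {G : Type} [Group G] [DecidableEq G]

lemma SolMerge_fib {α β : Type} [DecidableEq α] [DecidableEq β] (C J : Finset α) (φ : α → β)
    (hJ : J ⊆ C) (h : ∀ c ∈ J, ∃ c' ∈ C, c' ≠ c ∧ φ c' = φ c) :
    2 * #(C.image φ) + #J ≤ 2 * #C := by
  rw [card_eq_sum_card_image φ C, card_eq_sum_card_fiberwise (f := φ) (s := J) (t := C.image φ)
    (fun c hc => mem_coe.mpr (mem_image_of_mem _ (hJ hc))), card_eq_sum_ones (C.image φ), mul_sum,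
    mul_sum, ← sum_add_distrib]
  refine sum_le_sum fun b hb => ?_
  rcases (J.filter fun c => φ c = b).eq_empty_or_nonempty with e | ⟨c, hc⟩
  · obtain ⟨c, hc, rfl⟩ := mem_image.mp hb
    have : 0 < #(C.filter fun x => φ x = φ c) := card_pos.mpr ⟨c, mem_filter.mpr ⟨hc, rfl⟩⟩
    rw [e, card_empty]
    omega
  · obtain ⟨c1, c2⟩ := mem_filter.mp hc
    obtain ⟨c', d1, d2, d3⟩ := h c c1
    have e1 : 1 < #(C.filter fun x => φ x = b) := one_lt_card.mpr
      ⟨c', mem_filter.mpr ⟨d1, d3.trans c2⟩, c, mem_filter.mpr ⟨hJ c1, c2⟩, d2⟩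
    have e2 := card_le_card (filter_subset_filter (fun x => φ x = b) hJ)
    omega

lemma SolMerge_col (A Z B : Finset G) (s : ℕ) (hs : 0 < s) (hB : B ⊆ A) (hZ : #Z = s)
    (h : ∀ a ∈ Z, ∀ b ∈ Z, a ≠ b → s ^ 3 * ov A a b ≤ #A) :
    s * (s * #B) ≤ s * #(Z⁻¹ * B) + #A := by
  classical
  have e1 := card_filter_add_card_filter_not (s := Z ×ˢ B)
    fun p : G × G => ∃ w ∈ Z.erase p.1, w * p.1⁻¹ * p.2 ∈ A
  rw [card_product, hZ] at e1
  have e2 : #((Z ×ˢ B).filter fun p : G × G => ¬ ∃ w ∈ Z.erase p.1, w * p.1⁻¹ * p.2 ∈ A) ≤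
      #(Z⁻¹ * B) := by
    refine card_le_card_of_injOn (fun p => p.1⁻¹ * p.2) (fun p hp => ?_) fun p hp q hq e => ?_
    · obtain ⟨p1, p2⟩ := mem_product.mp (mem_filter.mp (mem_coe.mp hp)).1
      exact mem_coe.mpr (mul_mem_mul (inv_mem_inv p1) p2)
    · obtain ⟨q1, q2⟩ := mem_product.mp (mem_filter.mp (mem_coe.mp hq)).1
      have e' : p.1⁻¹ * p.2 = q.1⁻¹ * q.2 := e
      have e3 : p.1 = q.1 := by
        by_contra n
        refine (mem_filter.mp (mem_coe.mp hp)).2 ⟨q.1, mem_erase.mpr ⟨Ne.symm n, q1⟩, ?_⟩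
        rw [mul_assoc, e', mul_inv_cancel_left]
        exact hB q2
      rw [e3] at e'
      exact Prod.ext e3 (mul_left_cancel e')
  have e3 : #((Z ×ˢ B).filter fun p : G × G => ∃ w ∈ Z.erase p.1, w * p.1⁻¹ * p.2 ∈ A) ≤
      ∑ z ∈ Z, ∑ w ∈ Z.erase z, ov A z w := by
    refine (card_le_card (t := Z.biUnion fun z => (Z.erase z).biUnion fun w =>
      (A.filter fun c => w * z⁻¹ * c ∈ A).image fun c => (z, c)) fun p hp => ?_).trans ?_
    · obtain ⟨p1, w, hw, p2⟩ := mem_filter.mp hp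
      obtain ⟨p3, p4⟩ := mem_product.mp p1
      exact mem_biUnion.mpr ⟨p.1, p3, mem_biUnion.mpr ⟨w, hw,
        mem_image.mpr ⟨p.2, mem_filter.mpr ⟨hB p4, p2⟩, rfl⟩⟩⟩
    · exact card_biUnion_le.trans (sum_le_sum fun z _ => card_biUnion_le.trans
        (sum_le_sum fun w _ => card_image_le))
  have e4 : s ^ 3 * ∑ z ∈ Z, ∑ w ∈ Z.erase z, ov A z w ≤ s * (s * #A) := by
    rw [mul_sum]
    refine (sum_le_card_nsmul _ _ (s * #A) fun z hz => ?_).trans (by rw [hZ, smul_eq_mul])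
    rw [mul_sum]
    refine (sum_le_card_nsmul _ _ #A fun w hw => ?_).trans ?_
    · exact h z hz w (mem_of_mem_erase hw) (ne_of_mem_erase hw).symm
    · rw [smul_eq_mul, ← hZ]
      exact Nat.mul_le_mul_right _ card_erase_le
  have e5 : s * ∑ z ∈ Z, ∑ w ∈ Z.erase z, ov A z w ≤ #A := by
    refine Nat.le_of_mul_le_mul_left (Nat.le_of_mul_le_mul_left ?_ hs) hs
    refine le_of_eq_of_le ?_ e4
    ring
  have e6 := Nat.mul_le_mul_left s e2
  have e7 := Nat.mul_le_mul_left s e3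
  rw [← e1, mul_add]
  omega

theorem merge (A Γ : Finset G) (K s : ℕ) (𝔅 : Finset (Finset G)) (hK : #(A⁻¹ * A) ≤ K * #A)
    (hs : 3 ≤ s) (h : Blocks A Γ s s 𝔅) (hm : #A ≤ 2 * s * #𝔅)
    (hc : ∀ a ∈ A, 8 * #(cls A Γ a) < #A) :
    ∃ γ : G, 8 * K * #((𝔅.biUnion id).image (cls A (insert γ Γ))) +
      s * #((𝔅.biUnion id).image (cls A Γ)) ≤ 8 * K * #((𝔅.biUnion id).image (cls A Γ)) := by
  classical
  have hU := h.biUnion_subset
  have hcard := h.card_biUnion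
  set U := 𝔅.biUnion id with hUdef
  rcases A.eq_empty_or_nonempty with rfl | hA
  · rw [subset_empty.mp hU]
    exact ⟨1, by simp⟩
  set 𝒞 := U.image (cls A Γ) with h𝒞
  have hcol : ∀ c ∈ 𝒞, s * #A ≤ 4 * #((A⁻¹ * A).filter fun γ => γ ∈ c⁻¹ * (U \ c)) := by
    intro c hc'
    obtain ⟨a, ha, rfl⟩ := mem_image.mp hc'
    obtain ⟨Z, hZ, haZ⟩ := mem_biUnion.mp ha
    obtain ⟨z1, z2, -, z3⟩ := h.1 Z hZ
    have e1 := SolMerge_col A Z (U \ cls A Γ a) s (by omega) (sdiff_subset.trans hU) z2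
      fun x hx y hy => (z3 x hx y hy).2
    have e2 : Z⁻¹ * (U \ cls A Γ a) ⊆
        (A⁻¹ * A).filter fun γ => γ ∈ (cls A Γ a)⁻¹ * (U \ cls A Γ a) := fun γ hγ =>
      mem_filter.mpr ⟨mul_subset_mul (inv_subset_inv z1) (sdiff_subset.trans hU) hγ,
        mul_subset_mul_right (inv_subset_inv fun x hx =>
          mem_cls.mpr ⟨z1 hx, (z3 a haZ x hx).1⟩) hγ⟩
    have e3 := card_le_card e2
    have e4 := le_card_sdiff (cls A Γ a) U
    have e5 := hc a (hU ha)
    have e6 : #A ≤ 2 * #U := by rw [hcard, ← mul_assoc]; exact hm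
    have e7 : 3 * #A ≤ 8 * #(U \ cls A Γ a) := by omega
    have e8 : 8 * #A ≤ s * s * #A := Nat.mul_le_mul_right _ (by nlinarith only [hs])
    have e9 := Nat.mul_le_mul_left (s * s) e7
    have e10 := Nat.mul_le_mul_left s e3
    refine Nat.le_of_mul_le_mul_left ?_ (by omega : 0 < s)
    linarith only [e1, e8, e9, e10]
  have hsum : ∑ _γ ∈ A⁻¹ * A, s * #𝒞 ≤
      ∑ γ ∈ A⁻¹ * A, 4 * K * #(𝒞.filter fun c => γ ∈ c⁻¹ * (U \ c)) := by
    have e1 : ∑ c ∈ 𝒞, #((A⁻¹ * A).filter fun γ => γ ∈ c⁻¹ * (U \ c)) =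
        ∑ γ ∈ A⁻¹ * A, #(𝒞.filter fun c => γ ∈ c⁻¹ * (U \ c)) :=
      sum_card_bipartiteAbove_eq_sum_card_bipartiteBelow fun c γ => γ ∈ c⁻¹ * (U \ c)
    have e2 := sum_le_sum hcol
    rw [← mul_sum _ _ 4, e1, sum_const, smul_eq_mul] at e2
    rw [← mul_sum _ _ (4 * K), sum_const, smul_eq_mul]
    have e3 := Nat.mul_le_mul_right (s * #𝒞) hK
    have e4 := Nat.mul_le_mul_left K e2
    linarith only [e3, e4]
  obtain ⟨γ, -, hγ⟩ := exists_le_of_sum_le (hA.inv.mul hA) hsum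
  refine ⟨γ, ?_⟩
  set φ : Finset G → Finset G := fun c => A.filter fun b => ∃ a ∈ c, Conn A (insert γ Γ) a b
    with hφdef
  have hφ : ∀ a ∈ A, φ (cls A Γ a) = cls A (insert γ Γ) a := fun a ha => by
    ext b
    simp only [hφdef, mem_filter, mem_cls]
    refine and_congr_right fun _ => ⟨?_, fun hb => ⟨a, ⟨ha, Conn.refl _ _ _⟩, hb⟩⟩
    rintro ⟨x, ⟨-, hx⟩, hb⟩
    exact (hx.mono (subset_insert _ _)).trans hb
  have him : U.image (cls A (insert γ Γ)) = 𝒞.image φ := by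
    rw [h𝒞, image_image]
    exact image_congr fun a ha => (hφ a (hU ha)).symm
  have hJ := SolMerge_fib 𝒞 (𝒞.filter fun c => γ ∈ c⁻¹ * (U \ c)) φ (filter_subset _ _)
    fun c hc' => by
      obtain ⟨c1, c2⟩ := mem_filter.mp hc'
      obtain ⟨a, ha, rfl⟩ := mem_image.mp c1
      obtain ⟨x, hx, b, hb, e⟩ := mem_mul.mp c2
      obtain ⟨z, hz, rfl⟩ := mem_inv.mp hx
      obtain ⟨b1, b2⟩ := mem_sdiff.mp hb
      obtain ⟨z1, z2⟩ := mem_cls.mp hz
      refine ⟨cls A Γ b, mem_image_of_mem _ b1, fun e' => b2 ?_, ?_⟩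
      · rw [← e']
        exact mem_cls.mpr ⟨hU b1, Conn.refl _ _ _⟩
      · rw [hφ b (hU b1), hφ a (hU ha)]
        exact (cls_eq ((z2.mono (subset_insert _ _)).trans
          (Conn.single z1 (hU b1) (e ▸ mem_insert_self _ _)))).symm
  rw [him]
  have e := Nat.mul_le_mul_left (4 * K) hJ
  linarith only [hγ, e]

end Pool.Agent.Work.MP_5dd17b_co
end

-- merged part: Pool.Agent.Work.MP_5dd17b_co.SolMatch
section
/-!
One colour matches many blocks of L with compatible blocks of R.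

Plan. k = #A, u = β n. Consider the u^2 pairs (z, z') with z in the union of L, z' in the union of R
(`Blocks.card_biUnion`, `Blocks.mono`); let blk z be the block of L ∪ R containing z (choice; unique
by disjointness). Bad pairs: (1) some a in blk z and b in blk z' are parallel (k < s^3 ov A a b): for a
fixed block Z the blocks Z' containing a point parallel to a point of Z number at most
β k / s^4 (low degree; send Z' to such a point b, injective by disjointness), so at most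
u β^2 k / s^4 ≤ u k / (4 s^2) pairs; (2) some w ≠ z in blk z has w * z⁻¹ * z' in A: for fixed z at most
the sum of ov A z w ≤ β k / s^3 ≤ k / (2 s^2) values of z'; (3) some w' ≠ z' in blk z' has
w' * z'⁻¹ * z in A: symmetric. In total at most (5/4) u k / s^2 ≤ (5/12) u^2 by hn, so at least u^2 / 2
good pairs (work with the inequalities multiplied out, or in the reals). The colour z⁻¹ * z' lies in
A⁻¹ * A; take γ with the largest number of good pairs (`card_le_mul_card_image_of_maps_to` or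
`exists_max_image`). M = image of these pairs under (blk z, blk z'). Two good pairs of colour γ with
the same blk z have the same z by (2), so they are equal; the same with blk z' by (3). So M has as many
elements as there are pairs and both projections are injective on M. If n = 0 take M empty.
-/

set_option autoImplicit false
set_option linter.unusedSectionVars false

namespace Pool.Agent.Work.MP_5dd17b_co

open Finset
open scoped Pointwise

variable {G : Type} [Group G] [DecidableEq G]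

lemma SolMatch_left {α γ : Type} (S : Finset α) (T : Finset γ) (r : α → γ → Prop)
    [∀ a b, Decidable (r a b)] {c d : ℕ} (h : ∀ x ∈ S, c * #(T.filter fun y => r x y) ≤ d) :
    c * #((S ×ˢ T).filter fun t => r t.1 t.2) ≤ #S * d := by
  have e : #((S ×ˢ T).filter fun t => r t.1 t.2) = ∑ x ∈ S, #(T.filter fun y => r x y) := by
    simp only [card_filter, sum_product]
  rw [e, mul_sum, ← smul_eq_mul, ← sum_const]
  exact sum_le_sum h

lemma SolMatch_right {α γ : Type} (S : Finset α) (T : Finset γ) (r : α → γ → Prop)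
    [∀ a b, Decidable (r a b)] {c d : ℕ} (h : ∀ y ∈ T, c * #(S.filter fun x => r x y) ≤ d) :
    c * #((S ×ˢ T).filter fun t => r t.1 t.2) ≤ #T * d := by
  have e : #((S ×ˢ T).filter fun t => r t.1 t.2) = ∑ y ∈ T, #(S.filter fun x => r x y) := by
    simp only [card_filter, sum_product_right]
  rw [e, mul_sum, ← smul_eq_mul, ← sum_const]
  exact sum_le_sum h

/-- pointed blocks -/
def SolMatch_P (A : Finset G) (X : Finset (Finset G)) : Finset (Finset G × G) :=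
  (X ×ˢ A).filter fun x => x.2 ∈ x.1

lemma SolMatch_mem {A : Finset G} {X : Finset (Finset G)} {x : Finset G × G} :
    x ∈ SolMatch_P A X ↔ (x.1 ∈ X ∧ x.2 ∈ A) ∧ x.2 ∈ x.1 := by
  rw [SolMatch_P, mem_filter, mem_product]

variable {A Γ : Finset G} {s β : ℕ} {X Y : Finset (Finset G)}

lemma SolMatch_card (h : Blocks A Γ s β X) : #(SolMatch_P A X) = β * #X := by
  have e : #(SolMatch_P A X) = ∑ Z ∈ X, #(A.filter fun y => y ∈ Z) := by
    simp only [SolMatch_P, card_filter, sum_product]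
  rw [e, mul_comm, ← smul_eq_mul, ← sum_const]
  refine sum_congr rfl fun Z hZ => ?_
  rw [filter_mem_eq_inter, inter_eq_right.2 (h.1 Z hZ).1, (h.1 Z hZ).2.1]

lemma SolMatch_blk (h : Blocks A Γ s β X) {Z Z' : Finset G} (hZ : Z ∈ X) (hZ' : Z' ∈ X) {b : G}
    (hb : b ∈ Z) (hb' : b ∈ Z') : Z = Z' := by
  by_contra hne
  exact disjoint_left.1 (h.2 Z hZ Z' hZ' hne) hb hb'

lemma SolMatch_inj (h : Blocks A Γ s β X) {x y : Finset G × G} (hx : x ∈ SolMatch_P A X)
    (hy : y ∈ SolMatch_P A X) (e : x.2 = y.2) : x = y := by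
  rw [SolMatch_mem] at hx hy
  exact Prod.ext (SolMatch_blk h hx.1.1 hy.1.1 hx.2 (e ▸ hy.2)) e

lemma SolMatch_one (hX : Blocks A Γ s β X) (hY : Blocks A Γ s β Y) :
    ∀ x ∈ SolMatch_P A X, s ^ 4 * #((SolMatch_P A Y).filter fun y =>
      ∃ a ∈ x.1, ∃ b ∈ y.1, #A < s ^ 3 * ov A a b) ≤ β * (β * #A) := by
  intro x hx
  rw [SolMatch_mem] at hx
  obtain ⟨-, h2, h3, -⟩ := hX.1 x.1 hx.1.1
  have a1 : ((SolMatch_P A Y).filter fun y => ∃ a ∈ x.1, ∃ b ∈ y.1, #A < s ^ 3 * ov A a b) ⊆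
      SolMatch_P A (Y.filter fun Z => ∃ a ∈ x.1, ∃ b ∈ Z, #A < s ^ 3 * ov A a b) := by
    intro y hy
    rw [mem_filter, SolMatch_mem] at hy
    rw [SolMatch_mem, mem_filter]
    exact ⟨⟨⟨hy.1.1.1, hy.2⟩, hy.1.1.2⟩, hy.1.2⟩
  have a2 := card_le_card a1
  rw [SolMatch_card (hY.mono Subset.rfl (filter_subset _ _))] at a2
  have a3 : #(Y.filter fun Z => ∃ a ∈ x.1, ∃ b ∈ Z, #A < s ^ 3 * ov A a b) ≤
      #(x.1.biUnion fun a => A.filter fun b => #A < s ^ 3 * ov A a b) := by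
    refine card_le_card_of_forall_subsingleton (fun Z b => b ∈ Z) (fun Z hZ => ?_)
      fun b _ Z hZ Z' hZ' => ?_
    · obtain ⟨hZ, a, ha, b, hb, hab⟩ := mem_filter.1 hZ
      exact ⟨b, mem_biUnion.2 ⟨a, ha, mem_filter.2 ⟨(hY.1 Z hZ).1 hb, hab⟩⟩, hb⟩
    · exact SolMatch_blk hY (mem_filter.1 hZ.1).1 (mem_filter.1 hZ'.1).1 hZ.2 hZ'.2
  have a4 : s ^ 4 * ∑ a ∈ x.1, #(A.filter fun b => #A < s ^ 3 * ov A a b) ≤ β * #A := by
    rw [mul_sum, ← h2, ← smul_eq_mul, ← sum_const]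
    exact sum_le_sum h3
  refine (Nat.mul_le_mul_left _ a2).trans ?_
  rw [mul_left_comm]
  exact Nat.mul_le_mul_left _ ((Nat.mul_le_mul_left _ (a3.trans card_biUnion_le)).trans a4)

lemma SolMatch_two (hX : Blocks A Γ s β X) (hY : Blocks A Γ s β Y) :
    ∀ x ∈ SolMatch_P A X, s ^ 3 * #((SolMatch_P A Y).filter fun y =>
      ∃ w ∈ x.1, w ≠ x.2 ∧ w * x.2⁻¹ * y.2 ∈ A) ≤ β * #A := by
  intro x hx
  rw [SolMatch_mem] at hx
  obtain ⟨-, h2, -, h4⟩ := hX.1 x.1 hx.1.1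
  have a3 : #((SolMatch_P A Y).filter fun y => ∃ w ∈ x.1, w ≠ x.2 ∧ w * x.2⁻¹ * y.2 ∈ A) ≤
      #((x.1.erase x.2).biUnion fun w => A.filter fun c => w * x.2⁻¹ * c ∈ A) := by
    refine card_le_card_of_injOn Prod.snd (fun y hy => ?_) fun y hy y' hy' e => ?_
    · obtain ⟨hy, w, hw, hne, hA⟩ := mem_filter.1 (mem_coe.1 hy)
      exact mem_coe.2 (mem_biUnion.2 ⟨w, mem_erase.2 ⟨hne, hw⟩,
        mem_filter.2 ⟨(SolMatch_mem.1 hy).1.2, hA⟩⟩)
    · exact SolMatch_inj hY (mem_filter.1 (mem_coe.1 hy)).1 (mem_filter.1 (mem_coe.1 hy')).1 e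
  refine (Nat.mul_le_mul_left _ (a3.trans card_biUnion_le)).trans ?_
  calc s ^ 3 * ∑ w ∈ x.1.erase x.2, #(A.filter fun c => w * x.2⁻¹ * c ∈ A)
      ≤ #(x.1.erase x.2) * #A := by
        rw [mul_sum, ← smul_eq_mul, ← sum_const]
        exact sum_le_sum fun w hw =>
          (h4 x.2 hx.2 w (mem_of_mem_erase hw)).2 (ne_of_mem_erase hw).symm
    _ ≤ β * #A := Nat.mul_le_mul_right _ (h2 ▸ card_erase_le)

lemma SolMatch_arith {s β u k g b1 b2 b3 : ℕ} (hβ : 1 ≤ β) (hs : 2 * β ≤ s)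
    (hn : 3 * k ≤ s ^ 2 * u) (h0 : u * u ≤ g + (b1 + b2 + b3))
    (h1 : s ^ 4 * b1 ≤ u * (β * (β * k))) (h2 : s ^ 3 * b2 ≤ u * (β * k))
    (h3 : s ^ 3 * b3 ≤ u * (β * k)) : u ^ 2 ≤ 2 * g := by
  have hs0 : 0 < s := by omega
  have a1 : 4 * (s ^ 2 * b1) ≤ u * k := by
    refine Nat.le_of_mul_le_mul_left ?_ (pow_pos hs0 2)
    calc s ^ 2 * (4 * (s ^ 2 * b1)) = 4 * (s ^ 4 * b1) := by ring
      _ ≤ 4 * (u * (β * (β * k))) := Nat.mul_le_mul_left _ h1
      _ = (2 * β) ^ 2 * (u * k) := by ring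
      _ ≤ s ^ 2 * (u * k) := Nat.mul_le_mul_right _ (Nat.pow_le_pow_left hs 2)
  have a2 : ∀ b, s ^ 3 * b ≤ u * (β * k) → 2 * (s ^ 2 * b) ≤ u * k := fun b hb => by
    refine Nat.le_of_mul_le_mul_left ?_ hs0
    calc s * (2 * (s ^ 2 * b)) = 2 * (s ^ 3 * b) := by ring
      _ ≤ 2 * (u * (β * k)) := Nat.mul_le_mul_left _ hb
      _ = 2 * β * (u * k) := by ring
      _ ≤ s * (u * k) := Nat.mul_le_mul_right _ hs
  have a3 := a2 b2 h2
  have a4 := a2 b3 h3
  have a5 : u * (3 * k) ≤ u * (s ^ 2 * u) := Nat.mul_le_mul_left _ hn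
  have a6 : 12 * (b1 + b2 + b3) ≤ 5 * (u * u) := by
    refine Nat.le_of_mul_le_mul_left ?_ (pow_pos hs0 2)
    linarith only [a1, a3, a4, a5]
  rw [sq]
  omega

theorem match_step (A Γ : Finset G) (K s β n : ℕ) (L R : Finset (Finset G))
    (hK : #(A⁻¹ * A) ≤ K * #A) (hβ : 1 ≤ β) (hs : 2 * β ≤ s) (h : Blocks A Γ s β (L ∪ R))
    (hd : Disjoint L R) (hL : #L = n) (hR : #R = n) (hn : 3 * #A ≤ s ^ 2 * (β * n)) :
    ∃ (γ : G) (M : Finset (Finset G × Finset G)), M ⊆ L ×ˢ R ∧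
      Set.InjOn Prod.fst (M : Set (Finset G × Finset G)) ∧
      Set.InjOn Prod.snd (M : Set (Finset G × Finset G)) ∧
      (∀ p ∈ M, (∃ z ∈ p.1, z * γ ∈ p.2) ∧ ∀ a ∈ p.1, ∀ b ∈ p.2, s ^ 3 * ov A a b ≤ #A) ∧
      (β * n) ^ 2 ≤ 2 * K * #A * #M := by
  have hL' : Blocks A Γ s β L := h.mono Subset.rfl subset_union_left
  have hR' : Blocks A Γ s β R := h.mono Subset.rfl subset_union_right
  have cL := SolMatch_card hL'
  have cR := SolMatch_card hR'
  rw [hL] at cL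
  rw [hR] at cR
  have b1 := SolMatch_left _ _ (fun x y : Finset G × G => ∃ a ∈ x.1, ∃ b ∈ y.1,
    #A < s ^ 3 * ov A a b) (SolMatch_one hL' hR')
  have b2 := SolMatch_left _ _ (fun x y : Finset G × G => ∃ w ∈ x.1, w ≠ x.2 ∧
    w * x.2⁻¹ * y.2 ∈ A) (SolMatch_two hL' hR')
  have b3 := SolMatch_right _ _ (fun y x : Finset G × G => ∃ w ∈ x.1, w ≠ x.2 ∧
    w * x.2⁻¹ * y.2 ∈ A) (SolMatch_two hR' hL')
  rw [cL] at b1 b2
  rw [cR] at b3
  set T := SolMatch_P A L ×ˢ SolMatch_P A R with hT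
  set B1 := T.filter fun t => ∃ a ∈ t.1.1, ∃ b ∈ t.2.1, #A < s ^ 3 * ov A a b with hB1
  set B2 := T.filter fun t => ∃ w ∈ t.1.1, w ≠ t.1.2 ∧ w * t.1.2⁻¹ * t.2.2 ∈ A with hB2
  set B3 := T.filter fun t => ∃ w ∈ t.2.1, w ≠ t.2.2 ∧ w * t.2.2⁻¹ * t.1.2 ∈ A with hB3
  set Gd := T \ (B1 ∪ B2 ∪ B3) with hGd
  have b0 : β * n * (β * n) ≤ #Gd + (#B1 + #B2 + #B3) := by
    have a1 : #T = β * n * (β * n) := by rw [hT, card_product, cL, cR]
    have a2 := le_card_sdiff (B1 ∪ B2 ∪ B3) T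
    have a3 := card_union_le (B1 ∪ B2) B3
    have a4 := card_union_le B1 B2
    rw [← hGd] at a2
    omega
  have hg := SolMatch_arith hβ hs hn b0 b1 b2 b3
  obtain ⟨γ, -, hγ⟩ := exists_max_image (insert 1 (A⁻¹ * A))
    (fun γ => #(Gd.filter fun t => t.1.2⁻¹ * t.2.2 = γ)) (insert_nonempty _ _)
  set F := Gd.filter fun t => t.1.2⁻¹ * t.2.2 = γ with hF
  have hGT : ∀ t ∈ Gd, (t.1 ∈ SolMatch_P A L ∧ t.2 ∈ SolMatch_P A R) ∧
      (∀ a ∈ t.1.1, ∀ b ∈ t.2.1, s ^ 3 * ov A a b ≤ #A) ∧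
      (∀ w ∈ t.1.1, w * t.1.2⁻¹ * t.2.2 ∈ A → w = t.1.2) ∧
      ∀ w ∈ t.2.1, w * t.2.2⁻¹ * t.1.2 ∈ A → w = t.2.2 := by
    intro t ht
    obtain ⟨h1, h2⟩ := mem_sdiff.1 ht
    rw [mem_union, mem_union, not_or, not_or] at h2
    refine ⟨mem_product.1 h1, fun a ha b hb => ?_, fun w hw hA => ?_, fun w hw hA => ?_⟩
    · by_contra hc
      exact h2.1.1 (mem_filter.2 ⟨h1, a, ha, b, hb, not_le.1 hc⟩)
    · by_contra hc
      exact h2.1.2 (mem_filter.2 ⟨h1, w, hw, hc, hA⟩)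
    · by_contra hc
      exact h2.2 (mem_filter.2 ⟨h1, w, hw, hc, hA⟩)
  have hcard : #Gd ≤ #F * #(A⁻¹ * A) :=
    card_le_mul_card_image_of_maps_to (f := fun t => t.1.2⁻¹ * t.2.2)
      (fun t ht => mul_mem_mul (inv_mem_inv (SolMatch_mem.1 (hGT t ht).1.1).1.2)
        (SolMatch_mem.1 (hGT t ht).1.2).1.2) _ fun c hc => hγ c (mem_insert_of_mem hc)
  have key : ∀ t ∈ F, ∀ t' ∈ F, t.1.1 = t'.1.1 ∨ t.2.1 = t'.2.1 → t = t' := by
    intro t ht t' ht' e
    obtain ⟨ht, c⟩ := mem_filter.1 ht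
    obtain ⟨ht', c'⟩ := mem_filter.1 ht'
    obtain ⟨⟨m1, m2⟩, -, g2, g3⟩ := hGT t ht
    obtain ⟨⟨m1', m2'⟩, -⟩ := hGT t' ht'
    have cc := c.trans c'.symm
    have e2 : t'.1.2 = t.1.2 ∧ t'.2.2 = t.2.2 := by
      rcases e with e | e
      · have a1 := g2 t'.1.2 (e ▸ (SolMatch_mem.1 m1').2) (by
          rw [mul_assoc, cc, mul_inv_cancel_left]
          exact (SolMatch_mem.1 m2').1.2)
        rw [a1] at cc
        exact ⟨a1, (mul_left_cancel cc).symm⟩
      · have a1 := g3 t'.2.2 (e ▸ (SolMatch_mem.1 m2').2) (by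
          have : t.2.2⁻¹ * t.1.2 = t'.2.2⁻¹ * t'.1.2 := by
            simpa only [mul_inv_rev, inv_inv] using congrArg (·⁻¹) cc
          rw [mul_assoc, this, mul_inv_cancel_left]
          exact (SolMatch_mem.1 m1').1.2)
        rw [a1] at cc
        exact ⟨(inv_injective (mul_right_cancel cc)).symm, a1⟩
    exact Prod.ext (SolMatch_inj hL' m1 m1' e2.1.symm) (SolMatch_inj hR' m2 m2' e2.2.symm)
  refine ⟨γ, F.image fun t => (t.1.1, t.2.1), fun p hp => ?_, fun p hp p' hp' e => ?_,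
    fun p hp p' hp' e => ?_, fun p hp => ?_, ?_⟩
  · obtain ⟨t, ht, rfl⟩ := mem_image.1 hp
    obtain ⟨⟨m1, m2⟩, -⟩ := hGT t (mem_filter.1 ht).1
    exact mem_product.2 ⟨(SolMatch_mem.1 m1).1.1, (SolMatch_mem.1 m2).1.1⟩
  · obtain ⟨t, ht, rfl⟩ := mem_image.1 (mem_coe.1 hp)
    obtain ⟨t', ht', rfl⟩ := mem_image.1 (mem_coe.1 hp')
    rw [key t ht t' ht' (Or.inl e)]
  · obtain ⟨t, ht, rfl⟩ := mem_image.1 (mem_coe.1 hp)
    obtain ⟨t', ht', rfl⟩ := mem_image.1 (mem_coe.1 hp')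
    rw [key t ht t' ht' (Or.inr e)]
  · obtain ⟨t, ht, rfl⟩ := mem_image.1 hp
    obtain ⟨ht, c⟩ := mem_filter.1 ht
    obtain ⟨⟨m1, m2⟩, g1, -⟩ := hGT t ht
    refine ⟨⟨t.1.2, (SolMatch_mem.1 m1).2, ?_⟩, g1⟩
    rw [← c, mul_inv_cancel_left]
    exact (SolMatch_mem.1 m2).2
  · rw [card_image_of_injOn (f := fun t : (Finset G × G) × Finset G × G => (t.1.1, t.2.1))
      fun t ht t' ht' e => key t (mem_coe.1 ht) t' (mem_coe.1 ht') (Or.inl (Prod.ext_iff.1 e).1)]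
    calc (β * n) ^ 2 ≤ 2 * #Gd := hg
      _ ≤ 2 * (#F * (K * #A)) :=
        Nat.mul_le_mul_left _ (hcard.trans (Nat.mul_le_mul_left _ hK))
      _ = 2 * K * #A * #F := by ring

end Pool.Agent.Work.MP_5dd17b_co
end

-- merged part: Pool.Agent.Work.MP_5dd17b_co.SolRound
section
/-!
One round: few colours double the size of most blocks.

Plan. k = #A; if A is empty then 𝔅 is empty. ε > 0 by hε. n0 = #𝔅 / 2; choose L0 ⊆ 𝔅 and
R0 ⊆ 𝔅 \ L0 with n0 elements each (`exists_subset_card_eq`). A state is (t, Γ', M) with Γ ⊆ Γ',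
#Γ' ≤ #Γ + t, t ε^2 k ≤ 2 K #M, M ⊆ L0 ×ˢ R0 with both projections injective, and for p in M some
z in p.1, z' in p.2 with Conn A Γ' z z', and all a in p.1, b in p.2 non-parallel. (0, Γ, ∅) is a state
and #M ≤ n0; take a state with #M maximal (`Nat.findGreatest` or strong induction on n0 - #M). If
ε k ≤ β (n0 - #M), apply `match_step` to L0 \ M.image fst and R0 \ M.image snd (n = n0 - #M): the new
matching M' has ε^2 k ≤ 2 K #M', so it is nonempty and (t + 1, insert γ Γ', M ∪ M') is a larger state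
(`Conn.single`, `Conn.mono`). Hence β (n0 - #M) < ε k. Put 𝔅' = M.image (p.1 ∪ p.2); different pairs
give disjoint nonempty unions, so #𝔅' = #M; `ov_comm` for the cross pairs. t ≤ 2 K / (β ε^2) because
β #M ≤ β n0 ≤ k (`Blocks.card_biUnion`, `Blocks.biUnion_subset`), and #𝔅 ≤ 2 n0 + 1.
-/

set_option autoImplicit false
set_option linter.unusedSectionVars false

namespace Pool.Agent.Work.MP_5dd17b_co

open Finset
open scoped Pointwise

variable {G : Type} [Group G] [DecidableEq G]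

/-- a state of the greedy procedure -/
structure SolRound_St (A Γ : Finset G) (K s : ℕ) (ε : ℝ) (L R : Finset (Finset G)) (t : ℕ)
    (Γ' : Finset G) (M : Finset (Finset G × Finset G)) : Prop where
  sub : Γ ⊆ Γ'
  card : #Γ' ≤ #Γ + t
  time : t * (ε ^ 2 * #A) ≤ 2 * K * #M
  mem : M ⊆ L ×ˢ R
  i1 : Set.InjOn Prod.fst (M : Set (Finset G × Finset G))
  i2 : Set.InjOn Prod.snd (M : Set (Finset G × Finset G))
  con : ∀ p ∈ M, (∃ z ∈ p.1, ∃ z' ∈ p.2, Conn A Γ' z z') ∧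
    ∀ a ∈ p.1, ∀ b ∈ p.2, s ^ 3 * ov A a b ≤ #A

variable {A Γ Γ' : Finset G} {K s β n t : ℕ} {ε : ℝ} {L R : Finset (Finset G)}
  {M : Finset (Finset G × Finset G)}

lemma SolRound_inj {X Y : Type} [DecidableEq X] [DecidableEq Y] {f : X → Y} {M M' : Finset X}
    (h : Set.InjOn f (M : Set X)) (h' : Set.InjOn f (M' : Set X)) (hd : ∀ p ∈ M', f p ∉ M.image f) :
    Set.InjOn f ((M ∪ M' : Finset X) : Set X) := by
  intro p hp q hq e
  rcases mem_union.1 (mem_coe.1 hp) with hp | hp <;> rcases mem_union.1 (mem_coe.1 hq) with hq | hq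
  · exact h hp hq e
  · exact absurd (mem_image.2 ⟨p, hp, e⟩) (hd q hq)
  · exact absurd (mem_image.2 ⟨q, hq, e.symm⟩) (hd p hp)
  · exact h' hp hq e

lemma SolRound_St.s1 (h : SolRound_St A Γ K s ε L R t Γ' M) : M.image Prod.fst ⊆ L :=
  image_subset_iff.2 fun _ hp => (mem_product.1 (h.mem hp)).1

lemma SolRound_St.s2 (h : SolRound_St A Γ K s ε L R t Γ' M) : M.image Prod.snd ⊆ R :=
  image_subset_iff.2 fun _ hp => (mem_product.1 (h.mem hp)).2

lemma SolRound_St.le (h : SolRound_St A Γ K s ε L R t Γ' M) : #M ≤ #L :=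
  (card_image_of_injOn h.i1).symm.trans_le (card_le_card h.s1)

lemma SolRound_step (hK : #(A⁻¹ * A) ≤ K * #A) (hβ : 1 ≤ β) (hs : 2 * β ≤ s) (hε : 3 ≤ ε * s ^ 2)
    (hA : 0 < #A) (hB : Blocks A Γ s β (L ∪ R)) (hd : Disjoint L R) (hL : #L = n) (hR : #R = n)
    (h : SolRound_St A Γ K s ε L R t Γ' M) (hn : ε * #A ≤ β * (n - #M : ℕ)) :
    ∃ t2 Γ2 M2, SolRound_St A Γ K s ε L R t2 Γ2 M2 ∧ #M < #M2 := by
  have e0 : 0 < ε := pos_of_mul_pos_left (b := (s : ℝ) ^ 2) (by linarith only [hε]) (sq_nonneg _)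
  have k0 : (0 : ℝ) < #A := by exact_mod_cast hA
  have h3 : 3 * #A ≤ s ^ 2 * (β * (n - #M)) := by
    have a1 := mul_le_mul_of_nonneg_right hε k0.le
    have a2 := mul_le_mul_of_nonneg_left hn (sq_nonneg (s : ℝ))
    have a3 : (3 : ℝ) * #A ≤ s ^ 2 * (β * (n - #M : ℕ)) := by linarith only [a1, a2]
    exact_mod_cast a3
  obtain ⟨γ, M', m1, m2, m3, m4, m5⟩ := match_step A Γ K s β (n - #M) (L \ M.image Prod.fst)
    (R \ M.image Prod.snd) hK hβ hs
    (hB.mono Subset.rfl (union_subset_union sdiff_subset sdiff_subset))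
    (hd.mono sdiff_subset sdiff_subset)
    (by rw [card_sdiff_of_subset h.s1, card_image_of_injOn h.i1, hL])
    (by rw [card_sdiff_of_subset h.s2, card_image_of_injOn h.i2, hR]) h3
  have d1 : ∀ p ∈ M', p.1 ∈ L ∧ p.1 ∉ M.image Prod.fst :=
    fun p hp => mem_sdiff.1 (mem_product.1 (m1 hp)).1
  have d2 : ∀ p ∈ M', p.2 ∈ R ∧ p.2 ∉ M.image Prod.snd :=
    fun p hp => mem_sdiff.1 (mem_product.1 (m1 hp)).2
  have c1 : #(M ∪ M') = #M + #M' := card_union_of_disjoint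
    (disjoint_right.2 fun p hp hp' => (d1 p hp).2 (mem_image_of_mem _ hp'))
  have c2 : ε ^ 2 * #A ≤ 2 * K * #M' := by
    have a1 : ((β : ℝ) * (n - #M : ℕ)) ^ 2 ≤ 2 * K * #A * #M' := by exact_mod_cast m5
    have a2 := pow_le_pow_left₀ (mul_pos e0 k0).le hn 2
    exact le_of_mul_le_mul_right (by linarith only [a1, a2]) k0
  have c3 : 0 < #M' := by
    refine Nat.pos_of_ne_zero fun e => ?_
    rw [e, Nat.cast_zero, mul_zero] at c2
    exact absurd c2 (not_le.2 (by positivity))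
  refine ⟨t + 1, insert γ Γ', M ∪ M', ⟨h.sub.trans (subset_insert _ _),
    (card_insert_le _ _).trans (Nat.succ_le_succ h.card), ?_,
    union_subset h.mem fun p hp => mem_product.2 ⟨(d1 p hp).1, (d2 p hp).1⟩,
    SolRound_inj h.i1 m2 fun p hp => (d1 p hp).2, SolRound_inj h.i2 m3 fun p hp => (d2 p hp).2,
    fun p hp => ?_⟩, by omega⟩
  · rw [c1, Nat.cast_add, Nat.cast_add, Nat.cast_one]
    linarith only [c2, h, h.time]
  · rcases mem_union.1 hp with hp | hp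
    · obtain ⟨⟨z, hz, z', hz', hc⟩, h2⟩ := h.con p hp
      exact ⟨⟨z, hz, z', hz', hc.mono (subset_insert _ _)⟩, h2⟩
    · obtain ⟨⟨z, hz, hz'⟩, h2⟩ := m4 p hp
      refine ⟨⟨z, hz, z * γ, hz', Conn.single ((hB.1 _ (mem_union_left _ (d1 p hp).1)).1 hz)
        ((hB.1 _ (mem_union_right _ (d2 p hp).1)).1 hz') ?_⟩, h2⟩
      rw [inv_mul_cancel_left]
      exact mem_insert_self _ _

lemma SolRound_max (hK : #(A⁻¹ * A) ≤ K * #A) (hβ : 1 ≤ β) (hs : 2 * β ≤ s) (hε : 3 ≤ ε * s ^ 2)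
    (hA : 0 < #A) (hB : Blocks A Γ s β (L ∪ R)) (hd : Disjoint L R) (hL : #L = n) (hR : #R = n) :
    ∃ t Γ' M, SolRound_St A Γ K s ε L R t Γ' M ∧ β * (n - #M : ℕ) < ε * #A := by
  by_contra hn
  have key : ∀ j : ℕ, ∃ t Γ' M, SolRound_St A Γ K s ε L R t Γ' M ∧ j ≤ #M := by
    intro j
    induction j with
    | zero => exact ⟨0, Γ, ∅, ⟨Subset.rfl, le_rfl, by simp, empty_subset _, by simp, by simp,
        by simp⟩, le_rfl⟩
    | succ j ih =>
      obtain ⟨t, Γ', M, h, hj⟩ := ih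
      obtain ⟨t2, Γ2, M2, h2, hl⟩ := SolRound_step hK hβ hs hε hA hB hd hL hR h
        (not_lt.1 fun e => hn ⟨t, Γ', M, h, e⟩)
      exact ⟨t2, Γ2, M2, h2, by omega⟩
  obtain ⟨t, Γ', M, h, hj⟩ := key (#L + 1)
  have := h.le
  omega

lemma SolRound_new (hβ : 1 ≤ β) (hB : Blocks A Γ s β (L ∪ R)) (hd : Disjoint L R)
    (h : SolRound_St A Γ K s ε L R t Γ' M) :
    Blocks A Γ' s (2 * β) (M.image fun p => p.1 ∪ p.2) ∧ #(M.image fun p => p.1 ∪ p.2) = #M := by
  have hB' := hB.mono h.sub Subset.rfl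
  have d1 : ∀ p ∈ M, p.1 ∈ L ∪ R := fun p hp => mem_union_left _ (mem_product.1 (h.mem hp)).1
  have d2 : ∀ p ∈ M, p.2 ∈ L ∪ R := fun p hp => mem_union_right _ (mem_product.1 (h.mem hp)).2
  have d3 : ∀ p ∈ M, ∀ q ∈ M, Disjoint p.1 q.2 := fun p hp q hq => hB.2 _ (d1 p hp) _ (d2 q hq)
    fun e => disjoint_left.1 hd (mem_product.1 (h.mem hp)).1 (e ▸ (mem_product.1 (h.mem hq)).2)
  have d4 : ∀ p ∈ M, ∀ q ∈ M, p ≠ q → Disjoint (p.1 ∪ p.2) (q.1 ∪ q.2) := fun p hp q hq e =>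
    disjoint_union_left.2 ⟨disjoint_union_right.2
      ⟨hB.2 _ (d1 p hp) _ (d1 q hq) fun e' => e (h.i1 hp hq e'), d3 p hp q hq⟩,
      disjoint_union_right.2
      ⟨(d3 q hq p hp).symm, hB.2 _ (d2 p hp) _ (d2 q hq) fun e' => e (h.i2 hp hq e')⟩⟩
  have d5 : ∀ p ∈ M, #(p.1 ∪ p.2) = 2 * β := fun p hp => by
    rw [card_union_of_disjoint (d3 p hp p hp), (hB.1 _ (d1 p hp)).2.1, (hB.1 _ (d2 p hp)).2.1,
      two_mul]
  refine ⟨⟨fun Z hZ => ?_, fun Z hZ Z' hZ' e => ?_⟩, card_image_of_injOn fun p hp q hq e => ?_⟩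
  · obtain ⟨p, hp, rfl⟩ := mem_image.1 hZ
    obtain ⟨a1, -, a3, a4⟩ := hB'.1 _ (d1 p hp)
    obtain ⟨b1, -, b3, b4⟩ := hB'.1 _ (d2 p hp)
    obtain ⟨⟨z, hz, z', hz', hc⟩, h2⟩ := h.con p hp
    have hx : ∀ a ∈ p.1, ∀ b ∈ p.2, Conn A Γ' a b := fun a ha b hb =>
      ((a4 a ha z hz).1.trans hc).trans (b4 z' hz' b hb).1
    refine ⟨union_subset a1 b1, d5 p hp, fun a ha => (mem_union.1 ha).elim (a3 a) (b3 a),
      fun a ha b hb => ?_⟩
    rcases mem_union.1 ha with ha | ha <;> rcases mem_union.1 hb with hb | hb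
    · exact a4 a ha b hb
    · exact ⟨hx a ha b hb, fun _ => h2 a ha b hb⟩
    · exact ⟨(hx b hb a ha).symm, fun _ => ov_comm A b a ▸ h2 b hb a ha⟩
    · exact b4 a ha b hb
  · obtain ⟨p, hp, rfl⟩ := mem_image.1 hZ
    obtain ⟨q, hq, rfl⟩ := mem_image.1 hZ'
    exact d4 p hp q hq fun e' => e (by rw [e'])
  · by_contra hne
    have a1 := d4 p hp q hq hne
    have a2 := d5 q hq
    have e' : p.1 ∪ p.2 = q.1 ∪ q.2 := e
    rw [e', disjoint_self, bot_eq_empty] at a1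
    rw [a1, card_empty] at a2
    omega

theorem round (A Γ : Finset G) (K s β : ℕ) (ε : ℝ) (𝔅 : Finset (Finset G))
    (hK : #(A⁻¹ * A) ≤ K * #A) (hβ : 1 ≤ β) (hs : 2 * β ≤ s) (hε : 3 ≤ ε * s ^ 2)
    (h : Blocks A Γ s β 𝔅) :
    ∃ (Γ' : Finset G) (𝔅' : Finset (Finset G)), (#Γ' : ℝ) ≤ #Γ + 2 * K / (β * ε ^ 2) + 1 ∧
      Blocks A Γ' s (2 * β) 𝔅' ∧ (β * #𝔅 : ℝ) ≤ 2 * β * #𝔅' + 2 * ε * #A + β := by
  have e0 : 0 < ε := pos_of_mul_pos_left (b := (s : ℝ) ^ 2) (by linarith only [hε]) (sq_nonneg _)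
  have b0 : (0 : ℝ) < β := by exact_mod_cast hβ
  have c0 : β * #𝔅 ≤ #A := h.card_biUnion.symm.trans_le (card_le_card h.biUnion_subset)
  have c1 : (β : ℝ) * #𝔅 ≤ #A := by exact_mod_cast c0
  rcases Nat.eq_zero_or_pos #A with hA | hA
  · refine ⟨Γ, ∅, ?_, ⟨by simp, by simp⟩, ?_⟩
    · have : (0 : ℝ) ≤ 2 * K / (β * ε ^ 2) := by positivity
      linarith only [this]
    · rw [hA, Nat.cast_zero] at c1
      rw [hA, card_empty, Nat.cast_zero]
      linarith only [b0, c1]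
  have k0 : (0 : ℝ) < #A := by exact_mod_cast hA
  obtain ⟨L, hL, cL⟩ := exists_subset_card_eq (s := 𝔅) (n := #𝔅 / 2) (by omega)
  obtain ⟨R, hR, cR⟩ := exists_subset_card_eq (s := 𝔅 \ L) (n := #𝔅 / 2)
    (by rw [card_sdiff_of_subset hL]; omega)
  have hB := h.mono Subset.rfl (union_subset hL (hR.trans sdiff_subset))
  have hd : Disjoint L R := disjoint_sdiff.mono_right hR
  obtain ⟨t, Γ', M, hS, hM⟩ := SolRound_max hK hβ hs hε hA hB hd cL cR
  obtain ⟨n1, n2⟩ := SolRound_new hβ hB hd hS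
  have m1 := hS.le
  refine ⟨Γ', _, ?_, n1, ?_⟩
  · have a1 : (#Γ' : ℝ) ≤ #Γ + t := by exact_mod_cast hS.card
    have a2 : (#M : ℝ) ≤ #𝔅 := by exact_mod_cast m1.trans (card_le_card hL)
    have a3 := (mul_le_mul_of_nonneg_left a2 b0.le).trans c1
    have a4 := mul_le_mul_of_nonneg_left hS.time b0.le
    have a5 := mul_le_mul_of_nonneg_left a3 (by positivity : (0 : ℝ) ≤ 2 * K)
    have a6 : (t : ℝ) ≤ 2 * K / (β * ε ^ 2) := by
      rw [le_div_iff₀ (by positivity)]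
      exact le_of_mul_le_mul_right (by linarith only [a4, a5]) k0
    linarith only [a1, a6]
  · have a1 : #𝔅 ≤ 2 * #M + 2 * (#𝔅 / 2 - #M) + 1 := by omega
    have a2 : (#𝔅 : ℝ) ≤ 2 * #M + 2 * (#𝔅 / 2 - #M : ℕ) + 1 := by exact_mod_cast a1
    rw [n2]
    linarith only [hM, a2, b0, mul_le_mul_of_nonneg_left a2 b0.le]

end Pool.Agent.Work.MP_5dd17b_co
end

-- merged part: Pool.Agent.Work.MP_5dd17b_co.SolPhase1
section
/-!
In a set of low energy, O(K) colours put half of the points into connected blocks of `s` pairwise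
non-parallel points.

Plan. s = 2^I, k = #A > 0. Start: Γ = ∅, 𝔅 = singletons of the points a with s^4 deg a ≤ k, where
deg a is the number of b in A with k < s^3 ov A a b. Since k * deg a ≤ s^3 * (sum over b of ov A a b),
k * (sum of deg a) ≤ s^3 En A; each of the h remaining points has k < s^4 deg a, so
h k^2 ≤ s^7 En A ≤ k^3 / 8 and 8 h ≤ k. Induction on i ≤ I, in the reals: there are Γ, 𝔅 with
#Γ ≤ 18432 K (1 - (8/9)^i) + i, Blocks A Γ s (2^i) 𝔅 and
7 k / 8 - (k / 4) (1 - (3/4)^i) - (2^i - 1) ≤ 2^i #𝔅. Step: `round` with β = 2^i, ε = (3/4)^i / 32;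
2 K / (β ε^2) = 2048 K (8/9)^i; 3 ≤ ε s^2 because (3/4)^i ≥ (1/2)^i ≥ 1 / s and s ≥ 128.
-/

set_option autoImplicit false
set_option linter.unusedSectionVars false

namespace Pool.Agent.Work.MP_5dd17b_co

open Finset
open scoped Pointwise

variable {G : Type} [Group G] [DecidableEq G]

lemma SolPhase1_deg (A : Finset G) (s : ℕ) (a : G) :
    #A * #(A.filter fun b => #A < s ^ 3 * ov A a b) ≤ s ^ 3 * ∑ b ∈ A, ov A a b := by
  rw [mul_sum, mul_comm, ← smul_eq_mul]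
  refine (card_nsmul_le_sum _ (fun b => s ^ 3 * ov A a b) _ fun b hb => (mem_filter.1 hb).2.le).trans ?_
  exact sum_le_sum_of_subset (filter_subset _ _)

lemma SolPhase1_start (A : Finset G) (s : ℕ) (h0 : 0 < #A) (hE : 8 * s ^ 7 * En A ≤ #A ^ 3) :
    ∃ 𝔅 : Finset (Finset G), Blocks A ∅ s 1 𝔅 ∧ 7 * #A ≤ 8 * #𝔅 := by
  set good : G → Prop := fun a => s ^ 4 * #(A.filter fun b => #A < s ^ 3 * ov A a b) ≤ #A with hg
  refine ⟨(A.filter good).image fun a => {a}, ⟨?_, ?_⟩, ?_⟩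
  · intro Z hZ
    obtain ⟨a, ha, rfl⟩ := mem_image.1 hZ
    obtain ⟨h1, h2⟩ := mem_filter.1 ha
    refine ⟨singleton_subset_iff.2 h1, card_singleton a, fun b hb => ?_, fun b hb c hc => ?_⟩
    · rw [mem_singleton.1 hb]
      exact h2
    · rw [mem_singleton.1 hb, mem_singleton.1 hc]
      exact ⟨Conn.refl _ _ _, fun h => absurd rfl h⟩
  · intro Z hZ Z' hZ' hne
    obtain ⟨a, -, rfl⟩ := mem_image.1 hZ
    obtain ⟨b, -, rfl⟩ := mem_image.1 hZ'
    exact disjoint_singleton.2 fun h => hne (by rw [h])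
  · rw [card_image_of_injective _ singleton_injective]
    have e := card_filter_add_card_filter_not (s := A) good
    have h1 : #(A.filter fun a => ¬ good a) * #A ≤
        s ^ 4 * ∑ a ∈ A, #(A.filter fun b => #A < s ^ 3 * ov A a b) := by
      rw [mul_sum, ← smul_eq_mul]
      refine (card_nsmul_le_sum _ (fun a => s ^ 4 * #(A.filter fun b => #A < s ^ 3 * ov A a b)) _
        fun a ha => (not_le.1 (mem_filter.1 ha).2).le).trans ?_
      exact sum_le_sum_of_subset (filter_subset _ _)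
    have h2 : #A * ∑ a ∈ A, #(A.filter fun b => #A < s ^ 3 * ov A a b) ≤ s ^ 3 * En A := by
      rw [En, mul_sum, mul_sum]
      exact sum_le_sum fun a _ => SolPhase1_deg A s a
    have h3 : 8 * #(A.filter fun a => ¬ good a) * #A ^ 2 ≤ #A * #A ^ 2 := by
      calc 8 * #(A.filter fun a => ¬ good a) * #A ^ 2
          = 8 * #A * (#(A.filter fun a => ¬ good a) * #A) := by ring
        _ ≤ 8 * #A * (s ^ 4 * ∑ a ∈ A, #(A.filter fun b => #A < s ^ 3 * ov A a b)) :=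
          Nat.mul_le_mul_left _ h1
        _ = 8 * s ^ 4 * (#A * ∑ a ∈ A, #(A.filter fun b => #A < s ^ 3 * ov A a b)) := by ring
        _ ≤ 8 * s ^ 4 * (s ^ 3 * En A) := Nat.mul_le_mul_left _ h2
        _ = 8 * s ^ 7 * En A := by ring
        _ ≤ #A ^ 3 := hE
        _ = #A * #A ^ 2 := by ring
    have h4 := Nat.le_of_mul_le_mul_right h3 (pow_pos h0 2)
    omega

lemma SolPhase1_eps {i I : ℕ} (hI : 7 ≤ I) (hi : i ≤ I) :
    (3 : ℝ) ≤ (3 / 4) ^ i / 32 * ((2 ^ I : ℕ) : ℝ) ^ 2 := by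
  push_cast
  have h1 : (1 : ℝ) ≤ (3 / 4) ^ i * 2 ^ I := by
    calc (1 : ℝ) ≤ (3 / 4 * 2) ^ i := one_le_pow₀ (by norm_num)
      _ = (3 / 4) ^ i * 2 ^ i := mul_pow _ _ _
      _ ≤ (3 / 4) ^ i * 2 ^ I :=
        mul_le_mul_of_nonneg_left (pow_le_pow_right₀ (by norm_num) hi) (by positivity)
  have h2 : (2 : ℝ) ^ 7 ≤ 2 ^ I := pow_le_pow_right₀ (by norm_num) hI
  calc (3 : ℝ) ≤ 1 * 2 ^ 7 / 32 := by norm_num
    _ ≤ (3 / 4) ^ i * 2 ^ I * 2 ^ I / 32 := by gcongr
    _ = _ := by ring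

theorem phase1 (A : Finset G) (K I : ℕ) (hK : #(A⁻¹ * A) ≤ K * #A) (hI : 7 ≤ I)
    (hk : 8 * 2 ^ I ≤ #A) (hE : 8 * (2 ^ I) ^ 7 * En A ≤ #A ^ 3) :
    ∃ (Γ : Finset G) (𝔅 : Finset (Finset G)), #Γ ≤ 18432 * K + I ∧
      Blocks A Γ (2 ^ I) (2 ^ I) 𝔅 ∧ #A ≤ 2 * 2 ^ I * #𝔅 := by
  have h0 : 0 < #A := lt_of_lt_of_le (by positivity) hk
  have key : ∀ i, i ≤ I → ∃ (Γ : Finset G) (𝔅 : Finset (Finset G)),
      (#Γ : ℝ) ≤ 18432 * K * (1 - (8 / 9) ^ i) + i ∧ Blocks A Γ (2 ^ I) (2 ^ i) 𝔅 ∧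
      7 * (#A : ℝ) / 8 - #A / 4 * (1 - (3 / 4) ^ i) - (2 ^ i - 1) ≤ 2 ^ i * #𝔅 := by
    intro i
    induction i with
    | zero =>
      intro _
      obtain ⟨𝔅, h1, h2⟩ := SolPhase1_start A (2 ^ I) h0 hE
      refine ⟨∅, 𝔅, by simp, h1, ?_⟩
      have : (7 : ℝ) * #A ≤ 8 * #𝔅 := by exact_mod_cast h2
      simp only [pow_zero]
      linarith only [this]
    | succ i ih =>
      intro hi
      obtain ⟨Γ, 𝔅, h1, h2, h3⟩ := ih (by omega)
      obtain ⟨Γ', 𝔅', g1, g2, g3⟩ := round A Γ K (2 ^ I) (2 ^ i) ((3 / 4) ^ i / 32) 𝔅 hK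
        Nat.one_le_two_pow
        (by
          rw [← pow_succ']
          exact Nat.pow_le_pow_right (by norm_num) hi)
        (SolPhase1_eps hI (by omega)) h2
      refine ⟨Γ', 𝔅', ?_, by rwa [pow_succ'], ?_⟩
      · have e : 2 * (K : ℝ) / (((2 ^ i : ℕ) : ℝ) * ((3 / 4) ^ i / 32) ^ 2) =
            2048 * K * (8 / 9) ^ i := by
          have e1 : (2 : ℝ) ^ i * ((3 / 4) ^ i) ^ 2 * (8 / 9) ^ i = 1 := by
            rw [← pow_mul, mul_comm i 2, pow_mul, ← mul_pow, ← mul_pow]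
            norm_num
          push_cast
          rw [div_eq_iff (by positivity)]
          linear_combination (-2 * (K : ℝ)) * e1
        rw [e] at g1
        rw [pow_succ]
        push_cast
        linarith only [h1, g1]
      · push_cast at g3
        rw [pow_succ, pow_succ]
        linarith only [h3, g3]
  obtain ⟨Γ, 𝔅, h1, h2, h3⟩ := key I le_rfl
  refine ⟨Γ, 𝔅, ?_, h2, ?_⟩
  · have : (#Γ : ℝ) ≤ 18432 * K + I := by
      have : (0 : ℝ) ≤ 18432 * K * (8 / 9) ^ I := by positivity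
      linarith only [h1, this]
    exact_mod_cast this
  · have hk' : (8 : ℝ) * 2 ^ I ≤ #A := by exact_mod_cast hk
    have : (#A : ℝ) ≤ 2 * 2 ^ I * #𝔅 := by
      have : (0 : ℝ) ≤ #A * (3 / 4) ^ I := by positivity
      linarith only [h3, hk', this]
    exact_mod_cast this

end Pool.Agent.Work.MP_5dd17b_co
end

-- merged part: Pool.Agent.Work.MP_5dd17b_co.SolBSG
section
/-!
The Balog-Szemeredi-Gowers theorem in an arbitrary group.

Plan. k = #A. For a colour γ let r γ = number of a in A with a * γ in A. Then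
En A = sum over (a, c) in A × A of r (a⁻¹ * c) (both count (a, b, c) with b * a⁻¹ * c in A). Let
P = the γ in A⁻¹ * A with k ≤ 2 κ r γ; the sum of r γ over A⁻¹ * A is k^2, so #P ≤ 2 κ k. Edges: (a, c)
with a⁻¹ * c in P; En A ≤ k #edges + k^3 / (2 κ), so k^2 ≤ 2 κ #edges. N c = the a in A with
a⁻¹ * c in P; cod a a' = number of c in A with both a⁻¹ * c, a'⁻¹ * c in P; the pair (a, a') is bad if
128 κ^2 cod a a' < k. Sum over c of (#N c)^2 ≥ #edges^2 / k ≥ k^3 / (4 κ^2)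
(`sq_sum_le_card_mul_sum_sq`); sum over c of the number of bad pairs in N c × N c is the sum of cod
over bad pairs, at most k^3 / (128 κ^2). So some c has (#N c)^2 - 16 bad c ≥ k^2 / (8 κ^2): N = N c has
k ≤ 4 κ #N and 16 bad ≤ #N^2. A' = the a in N with at most #N / 4 bad partners in N; #N ≤ 2 #A'. For
d = a⁻¹ * a' (a, a' in A' chosen as a function of d) at least #N / 2 points m of N are good with a and
with a' (cod is symmetric); for each (m, b, b') with a⁻¹ b, m⁻¹ b, m⁻¹ b', a'⁻¹ b' in P the quadruple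
of these four elements determines d = (a⁻¹ b) (m⁻¹ b)⁻¹ (m⁻¹ b') (a'⁻¹ b')⁻¹ and then b, m, b'. So
#(A'⁻¹ A') (#N / 2) (k / (128 κ^2))^2 ≤ (2 κ k)^4; use k ≤ 4 κ #N and k ≤ 8 κ #A'.
See `LinTao_step` in LinTao.lean for the style of the last count.
-/

set_option autoImplicit false
set_option linter.unusedSectionVars false

namespace Pool.Agent.Work.MP_5dd17b_co

open Finset
open scoped Pointwise

variable {G : Type} [Group G] [DecidableEq G]

/-- the number of common neighbours -/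
def SolBSG_cod {α : Type} (A : Finset α) (E : α → α → Prop) [DecidableRel E] (a a' : α) : ℕ :=
  #(A.filter fun c => E a c ∧ E a' c)

lemma SolBSG_drc {α : Type} [DecidableEq α] (A : Finset α) (E : α → α → Prop) [DecidableRel E]
    (κ : ℕ) (hA : A.Nonempty) (hκ : 0 < κ)
    (he : #A ^ 2 ≤ 2 * κ * ∑ c ∈ A, #(A.filter fun a => E a c)) :
    ∃ N ⊆ A, #A ≤ 4 * κ * #N ∧
      16 * ∑ a ∈ N, #(N.filter fun a' => 128 * κ ^ 2 * SolBSG_cod A E a a' < #A) ≤ #N ^ 2 := by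
  have h0 := hA.card_pos
  set N : α → Finset α := fun c => A.filter fun a => E a c with hN
  set bad : α → ℕ := fun c =>
    ∑ a ∈ N c, #((N c).filter fun a' => 128 * κ ^ 2 * SolBSG_cod A E a a' < #A) with hbad
  have h1 : (∑ c ∈ A, #(N c)) ^ 2 ≤ #A * ∑ c ∈ A, #(N c) ^ 2 := sq_sum_le_card_mul_sum_sq
  have h2 : #A ^ 3 ≤ 4 * κ ^ 2 * ∑ c ∈ A, #(N c) ^ 2 := by
    refine Nat.le_of_mul_le_mul_left ?_ h0
    calc #A * #A ^ 3 = (#A ^ 2) ^ 2 := by ring
      _ ≤ (2 * κ * ∑ c ∈ A, #(N c)) ^ 2 := Nat.pow_le_pow_left he 2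
      _ = 4 * κ ^ 2 * (∑ c ∈ A, #(N c)) ^ 2 := by ring
      _ ≤ 4 * κ ^ 2 * (#A * ∑ c ∈ A, #(N c) ^ 2) := Nat.mul_le_mul_left _ h1
      _ = _ := by ring
  have h3 : ∑ c ∈ A, bad c = ∑ a ∈ A, ∑ a' ∈ A,
      if 128 * κ ^ 2 * SolBSG_cod A E a a' < #A then SolBSG_cod A E a a' else 0 := by
    have e : ∀ c, bad c = ∑ a ∈ A, ∑ a' ∈ A,
        if 128 * κ ^ 2 * SolBSG_cod A E a a' < #A then (if E a c ∧ E a' c then 1 else 0)
          else 0 := fun c => by
      simp only [hbad, hN, sum_filter, card_filter]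
      refine sum_congr rfl fun a _ => ?_
      by_cases ha : E a c
      · rw [if_pos ha]
        refine sum_congr rfl fun a' _ => ?_
        by_cases ha' : E a' c <;> simp [ha, ha']
      · simp [ha]
    simp only [e]
    rw [sum_comm]
    refine sum_congr rfl fun a _ => ?_
    rw [sum_comm]
    refine sum_congr rfl fun a' _ => ?_
    by_cases h : 128 * κ ^ 2 * SolBSG_cod A E a a' < #A
    · simp only [if_pos h]
      rw [SolBSG_cod, card_filter]
    · simp only [if_neg h, sum_const_zero]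
  have h4 : 128 * κ ^ 2 * ∑ c ∈ A, bad c ≤ #A ^ 3 := by
    rw [h3, mul_sum]
    calc _ ≤ ∑ a ∈ A, ∑ a' ∈ A, #A := by
          refine sum_le_sum fun a _ => ?_
          rw [mul_sum]
          refine sum_le_sum fun a' _ => ?_
          split_ifs with h
          · exact h.le
          · simp
      _ = _ := by simp only [sum_const, smul_eq_mul]; ring
  have h5 : ∃ c ∈ A, #A ^ 2 + 128 * κ ^ 2 * bad c ≤ 8 * κ ^ 2 * #(N c) ^ 2 := by
    refine exists_le_of_sum_le hA ?_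
    rw [sum_add_distrib, ← mul_sum, ← mul_sum, sum_const, smul_eq_mul]
    calc #A * #A ^ 2 + 128 * κ ^ 2 * ∑ c ∈ A, bad c ≤ #A ^ 3 + #A ^ 3 :=
          Nat.add_le_add (le_of_eq (by ring)) h4
      _ ≤ 4 * κ ^ 2 * ∑ c ∈ A, #(N c) ^ 2 + 4 * κ ^ 2 * ∑ c ∈ A, #(N c) ^ 2 :=
          Nat.add_le_add h2 h2
      _ = _ := by ring
  obtain ⟨c, -, hc⟩ := h5
  refine ⟨N c, filter_subset _ _, ?_, ?_⟩
  · refine (Nat.pow_le_pow_iff_left two_ne_zero).1 ?_
    calc #A ^ 2 ≤ 8 * κ ^ 2 * #(N c) ^ 2 := le_trans (Nat.le_add_right _ _) hc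
      _ ≤ 8 * κ ^ 2 * #(N c) ^ 2 + 8 * κ ^ 2 * #(N c) ^ 2 := Nat.le_add_right _ _
      _ = _ := by ring
  · refine Nat.le_of_mul_le_mul_left (c := 8 * κ ^ 2) ?_ (by positivity)
    calc 8 * κ ^ 2 * (16 * bad c) = 128 * κ ^ 2 * bad c := by ring
      _ ≤ _ := le_trans (Nat.le_add_left _ _) hc

lemma SolBSG_half {α : Type} [DecidableEq α] (N : Finset α) (f : α → ℕ)
    (h : 16 * ∑ a ∈ N, f a ≤ #N ^ 2) : #N ≤ 2 * #(N.filter fun a => 4 * f a ≤ #N) := by
  have h1 := card_filter_add_card_filter_not (s := N) fun a => 4 * f a ≤ #N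
  have h2 : #(N.filter fun a => ¬ 4 * f a ≤ #N) * #N ≤ 4 * ∑ a ∈ N, f a := by
    rw [mul_sum, ← smul_eq_mul, ← sum_const]
    refine (sum_le_sum fun a ha => (not_le.1 (mem_filter.1 ha).2).le).trans ?_
    exact sum_le_sum_of_subset (filter_subset _ _)
  rcases Nat.eq_zero_or_pos #N with h0 | h0
  · omega
  have h3 : 4 * #(N.filter fun a => ¬ 4 * f a ≤ #N) ≤ #N := by
    refine Nat.le_of_mul_le_mul_right ?_ h0
    calc 4 * #(N.filter fun a => ¬ 4 * f a ≤ #N) * #N ≤ 4 * (4 * ∑ a ∈ N, f a) := by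
          rw [mul_assoc]; exact Nat.mul_le_mul_left _ h2
      _ = 16 * ∑ a ∈ N, f a := by ring
      _ ≤ #N ^ 2 := h
      _ = _ := sq _
  omega

lemma SolBSG_paths (A P M : Finset G) (a a' : G) :
    ∑ m ∈ M, SolBSG_cod A (fun a c => a⁻¹ * c ∈ P) a m *
      SolBSG_cod A (fun a c => a⁻¹ * c ∈ P) a' m ≤
      #((P ×ˢ P ×ˢ P ×ˢ P).filter fun q => q.1 * q.2.1⁻¹ * q.2.2.1 * q.2.2.2⁻¹ = a⁻¹ * a') := by
  simp only [SolBSG_cod, ← card_product]
  rw [← card_sigma]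
  refine card_le_card_of_injOn
    (fun t => (a⁻¹ * t.2.1, t.1⁻¹ * t.2.1, t.1⁻¹ * t.2.2, a'⁻¹ * t.2.2)) (fun t ht => ?_)
    fun t _ t' _ e => ?_
  · obtain ⟨-, h2⟩ := mem_sigma.1 (mem_coe.1 ht)
    obtain ⟨h3, h4⟩ := mem_product.1 h2
    have h5 := (mem_filter.1 h3).2
    have h6 := (mem_filter.1 h4).2
    refine mem_coe.2 (mem_filter.2 ⟨?_, ?_⟩)
    · exact mem_product.2 ⟨h5.1, mem_product.2 ⟨h5.2, mem_product.2 ⟨h6.2, h6.1⟩⟩⟩
    · group
  · obtain ⟨m, b, b'⟩ := t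
    obtain ⟨m', c, c'⟩ := t'
    simp only [Prod.mk.injEq, mul_right_inj] at e
    obtain ⟨rfl, e2, -, rfl⟩ := e
    rw [inv_injective (mul_right_cancel e2)]

lemma SolBSG_En (A : Finset G) :
    En A = ∑ c ∈ A, ∑ a ∈ A, #(A.filter fun b => b * (a⁻¹ * c) ∈ A) := by
  rw [sum_comm]
  refine sum_congr rfl fun a _ => ?_
  simp only [ov, card_filter, mul_assoc]
  exact sum_comm

lemma SolBSG_sum_r (A P : Finset G) : ∑ γ ∈ P, #(A.filter fun b => b * γ ∈ A) ≤ #A * #A := by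
  simp only [card_filter]
  rw [sum_comm, ← smul_eq_mul, ← sum_const]
  refine sum_le_sum fun b _ => ?_
  rw [← card_filter]
  exact card_le_card_of_injOn (fun γ => b * γ) (fun γ h => (mem_filter.1 (mem_coe.1 h)).2)
    fun _ _ _ _ e => mul_left_cancel e

theorem bsg (A : Finset G) (κ : ℕ) (hA : A.Nonempty) (hE : #A ^ 3 ≤ κ * En A) :
    ∃ A' ⊆ A, #A ≤ 8 * κ * #A' ∧ #(A'⁻¹ * A') ≤ 2 ^ 24 * κ ^ 10 * #A' := by
  have h0 := hA.card_pos
  have hκ : 0 < κ := Nat.pos_of_ne_zero fun h => by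
    rw [h, zero_mul] at hE
    exact absurd hE (not_le.2 (by positivity))
  set P : Finset G := (A⁻¹ * A).filter fun γ => #A ≤ 2 * κ * #(A.filter fun b => b * γ ∈ A)
    with hP
  have hP1 : #P ≤ 2 * κ * #A := by
    refine Nat.le_of_mul_le_mul_right ?_ h0
    calc #P * #A = ∑ γ ∈ P, #A := by rw [sum_const, smul_eq_mul]
      _ ≤ ∑ γ ∈ P, 2 * κ * #(A.filter fun b => b * γ ∈ A) :=
          sum_le_sum fun γ h => (mem_filter.1 h).2
      _ = 2 * κ * ∑ γ ∈ P, #(A.filter fun b => b * γ ∈ A) := by rw [mul_sum]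
      _ ≤ 2 * κ * (#A * #A) := Nat.mul_le_mul_left _ (SolBSG_sum_r A P)
      _ = _ := by ring
  have he : #A ^ 2 ≤ 2 * κ * ∑ c ∈ A, #(A.filter fun a => a⁻¹ * c ∈ P) := by
    have h1 : 2 * κ * En A ≤
        #A * (2 * κ * ∑ c ∈ A, #(A.filter fun a => a⁻¹ * c ∈ P)) + #A ^ 3 := by
      calc 2 * κ * En A = ∑ c ∈ A, ∑ a ∈ A, 2 * κ * #(A.filter fun b => b * (a⁻¹ * c) ∈ A) := by
            simp only [SolBSG_En, mul_sum]
        _ ≤ ∑ c ∈ A, ∑ a ∈ A, (#A * (2 * κ * if a⁻¹ * c ∈ P then 1 else 0) + #A) := by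
            refine sum_le_sum fun c hc => sum_le_sum fun a ha => ?_
            split_ifs with h
            · refine le_trans ?_ (Nat.le_add_right _ _)
              rw [mul_one, mul_comm #A]
              exact Nat.mul_le_mul_left _ (card_filter_le _ _)
            · refine le_trans ?_ (Nat.le_add_left _ _)
              by_contra h'
              exact h (mem_filter.2 ⟨mul_mem_mul (inv_mem_inv ha) hc, (not_le.1 h').le⟩)
        _ = _ := by
            simp only [sum_add_distrib, ← mul_sum, ← card_filter, sum_const, smul_eq_mul]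
            ring
    refine Nat.le_of_mul_le_mul_left ?_ h0
    have h2 : #A * #A ^ 2 = #A ^ 3 := by ring
    have h3 : 2 * κ * En A = 2 * (κ * En A) := by ring
    omega
  obtain ⟨N, hNA, hN1, hN2⟩ := SolBSG_drc A (fun a c => a⁻¹ * c ∈ P) κ hA hκ he
  set cod := SolBSG_cod A fun a c => a⁻¹ * c ∈ P with hcod
  have hN3 := SolBSG_half N _ hN2
  set A' := N.filter fun a => 4 * #(N.filter fun a' => 128 * κ ^ 2 * cod a a' < #A) ≤ #N
    with hA'
  have hN0 : 0 < #N := Nat.pos_of_ne_zero fun h => by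
    rw [h] at hN1
    omega
  have hk : #A ≤ 8 * κ * #A' :=
    calc #A ≤ 4 * κ * #N := hN1
      _ ≤ 4 * κ * (2 * #A') := Nat.mul_le_mul_left _ hN3
      _ = _ := by ring
  refine ⟨A', (filter_subset _ _).trans hNA, hk, ?_⟩
  have h1 : ∀ d ∈ A'⁻¹ * A', #N * #A ^ 2 ≤ 2 * (128 * κ ^ 2) ^ 2 *
      #((P ×ˢ P ×ˢ P ×ˢ P).filter fun q => q.1 * q.2.1⁻¹ * q.2.2.1 * q.2.2.2⁻¹ = d) := by
    intro d hd
    obtain ⟨x, hx, a', ha', rfl⟩ := mem_mul.1 hd
    obtain ⟨a, ha, rfl⟩ := mem_inv.1 hx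
    set M := N.filter fun m => #A ≤ 128 * κ ^ 2 * cod a m ∧ #A ≤ 128 * κ ^ 2 * cod a' m with hM
    have m1 : #N ≤ 2 * #M := by
      have s1 : N ⊆ M ∪ (N.filter (fun m => 128 * κ ^ 2 * cod a m < #A) ∪
          N.filter fun m => 128 * κ ^ 2 * cod a' m < #A) := fun m hm => by
        simp only [hM, mem_union, mem_filter, hm, true_and]
        omega
      have s2 := (card_le_card s1).trans ((card_union_le _ _).trans
        (Nat.add_le_add_left (card_union_le _ _) _))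
      have s3 := (mem_filter.1 ha).2
      have s4 := (mem_filter.1 ha').2
      omega
    calc #N * #A ^ 2 ≤ 2 * #M * #A ^ 2 := Nat.mul_le_mul_right _ m1
      _ = 2 * ∑ m ∈ M, #A * #A := by rw [sum_const, smul_eq_mul]; ring
      _ ≤ 2 * ∑ m ∈ M, (128 * κ ^ 2 * cod a m) * (128 * κ ^ 2 * cod a' m) :=
          Nat.mul_le_mul_left _ (sum_le_sum fun m hm =>
            Nat.mul_le_mul (mem_filter.1 hm).2.1 (mem_filter.1 hm).2.2)
      _ = 2 * (128 * κ ^ 2) ^ 2 * ∑ m ∈ M, cod a m * cod a' m := by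
          rw [mul_sum, mul_sum]
          exact sum_congr rfl fun m _ => by ring
      _ ≤ _ := Nat.mul_le_mul_left _ (SolBSG_paths A P M a a')
  have h2 : ∑ d ∈ A'⁻¹ * A',
      #((P ×ˢ P ×ˢ P ×ˢ P).filter fun q => q.1 * q.2.1⁻¹ * q.2.2.1 * q.2.2.2⁻¹ = d) ≤ #P ^ 4 := by
    rw [sum_card_fiberwise_eq_card_filter]
    refine (card_filter_le _ _).trans (le_of_eq ?_)
    simp only [card_product]
    ring
  refine Nat.le_of_mul_le_mul_right (c := #N * #A ^ 2) ?_ (by positivity)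
  calc #(A'⁻¹ * A') * (#N * #A ^ 2) = ∑ d ∈ A'⁻¹ * A', #N * #A ^ 2 := by
        rw [sum_const, smul_eq_mul]
    _ ≤ _ := sum_le_sum h1
    _ ≤ 2 * (128 * κ ^ 2) ^ 2 * #P ^ 4 := by
        rw [← mul_sum]
        exact Nat.mul_le_mul_left _ h2
    _ ≤ 2 * (128 * κ ^ 2) ^ 2 * (2 * κ * #A) ^ 4 :=
        Nat.mul_le_mul_left _ (Nat.pow_le_pow_left hP1 4)
    _ = 2 ^ 19 * κ ^ 8 * #A ^ 2 * (#A * #A) := by ring
    _ ≤ 2 ^ 19 * κ ^ 8 * #A ^ 2 * ((4 * κ * #N) * (8 * κ * #A')) :=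
        Nat.mul_le_mul_left _ (Nat.mul_le_mul hN1 hk)
    _ = _ := by ring

end Pool.Agent.Work.MP_5dd17b_co
end

-- merged part: Pool.Agent.Work.MP_5dd17b_co.SolPhase2
section
/-!
After 8 K more colours some class holds an eighth of the set.

Plan. Suppose not. K ≥ 1 as A is nonempty. By induction on t ≤ 8 K there is Γ' ⊇ Γ with
#Γ' ≤ #Γ + t and m Γ' ≤ k exp (- t s / (8 K)), where m Γ' is the number of classes meeting the union U
of the blocks (m Γ ≤ #U ≤ k; step: `merge` with `Blocks.mono`, and 1 - x ≤ exp (-x)). At t = 8 K,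
m ≤ 2^s exp (-s) < 1 (`Real.exp_one_gt_d9`), while U is nonempty.
-/

set_option autoImplicit false
set_option linter.unusedSectionVars false

namespace Pool.Agent.Work.MP_5dd17b_co

open Finset
open scoped Pointwise

variable {G : Type} [Group G] [DecidableEq G]

theorem phase2 (A Γ : Finset G) (K s : ℕ) (𝔅 : Finset (Finset G)) (hA : A.Nonempty)
    (hK : #(A⁻¹ * A) ≤ K * #A) (hs : 3 ≤ s) (hs2 : #A ≤ 2 ^ s) (h : Blocks A Γ s s 𝔅)
    (hm : #A ≤ 2 * s * #𝔅) :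
    ∃ Γ' : Finset G, #Γ' ≤ #Γ + 8 * K ∧ ∃ a ∈ A, #A ≤ 8 * #(cls A Γ' a) := by
  by_contra hcon
  push Not at hcon
  have hk := hA.card_pos
  have hK1 : 0 < K := by
    rcases Nat.eq_zero_or_pos K with rfl | h0
    · have h1 : 0 < #(A⁻¹ * A) := (hA.inv.mul hA).card_pos
      omega
    · exact h0
  have hKr : (0 : ℝ) < 8 * K := by positivity
  have key : ∀ t, t ≤ 8 * K → ∃ Γ' : Finset G, Γ ⊆ Γ' ∧ #Γ' ≤ #Γ + t ∧
      (#((𝔅.biUnion id).image (cls A Γ')) : ℝ) ≤ #A * Real.exp (-(t * (s / (8 * K)))) := by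
    intro t
    induction t with
    | zero =>
      intro _
      refine ⟨Γ, Subset.rfl, le_rfl, ?_⟩
      have h1 : #((𝔅.biUnion id).image (cls A Γ)) ≤ #A :=
        card_image_le.trans (card_le_card h.biUnion_subset)
      simpa using h1
    | succ t ih =>
      intro ht
      obtain ⟨Γ', h1, h2, h3⟩ := ih (by omega)
      obtain ⟨γ, hγ⟩ := merge A Γ' K s 𝔅 hK hs (h.mono h1 Subset.rfl) hm
        (hcon Γ' (by omega))
      refine ⟨insert γ Γ', h1.trans (subset_insert _ _), (card_insert_le _ _).trans (by omega), ?_⟩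
      set m' := #((𝔅.biUnion id).image (cls A (insert γ Γ'))) with hm'
      set m := #((𝔅.biUnion id).image (cls A Γ')) with hm0
      have h4 : (8 * K * m' + s * m : ℝ) ≤ 8 * K * m := by exact_mod_cast hγ
      have h5 : (m' : ℝ) ≤ (1 - s / (8 * K)) * m := by
        refine le_of_mul_le_mul_left ?_ hKr
        have : 8 * (K : ℝ) * ((1 - s / (8 * K)) * m) = 8 * K * m - s * m := by
          field_simp
        linarith only [h4, this]
      have h6 : 1 - (s : ℝ) / (8 * K) ≤ Real.exp (-(s / (8 * K))) := by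
        linarith only [Real.add_one_le_exp (-((s : ℝ) / (8 * K)))]
      have h7 : (m' : ℝ) ≤ Real.exp (-(s / (8 * K))) * m :=
        h5.trans (mul_le_mul_of_nonneg_right h6 (Nat.cast_nonneg _))
      refine h7.trans ((mul_le_mul_of_nonneg_left h3 (Real.exp_pos _).le).trans_eq ?_)
      rw [mul_left_comm, ← Real.exp_add]
      congr 2
      push_cast
      ring
  obtain ⟨Γ', -, -, h3⟩ := key (8 * K) le_rfl
  have e1 : ((8 * K : ℕ) : ℝ) * (s / (8 * K)) = s := by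
    push_cast
    field_simp
  rw [e1] at h3
  have hU : (𝔅.biUnion id).Nonempty := by
    rw [← card_pos, h.card_biUnion]
    rcases Nat.eq_zero_or_pos (s * #𝔅) with h0 | h0
    · rw [mul_assoc, h0] at hm
      omega
    · exact h0
  have h4 : (1 : ℝ) ≤ #((𝔅.biUnion id).image (cls A Γ')) := by
    exact_mod_cast (hU.image _).card_pos
  have h5 : (#A : ℝ) ≤ 2 ^ s := by exact_mod_cast hs2
  have h6 : (2 : ℝ) ^ s < Real.exp s := by
    rw [← Real.exp_one_pow]
    exact pow_lt_pow_left₀ (by linarith only [Real.exp_one_gt_d9]) (by norm_num) (by omega)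
  have h7 : (#A : ℝ) * Real.exp (-(s : ℝ)) < 1 := by
    rw [Real.exp_neg, ← div_eq_mul_inv, div_lt_one (Real.exp_pos _)]
    linarith only [h5, h6]
  linarith only [h3, h4, h7]

end Pool.Agent.Work.MP_5dd17b_co
end

-- merged part: Pool.Agent.Work.MP_5dd17b_co.SolDer
section
/-!
Derivable sets: their number, and derivation of the whole set from a large class.

Plan. `card_Der`: Z in Der Γ a j has at most j + 1 elements; `card_biUnion_le_card_mul`,
`card_image_le`, `card_mul_le`; the bound for j is monotone in j. `Der_mono`: induction.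
`phase3`: call (Γ', Z) good if Γ ⊆ Γ', a ∈ Z ⊆ A and Z ∈ Der Γ' a (#Z - 1), closed if every x in A that
lies in Z * (Γ' ∪ Γ'⁻¹) ∪ Z * Z⁻¹ * Z lies in Z. Saturation: a good Z is contained in a good closed Z'
(induction on #A - #Z, insert a missing x). A closed Z containing a contains cls A Γ a (induction on
Conn), so #A ≤ 8 #Z. Invariant after t steps: good, closed, #Γ' ≤ #Γ + t, t #A ≤ 8 #(Z⁻¹ * Z). If
Z ≠ A take v in A \ Z, add the colour a⁻¹ * v, insert v, saturate: the new quotient set contains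
Z⁻¹ * Z and the #Z elements z⁻¹ * v, which are not in Z⁻¹ * Z (else v ∈ Z * Z⁻¹ * Z). Since
#(Z⁻¹ * Z) ≤ K #A, always t ≤ 8 K. Do the induction on #A - #Z.
-/

set_option autoImplicit false
set_option linter.unusedSectionVars false

namespace Pool.Agent.Work.MP_5dd17b_co

open Finset
open scoped Pointwise

variable {G : Type} [Group G] [DecidableEq G]

lemma SolDer_card {Γ : Finset G} {a : G} {j : ℕ} {Z : Finset G} (h : Z ∈ Der Γ a j) :
    #Z ≤ j + 1 := by
  induction j generalizing Z with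
  | zero => simp [mem_singleton.1 h]
  | succ j ih =>
    obtain ⟨Y, hY, h⟩ := mem_biUnion.1 h
    obtain ⟨x, -, rfl⟩ := mem_image.1 h
    exact (card_insert_le _ _).trans (Nat.succ_le_succ (ih hY))

lemma card_Der (Γ : Finset G) (a : G) (j : ℕ) :
    #(Der Γ a j) ≤ ((j + 1) * (2 * #Γ) + (j + 1) ^ 3) ^ j := by
  induction j with
  | zero => simp [Der]
  | succ j ih =>
    rw [pow_succ _ j]
    refine (card_biUnion_le_card_mul _ _ ((j + 1 + 1) * (2 * #Γ) + (j + 1 + 1) ^ 3)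
      fun Z hZ => ?_).trans (Nat.mul_le_mul_right _ (ih.trans ?_))
    · have h1 : #Z ≤ j + 1 + 1 := (SolDer_card hZ).trans (Nat.le_succ _)
      have h2 : #(Γ ∪ Γ⁻¹) ≤ 2 * #Γ := (card_union_le _ _).trans (by rw [card_inv, two_mul])
      refine card_image_le.trans ((card_union_le _ _).trans (Nat.add_le_add
        (card_mul_le.trans (Nat.mul_le_mul h1 h2)) ?_))
      refine card_mul_le.trans ((Nat.mul_le_mul_right _ card_mul_le).trans ?_)
      rw [card_inv, pow_succ, sq]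
      exact Nat.mul_le_mul (Nat.mul_le_mul h1 h1) h1
    · gcongr <;> omega

lemma Der_mono {Γ Γ' : Finset G} (h : Γ ⊆ Γ') (a : G) (j : ℕ) : Der Γ a j ⊆ Der Γ' a j := by
  induction j with
  | zero => exact Subset.rfl
  | succ j ih =>
    intro Z hZ
    obtain ⟨Y, hY, hZ⟩ := mem_biUnion.1 hZ
    refine mem_biUnion.2 ⟨Y, ih hY, image_subset_image (union_subset_union ?_ Subset.rfl) hZ⟩
    exact mul_subset_mul_left (union_subset_union h (inv_subset_inv h))

lemma SolDer_cls {A Γ Γ' Z : Finset G} {a : G} (hΓ : Γ ⊆ Γ') (ha : a ∈ Z)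
    (h : ∀ x ∈ A, x ∈ Z * (Γ' ∪ Γ'⁻¹) → x ∈ Z) : cls A Γ a ⊆ Z := by
  intro b hb
  have h1 := (mem_cls.1 hb).2
  clear hb
  induction h1 with
  | refl => exact ha
  | @tail b c _ h2 ih =>
    refine h c h2.2.1 (mem_mul.2 ⟨b, ih, b⁻¹ * c, ?_, mul_inv_cancel_left _ _⟩)
    rcases h2.2.2 with h3 | h3
    · exact mem_union_left _ (hΓ h3)
    · exact mem_union_right _ (mem_inv'.2 (by simpa using hΓ h3))

lemma SolDer_grow {Z : Finset G} {v : G} (hv : v ∉ Z * Z⁻¹ * Z) :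
    #(Z⁻¹ * Z) + #Z ≤ #((insert v Z)⁻¹ * insert v Z) := by
  have h1 : #(Z.image fun z => z⁻¹ * v) = #Z :=
    card_image_of_injective _ fun x y e => inv_injective (mul_right_cancel e)
  have h2 : Disjoint (Z⁻¹ * Z) (Z.image fun z => z⁻¹ * v) := by
    refine disjoint_right.2 fun x hx hx' => hv ?_
    obtain ⟨z, hz, rfl⟩ := mem_image.1 hx
    rw [mul_assoc, ← mul_inv_cancel_left z v]
    exact mul_mem_mul hz hx'
  rw [← h1, ← card_union_of_disjoint h2]
  refine card_le_card (union_subset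
    (mul_subset_mul (inv_subset_inv (subset_insert _ _)) (subset_insert _ _)) fun x hx => ?_)
  obtain ⟨z, hz, rfl⟩ := mem_image.1 hx
  exact mul_mem_mul (inv_mem_inv (mem_insert_of_mem hz)) (mem_insert_self _ _)

lemma SolDer_main {A Γ : Finset G} {a : G} (h : #A ≤ 8 * #(cls A Γ a)) (n : ℕ) :
    ∀ (j t : ℕ) (Γ' Z : Finset G), #A = j + 1 + n → #Z = j + 1 → Γ ⊆ Γ' → a ∈ Z → Z ⊆ A →
      Z ∈ Der Γ' a j → #Γ' ≤ #Γ + t → t * #A ≤ 8 * #(Z⁻¹ * Z) →
      ∃ (t : ℕ) (Γ' : Finset G), #Γ' ≤ #Γ + t ∧ t * #A ≤ 8 * #(A⁻¹ * A) ∧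
        A ∈ Der Γ' a (#A - 1) := by
  induction n with
  | zero =>
    intro j t Γ' Z hA hZ _ _ hs hD hc ht
    obtain rfl : Z = A := eq_of_subset_of_card_le hs (by omega)
    exact ⟨t, Γ', hc, ht, by rwa [hZ, Nat.add_sub_cancel]⟩
  | succ n ih =>
    intro j t Γ' Z hA hZ hΓ ha hs hD hc ht
    by_cases hx : ∃ x ∈ A, x ∈ Z * (Γ' ∪ Γ'⁻¹) ∪ Z * Z⁻¹ * Z ∧ x ∉ Z
    · obtain ⟨x, hx, h1, h2⟩ := hx
      refine ih (j + 1) t Γ' (insert x Z) (by omega) (by rw [card_insert_of_notMem h2, hZ]) hΓ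
        (mem_insert_of_mem ha) (insert_subset hx hs)
        (mem_biUnion.2 ⟨Z, hD, mem_image_of_mem _ h1⟩) hc (ht.trans ?_)
      exact Nat.mul_le_mul_left _ (card_le_card
        (mul_subset_mul (inv_subset_inv (subset_insert _ _)) (subset_insert _ _)))
    · push Not at hx
      obtain ⟨v, hv, h2⟩ := exists_mem_notMem_of_card_lt_card (show #Z < #A by omega)
      have h3 := card_le_card (SolDer_cls hΓ ha fun x h1 h2 => hx x h1 (mem_union_left _ h2))
      have h4 := SolDer_grow fun h4 => h2 (hx v hv (mem_union_right _ h4))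
      refine ih (j + 1) (t + 1) (insert (a⁻¹ * v) Γ') (insert v Z) (by omega)
        (by rw [card_insert_of_notMem h2, hZ]) (hΓ.trans (subset_insert _ _))
        (mem_insert_of_mem ha) (insert_subset hv hs)
        (mem_biUnion.2 ⟨Z, Der_mono (subset_insert _ _) a j hD, mem_image_of_mem _ ?_⟩)
        ((card_insert_le _ _).trans (by omega)) (by rw [add_mul]; omega)
      exact mem_union_left _ (mem_mul.2 ⟨a, ha, a⁻¹ * v, mem_union_left _ (mem_insert_self _ _),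
        mul_inv_cancel_left _ _⟩)

theorem phase3 (A Γ : Finset G) (K : ℕ) (a : G) (hK : #(A⁻¹ * A) ≤ K * #A) (ha : a ∈ A)
    (h : #A ≤ 8 * #(cls A Γ a)) :
    ∃ Γ' : Finset G, #Γ' ≤ #Γ + 8 * K ∧ A ∈ Der Γ' a (#A - 1) := by
  have h0 : 0 < #A := card_pos.2 ⟨a, ha⟩
  obtain ⟨t, Γ', h1, h2, h3⟩ := SolDer_main h (#A - 1) 0 0 Γ {a} (by omega) rfl Subset.rfl
    (mem_singleton_self a) (singleton_subset_iff.2 ha) (mem_singleton_self _) le_rfl (by simp)
  refine ⟨Γ', h1.trans (Nat.add_le_add_left (Nat.le_of_mul_le_mul_right ?_ h0) _), h3⟩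
  rw [mul_assoc]
  omega

end Pool.Agent.Work.MP_5dd17b_co
end

-- merged part: Pool.Agent.Work.MP_5dd17b_co.SolUnion
section
/-!
The union bound for sets of low energy.

Plan. `low_gens`: `phase1`, `phase2` (s = 2^I), `phase3`; I ≤ 2^I ≤ K by `le_of_lowE`.
`union2`: port of `numeric` and `union_bound` in Union.lean. For such an A let K be least with
#(A⁻¹ * A) ≤ K k; then (K - 1) k < #(A⁻¹ * A), 8 s^7 ≤ K ≤ k (`le_of_lowE`). Pad Γ inside univ to
exactly min (20000 K) N elements (`exists_subsuperset_card_eq`, `Der_mono`), N = card G. So the bad ω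
for this K lie in a union over Γ (at most N^(20000 K) choices), a (N choices), A in Der Γ a (k - 1)
with (K - 1) k < #(A⁻¹ * A) (at most (40001 k^3)^k choices by `card_Der` and K ≤ k), and c (2 choices)
of sets of size at most 2^N / 2^((K - 1) k / f) (`count_one`). Numeric part: for 8 s^7 ≤ K, k ≤ 2^s,
3 (k + 1) N^(20000 K + 1) (40001 k^3)^k 2 ≤ 2^((K - 1) k / f): take logarithms;
f (20000 K + 1) log N ≤ K k / 8; log k ≤ s, log 40001 ≤ 11, log (12 (k + 1)) ≤ 4 + s, so the rest is at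
most k (15 + 4 s) and f (15 + 4 s) ≤ s^7 ≤ K / 8 once s ≥ f + 19 (take I0 = f + 19);
(K - 1) log 2 ≥ K / 4.
-/

set_option autoImplicit false
set_option linter.unusedSectionVars false

namespace Pool.Agent.Work.MP_5dd17b_co

open Finset
open scoped Pointwise

variable {G : Type} [Group G] [DecidableEq G]

theorem low_gens (A : Finset G) (K I : ℕ) (hK : #(A⁻¹ * A) ≤ K * #A) (hI : 7 ≤ I)
    (hk : 8 * 2 ^ I ≤ #A) (hk2 : #A ≤ 2 ^ 2 ^ I) (hE : 8 * (2 ^ I) ^ 7 * En A ≤ #A ^ 3) :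
    ∃ (Γ : Finset G) (a : G), #Γ ≤ 20000 * K ∧ A ∈ Der Γ a (#A - 1) := by
  have hp : 0 < 2 ^ I := by positivity
  have hA : A.Nonempty := card_pos.mp (by omega)
  have h1 := le_of_lowE hA hK hE
  have h2 : I < 2 ^ I := Nat.lt_two_pow_self
  have h3 : 2 ^ I ≤ (2 ^ I) ^ 7 := Nat.le_self_pow (by norm_num) _
  obtain ⟨Γ, 𝔅, g1, g2, g3⟩ := phase1 A K I hK hI hk hE
  obtain ⟨Γ', g4, a, ha, g5⟩ := phase2 A Γ K (2 ^ I) 𝔅 hA hK (by omega) hk2 g2 g3
  obtain ⟨Γ'', g6, g7⟩ := phase3 A Γ' K a hK ha g5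
  exact ⟨Γ'', a, by omega, g7⟩

lemma SolUnion_numeric (f s K k n : ℕ) (hf : 0 < f) (hs : f + 19 ≤ s) (hK : 8 * s ^ 7 ≤ K)
    (h2 : 1 ≤ k) (h3 : k ≤ 2 ^ s) (h4 : 1 ≤ n) (h5 : 8 * f * 20001 * Real.log n ≤ k) :
    3 * (k + 1) * (n ^ (20000 * K) * n * (40001 * k ^ 3) ^ k * 2) ≤ 2 ^ ((K - 1) * k / f) := by
  have n1 : f * (21 + 4 * s) ≤ s ^ 7 :=
    calc f * (21 + 4 * s) ≤ s * (s * s) := Nat.mul_le_mul (by omega) (by nlinarith only [hf, hs])
      _ = s ^ 3 := by ring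
      _ ≤ s ^ 7 := Nat.pow_le_pow_right (by omega) (by norm_num)
  have n2 : 1 ≤ s ^ 7 := Nat.one_le_pow _ _ (by omega)
  have n3 : 3 * (k + 1) * 4 ≤ 2 ^ ((5 + s) * k) :=
    calc 3 * (k + 1) * 4 ≤ 2 ^ 5 * 2 ^ s := by omega
      _ = 2 ^ (5 + s) := by rw [pow_add]
      _ ≤ _ := Nat.pow_le_pow_right (by norm_num) (Nat.le_mul_of_pos_right _ h2)
  have n4 : (40001 * k ^ 3) ^ k ≤ 2 ^ ((16 + 3 * s) * k) := by
    rw [pow_mul]
    refine Nat.pow_le_pow_left ?_ _
    rw [pow_add, mul_comm 3 s, pow_mul]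
    exact Nat.mul_le_mul (by norm_num) (Nat.pow_le_pow_left h3 _)
  have n5 : n ^ (20000 * K) * n ≤ n ^ (20001 * K) := by
    rw [← pow_succ]
    exact Nat.pow_le_pow_right h4 (by omega)
  have hK1 : 1 ≤ K := by omega
  have hf' : (0 : ℝ) < f := by exact_mod_cast hf
  have hK8 : (8 : ℝ) ≤ K := by exact_mod_cast (by omega : 8 ≤ K)
  have hk : (1 : ℝ) ≤ k := by exact_mod_cast h2
  have hn : (1 : ℝ) ≤ n := by exact_mod_cast h4
  have r1 : (8 : ℝ) * (f * (21 + 4 * s)) ≤ K := by exact_mod_cast (by omega : 8 * _ ≤ K)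
  have l2 := Real.log_two_gt_d9
  have l3 := Real.log_two_lt_d9
  have e4 : ((K : ℝ) - 1) * k ≤ f * (((K - 1) * k / f : ℕ) + 1) := by
    have := (Nat.lt_mul_div_succ ((K - 1) * k) hf).le
    have h6 : (((K - 1) * k : ℕ) : ℝ) = ((K : ℝ) - 1) * k := by push_cast [Nat.cast_sub hK1]; ring
    rw [← h6]
    exact_mod_cast this
  obtain ⟨e, he⟩ : ∃ e, e = (K - 1) * k / f := ⟨_, rfl⟩
  rw [← he] at e4 ⊢
  have goal : 20001 * K * Real.log n + (21 + 4 * s) * k * Real.log 2 ≤ (e + 1) * Real.log 2 := by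
    refine le_of_mul_le_mul_left ?_ hf'
    have s1 : f * (20001 * K * Real.log n) ≤ K * k / 8 := by linarith only [h5, mul_nonneg_of_nonpos_of_nonpos (Mathlib.Tactic.Linarith.sub_nonpos_of_le (Mathlib.Tactic.Linarith.natCast_nonneg ℝ K)) (Mathlib.Tactic.Linarith.sub_nonpos_of_le h5)]
    have s0 : (0 : ℝ) ≤ f * (21 + 4 * s) * k := by positivity
    have s2 : f * ((21 + 4 * s) * k * Real.log 2) ≤ K * k / 8 := by linarith only [r1, hk, hf', l2, l3, s0, mul_nonneg_of_nonpos_of_nonpos (Mathlib.Tactic.Linarith.sub_nonpos_of_le (Mathlib.Tactic.Linarith.natCast_nonneg ℝ f)) (Mathlib.Tactic.Linarith.sub_nonpos_of_le (Mathlib.Tactic.Linarith.natCast_nonneg ℝ s)), mul_nonneg_of_nonpos_of_nonpos (Mathlib.Tactic.Linarith.sub_nonpos_of_le (Mathlib.Tactic.Linarith.natCast_nonneg ℝ K)) (Mathlib.Tactic.Linarith.sub_nonpos_of_le hk), mul_nonneg_of_nonpos_of_nonpos (Mathlib.Tactic.Linarith.sub_nonpos_of_le (Mathlib.Tactic.Linarith.natCast_nonneg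 ℝ k)) (Mathlib.Tactic.Linarith.sub_nonpos_of_le r1), mul_pos_of_neg_of_neg (Mathlib.Tactic.Linarith.sub_neg_of_lt hf') (Mathlib.Tactic.Linarith.sub_neg_of_lt l2), mul_pos_of_neg_of_neg (Mathlib.Tactic.Linarith.sub_neg_of_lt hf') (Mathlib.Tactic.Linarith.sub_neg_of_lt l3), mul_nonneg_of_nonpos_of_nonpos (le_of_lt (Mathlib.Tactic.Linarith.sub_neg_of_lt l3)) (Mathlib.Tactic.Linarith.sub_nonpos_of_le s0)]
    have s3 : (0 : ℝ) ≤ (K - 1) * k := by linarith only [hf', r1, hk, hK8, mul_nonneg_of_nonpos_of_nonpos (Mathlib.Tactic.Linarith.sub_nonpos_of_le (Mathlib.Tactic.Linarith.natCast_nonneg ℝ f)) (Mathlib.Tactic.Linarith.sub_nonpos_of_le (Mathlib.Tactic.Linarith.natCast_nonneg ℝ s)), mul_nonneg_of_nonpos_of_nonpos (Mathlib.Tactic.Linarith.sub_nonpos_of_le (Mathlib.Tactic.Linarith.natCast_nonneg ℝ K)) (Mathlib.Tactic.Linarith.sub_nonpos_of_le hk), mul_nonneg_of_nonpos_of_nonpos (Mathlib.Tactic.Linarith.sub_nonpos_of_le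 (Mathlib.Tactic.Linarith.natCast_nonneg ℝ k)) (Mathlib.Tactic.Linarith.sub_nonpos_of_le hK8)]
    have s4 : (K : ℝ) * k / 4 ≤ (K - 1) * k * Real.log 2 := by linarith only [r1, hk, hK8, hf', l2, l3, s3, mul_nonneg_of_nonpos_of_nonpos (Mathlib.Tactic.Linarith.sub_nonpos_of_le (Mathlib.Tactic.Linarith.natCast_nonneg ℝ f)) (Mathlib.Tactic.Linarith.sub_nonpos_of_le (Mathlib.Tactic.Linarith.natCast_nonneg ℝ s)), mul_nonneg_of_nonpos_of_nonpos (Mathlib.Tactic.Linarith.sub_nonpos_of_le (Mathlib.Tactic.Linarith.natCast_nonneg ℝ K)) (Mathlib.Tactic.Linarith.sub_nonpos_of_le hk), mul_nonneg_of_nonpos_of_nonpos (Mathlib.Tactic.Linarith.sub_nonpos_of_le (Mathlib.Tactic.Linarith.natCast_nonneg ℝ k)) (Mathlib.Tactic.Linarith.sub_nonpos_of_le hK8), mul_pos_of_neg_of_neg (Mathlib.Tactic.Linarith.sub_neg_of_lt hf') (Mathlib.Tactic.Linarith.sub_neg_of_lt l2), mul_pos_of_neg_of_neg (Mathlib.Tactic.Linarith.sub_neg_of_lt hf') (Mathlib.Tactic.Linarith.sub_neg_of_lt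 l3), mul_nonneg_of_nonpos_of_nonpos (le_of_lt (Mathlib.Tactic.Linarith.sub_neg_of_lt l2)) (Mathlib.Tactic.Linarith.sub_nonpos_of_le s3)]
    have s5 := mul_le_mul_of_nonneg_right e4 (show 0 ≤ Real.log 2 by linarith only [l2, l3])
    linarith only [s1, s2, s4, s5]
  have fin : ((n ^ (20001 * K) * 2 ^ ((21 + 4 * s) * k) : ℕ) : ℝ) ≤ ((2 ^ e * 2 : ℕ) : ℝ) := by
    rw [← Real.log_le_log_iff (by positivity) (by positivity)]
    push_cast
    rw [← pow_succ, Real.log_mul (by positivity) (by positivity), Real.log_pow, Real.log_pow,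
      Real.log_pow]
    push_cast
    exact goal
  have fin' := Nat.cast_le.mp fin
  refine Nat.le_of_mul_le_mul_right (le_trans ?_ fin') two_pos
  calc 3 * (k + 1) * (n ^ (20000 * K) * n * (40001 * k ^ 3) ^ k * 2) * 2
      = n ^ (20000 * K) * n * (3 * (k + 1) * 4 * (40001 * k ^ 3) ^ k) := by ring
    _ ≤ n ^ (20001 * K) * (2 ^ ((5 + s) * k) * 2 ^ ((16 + 3 * s) * k)) :=
        Nat.mul_le_mul n5 (Nat.mul_le_mul n3 n4)
    _ = _ := by
        rw [← pow_add]
        congr 2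
        ring

open Classical in
theorem union2 (f : ℕ) (hf : 0 < f) : ∃ I0 : ℕ,
    ∀ (G : Type) [Group G] [DecidableEq G] [Fintype G] (π : G → G) (s : G → Bool),
      (∀ z, #(univ.filter fun x => π x = z) ≤ f) → ∀ k I : ℕ, I0 ≤ I → 8 * 2 ^ I ≤ k →
      k ≤ 2 ^ 2 ^ I → 8 * f * 20001 * Real.log (Fintype.card G) ≤ k →
      3 * #(univ.filter fun ω => ∃ A : Finset G, #A = k ∧ 8 * (2 ^ I) ^ 7 * En A ≤ k ^ 3 ∧
        ∃ c, Mono π s ω A c) ≤ 2 ^ Fintype.card G := by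
  refine ⟨f + 19, fun G _ _ _ π s hπ k I hI hk hk2 hW => ?_⟩
  have hp : I < 2 ^ I := Nat.lt_two_pow_self
  have hk1 : 1 ≤ k := by omega
  obtain ⟨S, hS⟩ : ∃ S : ℕ → Finset (G → Bool), ∀ K, S K =
      (powersetCard (min (20000 * K) (Fintype.card G)) univ).biUnion fun Γ =>
        (univ : Finset G).biUnion fun a =>
          ((Der Γ a (k - 1)).filter fun A => (K - 1) * k < #(A⁻¹ * A)).biUnion fun A =>
            univ.biUnion fun b => univ.filter fun ω => Mono π s ω A b := ⟨_, fun _ => rfl⟩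
  have h2 : (univ.filter fun ω => ∃ A : Finset G, #A = k ∧ 8 * (2 ^ I) ^ 7 * En A ≤ k ^ 3 ∧
      ∃ c, Mono π s ω A c) ⊆
      ((range (k + 1)).filter fun K => 8 * (2 ^ I) ^ 7 ≤ K).biUnion S := by
    intro ω hω
    obtain ⟨A, a2, a3, b, a4⟩ := (mem_filter.mp hω).2
    have hA : A.Nonempty := card_pos.mp (by omega)
    have ex : #(A⁻¹ * A) ≤ k * #A := card_mul_le.trans (by rw [card_inv, a2])
    have ex' : ∃ K, #(A⁻¹ * A) ≤ K * #A := ⟨k, ex⟩
    have b1 := Nat.find_spec ex'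
    have b2 := Nat.find_min' ex' ex
    have b3 := le_of_lowE hA b1 (a2 ▸ a3)
    have b4 : 0 < (2 ^ I) ^ 7 := by positivity
    have b5 := Nat.find_min ex' (m := Nat.find ex' - 1) (by omega)
    obtain ⟨Γ, a, g2, g3⟩ := low_gens A _ I b1 (by omega) (a2 ▸ hk) (a2 ▸ hk2) (a2 ▸ a3)
    obtain ⟨Γ', u1, u2, u3⟩ := exists_subsuperset_card_eq
      (n := min (20000 * Nat.find ex') (Fintype.card G)) (subset_univ Γ)
      (le_min g2 (card_le_univ Γ)) (min_le_right _ _)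
    refine mem_biUnion.mpr ⟨Nat.find ex', mem_filter.mpr ⟨mem_range.mpr (by omega), b3⟩, ?_⟩
    rw [hS]
    refine mem_biUnion.mpr ⟨Γ', mem_powersetCard.mpr ⟨u2, u3⟩, mem_biUnion.mpr ⟨a, mem_univ _,
      mem_biUnion.mpr ⟨A, mem_filter.mpr ⟨Der_mono u1 a _ (a2 ▸ g3), ?_⟩,
        mem_biUnion.mpr ⟨b, mem_univ _, mem_filter.mpr ⟨mem_univ _, a4⟩⟩⟩⟩⟩
    rw [← a2]
    omega
  have h3 : ∀ K, K ≤ k → 8 * (2 ^ I) ^ 7 ≤ K → 3 * (k + 1) * #(S K) ≤ 2 ^ Fintype.card G := by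
    intro K hKk hK
    have n1 : 1 ≤ Fintype.card G := Fintype.card_pos_iff.mpr ⟨1⟩
    have b1 := SolUnion_numeric f (2 ^ I) K k _ hf (by omega) hK hk1 hk2 n1 hW
    obtain ⟨X, hX⟩ : ∃ X, X = 2 ^ Fintype.card G / 2 ^ ((K - 1) * k / f) := ⟨_, rfl⟩
    have b2 : #(S K) ≤ Fintype.card G ^ (20000 * K) *
        (Fintype.card G * ((40001 * k ^ 3) ^ k * (2 * X))) := by
      rw [hS]
      refine (card_biUnion_le_card_mul _ _ _ fun Γ hΓ => ?_).trans (Nat.mul_le_mul_right _ ?_)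
      · refine (card_biUnion_le_card_mul _ _ ((40001 * k ^ 3) ^ k * (2 * X)) fun a _ => ?_).trans
          (by rw [card_univ])
        refine (card_biUnion_le_card_mul _ _ (2 * X) fun A hA => ?_).trans
          (Nat.mul_le_mul_right _ ?_)
        · refine (card_biUnion_le_card_mul _ _ X fun b _ => ?_).trans (by simp)
          rw [hX, Nat.le_div_iff_mul_le (by positivity)]
          convert count_one π s f hf hπ A b _ (mem_filter.mp hA).2
        · refine (card_filter_le _ _).trans ((card_Der _ _ _).trans ?_)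
          rw [(mem_powersetCard.mp hΓ).2, Nat.sub_add_cancel hk1]
          have c1 := min_le_left (20000 * K) (Fintype.card G)
          have c2 : k * (2 * min (20000 * K) (Fintype.card G)) ≤ k * (40000 * k) :=
            Nat.mul_le_mul_left _ (by omega)
          have c3 : k ^ 2 ≤ k ^ 3 := Nat.pow_le_pow_right hk1 (by norm_num)
          have c4 : 0 < k ^ 3 := by positivity
          refine (Nat.pow_le_pow_left (?_ : _ ≤ 40001 * k ^ 3) _).trans
            (Nat.pow_le_pow_right (by omega) (by omega))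
          linarith only [c2, c3]
      · rw [card_powersetCard, card_univ]
        exact (Nat.choose_le_pow _ _).trans (Nat.pow_le_pow_right n1 (min_le_left _ _))
    calc 3 * (k + 1) * #(S K)
        ≤ 3 * (k + 1) * (Fintype.card G ^ (20000 * K) * Fintype.card G *
            (40001 * k ^ 3) ^ k * 2) * X :=
          (Nat.mul_le_mul_left _ b2).trans (le_of_eq (by ring))
      _ ≤ 2 ^ ((K - 1) * k / f) * X := Nat.mul_le_mul_right _ b1
      _ ≤ _ := hX ▸ Nat.mul_div_le _ _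
  refine Nat.le_of_mul_le_mul_left (c := k + 1) ?_ (by omega)
  have h4 := (card_le_card h2).trans card_biUnion_le
  calc (k + 1) * (3 * #(univ.filter fun ω => ∃ A : Finset G, #A = k ∧
        8 * (2 ^ I) ^ 7 * En A ≤ k ^ 3 ∧ ∃ c, Mono π s ω A c))
      ≤ 3 * (k + 1) * ∑ K ∈ (range (k + 1)).filter fun K => 8 * (2 ^ I) ^ 7 ≤ K, #(S K) := by
        rw [← mul_assoc, mul_comm (k + 1)]
        exact Nat.mul_le_mul_left _ h4
    _ ≤ ∑ K ∈ (range (k + 1)).filter fun K => 8 * (2 ^ I) ^ 7 ≤ K, 2 ^ Fintype.card G := by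
        rw [mul_sum]
        exact sum_le_sum fun K hK => h3 K (Nat.lt_succ_iff.mp (mem_range.mp (mem_filter.mp hK).1))
          (mem_filter.mp hK).2
    _ ≤ _ := by
        rw [sum_const, smul_eq_mul]
        exact Nat.mul_le_mul_right _ ((card_filter_le _ _).trans (by simp))

end Pool.Agent.Work.MP_5dd17b_co
end
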