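import Pool.Agent.Work.MP_5dd17b_co.Main
import Pool.Agent.Work.MP_5dd17b_co.SolUnion
import Pool.Agent.Work.MP_5dd17b_co.LinMain

-- merged part: Pool.Agent.Work.MP_5dd17b_co.PmBasic
section
/-!
Orbit sets, the orbit-stabiliser inequality, growth, packings, small subsets, paths with costs.
-/

set_option autoImplicit false
set_option linter.unusedSectionVars false

namespace Pool.Agent.Work.MP_5dd17b_co.Pm

open Finset
open scoped Pointwise

variable {G Ω : Type} [Group G] [DecidableEq G] [MulAction G Ω] [DecidableEq Ω]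

/-- the images of the point `a` under the elements of `V` -/
def ob (V : Finset G) (a : Ω) : Finset Ω := V.image (· • a)

/-- symmetric and containing 1 -/
def Sym1 (V : Finset G) : Prop := 1 ∈ V ∧ V⁻¹ = V

/-- slow growth of the powers up to `n0` -/
def Gr (b n0 : ℕ) (W : Finset G) : Prop := ∀ n ≤ n0, #(W ^ n) ≤ 2 ^ (b + (2 * n + 1) / 40) * #W

lemma mem_ob {V : Finset G} {a c : Ω} : c ∈ ob V a ↔ ∃ v ∈ V, v • a = c := mem_image

lemma ob_mono {U V : Finset G} (h : U ⊆ V) (a : Ω) : ob U a ⊆ ob V a := image_subset_image h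

lemma self_mem_ob {V : Finset G} (h : 1 ∈ V) (a : Ω) : a ∈ ob V a :=
  mem_ob.mpr ⟨1, h, one_smul _ _⟩

lemma card_ob_pos {V : Finset G} (h : 1 ∈ V) (a : Ω) : 0 < #(ob V a) :=
  card_pos.mpr ⟨a, self_mem_ob h a⟩

lemma Sym1.inv_mem {V : Finset G} (h : Sym1 V) {x : G} (hx : x ∈ V) : x⁻¹ ∈ V := by
  rw [← h.2]
  exact inv_mem_inv hx

lemma Sym1.pow {V : Finset G} (h : Sym1 V) (n : ℕ) : Sym1 (V ^ n) :=
  ⟨one_mem_pow h.1, by rw [← inv_pow, h.2]⟩

lemma Sym1.card_pos {V : Finset G} (h : Sym1 V) : 0 < #V := Finset.card_pos.mpr ⟨1, h.1⟩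

lemma Sym1.pow_mono {U V : Finset G} (h : Sym1 V) (hU : U ⊆ V) {i j : ℕ} (hij : i ≤ j) :
    U ^ i ⊆ V ^ j := pow_subset_pow hU h.1 hij

lemma ob_pow_mono {U V : Finset G} (h : Sym1 V) (hU : U ⊆ V) {i j : ℕ} (hij : i ≤ j) (a : Ω) :
    ob (U ^ i) a ⊆ ob (V ^ j) a := ob_mono (h.pow_mono hU hij) a

lemma ob_one_pow (V : Finset G) (a : Ω) : ob (V ^ 1) a = ob V a := by rw [pow_one]

lemma ob_trans {V : Finset G} {i j : ℕ} {a c d : Ω} (h1 : c ∈ ob (V ^ i) a) (h2 : d ∈ ob (V ^ j) c) :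
    d ∈ ob (V ^ (i + j)) a := by
  obtain ⟨u, hu, rfl⟩ := mem_ob.mp h1
  obtain ⟨v, hv, rfl⟩ := mem_ob.mp h2
  refine mem_ob.mpr ⟨v * u, ?_, mul_smul _ _ _⟩
  rw [add_comm, pow_add]
  exact mul_mem_mul hv hu

lemma ob_trans_le {V : Finset G} (h : Sym1 V) {i j k : ℕ} {a c d : Ω} (h1 : c ∈ ob (V ^ i) a)
    (h2 : d ∈ ob (V ^ j) c) (hk : i + j ≤ k) : d ∈ ob (V ^ k) a :=
  ob_pow_mono h Subset.rfl hk a (ob_trans h1 h2)

lemma ob_symm {V : Finset G} (h : Sym1 V) {a c : Ω} (h1 : c ∈ ob V a) : a ∈ ob V c := by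
  obtain ⟨u, hu, rfl⟩ := mem_ob.mp h1
  exact mem_ob.mpr ⟨u⁻¹, h.inv_mem hu, inv_smul_smul _ _⟩

lemma ob_sub {V : Finset G} {i j : ℕ} {a c : Ω} (h1 : c ∈ ob (V ^ i) a) :
    ob (V ^ j) c ⊆ ob (V ^ (i + j)) a := fun _ h => ob_trans h1 h

/-- chunks that meet have centres at distance at most two -/
lemma mem_ob_two {U U' V : Finset G} (h : Sym1 V) (hU : U ⊆ V) (hU' : U' ⊆ V) {a c : Ω}
    (h1 : ¬ Disjoint (ob U c) (ob U' a)) : c ∈ ob (V ^ 2) a := by
  obtain ⟨z, z1, z2⟩ := not_disjoint_iff.mp h1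
  have e1 : z ∈ ob (V ^ 1) a := by rw [pow_one]; exact ob_mono hU' a z2
  have e2 : c ∈ ob (V ^ 1) z := by rw [pow_one]; exact ob_symm h (ob_mono hU c z1)
  exact ob_trans e1 e2

/-- Orbit-stabiliser inequality. Plan: `#V ≤ #(ob V a) * s` with `s` the number of elements of
`V⁻¹ * V` fixing `a` (fibres of `v ↦ v • a`), and `#(ob B a) * s ≤ #(B * (V⁻¹ * V))` by the injection
`(β, h) ↦ b β * h`, `b β ∈ B` chosen with `b β • a = β`. -/
lemma os (B V : Finset G) (a : Ω) : #(ob B a) * #V ≤ #(B * (V⁻¹ * V)) * #(ob V a) := by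
  classical
  set S := (V⁻¹ * V).filter fun h => h • a = a with hS
  have h1 : #V ≤ #S * #(ob V a) := by
    refine card_le_mul_card_image (f := (· • a)) V _ fun z hz => ?_
    obtain ⟨v, hv, rfl⟩ := mem_image.mp hz
    refine card_le_card_of_injOn (fun u => v⁻¹ * u) (fun u hu => ?_) fun u _ u' _ e =>
      mul_left_cancel e
    obtain ⟨u1, u2⟩ := mem_filter.mp (mem_coe.mp hu)
    exact mem_coe.mpr (mem_filter.mpr ⟨mul_mem_mul (inv_mem_inv hv) u1, by
      rw [mul_smul, u2, inv_smul_smul]⟩)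
  have h2 : #(ob B a) * #S ≤ #(B * (V⁻¹ * V)) := by
    have e : ∀ z : Ω, ∃ g : G, z ∈ ob B a → g ∈ B ∧ g • a = z := fun z => by
      by_cases hz : z ∈ ob B a
      · obtain ⟨g, g1, g2⟩ := mem_ob.mp hz
        exact ⟨g, fun _ => ⟨g1, g2⟩⟩
      · exact ⟨1, fun h => absurd h hz⟩
    choose f hf using e
    rw [← card_product]
    refine card_le_card_of_injOn (fun p => f p.1 * p.2) (fun p hp => ?_) fun p hp q hq e => ?_
    · obtain ⟨p1, p2⟩ := mem_product.mp (mem_coe.mp hp)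
      exact mem_coe.mpr (mul_mem_mul (hf _ p1).1 (mem_filter.mp p2).1)
    · obtain ⟨p1, p2⟩ := mem_product.mp (mem_coe.mp hp)
      obtain ⟨q1, q2⟩ := mem_product.mp (mem_coe.mp hq)
      have e' : f p.1 * p.2 = f q.1 * q.2 := e
      have e1 : p.1 = q.1 := by
        rw [← (hf _ p1).2, ← (hf _ q1).2, ← (mem_filter.mp p2).2, ← mul_smul, e', mul_smul,
          (mem_filter.mp q2).2, (mem_filter.mp p2).2]
      rw [e1] at e'
      exact Prod.ext e1 (mul_left_cancel e')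
  calc #(ob B a) * #V ≤ #(ob B a) * (#S * #(ob V a)) := Nat.mul_le_mul_left _ h1
    _ ≤ _ := by rw [← mul_assoc]; exact Nat.mul_le_mul_right _ h2

lemma os_pow {W V : Finset G} (hW : Sym1 W) (h : W ⊆ V) (n : ℕ) (a : Ω) :
    #(ob (V ^ n) a) * #W ≤ #(V ^ (n + 2)) * #(ob W a) := by
  refine (os _ _ _).trans (Nat.mul_le_mul_right _ (card_le_card ?_))
  rw [hW.2, pow_add, sq]
  exact mul_subset_mul_left (mul_subset_mul h h)

lemma Gr.ob_le {b n0 : ℕ} {W : Finset G} (h : Gr b n0 W) (hW : Sym1 W) {n : ℕ} (hn : n + 2 ≤ n0)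
    (a : Ω) : #(ob (W ^ n) a) ≤ 2 ^ (b + (2 * n + 5) / 40) * #(ob W a) := by
  have h1 := (os_pow hW Subset.rfl n a).trans (Nat.mul_le_mul_right _ (h _ hn))
  rw [mul_right_comm] at h1
  exact Nat.le_of_mul_le_mul_right h1 hW.card_pos

/-- short radius: the factor is `2 ^ b` -/
lemma Gr.ob_near {b n0 : ℕ} {W : Finset G} (h : Gr b n0 W) (hW : Sym1 W) (hn0 : 20 ≤ n0) {n : ℕ}
    (hn : n ≤ 16) {a c : Ω} (hc : c ∈ ob (W ^ n) a) : #(ob W c) ≤ 2 ^ b * #(ob W a) := by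
  have h1 := h.ob_le hW (n := n + 1) (by omega) a
  rw [show (2 * (n + 1) + 5) / 40 = 0 by omega, add_zero] at h1
  refine le_trans (card_le_card ?_) h1
  rw [← ob_one_pow W c]
  exact ob_sub hc

/-- Ordered packing. Plan: induction on `P`, removing a point of largest key (`exists_max_image`);
add it to the packing of the rest if its chunk misses all chunks there. -/
lemma pack {ι β : Type} [DecidableEq ι] [DecidableEq β] (P : Finset ι) (Ch : ι → Finset β)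
    (t : ι → ℕ) (h : ∀ p ∈ P, (Ch p).Nonempty) :
    ∃ C ⊆ P, (∀ c ∈ C, ∀ c' ∈ C, c ≠ c' → Disjoint (Ch c) (Ch c')) ∧
      ∀ p ∈ P, ∃ c ∈ C, t c ≤ t p ∧ ¬ Disjoint (Ch c) (Ch p) := by
  induction P using Finset.induction_on_max_value t with
  | empty => exact ⟨∅, Subset.rfl, by simp, by simp⟩
  | insert a s has hm ih =>
    obtain ⟨C, c1, c2, c3⟩ := ih fun p hp => h p (mem_insert_of_mem hp)
    by_cases hd : ∃ c ∈ C, ¬ Disjoint (Ch c) (Ch a)
    · obtain ⟨c, hc, hd⟩ := hd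
      refine ⟨C, c1.trans (subset_insert _ _), c2, fun p hp => ?_⟩
      rcases mem_insert.mp hp with rfl | hp
      · exact ⟨c, hc, hm c (c1 hc), hd⟩
      · exact c3 p hp
    · push Not at hd
      refine ⟨insert a C, insert_subset_insert _ c1, fun c hc c' hc' hne => ?_, fun p hp => ?_⟩
      · rcases mem_insert.mp hc with rfl | h1 <;> rcases mem_insert.mp hc' with rfl | h2
        · exact absurd rfl hne
        · exact (hd _ h2).symm
        · exact hd _ h1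
        · exact c2 _ h1 _ h2 hne
      · rcases mem_insert.mp hp with rfl | hp
        · refine ⟨p, mem_insert_self _ _, le_rfl, ?_⟩
          rw [disjoint_self]
          exact (h p (mem_insert_self _ _)).ne_empty
        · obtain ⟨c, hc, e⟩ := c3 p hp
          exact ⟨c, mem_insert_of_mem hc, e⟩

/-- disjoint chunks inside a set -/
lemma pack_sum {ι β : Type} [DecidableEq β] (C : Finset ι) (Ch : ι → Finset β) (Y : Finset β)
    (h : ∀ c ∈ C, ∀ c' ∈ C, c ≠ c' → Disjoint (Ch c) (Ch c')) (hY : ∀ c ∈ C, Ch c ⊆ Y) :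
    ∑ c ∈ C, #(Ch c) ≤ #Y := by
  rw [← card_biUnion h]
  exact card_le_card (biUnion_subset.mpr hY)

/-- Plan: induction on `e`; a nonempty `F` is `insert x (F.erase x)`. -/
lemma card_small {α : Type} [DecidableEq α] (B : Finset α) (e : ℕ) :
    #(B.powerset.filter fun F => #F ≤ e) ≤ (#B + 1) ^ e := by
  induction e with
  | zero =>
    refine card_le_one.mpr fun F hF F' hF' => ?_
    rw [card_eq_zero.mp (Nat.le_zero.mp (mem_filter.mp hF).2),
      card_eq_zero.mp (Nat.le_zero.mp (mem_filter.mp hF').2)]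
  | succ e ih =>
    have h : (B.powerset.filter fun F => #F ≤ e + 1) ⊆ (B.powerset.filter fun F => #F ≤ e) ∪
        B.biUnion fun x => (B.powerset.filter fun F => #F ≤ e).image (insert x) := by
      intro F hF
      obtain ⟨h1, h2⟩ := mem_filter.mp hF
      rcases F.eq_empty_or_nonempty with rfl | ⟨x, hx⟩
      · simp
      · refine mem_union_right _ (mem_biUnion.mpr ⟨x, mem_powerset.mp h1 hx, mem_image.mpr
          ⟨F.erase x, mem_filter.mpr ⟨mem_powerset.mpr ((erase_subset _ _).trans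
            (mem_powerset.mp h1)), ?_⟩, insert_erase hx⟩⟩)
        rw [card_erase_of_mem hx]
        omega
    refine (card_le_card h).trans ((card_union_le _ _).trans ?_)
    have h2 := card_biUnion_le_card_mul B
      (fun x => (B.powerset.filter fun F => #F ≤ e).image (insert x)) _
      fun _ _ => card_image_le.trans ih
    rw [pow_succ, mul_add, mul_one, mul_comm, add_comm]
    exact Nat.add_le_add h2 ih

/-- paths from `s0` with a total cost -/
inductive Rch {S : Type} (St : S → ℕ → S → Prop) (s0 : S) : ℕ → S → Prop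
  | base (C : ℕ) : Rch St s0 C s0
  | step {C c : ℕ} {s s' : S} : Rch St s0 C s → St s c s' → Rch St s0 (C + c + 1) s'

lemma Rch.mono {S : Type} {St : S → ℕ → S → Prop} {s0 s : S} {C C' : ℕ} (h : Rch St s0 C s)
    (hC : C ≤ C') : Rch St s0 C' s := by
  induction h generalizing C' with
  | base => exact Rch.base _
  | @step C c s s' _ h2 ih =>
    have := Rch.step (ih (C' := C' - c - 1) (by omega)) h2
    rwa [show C' - c - 1 + c + 1 = C' by omega] at this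

open Classical in
/-- Plan: strong induction; the set for `C` lies in `{s0}` and the union over `c < C` and over `s` in
the set for `C - c - 1` of the steps of cost `c`; `∑ c < C, 2 ^ (4 (C - c - 1) + 3 c + 2) < 2 ^ (4 C - 1)`. -/
lemma card_rch {S : Type} [Fintype S] (St : S → ℕ → S → Prop) (s0 : S)
    (h : ∀ s c, #(univ.filter fun s' => St s c s') ≤ 2 ^ (3 * c + 2)) (C : ℕ) :
    #(univ.filter fun s => Rch St s0 C s) ≤ 2 ^ (4 * C) := by
  induction C using Nat.strong_induction_on with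
  | _ C ih =>
    have h1 : (univ.filter fun s => Rch St s0 C s) ⊆ insert s0 ((range C).biUnion fun c =>
        (univ.filter fun s => Rch St s0 (C - c - 1) s).biUnion fun s =>
          univ.filter fun s' => St s c s') := by
      intro s hs
      rcases (mem_filter.mp hs).2 with _ | @⟨C', c, s', _, e1, e2⟩
      · exact mem_insert_self _ _
      · refine mem_insert_of_mem (mem_biUnion.mpr ⟨c, mem_range.mpr (by omega), mem_biUnion.mpr
          ⟨s', mem_filter.mpr ⟨mem_univ _, ?_⟩, mem_filter.mpr ⟨mem_univ _, e2⟩⟩⟩)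
        rwa [show C' + c + 1 - c - 1 = C' by omega]
    have h2 : ∀ n ≤ C, 2 * ∑ c ∈ range n, 2 ^ (4 * (C - c - 1)) * 2 ^ (3 * c + 2) +
        2 ^ (4 * C - n) ≤ 2 ^ (4 * C) := fun n hn => by
      induction n with
      | zero => simp
      | succ n ihn =>
        have e1 := ihn (by omega)
        have e2 : 2 ^ (4 * C - n) = 2 * 2 ^ (4 * C - (n + 1)) := by
          rw [← pow_succ']
          congr 1
          omega
        have e3 : 2 * (2 ^ (4 * (C - n - 1)) * 2 ^ (3 * n + 2)) = 2 ^ (4 * C - (n + 1)) := by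
          rw [← pow_add, ← pow_succ']
          congr 1
          omega
        rw [sum_range_succ, mul_add, e3]
        omega
    have h3 := (card_le_card h1).trans ((card_insert_le _ _).trans (Nat.add_le_add_right
      (card_biUnion_le.trans (sum_le_sum (g := fun c => 2 ^ (4 * (C - c - 1)) * 2 ^ (3 * c + 2))
        fun c hc => (card_biUnion_le_card_mul _ _ _ fun s _ => h s c).trans
          (Nat.mul_le_mul_right _ (ih _ (by have := mem_range.mp hc; omega))))) 1))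
    have h4 := h2 C le_rfl
    have h5 : 0 < 2 ^ (4 * C - C) := by positivity
    omega

end Pool.Agent.Work.MP_5dd17b_co.Pm
end

-- merged part: Pool.Agent.Work.MP_5dd17b_co.PmCarve
section
/-!
Ball carving, candidate sets, and the carving of one round.
-/

set_option autoImplicit false
set_option linter.unusedSectionVars false

namespace Pool.Agent.Work.MP_5dd17b_co.Pm

open Finset
open scoped Pointwise

variable {G Ω : Type} [Group G] [DecidableEq G] [MulAction G Ω] [DecidableEq Ω]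

open Classical in
/-- balls of the relation `H` inside `C` -/
noncomputable def hball (H : Ω → Ω → Prop) (C : Finset Ω) (v : Ω) : ℕ → Finset Ω
  | 0 => {v}
  | n + 1 => hball H C v n ∪ C.filter fun z => ∃ y ∈ hball H C v n, H y z

lemma mem_hball_zero {H : Ω → Ω → Prop} {C : Finset Ω} {v z : Ω} : z ∈ hball H C v 0 ↔ z = v :=
  mem_singleton

lemma mem_hball_succ {H : Ω → Ω → Prop} {C : Finset Ω} {v z : Ω} {n : ℕ} :
    z ∈ hball H C v (n + 1) ↔ z ∈ hball H C v n ∨ (z ∈ C ∧ ∃ y ∈ hball H C v n, H y z) := by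
  simp only [hball, mem_union, mem_filter]

lemma hball_subset {H : Ω → Ω → Prop} {C : Finset Ω} {v : Ω} (hv : v ∈ C) (n : ℕ) :
    hball H C v n ⊆ C := by
  induction n with
  | zero => exact fun z hz => mem_hball_zero.mp hz ▸ hv
  | succ n ih => exact fun z hz => (mem_hball_succ.mp hz).elim (fun h => ih h) And.left

lemma hball_mono {H : Ω → Ω → Prop} {C C' : Finset Ω} (h : C ⊆ C') (v : Ω) {i j : ℕ} (hij : i ≤ j) :
    hball H C v i ⊆ hball H C' v j := by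
  have h1 : ∀ n, hball H C v n ⊆ hball H C' v n := fun n => by
    induction n with
    | zero => exact Subset.rfl
    | succ n ih =>
      exact fun z hz => mem_hball_succ.mpr ((mem_hball_succ.mp hz).imp (fun e => ih e)
        fun ⟨e1, y, e2, e3⟩ => ⟨h e1, y, ih e2, e3⟩)
  induction hij with
  | refl => exact h1 i
  | step _ ih => exact fun z hz => mem_hball_succ.mpr (Or.inl (ih hz))

/-- if every edge leaving the ball of radius `n` is short, the ball is short -/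
lemma hball_ob {H : Ω → Ω → Prop} {C : Finset Ω} {v : Ω} {V : Finset G} (hV : Sym1 V) {d n : ℕ}
    (h : ∀ y ∈ hball H C v n, ∀ z, H y z → z ∈ ob (V ^ d) y) :
    hball H C v n ⊆ ob (V ^ (d * n)) v := by
  have h1 : ∀ i ≤ n, hball H C v i ⊆ ob (V ^ (d * i)) v := fun i hi => by
    induction i with
    | zero =>
      intro z hz
      rw [mem_hball_zero.mp hz]
      exact self_mem_ob (hV.pow _).1 v
    | succ i ih =>
      intro z hz
      rcases mem_hball_succ.mp hz with e | ⟨-, y, e2, e3⟩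
      · exact ob_pow_mono hV Subset.rfl (Nat.mul_le_mul_left _ (by omega)) v (ih (by omega) e)
      · exact ob_trans (ih (by omega) e2) (h y (hball_mono Subset.rfl v (by omega) e2) z e3)
  exact h1 n le_rfl

/-- Ball carving. Plan: strong induction on `C` (`hball_mono` keeps the hypothesis). Take `v ∈ C`;
some `i < n` has `#B(i+1) ≤ 2 #B(i)` (else `2 ^ n ≤ #B(n)`); take the pairs `(v, y)`, `y ∈ B(i+1)`,
together with the pairs for `C \ B(i)`. An edge with an end in `B(i)` lies inside `B(i+1)`. -/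
lemma carve (H : Ω → Ω → Prop) (hs : ∀ a c, H a c → H c a) (n : ℕ) (C : Finset Ω)
    (h : ∀ v ∈ C, #(hball H C v n) < 2 ^ n) :
    ∃ F : Finset (Ω × Ω), #F ≤ 2 * #C ∧ (∀ q ∈ F, q.1 ∈ C ∧ q.2 ∈ hball H C q.1 n) ∧
      ∀ a ∈ C, ∀ c ∈ C, H a c → ∃ v, (v, a) ∈ F ∧ (v, c) ∈ F := by
  induction C using Finset.strongInduction with
  | H C ih =>
    rcases C.eq_empty_or_nonempty with rfl | ⟨v, hv⟩
    · exact ⟨∅, by simp, by simp, by simp⟩
    have h1 : ∃ i < n, #(hball H C v (i + 1)) ≤ 2 * #(hball H C v i) := by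
      by_contra hc
      push Not at hc
      have : ∀ i ≤ n, 2 ^ i ≤ #(hball H C v i) := fun i hi => by
        induction i with
        | zero => simp [hball]
        | succ i ihi =>
          have := hc i (by omega)
          have := ihi (by omega)
          rw [pow_succ]
          omega
      exact absurd (h v hv) (not_lt.mpr (this n le_rfl))
    obtain ⟨i, hi, h1⟩ := h1
    have hv0 : v ∈ hball H C v i := hball_mono Subset.rfl v (Nat.zero_le i) (mem_hball_zero.mpr rfl)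
    obtain ⟨F, f1, f2, f3⟩ := ih (C \ hball H C v i) (sdiff_ssubset (hball_subset hv i) ⟨v, hv0⟩)
      fun u hu => (card_le_card (hball_mono sdiff_subset u le_rfl)).trans_lt (h u (sdiff_subset hu))
    refine ⟨(hball H C v (i + 1)).image (fun y => (v, y)) ∪ F, ?_, fun q hq => ?_,
      fun a ha c hc e => ?_⟩
    · have e1 := card_union_le ((hball H C v (i + 1)).image fun y => (v, y)) F
      have e2 : #((hball H C v (i + 1)).image fun y => (v, y)) ≤ _ := card_image_le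
      have e3 := card_sdiff_add_card_eq_card (hball_subset (H := H) hv i)
      omega
    · rcases mem_union.mp hq with e | e
      · obtain ⟨y, hy, rfl⟩ := mem_image.mp e
        exact ⟨hv, hball_mono Subset.rfl v hi hy⟩
      · exact ⟨sdiff_subset (f2 q e).1, hball_mono sdiff_subset _ le_rfl (f2 q e).2⟩
    · have key : ∀ a c, c ∈ C → H a c → a ∈ hball H C v i →
          (v, a) ∈ (hball H C v (i + 1)).image (fun y => (v, y)) ∪ F ∧
          (v, c) ∈ (hball H C v (i + 1)).image (fun y => (v, y)) ∪ F := fun a c hc e ha =>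
        ⟨mem_union_left _ (mem_image_of_mem _ (mem_hball_succ.mpr (Or.inl ha))),
          mem_union_left _ (mem_image_of_mem _ (mem_hball_succ.mpr (Or.inr ⟨hc, a, ha, e⟩)))⟩
      by_cases e1 : a ∈ hball H C v i
      · exact ⟨v, key a c hc e e1⟩
      by_cases e2 : c ∈ hball H C v i
      · exact ⟨v, (key c a ha (hs _ _ e) e2).symm⟩
      obtain ⟨u, u1, u2⟩ := f3 a (mem_sdiff.mpr ⟨ha, e1⟩) c (mem_sdiff.mpr ⟨hc, e2⟩) e
      exact ⟨u, mem_union_right _ u1, mem_union_right _ u2⟩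

/-- the candidates for the image of `a` -/
def cand (W : Finset G) (F : Finset (Ω × Ω)) (a : Ω) : Finset Ω :=
  (F.filter fun q => ∃ p ∈ F, p.1 = q.1 ∧ p.2 ∈ ob (W ^ 2) a).biUnion fun q => ob (W ^ 2) q.2

lemma mem_cand {W : Finset G} {F : Finset (Ω × Ω)} {a z : Ω} :
    z ∈ cand W F a ↔ ∃ v c c', (v, c) ∈ F ∧ (v, c') ∈ F ∧ c ∈ ob (W ^ 2) a ∧ z ∈ ob (W ^ 2) c' := by
  simp only [cand, mem_biUnion, mem_filter]
  constructor
  · rintro ⟨q, ⟨h1, p, h2, h3, h4⟩, h5⟩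
    exact ⟨q.1, p.2, q.2, h3 ▸ h2, h1, h4, h5⟩
  · rintro ⟨v, c, c', h1, h2, h3, h4⟩
    exact ⟨(v, c'), ⟨h2, (v, c), h1, rfl, h3⟩, h4⟩

lemma cand_mono {W : Finset G} {F F' : Finset (Ω × Ω)} (h : F ⊆ F') (a : Ω) :
    cand W F a ⊆ cand W F' a := fun _ hz => by
  obtain ⟨v, c, c', h1, h2, h3, h4⟩ := mem_cand.mp hz
  exact mem_cand.mpr ⟨v, c, c', h h1, h h2, h3, h4⟩

lemma cand_sub {W V : Finset G} (hV : Sym1 V) (hW : W ⊆ V) {F : Finset (Ω × Ω)} {d : ℕ}
    (h : ∀ q ∈ F, q.2 ∈ ob (V ^ d) q.1) (a : Ω) : cand W F a ⊆ ob (V ^ (2 * d + 4)) a := by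
  intro z hz
  obtain ⟨v, c, c', h1, h2, h3, h4⟩ := mem_cand.mp hz
  have := ob_trans (ob_trans (ob_trans (ob_pow_mono hV hW le_rfl a h3) (ob_symm (hV.pow d) (h (v, c) h1)))
    (h (v, c') h2)) (ob_pow_mono hV hW le_rfl c' h4)
  rwa [show 2 + d + d + 2 = 2 * d + 4 by ring] at this

/-- Carving of one round. Plan: `carve` for `H u u' := ∃ a c, (E a c ∨ E c a) ∧ u ∈ ob (W^2) a ∧
u' ∈ ob (W^2) c`; then `u' ∈ ob (V^5) u`, so a ball of radius `n` lies in `ob (V^(5n)) v` (`hball_ob`).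
Put `Y = ob (V^(5n+1)) v`. For `u` in the ball, `ob W u ⊆ Y ⊆ ob (V^(10n+1)) u`, so by `os_pow`
`#Y * #W ≤ #(V^(10n+3)) * #(ob W u)`; sum over the ball with `pack_sum`. -/
lemma round_carve {W V : Finset G} (hW : Sym1 W) (hV : Sym1 V) (hWV : W ⊆ V) (C : Finset Ω)
    (hC : ∀ c ∈ C, ∀ c' ∈ C, c ≠ c' → Disjoint (ob W c) (ob W c')) (E : Ω → Ω → Prop)
    (hE : ∀ a c, E a c → c ∈ ob V a ∧ (∃ u ∈ C, u ∈ ob (W ^ 2) a) ∧ ∃ u ∈ C, u ∈ ob (W ^ 2) c)
    (n : ℕ) (hn : #(V ^ (10 * n + 3)) < 2 ^ n * #W) :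
    ∃ F : Finset (Ω × Ω), #F ≤ 2 * #C ∧ (∀ q ∈ F, q.2 ∈ ob (V ^ (5 * n)) q.1) ∧
      ∀ a c, E a c → c ∈ cand W F a := by
  set H : Ω → Ω → Prop := fun u u' => ∃ a c, (E a c ∨ E c a) ∧ u ∈ ob (W ^ 2) a ∧ u' ∈ ob (W ^ 2) c
    with hH
  have h5 : ∀ u u', H u u' → u' ∈ ob (V ^ 5) u := by
    rintro u u' ⟨a, c, e, e1, e2⟩
    have e3 : c ∈ ob (V ^ 1) a := by
      rw [pow_one]
      exact e.elim (fun e => (hE _ _ e).1) fun e => ob_symm hV (hE _ _ e).1
    exact ob_trans_le hV (ob_trans (ob_symm (hV.pow 2) (ob_pow_mono hV hWV le_rfl a e1)) e3)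
      (ob_pow_mono hV hWV le_rfl c e2) le_rfl
  have hb : ∀ v, hball H C v n ⊆ ob (V ^ (5 * n)) v := fun v => hball_ob hV fun y _ z e => h5 y z e
  obtain ⟨F, f1, f2, f3⟩ := carve H (fun u u' ⟨a, c, e, e1, e2⟩ => ⟨c, a, e.symm, e2, e1⟩) n C
    fun v hv => by
      have e1 : ∑ u ∈ hball H C v n, #(ob W u) ≤ #(ob (V ^ (5 * n + 1)) v) :=
        pack_sum _ (ob W) _
          (fun c hc c' hc' => hC c (hball_subset hv n hc) c' (hball_subset hv n hc')) fun u hu => by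
            have e0 : ob (V ^ 1) u ⊆ ob (V ^ (5 * n + 1)) v := ob_sub (hb v hu)
            rw [pow_one] at e0
            exact (ob_mono hWV u).trans e0
      have e2 : ∀ u ∈ hball H C v n,
          #(ob (V ^ (5 * n + 1)) v) * #W ≤ #(V ^ (10 * n + 3)) * #(ob W u) := fun u hu => by
        refine le_trans (Nat.mul_le_mul_right _ (card_le_card ?_)) (os_pow hW hWV (10 * n + 1) u)
        rw [show 10 * n + 1 = 5 * n + (5 * n + 1) by ring]
        exact ob_sub (ob_symm (hV.pow _) (hb v hu))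
      have e3 := sum_le_sum e2
      rw [sum_const, smul_eq_mul, ← mul_sum] at e3
      have e4 := e3.trans (Nat.mul_le_mul_left _ e1)
      have e5 : 0 < #(ob (V ^ (5 * n + 1)) v) := card_ob_pos (hV.pow _).1 v
      have e6 : #(hball H C v n) * #W ≤ #(V ^ (10 * n + 3)) :=
        Nat.le_of_mul_le_mul_right (le_of_eq_of_le (by ring) e4) e5
      exact Nat.lt_of_mul_lt_mul_right (e6.trans_lt hn)
  refine ⟨F, f1, fun q hq => hb _ (f2 q hq).2, fun a c e => ?_⟩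
  obtain ⟨-, ⟨u, u1, u2⟩, u', u3, u4⟩ := hE a c e
  obtain ⟨v, v1, v2⟩ := f3 u u1 u' u3 ⟨a, c, Or.inl e, u2, u4⟩
  exact mem_cand.mpr ⟨v, u, u', v1, v2, u2, ob_symm (hW.pow 2) u4⟩

/-- a round in which every edge is carved (`pack` of all chunks, then `round_carve`) -/
lemma special [Fintype Ω] {W V : Finset G} (hW : Sym1 W) (hV : Sym1 V) (hWV : W ⊆ V)
    (n : ℕ) (hn : #(V ^ (10 * n + 3)) < 2 ^ n * #W) :
    ∃ F : Finset (Ω × Ω), #F ≤ 2 * Fintype.card Ω ∧ (∀ q ∈ F, q.2 ∈ ob (V ^ (5 * n)) q.1) ∧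
      ∀ x ∈ V, ∀ a : Ω, x • a ∈ cand W F a := by
  obtain ⟨C, -, c2, c3⟩ := pack (univ : Finset Ω) (ob W) (fun _ => 0)
    fun p _ => ⟨p, self_mem_ob hW.1 p⟩
  have h1 : ∀ a : Ω, ∃ u ∈ C, u ∈ ob (W ^ 2) a := fun a => by
    obtain ⟨u, u1, -, u2⟩ := c3 a (mem_univ a)
    exact ⟨u, u1, mem_ob_two hW Subset.rfl Subset.rfl u2⟩
  obtain ⟨F, f1, f2, f3⟩ := round_carve hW hV hWV C c2 (fun a c => c ∈ ob V a)
    (fun a c e => ⟨e, h1 a, h1 c⟩) n hn
  exact ⟨F, f1.trans (Nat.mul_le_mul_left _ (card_le_univ C)), f2,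
    fun x hx a => f3 a _ (mem_ob.mpr ⟨x, hx, rfl⟩)⟩

end Pool.Agent.Work.MP_5dd17b_co.Pm
end

-- merged part: Pool.Agent.Work.MP_5dd17b_co.PmGen
section
/-!
Encoding one new generator, and the moves.
-/

set_option autoImplicit false
set_option linter.unusedSectionVars false

namespace Pool.Agent.Work.MP_5dd17b_co.Pm

open Finset
open scoped Pointwise

variable {G Ω : Type} [Group G] [DecidableEq G] [Fintype G] [MulAction G Ω] [DecidableEq Ω]
  [Fintype Ω]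

/-- the elements with prescribed conjugation data and with images among the candidates -/
def xs (D : Finset (G × G)) (Cd : Ω → Finset Ω) : Finset G :=
  univ.filter fun x => (∀ d ∈ D, x * d.1 = d.2 * x) ∧ ∀ a, x • a ∈ Cd a

/-- the elements that can be encoded over `W` -/
def genSet (W : Finset G) (Cd : Ω → Finset Ω) (z : ℕ) : Finset G :=
  ((((W ^ 2) ×ˢ (W ^ 2)).powerset.filter fun D => #D ≤ #W ∧ #(xs D Cd) ≤ 2 ^ z)).biUnion
    fun D => xs D Cd

lemma genSet_mono (W : Finset G) (Cd : Ω → Finset Ω) {z z' : ℕ} (h : z ≤ z') :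
    genSet W Cd z ⊆ genSet W Cd z' :=
  biUnion_subset_biUnion_of_subset_left _ fun _ hD => mem_filter.mpr ⟨(mem_filter.mp hD).1,
    (mem_filter.mp hD).2.1, (mem_filter.mp hD).2.2.trans (Nat.pow_le_pow_right two_pos h)⟩

lemma PmGen_succ {n e : ℕ} (h : n ≤ 2 ^ e) : n + 1 ≤ 2 ^ (e + 1) := by
  have := Nat.one_le_two_pow (n := e)
  rw [pow_succ]
  omega

/-- Plan: `card_small`, `#(W^2 ×ˢ W^2) + 1 ≤ 2 ^ (4 u + 1)`. -/
lemma card_genSet (W : Finset G) (Cd : Ω → Finset Ω) (z u : ℕ) (h : #W ≤ 2 ^ u) :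
    #(genSet W Cd z) ≤ 2 ^ ((4 * u + 1) * #W + z) := by
  refine (card_biUnion_le_card_mul _ _ (2 ^ z) fun D hD => (mem_filter.mp hD).2.2).trans ?_
  rw [pow_add]
  refine Nat.mul_le_mul_right _ ?_
  have h1 : (((W ^ 2) ×ˢ (W ^ 2)).powerset.filter fun D => #D ≤ #W ∧ #(xs D Cd) ≤ 2 ^ z) ⊆
      ((W ^ 2) ×ˢ (W ^ 2)).powerset.filter fun D => #D ≤ #W :=
    fun D hD => mem_filter.mpr ⟨(mem_filter.mp hD).1, (mem_filter.mp hD).2.1⟩
  refine (card_le_card h1).trans ((card_small _ _).trans ?_)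
  rw [pow_mul]
  refine Nat.pow_le_pow_left (PmGen_succ ?_) _
  have h2 : #(W ^ 2) ≤ 2 ^ (2 * u) := by
    refine card_pow_le.trans ?_
    rw [mul_comm, pow_mul]
    exact Nat.pow_le_pow_left h _
  rw [card_product, show 4 * u = 2 * u + 2 * u by ring, pow_add]
  exact Nat.mul_le_mul h2 h2

/-- Commensuration. Plan: the map `(w1, w2) ↦ w1 * x * w2` on `W ×ˢ W` lands in `V ^ 5`, so a fibre
has `#W ≤ 2 ^ y * #fibre`; fix `(w3, w4)` in it and send `(w1, w2)` to `(w2 * w4⁻¹, w1⁻¹ * w3)`; in a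
fibre `w2` determines `w1`. -/
lemma commens {W V : Finset G} (hW : Sym1 W) (hV : Sym1 V) (hWV : W ⊆ V) {x : G} (hx : x ∈ V)
    {y : ℕ} (h : #(V ^ 5) ≤ 2 ^ y * #W) :
    ∃ D ⊆ (W ^ 2) ×ˢ (W ^ 2), #D ≤ #W ∧ (∀ d ∈ D, x * d.1 = d.2 * x) ∧
      #W ≤ 2 ^ y * #(D.image Prod.fst) := by
  have m1 : ∀ p ∈ W ×ˢ W, p.1 * x * p.2 ∈ V ^ 5 := fun p hp => by
    refine hV.pow_mono Subset.rfl (show 3 ≤ 5 by norm_num) ?_
    rw [pow_succ, pow_succ, pow_one]
    exact mul_mem_mul (mul_mem_mul (hWV (mem_product.mp hp).1) hx) (hWV (mem_product.mp hp).2)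
  have s1 := card_eq_sum_card_fiberwise (f := fun p : G × G => p.1 * x * p.2) (s := W ×ˢ W)
    (t := V ^ 5) m1
  obtain ⟨t, -, ht⟩ := exists_le_of_sum_le (s := V ^ 5) (f := fun _ => #W)
    (g := fun t => 2 ^ y * #((W ×ˢ W).filter fun p => p.1 * x * p.2 = t)) ⟨1, (hV.pow 5).1⟩ (by
      rw [← mul_sum, ← s1, sum_const, smul_eq_mul, card_product, ← mul_assoc]
      exact Nat.mul_le_mul_right _ h)
  set Φ := (W ×ˢ W).filter fun p : G × G => p.1 * x * p.2 = t with hΦ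
  have hne : Φ.Nonempty := by
    refine card_pos.mp (Nat.pos_of_ne_zero fun e => ?_)
    have := hW.card_pos
    rw [e, mul_zero] at ht
    omega
  obtain ⟨q, hq⟩ := hne
  have inj : ∀ p ∈ Φ, ∀ p' ∈ Φ, p.2 = p'.2 → p = p' := fun p hp p' hp' e => by
    refine Prod.ext ?_ e
    have e2 := (mem_filter.mp hp).2.trans (mem_filter.mp hp').2.symm
    rw [e] at e2
    exact mul_right_cancel (mul_right_cancel e2)
  have mq := mem_product.mp (mem_filter.mp hq).1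
  refine ⟨Φ.image fun p => (p.2 * q.2⁻¹, p.1⁻¹ * q.1), fun d hd => ?_, card_image_le.trans ?_,
    fun d hd => ?_, ht.trans (le_of_eq ?_)⟩
  · obtain ⟨p, hp, rfl⟩ := mem_image.mp hd
    have mp := mem_product.mp (mem_filter.mp hp).1
    rw [sq]
    exact mem_product.mpr ⟨mul_mem_mul mp.2 (hW.inv_mem mq.2), mul_mem_mul (hW.inv_mem mp.1) mq.1⟩
  · exact card_le_card_of_injOn Prod.snd
      (fun p hp => (mem_product.mp (mem_filter.mp hp).1).2) fun p hp p' hp' e => inj p hp p' hp' e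
  · obtain ⟨p, hp, rfl⟩ := mem_image.mp hd
    have e2 := (mem_filter.mp hp).2.trans (mem_filter.mp hq).2.symm
    show x * (p.2 * q.2⁻¹) = p.1⁻¹ * q.1 * x
    calc x * (p.2 * q.2⁻¹) = p.1⁻¹ * (p.1 * x * p.2) * q.2⁻¹ := by group
      _ = p.1⁻¹ * (q.1 * x * q.2) * q.2⁻¹ := by rw [e2]
      _ = p.1⁻¹ * q.1 * x := by group
  · rw [image_image, card_image_of_injOn]
    exact fun p hp p' hp' e => inj p hp p' hp' (mul_right_cancel e)

/-- Plan: `L = D.image Prod.fst`; `pack` the chunks `ob L a` over all points, with centres `C`. Two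
elements of `xs D Cd` that agree on `C` agree everywhere (`u • β = v • α` gives
`x • β = u'⁻¹ • v' • x • α`), so are equal (`eq_of_smul_eq_smul`). Hence the count is at most the
product over `C` of `#(Cd a) ≤ 2 ^ y * #(ob L a) ≤ 2 ^ ((y + 1) * #(ob L a))`; use `pack_sum`. -/
lemma card_xs [FaithfulSMul G Ω] (D : Finset (G × G)) (hD : D.Nonempty) (Cd : Ω → Finset Ω) (y : ℕ)
    (h : ∀ a, #(Cd a) ≤ 2 ^ y * #(ob (D.image Prod.fst) a)) :
    #(xs D Cd) ≤ 2 ^ ((y + 1) * Fintype.card Ω) := by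
  have hL : (D.image Prod.fst).Nonempty := hD.image _
  have ne : ∀ a : Ω, (ob (D.image Prod.fst) a).Nonempty := fun a => hL.image _
  obtain ⟨C, -, c1, c2⟩ := pack (univ : Finset Ω) (ob (D.image Prod.fst)) (fun _ => 0)
    fun a _ => ne a
  have h1 : #(xs D Cd) ≤ #(Fintype.piFinset fun c : C => Cd c.1) := by
    refine card_le_card_of_injOn (fun x c => x • c.1)
      (fun x hx => mem_coe.mpr (Fintype.mem_piFinset.mpr fun c => (mem_filter.mp hx).2.2 c.1))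
      fun x hx x' hx' e => eq_of_smul_eq_smul (α := Ω) fun β => ?_
    obtain ⟨c, hc, -, hn⟩ := c2 β (mem_univ β)
    obtain ⟨z, z1, z2⟩ := not_disjoint_iff.mp hn
    obtain ⟨v, hv, v1⟩ := mem_ob.mp z1
    obtain ⟨u, hu, u1⟩ := mem_ob.mp z2
    obtain ⟨d', hd', rfl⟩ := mem_image.mp hv
    obtain ⟨d, hd, rfl⟩ := mem_image.mp hu
    have key : ∀ x ∈ xs D Cd, d.2 • x • β = d'.2 • x • c := fun x hx => by
      have k := (mem_filter.mp hx).2.1
      rw [← mul_smul, ← mul_smul, ← k d hd, ← k d' hd', mul_smul, mul_smul, u1, v1]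
    have e2 : x • c = x' • c := congrFun e ⟨c, hc⟩
    refine smul_left_cancel d.2 ?_
    rw [key x hx, key x' hx', e2]
  refine h1.trans ?_
  rw [Fintype.card_piFinset, prod_coe_sort C fun c => #(Cd c)]
  refine (prod_le_prod' (g := fun c => 2 ^ ((y + 1) * #(ob (D.image Prod.fst) c)))
    fun c _ => (h c).trans ?_).trans ?_
  · rw [add_mul, one_mul, pow_add]
    exact Nat.mul_le_mul (Nat.pow_le_pow_right two_pos (Nat.le_mul_of_pos_right _ (ne c).card_pos))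
      Nat.lt_two_pow_self.le
  · rw [prod_pow_eq_pow_sum, ← mul_sum]
    exact Nat.pow_le_pow_right two_pos (Nat.mul_le_mul_left _
      (pack_sum C _ univ c1 fun _ _ => subset_univ _))

/-- Plan: `commens`, `card_xs`, and `os W L a` with `W * (L⁻¹ * L) ⊆ V ^ 5`, which gives
`#(ob W a) ≤ 2 ^ (2 y1) * #(ob L a)`. -/
lemma mem_genSet [FaithfulSMul G Ω] {W V : Finset G} (hW : Sym1 W) (hV : Sym1 V) (hWV : W ⊆ V)
    {x : G} (hx : x ∈ V) {y y1 : ℕ} (h : #(V ^ 5) ≤ 2 ^ y1 * #W) {Cd : Ω → Finset Ω}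
    (h1 : ∀ a, x • a ∈ Cd a) (h2 : ∀ a, #(Cd a) ≤ 2 ^ y * #(ob W a)) :
    x ∈ genSet W Cd ((y + 2 * y1 + 1) * Fintype.card Ω) := by
  obtain ⟨D, d1, d2, d3, d4⟩ := commens hW hV hWV hx h
  have hL : 0 < #(D.image Prod.fst) := by
    refine Nat.pos_of_ne_zero fun e => ?_
    have := hW.card_pos
    rw [e, mul_zero] at d4
    omega
  have l1 : D.image Prod.fst ⊆ V ^ 2 := fun u hu => by
    obtain ⟨d, hd, rfl⟩ := mem_image.mp hu
    exact hV.pow_mono hWV le_rfl (mem_product.mp (d1 hd)).1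
  have l2 : W * ((D.image Prod.fst)⁻¹ * D.image Prod.fst) ⊆ V ^ 5 := by
    rw [show 5 = 2 + 2 + 1 from rfl, pow_succ', pow_add]
    refine mul_subset_mul hWV (mul_subset_mul ?_ l1)
    rw [← (hV.pow 2).2]
    exact inv_subset_inv l1
  refine mem_biUnion.mpr ⟨D, mem_filter.mpr ⟨mem_powerset.mpr d1, d2, ?_⟩,
    mem_filter.mpr ⟨mem_univ _, d3, h1⟩⟩
  refine card_xs D (image_nonempty.mp (card_pos.mp hL)) Cd _ fun a => (h2 a).trans ?_
  rw [pow_add, mul_assoc]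
  refine Nat.mul_le_mul_left _ (Nat.le_of_mul_le_mul_right ?_ hL)
  refine (os _ _ a).trans ?_
  rw [mul_right_comm]
  refine Nat.mul_le_mul_right _ ((card_le_card l2).trans (h.trans ?_))
  rw [two_mul, pow_add, mul_assoc]
  exact Nat.mul_le_mul_left _ d4

/-- the pairs with tag `s` -/
def tg (Fg : Finset (ℕ × Ω × Ω)) (s : ℕ) : Finset (Ω × Ω) :=
  (Fg.filter fun q => q.1 = s).image Prod.snd

/-- candidates from the global pairs and from the pairs of the round -/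
def cdAll (Fg : Finset (ℕ × Ω × Ω)) (W : Finset G) (F : Finset (Ω × Ω)) (a : Ω) : Finset Ω :=
  cand W (tg Fg (Nat.log 2 #(ob W a))) a ∪ cand W F a

lemma cdAll_empty (W : Finset G) (F : Finset (Ω × Ω)) (a : Ω) : cdAll ∅ W F a = cand W F a := by
  simp [cdAll, tg, cand]

/-- the moves: a free move, or a round of new generators -/
def St (Fg : Finset (ℕ × Ω × Ω)) (μ n0 : ℕ) (W : Finset G) (c : ℕ) (W' : Finset G) : Prop :=
  (#W ≤ 2 ^ μ ∧ 2 * n0 * μ ≤ c ∧ ∃ y ∈ W ^ (2 * n0), W' = insert y (insert y⁻¹ W)) ∨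
  ∃ (Fg' : Finset (ℕ × Ω × Ω)) (z : ℕ) (F : Finset (Ω × Ω)) (X : Finset G),
    (Fg' = Fg ∨ Fg' = ∅) ∧ #W ≤ 2 ^ (μ + 6) ∧ (2 * μ + 1) * #F ≤ c ∧
    #X * ((4 * μ + 25) * #W + z + 1) ≤ c ∧ X ⊆ genSet W (cdAll Fg' W F) z ∧ W' = W ∪ X ∪ X⁻¹

lemma PmGen_free (μ n0 : ℕ) (W : Finset G) (c : ℕ) (S : Finset (Finset G))
    (h : ∀ W' ∈ S, #W ≤ 2 ^ μ ∧ 2 * n0 * μ ≤ c ∧
      ∃ y ∈ W ^ (2 * n0), W' = insert y (insert y⁻¹ W)) : #S ≤ 2 ^ c := by
  rcases S.eq_empty_or_nonempty with rfl | ⟨W0, h0⟩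
  · exact Nat.zero_le _
  obtain ⟨a1, a2, -⟩ := h W0 h0
  have h1 : S ⊆ (W ^ (2 * n0)).image fun y => insert y (insert y⁻¹ W) := fun W' hW' => by
    obtain ⟨-, -, y, hy, e⟩ := h W' hW'
    exact mem_image.mpr ⟨y, hy, e.symm⟩
  refine (card_le_card h1).trans (card_image_le.trans (card_pow_le.trans
    ((Nat.pow_le_pow_left a1 _).trans ?_)))
  rw [← pow_mul]
  exact Nat.pow_le_pow_right two_pos (by rwa [mul_comm])

lemma PmGen_X (μ : ℕ) (W : Finset G) (hW : #W ≤ 2 ^ (μ + 6)) (Cd : Ω → Finset Ω) {c r : ℕ}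
    (hr : r * ((4 * μ + 25) * #W + 1) ≤ c) :
    #((genSet W Cd (c / r - ((4 * μ + 25) * #W + 1))).powerset.filter fun X => #X ≤ r) ≤ 2 ^ c := by
  refine (card_small _ _).trans ?_
  rcases Nat.eq_zero_or_pos r with rfl | r0
  · rw [pow_zero]
    exact Nat.one_le_two_pow
  have h1 : (4 * μ + 25) * #W + 1 ≤ c / r := (Nat.le_div_iff_mul_le r0).mpr (by rwa [mul_comm])
  refine (Nat.pow_le_pow_left (PmGen_succ (card_genSet W Cd _ _ hW)) _).trans ?_
  rw [← pow_mul, show 4 * (μ + 6) + 1 = 4 * μ + 25 by ring,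
    show (4 * μ + 25) * #W + (c / r - ((4 * μ + 25) * #W + 1)) + 1 = c / r by omega]
  exact Nat.pow_le_pow_right two_pos (Nat.div_mul_le_self c r)

lemma PmGen_round (Fg : Finset (ℕ × Ω × Ω)) (μ : ℕ) (hμ : Fintype.card Ω ≤ 2 ^ μ) (W : Finset G)
    (c : ℕ) (S : Finset (Finset G))
    (h : ∀ W' ∈ S, ∃ (z : ℕ) (F : Finset (Ω × Ω)) (X : Finset G), #W ≤ 2 ^ (μ + 6) ∧
      (2 * μ + 1) * #F ≤ c ∧ #X * ((4 * μ + 25) * #W + z + 1) ≤ c ∧
      X ⊆ genSet W (cdAll Fg W F) z ∧ W' = W ∪ X ∪ X⁻¹) : #S ≤ 2 ^ (3 * c) := by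
  rcases S.eq_empty_or_nonempty with rfl | ⟨W0, h0⟩
  · exact Nat.zero_le _
  obtain ⟨-, -, -, a1, -⟩ := h W0 h0
  have h1 : S ⊆ ((univ : Finset (Ω × Ω)).powerset.filter fun F => #F ≤ c / (2 * μ + 1)).biUnion
      fun F => ((range (c + 1)).filter fun r => r * ((4 * μ + 25) * #W + 1) ≤ c).biUnion fun r =>
        ((genSet W (cdAll Fg W F) (c / r - ((4 * μ + 25) * #W + 1))).powerset.filter
          fun X => #X ≤ r).image fun X => W ∪ X ∪ X⁻¹ := fun W' hW' => by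
    obtain ⟨z, F, X, -, b1, b2, b3, e⟩ := h W' hW'
    refine mem_biUnion.mpr ⟨F, mem_filter.mpr ⟨mem_powerset.mpr (subset_univ _),
      (Nat.le_div_iff_mul_le (by omega)).mpr (by rwa [mul_comm])⟩, mem_biUnion.mpr ⟨#X,
        mem_filter.mpr ⟨mem_range.mpr ?_, le_trans (Nat.mul_le_mul_left _ (by omega)) b2⟩,
        mem_image.mpr ⟨X, mem_filter.mpr ⟨mem_powerset.mpr ?_, le_rfl⟩, e.symm⟩⟩⟩
    · have : #X * 1 ≤ #X * ((4 * μ + 25) * #W + z + 1) := Nat.mul_le_mul_left _ (by omega)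
      omega
    · rcases X.eq_empty_or_nonempty with rfl | x0
      · exact empty_subset _
      have : (4 * μ + 25) * #W + z + 1 ≤ c / #X :=
        (Nat.le_div_iff_mul_le x0.card_pos).mpr (by rwa [mul_comm])
      exact b3.trans (genSet_mono W _ (by omega))
  refine (card_le_card h1).trans ((card_biUnion_le_card_mul _ _ (2 ^ c * 2 ^ c)
    fun F _ => ?_).trans ?_)
  · refine (card_biUnion_le_card_mul _ _ (2 ^ c) fun r hr =>
      card_image_le.trans (PmGen_X μ W a1 _ (mem_filter.mp hr).2)).trans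
      (Nat.mul_le_mul_right _ ((card_filter_le _ _).trans ?_))
    rw [card_range]
    exact Nat.lt_two_pow_self
  · rw [show 3 * c = c + (c + c) by ring, pow_add, pow_add]
    refine Nat.mul_le_mul_right _ ((card_small _ _).trans ?_)
    have e : #(univ : Finset (Ω × Ω)) ≤ 2 ^ (2 * μ) := by
      rw [card_univ, Fintype.card_prod, two_mul, pow_add]
      exact Nat.mul_le_mul hμ hμ
    refine (Nat.pow_le_pow_left (PmGen_succ e) _).trans ?_
    rw [← pow_mul]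
    exact Nat.pow_le_pow_right two_pos (Nat.mul_div_le c _)

open Classical in
/-- Plan: at most `2 ^ c` free moves. For rounds: two choices of `Fg'`; `F` has at most
`c / (2 μ + 1)` pairs (`card_small`: at most `2 ^ c` choices); `r = #X ≤ c` (`c + 1 ≤ 2 ^ c` choices);
for given `r`, `X` lies in the subsets of size at most `r` of
`genSet W _ (c / r - ((4 μ + 25) #W + 1))` if `r > 0` (`genSet_mono`, `card_genSet` with `u = μ + 6`;
treat `(4 μ + 25) #W + 1 > c / r` as impossible), at most `2 ^ c` choices. -/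
lemma card_St (Fg : Finset (ℕ × Ω × Ω)) (μ n0 : ℕ) (hμ : Fintype.card Ω ≤ 2 ^ μ) (W : Finset G)
    (c : ℕ) : #(univ.filter fun W' => St Fg μ n0 W c W') ≤ 2 ^ (3 * c + 2) := by
  have h1 := PmGen_free μ n0 W c (univ.filter fun W' => #W ≤ 2 ^ μ ∧ 2 * n0 * μ ≤ c ∧
    ∃ y ∈ W ^ (2 * n0), W' = insert y (insert y⁻¹ W)) fun _ h => (mem_filter.mp h).2
  have h2 : ∀ Fg' : Finset (ℕ × Ω × Ω), #(univ.filter fun W' : Finset G =>
      ∃ (z : ℕ) (F : Finset (Ω × Ω)) (X : Finset G), #W ≤ 2 ^ (μ + 6) ∧ (2 * μ + 1) * #F ≤ c ∧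
        #X * ((4 * μ + 25) * #W + z + 1) ≤ c ∧ X ⊆ genSet W (cdAll Fg' W F) z ∧
        W' = W ∪ X ∪ X⁻¹) ≤ 2 ^ (3 * c) := fun Fg' =>
    PmGen_round Fg' μ hμ W c _ fun _ h => (mem_filter.mp h).2
  refine (card_le_card (t := _ ∪ (_ ∪ _)) fun W' hW' => ?_).trans ((card_union_le _ _).trans
    ((add_le_add h1 ((card_union_le _ _).trans (add_le_add (h2 Fg) (h2 ∅)))).trans ?_))
  · rcases (mem_filter.mp hW').2 with k | ⟨Fg', z, F, X, k0, k⟩
    · exact mem_union_left _ (mem_filter.mpr ⟨mem_univ _, k⟩)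
    · refine mem_union_right _ ?_
      rcases k0 with rfl | rfl
      · exact mem_union_left _ (mem_filter.mpr ⟨mem_univ _, z, F, X, k⟩)
      · exact mem_union_right _ (mem_filter.mpr ⟨mem_univ _, z, F, X, k⟩)
  · have : 2 ^ c ≤ 2 ^ (3 * c) := Nat.pow_le_pow_right two_pos (by omega)
    rw [pow_add]
    omega

/-- one free move -/
def FreeStep (n0 cap : ℕ) (U U' : Finset G) : Prop :=
  #U < cap ∧ ∃ y ∈ U ^ (2 * n0), y ∉ U ∧ U' = insert y (insert y⁻¹ U)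

/-- Plan: induction, with the cost `C + min #U cap * (2 n0 μ + 1)`; then `Rch.mono`. -/
lemma free_rch (Fg : Finset (ℕ × Ω × Ω)) (μ n0 cap : ℕ) (hcap : cap ≤ 2 ^ μ) {s0 U U' : Finset G}
    {C : ℕ} (h : Rch (St Fg μ n0) s0 C U) (hf : Relation.ReflTransGen (FreeStep n0 cap) U U') :
    Rch (St Fg μ n0) s0 (C + cap * (2 * n0 * μ + 1)) U' := by
  have key : Rch (St Fg μ n0) s0 (C + min #U' cap * (2 * n0 * μ + 1)) U' := by
    induction hf with
    | refl => exact h.mono (Nat.le_add_right _ _)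
    | @tail U1 U2 _ h2 ih =>
      obtain ⟨a1, y, y1, y2, e⟩ := h2
      have s : St Fg μ n0 U1 (2 * n0 * μ) U2 := Or.inl ⟨a1.le.trans hcap, le_rfl, y, y1, e⟩
      refine (ih.step s).mono ?_
      have c1 : #U1 + 1 ≤ #U2 := by
        rw [e, ← card_insert_of_notMem y2]
        exact card_le_card (insert_subset_insert _ (subset_insert _ _))
      have c2 : min #U1 cap + 1 ≤ min #U2 cap := by omega
      have c3 := Nat.mul_le_mul_right (2 * n0 * μ + 1) c2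
      rw [add_mul, one_mul] at c3
      omega
  exact key.mono (Nat.add_le_add_left (Nat.mul_le_mul_right _ (min_le_right _ _)) _)

end Pool.Agent.Work.MP_5dd17b_co.Pm
end

-- merged part: Pool.Agent.Work.MP_5dd17b_co.PmSpanN
section
/-!
The global pairs, for the edges without a jump.
-/

set_option autoImplicit false
set_option linter.unusedSectionVars false
set_option maxRecDepth 4000

namespace Pool.Agent.Work.MP_5dd17b_co.Pm

open Finset
open scoped Pointwise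

variable {G Ω : Type} [Group G] [DecidableEq G] [Fintype G] [MulAction G Ω] [DecidableEq Ω]
  [Fintype Ω]

/-- an increasing sequence of symmetric sets of slow growth, starting at `{1}` -/
structure Tower (b n0 : ℕ) (W : ℕ → Finset G) : Prop where
  zero : W 0 = {1}
  mono : Monotone W
  sym : ∀ j, Sym1 (W j)
  gr : ∀ j, Gr b n0 (W j)

/-- the edge from `a` to `c` in round `j` has no jump -/
def NE (W : ℕ → Finset G) (b j : ℕ) (a c : Ω) : Prop :=
  #(ob (W (j + 1)) a) ≤ 2 ^ (3 * b + 1) * #(ob (W j) a) ∧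
    #(ob (W (j + 1)) a) ≤ 2 ^ (3 * b + 1) * #(ob (W j) c)

/-- the latest time at which some point of `Z` has a small orbit set (`Nat.findGreatest`) -/
lemma latest {b n0 : ℕ} {W : ℕ → Finset G} (h : Tower b n0 W) (J Θ : ℕ) (hΘ : 1 ≤ Θ)
    (Z : Finset Ω) (hZ : Z.Nonempty) :
    ∃ t ≤ J, (∃ p ∈ Z, #(ob (W t) p) ≤ Θ) ∧ ∀ p ∈ Z, ∀ t' ≤ J, #(ob (W t') p) ≤ Θ → t' ≤ t := by
  classical
  obtain ⟨p0, hp0⟩ := hZ
  have h0 : ∃ p ∈ Z, #(ob (W 0) p) ≤ Θ := ⟨p0, hp0, by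
    rw [h.zero]
    exact (card_image_le.trans (card_singleton _).le).trans hΘ⟩
  exact ⟨Nat.findGreatest (fun t => ∃ p ∈ Z, #(ob (W t) p) ≤ Θ) J, Nat.findGreatest_le J,
    Nat.findGreatest_spec (P := fun t => ∃ p ∈ Z, #(ob (W t) p) ≤ Θ) (Nat.zero_le J) h0,
    fun p hp t' ht' e => Nat.le_findGreatest ht' ⟨p, hp, e⟩⟩

/-- One tag. Plan: `θ = 2 ^ (s - (3 b + 1))`, `Θ = 2 ^ (4 b + 2 + s)`, `P` the points with
`θ ≤ #(ob (W t) p)` for some `t ≤ J`, key `κ p` the least such `t`, chunk `ob (W (κ p)) p`; `pack`; `C`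
the centres with chunk size at most `Θ`, so `#C * θ ≤ card Ω` (`pack_sum`). `H u u'`: there are `j < J`,
`x ∈ X j`, `a` with `NE W b j a (x • a)`, `Nat.log 2 #(ob (W j) a) = s`, and `u, u'` lie in
`ob (W j ^ 2) a`, `ob (W j ^ 2) (x • a)` in some order. Such `u` has `#(ob (W (j+1)) u) ≤ Θ`
(`Gr.ob_near`) and `u' ∈ ob (W (j+1) ^ 5) u`. With `t, p` from `latest` for the ball of radius
`n = 16 b + 8` around `v`: the ball lies in `ob (W t ^ (5 n)) v` (`hball_ob`), the chunks of its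
points are disjoint, of size at least `θ`, inside `ob (W t ^ (10 n + 1)) p`, which has at most
`2 ^ (b + (20 n + 7) / 40) Θ` points; so the ball has fewer than `2 ^ n` points. `carve`. -/
lemma spanN_one {b n0 : ℕ} {W : ℕ → Finset G} (h : Tower b n0 W) (hn0 : 240 * b + 200 ≤ n0)
    (J : ℕ) (X : ℕ → Finset G) (hX : ∀ j < J, X j ⊆ W (j + 1)) (s : ℕ) :
    ∃ F : Finset (Ω × Ω), #F * 2 ^ (s - (3 * b + 1)) ≤ 2 * Fintype.card Ω ∧
      (∀ q ∈ F, ∃ t ≤ J, q.2 ∈ ob (W t ^ (80 * b + 40)) q.1 ∧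
        #(ob (W t) q.1) ≤ 2 ^ (9 * b + 4 + s)) ∧
      ∀ j < J, ∀ x ∈ X j, ∀ a : Ω, NE W b j a (x • a) → Nat.log 2 #(ob (W j) a) = s →
        x • a ∈ cand (W j) F a := by
  classical
  set θ := 2 ^ (s - (3 * b + 1)) with hθ
  set Θ := 2 ^ (4 * b + 2 + s) with hΘ
  have hθ1 : 2 ^ s ≤ 2 ^ (3 * b + 1) * θ := by
    rw [hθ, ← pow_add]
    exact Nat.pow_le_pow_right two_pos (by omega)
  set κ : Ω → ℕ := fun p => if e : ∃ t, θ ≤ #(ob (W t) p) then Nat.find e else 0 with hκ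
  have hκ1 : ∀ p t, θ ≤ #(ob (W t) p) → κ p ≤ t ∧ θ ≤ #(ob (W (κ p)) p) := fun p t e => by
    have e' : ∃ t, θ ≤ #(ob (W t) p) := ⟨t, e⟩
    simp only [hκ, dif_pos e']
    exact ⟨Nat.find_min' e' e, Nat.find_spec e'⟩
  obtain ⟨C0, c1, c2, c3⟩ := pack (univ.filter fun p : Ω => ∃ t ≤ J, θ ≤ #(ob (W t) p))
    (fun p => ob (W (κ p)) p) κ fun p _ => ⟨p, self_mem_ob (h.sym _).1 p⟩
  have c4 : ∀ c ∈ C0, κ c ≤ J ∧ θ ≤ #(ob (W (κ c)) c) := fun c hc => by
    obtain ⟨t, t1, t2⟩ := (mem_filter.mp (c1 hc)).2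
    exact ⟨(hκ1 c t t2).1.trans t1, (hκ1 c t t2).2⟩
  set C := C0.filter fun c => #(ob (W (κ c)) c) ≤ Θ with hC
  set H : Ω → Ω → Prop := fun u u' => ∃ j < J, ∃ x ∈ X j, ∃ a : Ω, NE W b j a (x • a) ∧
    Nat.log 2 #(ob (W j) a) = s ∧ ((u ∈ ob (W j ^ 2) a ∧ u' ∈ ob (W j ^ 2) (x • a)) ∨
      (u' ∈ ob (W j ^ 2) a ∧ u ∈ ob (W j ^ 2) (x • a))) with hH
  have near : ∀ j < J, ∀ x ∈ X j, ∀ a : Ω, NE W b j a (x • a) → Nat.log 2 #(ob (W j) a) = s →
      ∀ u, u ∈ ob (W j ^ 2) a ∨ u ∈ ob (W j ^ 2) (x • a) → #(ob (W (j + 1)) u) ≤ Θ := by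
    intro j hj x hx a e1 e2 u hu
    have m1 := h.mono (Nat.le_succ j)
    have e3 : x • a ∈ ob (W (j + 1) ^ 1) a := by
      rw [pow_one]
      exact mem_ob.mpr ⟨x, hX j hj hx, rfl⟩
    have e4 : u ∈ ob (W (j + 1) ^ 3) a := hu.elim
      (fun e => ob_pow_mono (h.sym _) m1 (by norm_num) a e)
      fun e => ob_trans_le (h.sym _) e3 (ob_pow_mono (h.sym _) m1 le_rfl _ e) le_rfl
    have e5 := (h.gr (j + 1)).ob_near (h.sym _) (by omega) (by norm_num) e4
    have e6 : #(ob (W j) a) ≤ 2 ^ (s + 1) := e2 ▸ (Nat.lt_pow_succ_log_self one_lt_two _).le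
    refine e5.trans ((Nat.mul_le_mul_left _ (e1.1.trans (Nat.mul_le_mul_left _ e6))).trans_eq ?_)
    rw [hΘ, ← pow_add, ← pow_add]
    congr 1
    ring
  have edge : ∀ u u', H u u' → ∃ t ≤ J, #(ob (W t) u) ≤ Θ ∧ u' ∈ ob (W t ^ 5) u := by
    rintro u u' ⟨j, hj, x, hx, a, e1, e2, e3⟩
    have m1 := h.mono (Nat.le_succ j)
    have e4 : x • a ∈ ob (W (j + 1) ^ 1) a := by
      rw [pow_one]
      exact mem_ob.mpr ⟨x, hX j hj hx, rfl⟩
    have key : ∀ u u', u ∈ ob (W j ^ 2) a → u' ∈ ob (W j ^ 2) (x • a) →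
        u' ∈ ob (W (j + 1) ^ 5) u := fun u u' g1 g2 =>
      ob_trans_le (h.sym _) (ob_trans (ob_symm ((h.sym _).pow 2)
        (ob_pow_mono (h.sym _) m1 le_rfl a g1)) e4) (ob_pow_mono (h.sym _) m1 le_rfl _ g2) le_rfl
    refine ⟨j + 1, hj, near j hj x hx a e1 e2 u (e3.imp And.left And.right), ?_⟩
    exact e3.elim (fun e => key _ _ e.1 e.2) fun e => ob_symm ((h.sym _).pow 5) (key _ _ e.1 e.2)
  have ball : ∀ v ∈ C, ∃ t ≤ J, ∃ p : Ω, #(ob (W t) p) ≤ Θ ∧ v ∈ ob (W t ^ (80 * b + 40)) p ∧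
      hball H C v (16 * b + 8) ⊆ ob (W t ^ (80 * b + 40)) v ∧
      ∀ u ∈ hball H C v (16 * b + 8), κ u ≤ t := fun v hv => by
    obtain ⟨t, t1, ⟨p, p1, p2⟩, t2⟩ := latest h J Θ Nat.one_le_two_pow (hball H C v (16 * b + 8))
      ⟨v, hball_mono Subset.rfl v (Nat.zero_le _) (mem_hball_zero.mpr rfl)⟩
    have e1 : hball H C v (16 * b + 8) ⊆ ob (W t ^ (5 * (16 * b + 8))) v :=
      hball_ob (h.sym t) fun y hy z e => by
        obtain ⟨t', g1, g2, g3⟩ := edge y z e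
        exact ob_pow_mono (h.sym t) (h.mono (t2 y hy t' g1 g2)) le_rfl y g3
    rw [show 5 * (16 * b + 8) = 80 * b + 40 by ring] at e1
    refine ⟨t, t1, p, p2, ob_symm ((h.sym t).pow _) (e1 p1), e1, fun u hu => ?_⟩
    obtain ⟨g1, g2⟩ := mem_filter.mp (hball_subset hv _ hu)
    exact t2 u hu _ (c4 u g1).1 g2
  obtain ⟨F, f1, f2, f3⟩ := carve H
    (fun u u' ⟨j, hj, x, hx, a, e1, e2, e3⟩ => ⟨j, hj, x, hx, a, e1, e2, e3.symm⟩) (16 * b + 8) C
    fun v hv => by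
      obtain ⟨t, -, p, p1, p2, p3, p4⟩ := ball v hv
      have sub := hball_subset (H := H) hv (16 * b + 8)
      have e1 : ∑ u ∈ hball H C v (16 * b + 8), #(ob (W (κ u)) u) ≤
          #(ob (W t ^ (160 * b + 81)) p) :=
        pack_sum _ (fun u => ob (W (κ u)) u) _
          (fun c hc c' hc' => c2 c (filter_subset _ _ (sub hc)) c' (filter_subset _ _ (sub hc')))
          fun u hu z hz => by
            have e0 : z ∈ ob (W t ^ 1) u := by
              rw [pow_one]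
              exact ob_mono (h.mono (p4 u hu)) u hz
            exact ob_trans_le (h.sym t) (ob_trans p2 (p3 hu)) e0 (by omega)
      have e2 := card_nsmul_le_sum _ (fun u => #(ob (W (κ u)) u)) θ
        fun u (hu : u ∈ hball H C v (16 * b + 8)) => (c4 u (filter_subset _ _ (sub hu))).2
      have e3 := (h.gr t).ob_le (h.sym t) (n := 160 * b + 81) (by omega) p
      rw [show b + (2 * (160 * b + 81) + 5) / 40 = 9 * b + 4 by omega] at e3
      have e4 := e2.trans (e1.trans (e3.trans (Nat.mul_le_mul_left _ p1)))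
      have e5 : 2 ^ (9 * b + 4) * Θ ≤ 2 ^ (16 * b + 7) * θ := by
        have : 2 ^ (9 * b + 4) * Θ = 2 ^ (13 * b + 6) * 2 ^ s := by
          rw [hΘ, ← pow_add, ← pow_add]
          congr 1
          ring
        rw [this, show 16 * b + 7 = 13 * b + 6 + (3 * b + 1) by ring, pow_add _ (13 * b + 6),
          mul_assoc]
        exact Nat.mul_le_mul_left _ hθ1
      exact (Nat.le_of_mul_le_mul_right (e4.trans e5) (by positivity)).trans_lt
        (Nat.pow_lt_pow_right one_lt_two (by omega))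
  refine ⟨F, ?_, fun q hq => ?_, fun j hj x hx a e1 e2 => ?_⟩
  · have e1 : ∑ u ∈ C, #(ob (W (κ u)) u) ≤ #(univ : Finset Ω) :=
      pack_sum _ (fun u => ob (W (κ u)) u) _
        (fun c hc c' hc' => c2 c (filter_subset _ _ hc) c' (filter_subset _ _ hc'))
        fun _ _ => subset_univ _
    have e2 := card_nsmul_le_sum C (fun u => #(ob (W (κ u)) u)) θ
      fun u hu => (c4 u (filter_subset _ _ hu)).2
    refine (Nat.mul_le_mul_right _ f1).trans ?_
    rw [mul_assoc]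
    exact Nat.mul_le_mul_left _ (e2.trans e1)
  · obtain ⟨t, t1, p, p1, p2, p3, -⟩ := ball q.1 (f2 q hq).1
    refine ⟨t, t1, p3 (f2 q hq).2, ?_⟩
    have e3 := (h.gr t).ob_le (h.sym t) (n := 80 * b + 40 + 1) (by omega) p
    rw [show b + (2 * (80 * b + 40 + 1) + 5) / 40 = 5 * b + 2 by omega] at e3
    have e4 : ob (W t ^ 1) q.1 ⊆ _ := ob_sub p2
    rw [pow_one] at e4
    refine (card_le_card e4).trans (e3.trans ((Nat.mul_le_mul_left _ p1).trans_eq ?_))
    rw [hΘ, ← pow_add]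
    congr 1
    ring
  · have e3 : 2 ^ s ≤ #(ob (W j) a) :=
      e2 ▸ Nat.pow_log_le_self 2 (card_ob_pos (h.sym j).1 a).ne'
    have cen : ∀ z : Ω, z = a ∨ z = x • a → ∃ u ∈ C, u ∈ ob (W j ^ 2) z := fun z hz => by
      have g1 : θ ≤ #(ob (W j) z) := by
        rcases hz with rfl | rfl
        · exact (Nat.pow_le_pow_right two_pos (by omega)).trans e3
        · rcases le_or_gt s (3 * b + 1) with g | g
          · rw [hθ, Nat.sub_eq_zero_of_le g]
            exact card_ob_pos (h.sym j).1 _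
          · refine Nat.le_of_mul_le_mul_left ?_ (show 0 < 2 ^ (3 * b + 1) by positivity)
            rw [hθ, ← pow_add, Nat.add_sub_cancel' g.le]
            exact (e3.trans (card_le_card (ob_mono (h.mono (Nat.le_succ j)) a))).trans e1.2
      obtain ⟨u, u1, u2, u3⟩ := c3 z (mem_filter.mpr ⟨mem_univ _, j, hj.le, g1⟩)
      have g2 := (hκ1 z j g1).1
      have g3 := mem_ob_two (h.sym j) (h.mono (u2.trans g2)) (h.mono g2) u3
      refine ⟨u, mem_filter.mpr ⟨u1, (card_le_card (ob_mono (h.mono ?_) u)).trans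
        (near j hj x hx a e1 e2 u (hz.imp (fun e => by rwa [← e]) fun e => by rwa [← e]))⟩, g3⟩
      omega
    obtain ⟨u, u1, u2⟩ := cen a (Or.inl rfl)
    obtain ⟨u', u3, u4⟩ := cen _ (Or.inr rfl)
    obtain ⟨v, v1, v2⟩ := f3 u u1 u' u3 ⟨j, hj, x, hx, a, e1, e2, Or.inl ⟨u2, u4⟩⟩
    exact mem_cand.mpr ⟨v, u, u', v1, v2, u2, ob_symm ((h.sym j).pow 2) u4⟩

/-- Plan: `latest` for `Z` = `a` together with the `v` having a pair `(v, y) ∈ F` with
`y ∈ ob (W j ^ 2) a`, and `Θ = 2 ^ (9 b + 4 + s)`; then `j ≤ t`, the candidates lie in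
`ob (W t ^ (2 d + 4)) a ⊆ ob (W t ^ (3 d + 6)) p`, `d = 80 b + 40`; `Gr.ob_le`; `2 ^ s ≤ #(ob (W j) a)`. -/
lemma candN_card {b n0 : ℕ} {W : ℕ → Finset G} (h : Tower b n0 W) (hn0 : 240 * b + 200 ≤ n0)
    {J j : ℕ} (hj : j ≤ J) (a : Ω) (F : Finset (Ω × Ω))
    (hF : ∀ q ∈ F, ∃ t ≤ J, q.2 ∈ ob (W t ^ (80 * b + 40)) q.1 ∧
      #(ob (W t) q.1) ≤ 2 ^ (9 * b + 4 + Nat.log 2 #(ob (W j) a))) :
    #(cand (W j) F a) ≤ 2 ^ (22 * b + 10) * #(ob (W j) a) := by
  classical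
  set s := Nat.log 2 #(ob (W j) a) with hs
  obtain ⟨t, -, ⟨p, p1, p2⟩, t2⟩ := latest h J (2 ^ (9 * b + 4 + s)) Nat.one_le_two_pow
    (insert a ((F.filter fun q => q.2 ∈ ob (W j ^ 2) a).image Prod.fst)) (insert_nonempty _ _)
  have hjt : W j ⊆ W t := h.mono (t2 a (mem_insert_self _ _) j hj
    ((Nat.lt_pow_succ_log_self one_lt_two _).le.trans (Nat.pow_le_pow_right two_pos (by omega))))
  have e1 : ∀ v c c', (v, c) ∈ F → (v, c') ∈ F → c ∈ ob (W j ^ 2) a →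
      c' ∈ ob (W t ^ (80 * b + 40)) v := fun v c c' g1 g2 g3 => by
    obtain ⟨t', g4, g5, g6⟩ := hF _ g2
    exact ob_pow_mono (h.sym t) (h.mono (t2 v (mem_insert_of_mem
      (mem_image.mpr ⟨(v, c), mem_filter.mpr ⟨g1, g3⟩, rfl⟩)) t' g4 g6)) le_rfl v g5
  have e2 : ∀ v c, (v, c) ∈ F → c ∈ ob (W j ^ 2) a → v ∈ ob (W t ^ (2 + (80 * b + 40))) a :=
    fun v c g1 g2 => ob_trans (ob_pow_mono (h.sym t) hjt le_rfl a g2)
      (ob_symm ((h.sym t).pow _) (e1 v c c g1 g1 g2))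
  have e3 : a ∈ ob (W t ^ (2 + (80 * b + 40))) p := by
    rcases mem_insert.mp p1 with rfl | g
    · exact self_mem_ob ((h.sym t).pow _).1 _
    · obtain ⟨q, g1, rfl⟩ := mem_image.mp g
      exact ob_symm ((h.sym t).pow _) (e2 q.1 q.2 (mem_filter.mp g1).1 (mem_filter.mp g1).2)
  have e4 : cand (W j) F a ⊆ ob (W t ^ (240 * b + 126)) p := fun z hz => by
    obtain ⟨v, c, c', g1, g2, g3, g4⟩ := mem_cand.mp hz
    exact ob_trans_le (h.sym t) (ob_trans (ob_trans e3 (e2 v c g1 g3)) (e1 v c c' g1 g2 g3))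
      (ob_pow_mono (h.sym t) hjt le_rfl c' g4) (by omega)
  have e5 := (h.gr t).ob_le (h.sym t) (n := 240 * b + 126) (by omega) p
  rw [show b + (2 * (240 * b + 126) + 5) / 40 = 13 * b + 6 by omega] at e5
  refine (card_le_card e4).trans (e5.trans ((Nat.mul_le_mul_left _ p2).trans ?_))
  rw [← pow_add, show 13 * b + 6 + (9 * b + 4 + s) = 22 * b + 10 + s by ring, pow_add]
  exact Nat.mul_le_mul_left _ (Nat.pow_log_le_self 2 (card_ob_pos (h.sym j).1 a).ne')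

/-- Plan: choose `F s` by `spanN_one`, `Fg` = the triples `(s, q)`, `s ≤ μ`, `q ∈ F s`; then
`tg Fg s = F s` for `s ≤ μ`, and `Nat.log 2 #(ob _ a) ≤ μ`. The sum of `#(F s)` is at most
`2 m (3 b + 2) + 2 m` (geometric tail). -/
theorem spanN {b n0 : ℕ} {W : ℕ → Finset G} (h : Tower b n0 W) (hn0 : 240 * b + 200 ≤ n0)
    (J : ℕ) (X : ℕ → Finset G) (hX : ∀ j < J, X j ⊆ W (j + 1)) (μ : ℕ)
    (hμ : Fintype.card Ω ≤ 2 ^ μ) :
    ∃ Fg ⊆ range (μ + 1) ×ˢ (univ : Finset (Ω × Ω)), #Fg ≤ (6 * b + 6) * Fintype.card Ω ∧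
      (∀ j < J, ∀ x ∈ X j, ∀ a : Ω, NE W b j a (x • a) →
        x • a ∈ cand (W j) (tg Fg (Nat.log 2 #(ob (W j) a))) a) ∧
      ∀ j ≤ J, ∀ a : Ω, #(cand (W j) (tg Fg (Nat.log 2 #(ob (W j) a))) a) ≤
        2 ^ (22 * b + 10) * #(ob (W j) a) := by
  choose F f1 f2 f3 using spanN_one (Ω := Ω) h hn0 J X hX
  set Fg := (range (μ + 1)).biUnion fun s => (F s).image fun q => (s, q) with hFg
  have e1 : ∀ (V : Finset G) (a : Ω), tg Fg (Nat.log 2 #(ob V a)) = F (Nat.log 2 #(ob V a)) := by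
    intro V a
    have e2 : Nat.log 2 #(ob V a) ≤ μ := by
      rw [← Nat.log_pow one_lt_two μ]
      exact Nat.log_mono_right ((card_le_univ _).trans hμ)
    ext q
    simp only [tg, hFg, mem_image, mem_filter, mem_biUnion, mem_range]
    constructor
    · rintro ⟨_, ⟨⟨s, -, q', g1, rfl⟩, g2⟩, rfl⟩
      exact g2 ▸ g1
    · exact fun g => ⟨(_, q), ⟨⟨_, by omega, q, g, rfl⟩, rfl⟩, rfl⟩
  refine ⟨Fg, fun q hq => ?_, ?_, fun j hj x hx a e => ?_, fun j hj a => ?_⟩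
  · obtain ⟨s, g1, g2⟩ := mem_biUnion.mp hq
    obtain ⟨q', -, rfl⟩ := mem_image.mp g2
    exact mem_product.mpr ⟨g1, mem_univ _⟩
  · refine (card_biUnion_le.trans (sum_le_sum fun s _ => card_image_le)).trans ?_
    have key : ∀ n, (∑ s ∈ range (3 * b + 2 + n), #(F s)) * 2 ^ n + 2 * Fintype.card Ω ≤
        (6 * b + 6) * Fintype.card Ω * 2 ^ n := fun n => by
      induction n with
      | zero =>
        have := sum_le_card_nsmul (range (3 * b + 2)) (fun s => #(F s)) (2 * Fintype.card Ω)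
          fun s _ => (Nat.le_mul_of_pos_right _ (by positivity)).trans (f1 s)
        rw [card_range, smul_eq_mul] at this
        simp only [add_zero, pow_zero, mul_one]
        nlinarith
      | succ n ih =>
        have := f1 (3 * b + 2 + n)
        rw [show 3 * b + 2 + n - (3 * b + 1) = n + 1 by omega] at this
        rw [← add_assoc, sum_range_succ, add_mul, pow_succ] at *
        nlinarith
    exact (sum_le_sum_of_subset (range_mono (by omega))).trans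
      (Nat.le_of_mul_le_mul_right ((Nat.le_add_right _ _).trans (key μ)) (by positivity))
  · rw [e1]
    exact f3 _ j hj x hx a e rfl
  · rw [e1]
    exact candN_card h hn0 hj a _ (f2 _)

end Pool.Agent.Work.MP_5dd17b_co.Pm
end

-- merged part: Pool.Agent.Work.MP_5dd17b_co.PmSpanJ
section
/-!
The pairs of one round, for the edges with a jump, and the whole spanner.
-/

set_option autoImplicit false
set_option linter.unusedSectionVars false

namespace Pool.Agent.Work.MP_5dd17b_co.Pm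

open Finset
open scoped Pointwise

variable {G Ω : Type} [Group G] [DecidableEq G] [Fintype G] [MulAction G Ω] [DecidableEq Ω]
  [Fintype Ω]

/-- the orbit set of `a` jumps in round `j` -/
def Jump (W : ℕ → Finset G) (b j : ℕ) (a : Ω) : Prop :=
  2 ^ (2 * b + 1) * #(ob (W j) a) ≤ #(ob (W (j + 1)) a)

instance (W : ℕ → Finset G) (b j : ℕ) (a : Ω) : Decidable (Jump W b j a) := Nat.decLe _ _

/-- Plan: `Gr.ob_near` gives `#(ob (W (j+1)) a) ≤ 2 ^ b * #(ob (W (j+1)) c)`. -/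
lemma jump_of_not_NE {b n0 : ℕ} {W : ℕ → Finset G} (h : Tower b n0 W) (hn0 : 20 ≤ n0) {j : ℕ}
    {a c : Ω} (hc : c ∈ ob (W (j + 1)) a) (hn : ¬ NE W b j a c) : Jump W b j a ∨ Jump W b j c := by
  by_cases ha : #(ob (W (j + 1)) a) ≤ 2 ^ (3 * b + 1) * #(ob (W j) a)
  · right
    have h1 : 2 ^ (3 * b + 1) * #(ob (W j) c) < #(ob (W (j + 1)) a) :=
      not_le.mp fun h2 => hn ⟨ha, h2⟩
    have h2 : #(ob (W (j + 1)) a) ≤ 2 ^ b * #(ob (W (j + 1)) c) :=
      (h.gr (j + 1)).ob_near (h.sym _) hn0 (n := 1) (by omega)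
        (by rw [pow_one]; exact ob_symm (h.sym _) hc)
    have h3 : 2 ^ b * (2 ^ (2 * b + 1) * #(ob (W j) c)) ≤ 2 ^ b * #(ob (W (j + 1)) c) := by
      rw [← mul_assoc, ← pow_add, show b + (2 * b + 1) = 3 * b + 1 by ring]
      exact h1.le.trans h2
    exact Nat.le_of_mul_le_mul_left h3 (Nat.two_pow_pos b)
  · left
    exact (Nat.mul_le_mul_right _ (Nat.pow_le_pow_right two_pos (by omega))).trans (not_le.mp ha).le

lemma PmSpanJ_low_one {b n0 : ℕ} {W : ℕ → Finset G} (h : Tower b n0 W) (l : ℕ) (a : Ω) (J : ℕ) :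
    2 ^ #((range J).filter fun j => Jump W b j a ∧ #(ob (W j) a) < 2 ^ l) ≤ #(ob (W J) a) ∧
      #((range J).filter fun j => Jump W b j a ∧ #(ob (W j) a) < 2 ^ l) ≤ l := by
  induction J with
  | zero =>
    rw [range_zero, filter_empty, card_empty, pow_zero]
    exact ⟨card_ob_pos (h.sym 0).1 a, Nat.zero_le _⟩
  | succ J ih =>
    rw [range_add_one, filter_insert]
    split_ifs with hJ
    · rw [card_insert_of_notMem fun e => notMem_range_self (mem_filter.mp e).1]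
      refine ⟨?_, (Nat.pow_lt_pow_iff_right one_lt_two).mp (ih.1.trans_lt hJ.2)⟩
      refine le_trans ?_ hJ.1
      rw [pow_succ']
      refine Nat.mul_le_mul ?_ ih.1
      exact (pow_one 2).symm.le.trans (Nat.pow_le_pow_right two_pos (by omega))
    · exact ⟨ih.1.trans (card_le_card (ob_mono (h.mono (Nat.le_succ J)) a)), ih.2⟩

/-- Plan: swap the sums; for one point, `min (Nat.log 2 (w j)) l` is monotone in `j`, at most `l`,
and goes up at each counted `j`. -/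
lemma low_count {b n0 : ℕ} {W : ℕ → Finset G} (h : Tower b n0 W) (J l : ℕ) :
    ∑ j ∈ range J, #(univ.filter fun a : Ω => Jump W b j a ∧ #(ob (W j) a) < 2 ^ l) ≤
      l * Fintype.card Ω := by
  have h1 : ∀ a : Ω,
      #((range J).filter fun j => Jump W b j a ∧ #(ob (W j) a) < 2 ^ l) ≤ l :=
    fun a => (PmSpanJ_low_one h l a J).2
  calc ∑ j ∈ range J, #(univ.filter fun a : Ω => Jump W b j a ∧ #(ob (W j) a) < 2 ^ l)
      = ∑ a : Ω, #((range J).filter fun j => Jump W b j a ∧ #(ob (W j) a) < 2 ^ l) := by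
        simp only [card_filter]
        exact sum_comm
    _ ≤ ∑ _a : Ω, l := sum_le_sum fun a _ => h1 a
    _ = l * Fintype.card Ω := by rw [sum_const, card_univ, smul_eq_mul, mul_comm]

/-- the potential of a point -/
noncomputable def PmSpanJ_phi (W : ℕ → Finset G) (b j : ℕ) (γ : Ω) : ℝ :=
  1 / max (#(ob (W j) γ) : ℝ) (2 ^ (5 * b + 4))

lemma PmSpanJ_phi_nonneg (W : ℕ → Finset G) (b j : ℕ) (γ : Ω) : 0 ≤ PmSpanJ_phi W b j γ :=
  one_div_nonneg.mpr (le_max_of_le_right (by positivity))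

lemma PmSpanJ_phi_le (W : ℕ → Finset G) (b j : ℕ) (γ : Ω) :
    PmSpanJ_phi W b j γ ≤ 1 / 2 ^ (5 * b + 4) :=
  one_div_le_one_div_of_le (by positivity) (le_max_right _ _)

lemma PmSpanJ_phi_anti {b n0 : ℕ} {W : ℕ → Finset G} (h : Tower b n0 W) (j : ℕ) (γ : Ω) :
    PmSpanJ_phi W b (j + 1) γ ≤ PmSpanJ_phi W b j γ := by
  refine one_div_le_one_div_of_le (lt_max_of_lt_right (by positivity)) (max_le_max_right _ ?_)
  exact_mod_cast card_le_card (ob_mono (h.mono (Nat.le_succ j)) γ)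

lemma PmSpanJ_phi_drop {b n0 : ℕ} {W : ℕ → Finset G} (h : Tower b n0 W) (hn0 : 20 ≤ n0) {j : ℕ}
    {c γ : Ω} (h1 : Jump W b j c) (h2 : 2 ^ (6 * b + 4) ≤ #(ob (W j) c)) (h3 : γ ∈ ob (W j) c) :
    1 / (2 ^ (b + 1) * (#(ob (W j) c) : ℝ)) ≤ PmSpanJ_phi W b j γ - PmSpanJ_phi W b (j + 1) γ := by
  have hs := h.sym j
  have hs' := h.sym (j + 1)
  have e1 : #(ob (W j) γ) ≤ 2 ^ b * #(ob (W j) c) :=
    (h.gr j).ob_near hs hn0 (n := 1) (by omega) (by rwa [pow_one])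
  have e2 : #(ob (W j) c) ≤ 2 ^ b * #(ob (W j) γ) :=
    (h.gr j).ob_near hs hn0 (n := 1) (by omega) (by rw [pow_one]; exact ob_symm hs h3)
  have e3 : #(ob (W (j + 1)) c) ≤ 2 ^ b * #(ob (W (j + 1)) γ) :=
    (h.gr (j + 1)).ob_near hs' hn0 (n := 1) (by omega)
      (by rw [pow_one]; exact ob_symm hs' (ob_mono (h.mono (Nat.le_succ j)) c h3))
  have e4 : 2 ^ (5 * b + 4) ≤ #(ob (W j) γ) := by
    refine Nat.le_of_mul_le_mul_left ?_ (Nat.two_pow_pos b)
    rw [← pow_add, show b + (5 * b + 4) = 6 * b + 4 by ring]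
    exact h2.trans e2
  have e5 : 2 * #(ob (W j) γ) ≤ #(ob (W (j + 1)) γ) := by
    refine Nat.le_of_mul_le_mul_left ?_ (Nat.two_pow_pos b)
    refine le_trans ?_ (le_trans h1 e3)
    refine (Nat.mul_le_mul_left _ (Nat.mul_le_mul_left _ e1)).trans (le_of_eq ?_)
    ring
  have p1 : (0 : ℝ) < #(ob (W j) γ) := by exact_mod_cast card_ob_pos hs.1 γ
  have r1 : (#(ob (W j) γ) : ℝ) ≤ 2 ^ b * #(ob (W j) c) := by exact_mod_cast e1
  have r4 : (2 : ℝ) ^ (5 * b + 4) ≤ #(ob (W j) γ) := by exact_mod_cast e4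
  have r5 : 2 * (#(ob (W j) γ) : ℝ) ≤ #(ob (W (j + 1)) γ) := by exact_mod_cast e5
  have q1 : PmSpanJ_phi W b j γ = 1 / (#(ob (W j) γ) : ℝ) := by
    rw [PmSpanJ_phi, max_eq_left r4]
  have q2 : PmSpanJ_phi W b (j + 1) γ ≤ 1 / (2 * (#(ob (W j) γ) : ℝ)) :=
    one_div_le_one_div_of_le (by positivity) (le_max_of_le_left r5)
  have q3 : 1 / (2 ^ (b + 1) * (#(ob (W j) c) : ℝ)) ≤ 1 / (2 * (#(ob (W j) γ) : ℝ)) :=
    one_div_le_one_div_of_le (by positivity) (by rw [pow_succ', mul_assoc]; linarith)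
  have q4 : 1 / (#(ob (W j) γ) : ℝ) = 1 / (2 * (#(ob (W j) γ) : ℝ)) + 1 / (2 * (#(ob (W j) γ) : ℝ)) := by
    field_simp
    norm_num
  linarith

lemma PmSpanJ_hi_round {b n0 : ℕ} {W : ℕ → Finset G} (h : Tower b n0 W) (hn0 : 20 ≤ n0) (j : ℕ)
    (C : Finset Ω) (h1 : ∀ c ∈ C, Jump W b j c ∧ 2 ^ (6 * b + 4) ≤ #(ob (W j) c))
    (h2 : ∀ c ∈ C, ∀ c' ∈ C, c ≠ c' → Disjoint (ob (W j) c) (ob (W j) c')) :
    (#C : ℝ) / 2 ^ (b + 1) ≤
      ∑ γ : Ω, PmSpanJ_phi W b j γ - ∑ γ : Ω, PmSpanJ_phi W b (j + 1) γ := by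
  rw [← sum_sub_distrib]
  refine le_trans ?_ (sum_le_sum_of_subset_of_nonneg (subset_univ (C.biUnion fun c => ob (W j) c))
    fun γ _ _ => sub_nonneg.mpr (PmSpanJ_phi_anti h j γ))
  rw [sum_biUnion h2, div_eq_mul_one_div, ← nsmul_eq_mul, ← sum_const]
  refine sum_le_sum fun c hc => ?_
  refine le_trans ?_ (sum_le_sum fun γ hγ => PmSpanJ_phi_drop h hn0 (h1 c hc).1 (h1 c hc).2 hγ)
  have p1 : (0 : ℝ) < #(ob (W j) c) := by exact_mod_cast card_ob_pos (h.sym j).1 c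
  rw [sum_const, nsmul_eq_mul]
  refine le_of_eq ?_
  field_simp

/-- Plan: `θ = 2 ^ (5 b + 4)`, `φ w = 1 / max w θ` (real). For `c ∈ C j` and `γ ∈ ob (W j) c`, by
`Gr.ob_near`: `θ ≤ w j γ ≤ 2 ^ b * w j c` and `2 * w j γ ≤ w (j+1) γ`, so
`φ (w j γ) - φ (w (j+1) γ) ≥ 1 / (2 ^ (b+1) * w j c)`; sum over the chunk, over `c` (disjoint chunks;
the other drops are nonnegative), and telescope in `j`: the total is at most `card Ω / θ`. -/
lemma hi_count {b n0 : ℕ} {W : ℕ → Finset G} (h : Tower b n0 W) (hn0 : 20 ≤ n0) (J : ℕ)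
    (C : ℕ → Finset Ω)
    (h1 : ∀ j < J, ∀ c ∈ C j, Jump W b j c ∧ 2 ^ (6 * b + 4) ≤ #(ob (W j) c))
    (h2 : ∀ j < J, ∀ c ∈ C j, ∀ c' ∈ C j, c ≠ c' → Disjoint (ob (W j) c) (ob (W j) c')) :
    2 ^ (4 * b + 3) * ∑ j ∈ range J, #(C j) ≤ Fintype.card Ω := by
  have h3 : ∀ j ∈ range J, (#(C j) : ℝ) / 2 ^ (b + 1) ≤
      ∑ γ : Ω, PmSpanJ_phi W b j γ - ∑ γ : Ω, PmSpanJ_phi W b (j + 1) γ := fun j hj =>
    PmSpanJ_hi_round h hn0 j (C j) (h1 j (mem_range.mp hj)) (h2 j (mem_range.mp hj))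
  have h4 := sum_le_sum h3
  rw [sum_range_sub' (fun j => ∑ γ : Ω, PmSpanJ_phi W b j γ), ← sum_div] at h4
  have h5 : 0 ≤ ∑ γ : Ω, PmSpanJ_phi W b J γ := sum_nonneg fun γ _ => PmSpanJ_phi_nonneg W b J γ
  have h6 : ∑ γ : Ω, PmSpanJ_phi W b 0 γ ≤ (Fintype.card Ω : ℝ) / 2 ^ (5 * b + 4) := by
    refine (sum_le_sum fun γ _ => PmSpanJ_phi_le W b 0 γ).trans ?_
    rw [sum_const, card_univ, nsmul_eq_mul, mul_one_div]
  have h7 : (∑ j ∈ range J, (#(C j) : ℝ)) / 2 ^ (b + 1) ≤ (Fintype.card Ω : ℝ) / 2 ^ (5 * b + 4) := by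
    linarith
  rw [div_le_div_iff₀ (by positivity) (by positivity),
    show 5 * b + 4 = (4 * b + 3) + (b + 1) by ring, pow_add (2 : ℝ) (4 * b + 3), ← mul_assoc] at h7
  have h8 := le_of_mul_le_mul_right h7 (by positivity)
  rw [mul_comm] at h8
  exact_mod_cast h8

/-- Plan: for `c'` fixed, the chunks `ob (W j) c` of the points `c ∈ ob (W (j+1) ^ 3) c'` of `N` are
disjoint inside `ob (W (j+1) ^ 4) c'`, of size at most `2 ^ b * w (j+1) c'`, and
`w (j+1) c' ≤ 2 ^ b * w (j+1) c < 2 ^ (3 b + 1) * w j c`. -/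
lemma non_count {b n0 : ℕ} {W : ℕ → Finset G} (h : Tower b n0 W) (hn0 : 20 ≤ n0) (j : ℕ)
    (N C : Finset Ω) (h1 : ∀ c ∈ N, ¬ Jump W b j c ∧ ∃ c' ∈ C, c ∈ ob (W (j + 1) ^ 3) c')
    (h2 : ∀ c ∈ N, ∀ c' ∈ N, c ≠ c' → Disjoint (ob (W j) c) (ob (W j) c')) :
    #N ≤ 2 ^ (4 * b + 1) * #C := by
  have h3 : ∀ c' ∈ C, #(N.filter fun c => c ∈ ob (W (j + 1) ^ 3) c') ≤ 2 ^ (4 * b + 1) := by
    intro c' _
    set M := N.filter fun c => c ∈ ob (W (j + 1) ^ 3) c' with hM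
    have hs := h.sym (j + 1)
    have e1 : ∑ c ∈ M, #(ob (W j) c) ≤ #(ob (W (j + 1) ^ 4) c') := by
      refine pack_sum M (fun c => ob (W j) c) _ (fun c hc d hd => h2 c (mem_filter.mp hc).1 d
        (mem_filter.mp hd).1) fun c hc => ?_
      refine (ob_mono (h.mono (Nat.le_succ j)) c).trans ?_
      rw [← ob_one_pow (W (j + 1)) c]
      exact ob_sub (mem_filter.mp hc).2
    have e2 := (h.gr (j + 1)).ob_le hs (n := 4) (by omega) c'
    rw [show (2 * 4 + 5) / 40 = 0 by norm_num, add_zero] at e2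
    have e3 : ∀ c ∈ M, #(ob (W (j + 1)) c') ≤ 2 ^ (3 * b + 1) * #(ob (W j) c) := by
      intro c hc
      have f1 := (h.gr (j + 1)).ob_near hs hn0 (n := 3) (by omega)
        (ob_symm (hs.pow 3) (mem_filter.mp hc).2)
      have f2 : #(ob (W (j + 1)) c) ≤ 2 ^ (2 * b + 1) * #(ob (W j) c) :=
        (not_le.mp (h1 c (mem_filter.mp hc).1).1).le
      refine f1.trans ((Nat.mul_le_mul_left _ f2).trans (le_of_eq ?_))
      rw [← mul_assoc, ← pow_add, show b + (2 * b + 1) = 3 * b + 1 by ring]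
    have e4 := sum_le_sum e3
    rw [sum_const, smul_eq_mul, ← mul_sum] at e4
    have e5 : #M * #(ob (W (j + 1)) c') ≤ 2 ^ (4 * b + 1) * #(ob (W (j + 1)) c') := by
      refine e4.trans ((Nat.mul_le_mul_left _ (e1.trans e2)).trans (le_of_eq ?_))
      rw [← mul_assoc, ← pow_add, show 3 * b + 1 + b = 4 * b + 1 by ring]
    exact Nat.le_of_mul_le_mul_right e5 (card_ob_pos hs.1 c')
  have h4 : N ⊆ C.biUnion fun c' => N.filter fun c => c ∈ ob (W (j + 1) ^ 3) c' := by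
    intro c hc
    obtain ⟨c', e1, e2⟩ := (h1 c hc).2
    exact mem_biUnion.mpr ⟨c', e1, mem_filter.mpr ⟨hc, e2⟩⟩
  refine (card_le_card h4).trans ((card_biUnion_le_card_mul _ _ _ h3).trans ?_)
  rw [mul_comm]

/-- the pairs for the edges with an end in `L` -/
lemma PmSpanJ_near {U : Finset G} (hU : Sym1 U) (X : Finset G) (L : Finset Ω) :
    ∃ F : Finset (Ω × Ω), #F ≤ 4 * #X * #L ∧ (∀ q ∈ F, q.2 = q.1 ∨ q.2 ∈ ob X q.1) ∧
      ∀ x ∈ X, ∀ a : Ω, a ∈ L ∨ x • a ∈ L → x • a ∈ cand U F a := by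
  set D : Finset (Ω × Ω) := (X ×ˢ L).image (fun q => (q.2, q.1 • q.2)) ∪
    (X ×ˢ L).image (fun q => (q.1⁻¹ • q.2, q.2)) with hD
  have h1 : #D ≤ #X * #L + #X * #L :=
    (card_union_le _ _).trans (Nat.add_le_add (card_image_le.trans (card_product _ _).le)
      (card_image_le.trans (card_product _ _).le))
  refine ⟨D ∪ D.image fun q => (q.1, q.1), ?_, ?_, ?_⟩
  · refine (card_union_le _ _).trans ((Nat.add_le_add h1 (card_image_le.trans h1)).trans
      (le_of_eq ?_))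
    ring
  · intro q hq
    rcases mem_union.mp hq with e | e
    · right
      rcases mem_union.mp e with e | e
      · obtain ⟨z, e1, rfl⟩ := mem_image.mp e
        exact mem_ob.mpr ⟨z.1, (mem_product.mp e1).1, rfl⟩
      · obtain ⟨z, e1, rfl⟩ := mem_image.mp e
        exact mem_ob.mpr ⟨z.1, (mem_product.mp e1).1, smul_inv_smul _ _⟩
    · obtain ⟨z, -, rfl⟩ := mem_image.mp e
      exact Or.inl rfl
  · intro x hx a ha
    have h2 : (a, x • a) ∈ D := by
      rcases ha with e | e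
      · exact mem_union_left _ (mem_image.mpr ⟨(x, a), mem_product.mpr ⟨hx, e⟩, rfl⟩)
      · refine mem_union_right _ (mem_image.mpr ⟨(x, x • a), mem_product.mpr ⟨hx, e⟩, ?_⟩)
        rw [inv_smul_smul]
    exact mem_cand.mpr ⟨a, a, x • a, mem_union_right _ (mem_image.mpr ⟨_, h2, rfl⟩),
      mem_union_left _ h2, self_mem_ob (hU.pow 2).1 _, self_mem_ob (hU.pow 2).1 _⟩

/-- the edges with a jump and no low end -/
def PmSpanJ_E (W : ℕ → Finset G) (b j : ℕ) (X : Finset G) (a c : Ω) : Prop :=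
  c ∈ ob X a ∧ ¬ NE W b j a c ∧ (Jump W b j a → 2 ^ (6 * b + 4) ≤ #(ob (W j) a)) ∧
    (Jump W b j c → 2 ^ (6 * b + 4) ≤ #(ob (W j) c))

/-- the pairs for the edges with no low end -/
lemma PmSpanJ_far {b n0 : ℕ} {W : ℕ → Finset G} (h : Tower b n0 W) (j p : ℕ)
    (hn0 : 20 * (b + p) + 30 ≤ n0) (hp : #(W (j + 1)) ≤ 2 ^ p * #(W j)) (X : Finset G)
    (hX : X ⊆ W (j + 1)) :
    ∃ (F : Finset (Ω × Ω)) (C : Finset Ω),
      (∀ c ∈ C, Jump W b j c ∧ 2 ^ (6 * b + 4) ≤ #(ob (W j) c)) ∧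
      (∀ c ∈ C, ∀ c' ∈ C, c ≠ c' → Disjoint (ob (W j) c) (ob (W j) c')) ∧
      #F ≤ 2 ^ (4 * b + 3) * #C ∧
      (∀ q ∈ F, q.2 ∈ ob (W (j + 1) ^ (10 * (b + p + 1))) q.1) ∧
      ∀ x ∈ X, ∀ a : Ω, ¬ NE W b j a (x • a) →
        (Jump W b j a → 2 ^ (6 * b + 4) ≤ #(ob (W j) a)) →
        (Jump W b j (x • a) → 2 ^ (6 * b + 4) ≤ #(ob (W j) (x • a))) → x • a ∈ cand (W j) F a := by
  classical
  have hs := h.sym j
  have hs' := h.sym (j + 1)
  have hWV : W j ⊆ W (j + 1) := h.mono (Nat.le_succ j)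
  set P : Finset Ω := univ.filter fun a => ∃ c, PmSpanJ_E W b j X a c ∨ PmSpanJ_E W b j X c a
    with hP
  have hPm : ∀ a, a ∈ P ↔ ∃ c, PmSpanJ_E W b j X a c ∨ PmSpanJ_E W b j X c a := fun a => by
    rw [hP, mem_filter, and_iff_right (mem_univ a)]
  obtain ⟨C0, k1, k2, k3⟩ := pack P (fun a => ob (W j) a) (fun a => if Jump W b j a then 0 else 1)
    fun a _ => ⟨a, self_mem_ob hs.1 a⟩
  have hcov : ∀ a ∈ P, ∃ u ∈ C0, u ∈ ob (W j ^ 2) a ∧ (Jump W b j a → Jump W b j u) := by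
    intro a ha
    obtain ⟨u, u1, u2, u3⟩ := k3 a ha
    refine ⟨u, u1, mem_ob_two hs Subset.rfl Subset.rfl u3, fun hj => ?_⟩
    by_contra hu
    rw [if_neg hu, if_pos hj] at u2
    omega
  have hN : #(C0.filter fun c => ¬ Jump W b j c) ≤
      2 ^ (4 * b + 1) * #(C0.filter fun c => Jump W b j c) := by
    refine non_count h (by omega) j _ _ (fun c hc => ?_) fun c hc d hd =>
      k2 c (mem_filter.mp hc).1 d (mem_filter.mp hd).1
    obtain ⟨c1, c2⟩ := mem_filter.mp hc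
    refine ⟨c2, ?_⟩
    obtain ⟨d, hd⟩ := (hPm c).mp (k1 c1)
    have hdP : d ∈ P := (hPm d).mpr ⟨c, hd.symm⟩
    have hcd : c ∈ ob (W (j + 1)) d ∧ Jump W b j d := by
      rcases hd with e | e
      · have f := ob_mono hX c e.1
        exact ⟨ob_symm hs' f, (jump_of_not_NE h (by omega) f e.2.1).resolve_left c2⟩
      · have f := ob_mono hX d e.1
        exact ⟨f, (jump_of_not_NE h (by omega) f e.2.1).resolve_right c2⟩
    obtain ⟨u, u1, u2, u3⟩ := hcov d hdP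
    refine ⟨u, mem_filter.mpr ⟨u1, u3 hcd.2⟩, ?_⟩
    have f1 : d ∈ ob (W (j + 1) ^ 2) u :=
      ob_symm (hs'.pow 2) (ob_pow_mono hs' hWV le_rfl d u2)
    have f2 : c ∈ ob (W (j + 1) ^ 1) d := by rw [pow_one]; exact hcd.1
    exact (ob_trans f1 f2 :)
  have hn : #(W (j + 1) ^ (10 * (2 * (b + p + 1)) + 3)) < 2 ^ (2 * (b + p + 1)) * #(W j) := by
    have e1 := h.gr (j + 1) (10 * (2 * (b + p + 1)) + 3) (by omega)
    rw [show (2 * (10 * (2 * (b + p + 1)) + 3) + 1) / 40 = b + p + 1 by omega] at e1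
    refine (e1.trans (Nat.mul_le_mul_left _ hp)).trans_lt ?_
    rw [← mul_assoc, ← pow_add]
    exact Nat.mul_lt_mul_of_pos_right (Nat.pow_lt_pow_right one_lt_two (by omega)) hs.card_pos
  obtain ⟨F, f1, f2, f3⟩ := round_carve hs hs' hWV C0 k2 (PmSpanJ_E W b j X) (fun a c e => by
    obtain ⟨u, u1, u2, -⟩ := hcov a ((hPm a).mpr ⟨c, Or.inl e⟩)
    obtain ⟨v, v1, v2, -⟩ := hcov c ((hPm c).mpr ⟨a, Or.inr e⟩)
    exact ⟨ob_mono hX a e.1, ⟨u, u1, u2⟩, v, v1, v2⟩) _ hn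
  refine ⟨F, C0.filter fun c => Jump W b j c, fun c hc => ?_, fun c hc d hd =>
    k2 c (mem_filter.mp hc).1 d (mem_filter.mp hd).1, ?_, fun q hq => ?_,
    fun x hx a e1 e2 e3 => f3 a _ ⟨mem_ob.mpr ⟨x, hx, rfl⟩, e1, e2, e3⟩⟩
  · obtain ⟨c1, c2⟩ := mem_filter.mp hc
    obtain ⟨d, hd⟩ := (hPm c).mp (k1 c1)
    exact ⟨c2, hd.elim (fun e => e.2.2.1 c2) fun e => e.2.2.2 c2⟩
  · have e1 := card_filter_add_card_filter_not (s := C0) fun c => Jump W b j c
    have e2 : #(C0.filter fun c => Jump W b j c) ≤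
        2 ^ (4 * b + 1) * #(C0.filter fun c => Jump W b j c) :=
      Nat.le_mul_of_pos_left _ (Nat.two_pow_pos _)
    rw [show 4 * b + 3 = 2 + (4 * b + 1) by ring, pow_add, mul_assoc]
    omega
  · rw [show 10 * (b + p + 1) = 5 * (2 * (b + p + 1)) by ring]
    exact f2 q hq

/-- One round. Plan: `Low` = jumping points with `w j < 2 ^ (6 b + 4)`. `E a c`: `c = x • a` for an
`x ∈ X`, not `NE`, and neither end in `Low`. `pack` the chunks `ob (W j) p` of the ends of `E`, with key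
0 for jumping points and 1 otherwise; `C` the jumping centres; `non_count` for the others;
`round_carve` with `n = 2 (b + p + 1)`. Add the pairs `(a, a)`, `(a, x • a)` for the edges with an end
in `Low` (at most `2 #X #Low` edges). -/
lemma spanJ_round {b n0 : ℕ} {W : ℕ → Finset G} (h : Tower b n0 W) (j p : ℕ)
    (hn0 : 20 * (b + p) + 30 ≤ n0) (hp : #(W (j + 1)) ≤ 2 ^ p * #(W j)) (X : Finset G)
    (hX : X ⊆ W (j + 1)) :
    ∃ (F : Finset (Ω × Ω)) (C : Finset Ω),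
      (∀ c ∈ C, Jump W b j c ∧ 2 ^ (6 * b + 4) ≤ #(ob (W j) c)) ∧
      (∀ c ∈ C, ∀ c' ∈ C, c ≠ c' → Disjoint (ob (W j) c) (ob (W j) c')) ∧
      #F ≤ 2 ^ (4 * b + 3) * #C +
        4 * #X * #(univ.filter fun a : Ω => Jump W b j a ∧ #(ob (W j) a) < 2 ^ (6 * b + 4)) ∧
      (∀ q ∈ F, q.2 ∈ ob (W (j + 1) ^ (10 * (b + p + 1))) q.1) ∧
      ∀ x ∈ X, ∀ a : Ω, ¬ NE W b j a (x • a) → x • a ∈ cand (W j) F a := by
  set Low := univ.filter fun a : Ω => Jump W b j a ∧ #(ob (W j) a) < 2 ^ (6 * b + 4) with hLow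
  obtain ⟨F1, C, c1, c2, c3, c4, c5⟩ := PmSpanJ_far (Ω := Ω) h j p hn0 hp X hX
  obtain ⟨F2, d1, d2, d3⟩ := PmSpanJ_near (h.sym j) X Low
  refine ⟨F1 ∪ F2, C, c1, c2, (card_union_le _ _).trans (Nat.add_le_add c3 d1), ?_, ?_⟩
  · intro q hq
    rcases mem_union.mp hq with e | e
    · exact c4 q e
    · have hs := h.sym (j + 1)
      refine ob_pow_mono hs Subset.rfl (i := 1) (by omega) _ ?_
      rw [pow_one]
      rcases d2 q e with e' | e'
      · rw [e']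
        exact self_mem_ob hs.1 _
      · exact ob_mono hX _ e'
  · intro x hx a hne
    by_cases hl : a ∈ Low ∨ x • a ∈ Low
    · exact cand_mono subset_union_right a (d3 x hx a hl)
    · rw [not_or] at hl
      refine cand_mono subset_union_left a (c5 x hx a hne ?_ ?_)
      · simpa [hLow] using hl.1
      · simpa [hLow] using hl.2

/-- Plan: `spanN`, `spanJ_round` for each `j`, `hi_count`, `low_count`; `cand_sub` and `os_pow` give
`#(cand (W j) (F j) a) ≤ 2 ^ (2 b + 2 p + 1) * #(ob (W j) a)`. -/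
theorem span {b n0 : ℕ} {W : ℕ → Finset G} (h : Tower b n0 W) (hn0 : 240 * b + 200 ≤ n0)
    (J r : ℕ) (X : ℕ → Finset G) (hX : ∀ j < J, X j ⊆ W (j + 1) ∧ #(X j) ≤ r) (p : ℕ → ℕ)
    (hp : ∀ j < J, 20 * (b + p j) + 30 ≤ n0 ∧ #(W (j + 1)) ≤ 2 ^ p j * #(W j)) (μ : ℕ)
    (hμ : Fintype.card Ω ≤ 2 ^ μ) :
    ∃ Fg ⊆ range (μ + 1) ×ˢ (univ : Finset (Ω × Ω)), #Fg ≤ (6 * b + 6) * Fintype.card Ω ∧
      ∃ F : ℕ → Finset (Ω × Ω),
        ∑ j ∈ range J, #(F j) ≤ (1 + 4 * r * (6 * b + 4)) * Fintype.card Ω ∧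
        ∀ j < J, (∀ x ∈ X j, ∀ a : Ω, x • a ∈ cdAll Fg (W j) (F j) a) ∧
          ∀ a : Ω, #(cdAll Fg (W j) (F j) a) ≤ 2 ^ (22 * b + 2 * p j + 11) * #(ob (W j) a) := by
  obtain ⟨Fg, g1, g2, g3, g4⟩ := spanN (Ω := Ω) h hn0 J X (fun j hj => (hX j hj).1) μ hμ
  have hr : ∀ j, ∃ (F : Finset (Ω × Ω)) (C : Finset Ω), j < J →
      (∀ c ∈ C, Jump W b j c ∧ 2 ^ (6 * b + 4) ≤ #(ob (W j) c)) ∧
      (∀ c ∈ C, ∀ c' ∈ C, c ≠ c' → Disjoint (ob (W j) c) (ob (W j) c')) ∧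
      #F ≤ 2 ^ (4 * b + 3) * #C +
        4 * #(X j) * #(univ.filter fun a : Ω => Jump W b j a ∧ #(ob (W j) a) < 2 ^ (6 * b + 4)) ∧
      (∀ q ∈ F, q.2 ∈ ob (W (j + 1) ^ (10 * (b + p j + 1))) q.1) ∧
      ∀ x ∈ X j, ∀ a : Ω, ¬ NE W b j a (x • a) → x • a ∈ cand (W j) F a := by
    intro j
    by_cases hj : j < J
    · obtain ⟨F, C, hFC⟩ := spanJ_round (Ω := Ω) h j (p j) (hp j hj).1 (hp j hj).2 (X j) (hX j hj).1
      exact ⟨F, C, fun _ => hFC⟩
    · exact ⟨∅, ∅, fun hj' => absurd hj' hj⟩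
  choose F C hFC using hr
  refine ⟨Fg, g1, g2, F, ?_, fun j hj => ⟨fun x hx a => ?_, fun a => ?_⟩⟩
  · have e1 := hi_count h (by omega) J C (fun j hj => (hFC j hj).1) fun j hj => (hFC j hj).2.1
    have e2 := low_count (Ω := Ω) h J (6 * b + 4)
    have e3 : ∀ j ∈ range J, #(F j) ≤ 2 ^ (4 * b + 3) * #(C j) +
        4 * r * #(univ.filter fun a : Ω => Jump W b j a ∧ #(ob (W j) a) < 2 ^ (6 * b + 4)) :=
      fun j hj => (hFC j (mem_range.mp hj)).2.2.1.trans (Nat.add_le_add_left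
        (Nat.mul_le_mul_right _ (Nat.mul_le_mul_left _ (hX j (mem_range.mp hj)).2)) _)
    have e4 := sum_le_sum e3
    rw [sum_add_distrib, ← mul_sum, ← mul_sum] at e4
    refine e4.trans ((Nat.add_le_add e1 (Nat.mul_le_mul_left _ e2)).trans (le_of_eq ?_))
    ring
  · by_cases hne : NE W b j a (x • a)
    · exact mem_union_left _ (g3 j hj x hx a hne)
    · exact mem_union_right _ ((hFC j hj).2.2.2.2 x hx a hne)
  · have hWV : W j ⊆ W (j + 1) := h.mono (Nat.le_succ j)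
    have e1 := card_le_card (cand_sub (h.sym (j + 1)) hWV (hFC j hj).2.2.2.1 a)
    have e2 := os_pow (h.sym j) hWV (2 * (10 * (b + p j + 1)) + 4) a
    have e3 := h.gr (j + 1) (2 * (10 * (b + p j + 1)) + 4 + 2) (by have := (hp j hj).1; omega)
    rw [show (2 * (2 * (10 * (b + p j + 1)) + 4 + 2) + 1) / 40 = b + p j + 1 by omega] at e3
    have e4 : #(ob (W (j + 1) ^ (2 * (10 * (b + p j + 1)) + 4)) a) * #(W j) ≤
        2 ^ (2 * b + 2 * p j + 1) * #(ob (W j) a) * #(W j) := by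
      refine e2.trans ((Nat.mul_le_mul_right _ (e3.trans
        (Nat.mul_le_mul_left _ (hp j hj).2))).trans (le_of_eq ?_))
      ring
    have e5 := e1.trans (Nat.le_of_mul_le_mul_right e4 (h.sym j).card_pos)
    have e6 : 2 ^ (22 * b + 10) + 2 ^ (2 * b + 2 * p j + 1) ≤ 2 ^ (22 * b + 2 * p j + 11) := by
      rw [show 22 * b + 2 * p j + 11 = 22 * b + 2 * p j + 10 + 1 by ring,
        pow_succ 2 (22 * b + 2 * p j + 10), mul_two]
      exact Nat.add_le_add (Nat.pow_le_pow_right two_pos (by omega))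
        (Nat.pow_le_pow_right two_pos (by omega))
    refine (card_union_le _ _).trans ((Nat.add_le_add (g4 j hj.le a) e5).trans ?_)
    rw [← add_mul]
    exact Nat.mul_le_mul_right _ e6

end Pool.Agent.Work.MP_5dd17b_co.Pm
end

-- merged part: Pool.Agent.Work.MP_5dd17b_co.PmChain
section
/-!
Closed sets, cubes, and the chain of closed sets inside `T ^ 2`.
-/

set_option autoImplicit false
set_option linter.unusedSectionVars false

namespace Pool.Agent.Work.MP_5dd17b_co.Pm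

open Finset
open scoped Pointwise

variable {G : Type} [Group G] [DecidableEq G] [Fintype G]

/-- slow growth of all powers -/
def Slow (b : ℕ) (T : Finset G) : Prop := Sym1 T ∧ ∀ n, #(T ^ n) ≤ 2 ^ (b + n / 40) * #T

lemma Slow.gr_sq {b : ℕ} {T : Finset G} (h : Slow b T) (n0 : ℕ) : Gr b n0 (T ^ 2) := fun n _ => by
  rw [← pow_mul]
  refine (h.2 _).trans (Nat.mul_le_mul (Nat.pow_le_pow_right two_pos (by omega)) (card_le_card ?_))
  simpa using h.1.pow_mono Subset.rfl (show 1 ≤ 2 by norm_num)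

/-- Plan: suppose `2 ^ (b + (2 n + 1) / 40) * #W < #(W ^ n)`. Double counting of pairs `(w, t)` in
`W ^ n ×ˢ T` through `z = w * t⁻¹ ∈ T ^ (2 n + 1)` gives `z` with more than `#W` elements `w` of
`W ^ n` with `z⁻¹ * w ∈ T`; for one of them `f`, all `f⁻¹ * w` lie in `T ^ 2` and in
`W ^ (2 n) ⊆ W ^ (2 n0)`, so in `W`. -/
lemma gr_of_closed {b n0 : ℕ} {T W : Finset G} (hT : Slow b T) (hW : Sym1 W) (hWT : W ⊆ T ^ 2)
    (hc : ∀ y ∈ W ^ (2 * n0), y ∈ T ^ 2 → y ∈ W) : Gr b n0 W := by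
  intro n hn
  have h1 : #((W ^ n) ×ˢ T) ≤ #W * #(T ^ (2 * n + 1)) := by
    refine card_le_mul_card_image_of_maps_to (f := fun q : G × G => q.1 * q.2⁻¹) (fun q hq => ?_) _
      fun z _ => ?_
    · obtain ⟨q1, q2⟩ := mem_product.1 hq
      rw [pow_succ, pow_mul]
      exact mul_mem_mul (pow_subset_pow_left hWT q1) (hT.1.inv_mem q2)
    · rcases (((W ^ n) ×ˢ T).filter fun q : G × G => q.1 * q.2⁻¹ = z).eq_empty_or_nonempty with e | e
      · rw [e]
        exact Nat.zero_le _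
      obtain ⟨f, hf⟩ := e
      obtain ⟨f1, f2⟩ := mem_filter.1 hf
      obtain ⟨f3, f4⟩ := mem_product.1 f1
      refine card_le_card_of_injOn (fun q => f.1⁻¹ * q.1) (fun q hq => ?_) fun q hq q' hq' e => ?_
      · obtain ⟨q0, q2⟩ := mem_filter.1 (mem_coe.1 hq)
        obtain ⟨q3, q4⟩ := mem_product.1 q0
        refine mem_coe.2 (hc _ (hW.pow_mono Subset.rfl (show n + n ≤ 2 * n0 by omega) ?_) ?_)
        · rw [pow_add]
          exact mul_mem_mul ((hW.pow n).inv_mem f3) q3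
        · have e : f.1⁻¹ * q.1 = f.2⁻¹ * q.2 := by
            rw [mul_inv_eq_iff_eq_mul.1 f2, mul_inv_eq_iff_eq_mul.1 q2]
            group
          change f.1⁻¹ * q.1 ∈ T ^ 2
          rw [e, sq]
          exact mul_mem_mul (hT.1.inv_mem f4) q4
      · have e1 : q.1 = q'.1 := mul_left_cancel e
        have e2 := (mem_filter.1 (mem_coe.1 hq)).2.trans (mem_filter.1 (mem_coe.1 hq')).2.symm
        rw [e1] at e2
        exact Prod.ext e1 (inv_injective (mul_left_cancel e2))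
  rw [card_product] at h1
  have h2 := h1.trans (Nat.mul_le_mul_left _ (hT.2 _))
  rw [← mul_assoc, mul_comm #W] at h2
  exact Nat.le_of_mul_le_mul_right h2 hT.1.card_pos

/-- Plan: strong induction on `cap - #U`. -/
lemma closure (n0 cap : ℕ) {T U : Finset G} (hT : Sym1 T) (hU : Sym1 U) (hUT : U ⊆ T ^ 2) :
    ∃ U', Relation.ReflTransGen (FreeStep n0 cap) U U' ∧ U ⊆ U' ∧ Sym1 U' ∧ U' ⊆ T ^ 2 ∧
      #U' ≤ max #U (cap + 1) ∧ (cap ≤ #U' ∨ ∀ y ∈ U' ^ (2 * n0), y ∈ T ^ 2 → y ∈ U') := by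
  induction e : cap - #U using Nat.strong_induction_on generalizing U with
  | _ k ih =>
    by_cases c : cap ≤ #U ∨ ∀ y ∈ U ^ (2 * n0), y ∈ T ^ 2 → y ∈ U
    · exact ⟨U, Relation.ReflTransGen.refl, Subset.rfl, hU, hUT, le_max_left _ _, c⟩
    push Not at c
    obtain ⟨c1, y, y1, y2, y3⟩ := c
    have s1 : U ⊆ insert y (insert y⁻¹ U) := (subset_insert _ _).trans (subset_insert _ _)
    have s2 : #U < #(insert y (insert y⁻¹ U)) :=
      card_lt_card ⟨s1, fun h => y3 (h (mem_insert_self _ _))⟩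
    have s3 : #(insert y (insert y⁻¹ U)) ≤ #U + 1 + 1 :=
      (card_insert_le _ _).trans (Nat.succ_le_succ (card_insert_le _ _))
    obtain ⟨U', h1, h2, h3, h4, h5, h6⟩ := ih _ (by omega) (U := insert y (insert y⁻¹ U))
      ⟨s1 hU.1, by rw [inv_insert, inv_insert, inv_inv, hU.2, insert_comm]⟩
      (insert_subset y2 (insert_subset ((hT.pow 2).inv_mem y2) hUT)) rfl
    exact ⟨U', h1.head ⟨c1, y, y1, y3, rfl⟩, s1.trans h2, h3, h4, by omega, h6⟩

lemma PmChain_add {W : Finset G} (hW : Sym1 W) (X : Finset G) : Sym1 (W ∪ X ∪ X⁻¹) :=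
  ⟨mem_union_left _ (mem_union_left _ hW.1), by
    ext z
    have : z⁻¹ ∈ W ↔ z ∈ W := ⟨fun h => by simpa using hW.inv_mem h, hW.inv_mem⟩
    simp only [mem_inv', mem_union, inv_inv, this]
    tauto⟩

/-- Plan: induction on `r` with a set `P ⊆ (W ∪ X ∪ X⁻¹) ^ (r + 1)` of size `2 ^ r * #W`; if no
`x ∈ T` has `P` disjoint from `P * {x}`, then `T ⊆ P⁻¹ * P`. -/
lemma cube {T W : Finset G} (hW : Sym1 W) (r : ℕ) :
    ∃ X ⊆ T, #X ≤ r ∧ (T ⊆ (W ∪ X ∪ X⁻¹) ^ (2 * r + 2) ∨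
      2 ^ r * #W ≤ #((W ∪ X ∪ X⁻¹) ^ (r + 1))) := by
  suffices H : ∃ X ⊆ T, #X ≤ r ∧ (T ⊆ (W ∪ X ∪ X⁻¹) ^ (2 * r + 2) ∨
      ∃ P ⊆ (W ∪ X ∪ X⁻¹) ^ (r + 1), #P = 2 ^ r * #W) by
    obtain ⟨X, h1, h2, h3⟩ := H
    exact ⟨X, h1, h2, h3.imp_right fun ⟨P, p1, p2⟩ => p2.ge.trans (card_le_card p1)⟩
  induction r with
  | zero => exact ⟨∅, empty_subset _, le_rfl, Or.inr ⟨W, by simp, by simp⟩⟩
  | succ r ih =>
    obtain ⟨X, h1, h2, h3 | ⟨P, p1, p2⟩⟩ := ih
    · exact ⟨X, h1, by omega, Or.inl (h3.trans ((PmChain_add hW X).pow_mono Subset.rfl (by omega)))⟩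
    by_cases c : ∃ x ∈ T, Disjoint P (P.image (· * x))
    · obtain ⟨x, x1, x2⟩ := c
      have s : W ∪ X ∪ X⁻¹ ⊆ W ∪ insert x X ∪ (insert x X)⁻¹ :=
        union_subset_union (union_subset_union_right (subset_insert _ _))
          (inv_subset_inv (subset_insert _ _))
      refine ⟨insert x X, insert_subset x1 h1, (card_insert_le _ _).trans (by omega),
        Or.inr ⟨P ∪ P.image (· * x), union_subset
          (p1.trans ((PmChain_add hW _).pow_mono s (by omega))) fun z hz => ?_, ?_⟩⟩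
      · obtain ⟨w, hw, rfl⟩ := mem_image.1 hz
        rw [pow_succ]
        exact mul_mem_mul (pow_subset_pow_left s (p1 hw))
          (mem_union_left _ (mem_union_right _ (mem_insert_self _ _)))
      · rw [card_union_of_disjoint x2, card_image_of_injective _ (mul_left_injective x), p2]
        ring
    · refine ⟨X, h1, by omega, Or.inl fun x hx => ?_⟩
      obtain ⟨z, z1, z2⟩ := not_disjoint_iff.1 fun h => c ⟨x, hx, h⟩
      obtain ⟨w, hw, rfl⟩ := mem_image.1 z2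
      refine (PmChain_add hW X).pow_mono Subset.rfl (show r + 1 + (r + 1) ≤ _ by omega) ?_
      rw [pow_add, ← inv_mul_cancel_left w x]
      exact mul_mem_mul (((PmChain_add hW X).pow _).inv_mem (p1 hw)) (p1 z1)

lemma Sym1.add {W : Finset G} (hW : Sym1 W) (X : Finset G) : Sym1 (W ∪ X ∪ X⁻¹) :=
  ⟨mem_union_left _ (mem_union_left _ hW.1), by
    ext z
    have : z⁻¹ ∈ W ↔ z ∈ W := ⟨fun h => by simpa using hW.inv_mem h, hW.inv_mem⟩
    simp only [mem_inv', mem_union, inv_inv, this]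
    tauto⟩

/-- a chain of closed sets -/
structure Chain (T : Finset G) (b n0 cap J : ℕ) (W X : ℕ → Finset G) : Prop where
  zero : W 0 = {1}
  mono : Monotone W
  sym : ∀ j, Sym1 (W j)
  gr : ∀ j, Gr b n0 (W j)
  sub : ∀ j, W j ⊆ T ^ 2
  lt : ∀ j, #(W j) < cap
  xsub : ∀ j < J, X j ⊆ W (j + 1)
  xcard : ∀ j < J, #(X j) ≤ 3 * b
  grow : ∀ j < J, 2 ^ b * #(W j) ≤ #(W (j + 1))
  free : ∀ j < J, Relation.ReflTransGen (FreeStep n0 cap) (W j ∪ X j ∪ (X j)⁻¹) (W (j + 1))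

lemma PmChain_sub {T W X : Finset G} (hT : Sym1 T) (hW : W ⊆ T ^ 2) (hX : X ⊆ T) :
    W ∪ X ∪ X⁻¹ ⊆ T ^ 2 := by
  have h : T ⊆ T ^ 2 := by simpa using hT.pow_mono Subset.rfl (show 1 ≤ 2 by norm_num)
  exact union_subset (union_subset hW (hX.trans h)) ((hT.2 ▸ inv_subset_inv hX).trans h)

lemma PmChain_len {T : Finset G} {b n0 cap J : ℕ} {W X : ℕ → Finset G}
    (h : Chain T b n0 cap J W X) (hb : 1 ≤ b) : ∀ i ≤ J, 2 ^ i ≤ #(W i) := by
  intro i hi
  induction i with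
  | zero => exact (h.sym 0).card_pos
  | succ i ih =>
    refine le_trans ?_ (h.grow i hi)
    rw [pow_succ']
    exact Nat.mul_le_mul (Nat.le_self_pow (by omega) 2) (ih (by omega))

lemma PmChain_ext {T : Finset G} {b n0 cap J : ℕ} {W X : ℕ → Finset G}
    (h : Chain T b n0 cap J W X) {X1 U : Finset G} (h1 : #X1 ≤ 3 * b)
    (h2 : Relation.ReflTransGen (FreeStep n0 cap) (W J ∪ X1 ∪ X1⁻¹) U) (h3 : W J ∪ X1 ∪ X1⁻¹ ⊆ U)
    (h4 : Sym1 U) (h5 : U ⊆ T ^ 2) (h6 : #U < cap) (h7 : Gr b n0 U) (h8 : 2 ^ b * #(W J) ≤ #U) :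
    Chain T b n0 cap (J + 1) (fun j => if j ≤ J then W j else U)
      fun j => if j < J then X j else X1 := by
  have key : ∀ P : Finset G → Prop, (∀ j, P (W j)) → P U → ∀ j, P (if j ≤ J then W j else U) :=
    fun P a b j => by split_ifs; exacts [a j, b]
  have st : ∀ P : Finset G → Finset G → Finset G → Prop,
      (∀ j < J, P (W j) (X j) (W (j + 1))) → P (W J) X1 U → ∀ j < J + 1,
      P (if j ≤ J then W j else U) (if j < J then X j else X1)
        (if j + 1 ≤ J then W (j + 1) else U) := fun P a b j hj => by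
    rw [if_pos (Nat.le_of_lt_succ hj)]
    by_cases c : j < J
    · rw [if_pos c, if_pos (Nat.succ_le_of_lt c)]
      exact a j c
    · rw [if_neg c, if_neg (show ¬ j + 1 ≤ J from c), show j = J by omega]
      exact b
  refine ⟨(if_pos (Nat.zero_le _)).trans h.zero, fun i j hij => ?_, key _ h.sym h4, key _ h.gr h7,
    key (· ⊆ T ^ 2) h.sub h5, key (#· < cap) h.lt h6,
    st (fun _ x w => x ⊆ w) h.xsub ((subset_union_right.trans subset_union_left).trans h3),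
    st (fun _ x _ => #x ≤ 3 * b) h.xcard h1, st (fun v _ w => 2 ^ b * #v ≤ #w) h.grow h8,
    st (fun v x w => Relation.ReflTransGen (FreeStep n0 cap) (v ∪ x ∪ x⁻¹) w) h.free h2⟩
  split_ifs with c c'
  · exact h.mono hij
  · exact (h.mono c).trans ((subset_union_left.trans subset_union_left).trans h3)
  · omega
  · exact le_rfl

/-- Plan: take a chain with `J` largest (`2 ^ J ≤ #(W J) < cap`; the constant chain `{1}` has
`J = 0`). Apply `cube` to `W J` with `r = 3 b`. First case: `Wf = W J ∪ X1 ∪ X1⁻¹`, `X2 = ∅`. Second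
case: `closure`; if the closure `U'` has `#U' < cap` it is closed, `gr_of_closed` gives
`2 ^ (3 b) #(W J) ≤ 2 ^ (b + (6 b + 3) / 40) #U'`, and `fun j => if j ≤ J then W j else U'` is a longer
chain. So `cap ≤ #U'`; apply `cube` with `r = 2 (b + g) + 2`, whose second case is impossible since
the power lies in `T ^ (2 r + 2)` and `b + (2 r + 2) / 40 + g < r`. -/
theorem chain {T : Finset G} {b g n0 cap : ℕ} (hT : Slow b T) (hb : 1 ≤ b) (hcap : 2 ≤ cap)
    (hg : #T ≤ 2 ^ g * cap) (hn0 : 3 * b + 1 ≤ n0) :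
    ∃ J W X, Chain T b n0 cap J W X ∧ ∃ X1 Wf X2 : Finset G, X1 ⊆ T ∧ #X1 ≤ 3 * b ∧
      Relation.ReflTransGen (FreeStep n0 cap) (W J ∪ X1 ∪ X1⁻¹) Wf ∧ Sym1 Wf ∧ Wf ⊆ T ^ 2 ∧
      #Wf ≤ cap + 1 + 6 * b ∧ X2 ⊆ T ∧ #X2 ≤ 2 * (b + g) + 2 ∧ (X2 = ∅ ∨ cap ≤ #Wf) ∧
      T ⊆ (Wf ∪ X2 ∪ X2⁻¹) ^ (6 * (b + g) + 6) := by
  obtain ⟨J, ⟨W, X, h⟩, hJ⟩ : ∃ J, (∃ W X, Chain T b n0 cap J W X) ∧
      ¬ ∃ W X, Chain T b n0 cap (J + 1) W X := by
    by_contra c
    push Not at c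
    have k : ∀ J, ∃ W X, Chain T b n0 cap J W X := fun J => by
      induction J with
      | zero =>
        refine ⟨fun _ => {1}, fun _ => ∅, rfl, monotone_const, fun _ => ⟨by simp, by simp⟩,
          fun _ n _ => ?_, fun _ => singleton_subset_iff.2 (hT.1.pow 2).1, fun _ => hcap, ?_, ?_,
          ?_, ?_⟩
        · rw [singleton_pow, card_singleton, card_singleton, mul_one]
          exact Nat.one_le_two_pow
        all_goals exact fun j hj => absurd hj (Nat.not_lt_zero j)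
      | succ J ih => exact c J ih
    obtain ⟨W, X, h⟩ := k cap
    exact absurd ((PmChain_len h hb cap le_rfl).trans_lt (h.lt cap)) Nat.lt_two_pow_self.not_gt
  obtain ⟨X1, x1, x2, x3⟩ := cube (T := T) (h.sym J) (3 * b)
  have u1 := (h.sym J).add X1
  have u2 := PmChain_sub hT.1 (h.sub J) x1
  have u3 : #(W J ∪ X1 ∪ X1⁻¹) ≤ cap + 1 + 6 * b := by
    have a1 := card_union_le (W J ∪ X1) X1⁻¹
    have a2 := card_union_le (W J) X1
    have a3 := h.lt J
    rw [card_inv] at a1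
    omega
  refine ⟨J, W, X, h, X1, ?_⟩
  rcases x3 with x3 | x3
  · refine ⟨_, ∅, x1, x2, Relation.ReflTransGen.refl, u1, u2, u3, empty_subset _, Nat.zero_le _,
      Or.inl rfl, x3.trans ((u1.add ∅).pow_mono (subset_union_left.trans subset_union_left) ?_)⟩
    omega
  obtain ⟨U, v1, v2, v3, v4, v5, v6⟩ := closure n0 cap hT.1 u1 u2
  have v7 : cap ≤ #U := by
    by_contra c
    have g1 := gr_of_closed hT v3 v4 (v6.resolve_left c)
    refine hJ ⟨_, _, PmChain_ext h x2 v1 v2 v3 v4 (not_le.1 c) g1 ?_⟩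
    have g2 := (x3.trans (card_le_card (pow_subset_pow_left v2))).trans ((g1 _ hn0).trans
      (Nat.mul_le_mul_right _ (Nat.pow_le_pow_right two_pos (show _ ≤ 2 * b by omega))))
    rw [show 3 * b = 2 * b + b by ring, pow_add, mul_assoc] at g2
    exact Nat.le_of_mul_le_mul_left g2 (by positivity)
  obtain ⟨X2, y1, y2, y3⟩ := cube (T := T) v3 (2 * (b + g) + 2)
  refine ⟨U, X2, x1, x2, v1, v3, v4, by omega, y1, y2, Or.inr v7, ?_⟩
  rcases y3 with y3 | y3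
  · exact y3.trans ((v3.add X2).pow_mono Subset.rfl (by omega))
  · exfalso
    have g1 := y3.trans (card_le_card (pow_subset_pow_left (PmChain_sub hT.1 v4 y1)))
    rw [← pow_mul] at g1
    have g2 := g1.trans ((hT.2 _).trans
      (Nat.mul_le_mul_left _ (hg.trans (Nat.mul_le_mul_left _ v7))))
    rw [← mul_assoc, ← pow_add] at g2
    have g3 := (Nat.pow_le_pow_iff_right one_lt_two).1 (Nat.le_of_mul_le_mul_right g2 v3.card_pos)
    omega

/-- Plan: `p j` least with `#(W (j+1)) ≤ 2 ^ p * #(W j)`; `b ≤ p j`; by induction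
`2 ^ (∑ j < i, (p j - 1)) ≤ #(W i)`, and `p j ≤ 2 (p j - 1)`. -/
lemma Chain.exps {T : Finset G} {b n0 cap J μ : ℕ} {W X : ℕ → Finset G}
    (h : Chain T b n0 cap J W X) (hb : 2 ≤ b) (hcap : cap ≤ 2 ^ μ) :
    J ≤ μ ∧ ∃ p : ℕ → ℕ, (∀ j < J, b ≤ p j ∧ p j ≤ μ ∧ #(W (j + 1)) ≤ 2 ^ p j * #(W j)) ∧
      ∑ j ∈ range J, p j ≤ 2 * μ := by
  have e : ∀ j, #(W (j + 1)) ≤ 2 ^ μ * #(W j) := fun j =>
    ((h.lt _).le.trans hcap).trans (Nat.le_mul_of_pos_right _ (h.sym j).card_pos)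
  have ex : ∀ j, ∃ p, #(W (j + 1)) ≤ 2 ^ p * #(W j) := fun j => ⟨μ, e j⟩
  have p1 : ∀ j < J, b ≤ Nat.find (ex j) := fun j hj => (Nat.pow_le_pow_iff_right one_lt_two).1
    (Nat.le_of_mul_le_mul_right ((h.grow j hj).trans (Nat.find_spec (ex j))) (h.sym j).card_pos)
  have p2 : ∀ i ≤ J, 2 ^ (∑ j ∈ range i, (Nat.find (ex j) - 1)) ≤ #(W i) := fun i hi => by
    induction i with
    | zero => exact (h.sym 0).card_pos
    | succ i ih =>
      have a1 := p1 i hi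
      rw [sum_range_succ, pow_add, mul_comm]
      exact (Nat.mul_le_mul_left _ (ih (by omega))).trans
        (not_le.1 (Nat.find_min (ex i) (by omega))).le
  have p3 := (Nat.pow_le_pow_iff_right one_lt_two).1 (((p2 J le_rfl).trans (h.lt J).le).trans hcap)
  refine ⟨(Nat.pow_le_pow_iff_right one_lt_two).1
    (((PmChain_len h (by omega) J le_rfl).trans (h.lt J).le).trans hcap), fun j => Nat.find (ex j),
    fun j hj => ⟨p1 j hj, Nat.find_min' (ex j) (e j), Nat.find_spec (ex j)⟩,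
    le_trans ?_ (Nat.mul_le_mul_left 2 p3)⟩
  rw [mul_sum]
  refine sum_le_sum fun j hj => ?_
  have := p1 j (mem_range.1 hj)
  omega

end Pool.Agent.Work.MP_5dd17b_co.Pm
end

-- merged part: Pool.Agent.Work.MP_5dd17b_co.PmCover
section
/-!
A set with small quotient set is covered by few translates of the square of a set of slow growth;
tight containers.
-/

set_option autoImplicit false
set_option linter.unusedSectionVars false

namespace Pool.Agent.Work.MP_5dd17b_co.Pm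

open Finset
open scoped Pointwise

variable {G : Type} [Group G] [DecidableEq G] [Fintype G]

/-- Plan: `LinTao_many` (the map `a ↦ a * b⁻¹` is injective). -/
lemma pop_card {A : Finset G} {K : ℕ} (hA : A.Nonempty) (hK : #(A⁻¹ * A) ≤ K * #A) :
    #A ≤ 2 * K * #(LinTao_pop A K) := by
  obtain ⟨b, -, hb⟩ := LinTao_many hA hK
  refine hb.trans (Nat.mul_le_mul_left _ (card_le_card_of_injOn (fun a => a * b⁻¹)
    (fun a ha => mem_coe.2 (mem_filter.1 (mem_coe.1 ha)).2) fun a _ a' _ e => mul_right_cancel e))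

lemma PmCover_one {A : Finset G} {K : ℕ} (hA : A.Nonempty) (hK : #(A⁻¹ * A) ≤ K * #A) : 1 ≤ K := by
  have : 0 < #(A⁻¹ * A) := (hA.inv.mul hA).card_pos
  by_contra h
  rw [show K = 0 by omega] at hK
  omega

lemma PmCover_tame {A : Finset G} {K w : ℕ} (hA : A.Nonempty) (hK : #(A⁻¹ * A) ≤ K * #A)
    (hw : K ≤ 2 ^ w) : Tame (2 ^ (3 * w + 2)) (LinTao_pop A K) := by
  have h1 := LinTao_one A (PmCover_one hA hK)
  refine ⟨h1, LinTao_inv A K, fun m => ?_⟩
  rcases Nat.eq_zero_or_pos m with rfl | hm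
  · rw [pow_zero, pow_zero, card_one, one_mul]
    exact card_pos.2 ⟨1, h1⟩
  have h2 : 2 * K ^ 2 * (2 * K) ≤ 2 ^ (3 * w + 2) := by
    calc 2 * K ^ 2 * (2 * K) = 4 * K ^ 3 := by ring
      _ ≤ 4 * (2 ^ w) ^ 3 := Nat.mul_le_mul_left _ (Nat.pow_le_pow_left hw 3)
      _ = _ := by ring
  calc #(LinTao_pop A K ^ m) ≤ #(LinTao_pop A K ^ m * A) := card_le_card_mul_right hA
    _ ≤ (2 * K ^ 2) ^ m * #A := LinTao_pow hA hK m
    _ ≤ (2 * K ^ 2) ^ m * ((2 * K) ^ m * #(LinTao_pop A K)) :=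
        Nat.mul_le_mul_left _ ((pop_card hA hK).trans (Nat.mul_le_mul_right _
          (Nat.le_self_pow hm.ne' _)))
    _ = (2 * K ^ 2 * (2 * K)) ^ m * #(LinTao_pop A K) := by rw [← mul_assoc, ← mul_pow]
    _ ≤ _ := Nat.mul_le_mul_right _ (Nat.pow_le_pow_left h2 m)

lemma PmCover_num (w : ℕ) :
    1 + (3 * w + 2) * (128 * (160 * (3 * w + 2)) ^ 2 * (12 + 4 * (3 * w + 2))) + 21 * w + 13 ≤
      2 ^ 32 * (w + 1) ^ 4 := by
  have h1 : 3 * w + 2 ≤ 3 * (w + 1) := by omega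
  have h2 : 12 + 4 * (3 * w + 2) ≤ 30 * (w + 1) := by omega
  have h3 : (3 * w + 2) * (128 * (160 * (3 * w + 2)) ^ 2 * (12 + 4 * (3 * w + 2))) ≤
      (3 * (w + 1)) * (128 * (160 * (3 * (w + 1))) ^ 2 * (30 * (w + 1))) := by gcongr
  have h4 : (3 * (w + 1)) * (128 * (160 * (3 * (w + 1))) ^ 2 * (30 * (w + 1))) =
      2654208000 * (w + 1) ^ 4 := by ring
  have h5 : w + 1 ≤ (w + 1) ^ 4 := Nat.le_self_pow (by norm_num) _
  omega

lemma PmCover_card (T : Finset G) (a : G) : #(ob T a) = #T :=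
  card_image_of_injective _ fun _ _ e => mul_right_cancel e

/-- Plan: `S = LinTao_pop A K` is `Tame (2 ^ w1)`, `w1 = 3 w + 2` (`LinTao_pow`, `pop_card`).
`croot_sisask` with `L = 160 w1` and exponent `12 + 4 w1` gives `T`, `T ^ L ⊆ S ^ 4`,
`#S ≤ 2 ^ e * #T`, `e = 1 + w1 * (128 L ^ 2 (12 + 4 w1))`, and `e + 21 w + 13 ≤ 2 ^ 32 (w + 1) ^ 4`.
Growth: `T ^ n ⊆ (T ^ L) ^ (n / L + 1) ⊆ S ^ (4 (n / L + 1))` and `4 w1 (n / L) ≤ n / 40`.
Cover: `pack` the chunks `T * {a}`, `a ∈ A`, inside `S ^ 4 * A` (at most `(2 K ^ 2) ^ 4 #A` elements);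
`π a` is a centre whose chunk meets that of `a`. -/
theorem cover (A : Finset G) (K w b : ℕ) (hA : A.Nonempty) (hK : #(A⁻¹ * A) ≤ K * #A)
    (hw : K ≤ 2 ^ w) (hb : 2 ^ 32 * (w + 1) ^ 4 ≤ b) :
    ∃ T : Finset G, Slow b T ∧ #T ≤ 2 ^ (8 * w + 4) * #A ∧
      ∃ π : G → G, (∀ a ∈ A, a * (π a)⁻¹ ∈ T ^ 2) ∧ #(A.image π) ≤ 2 ^ b := by
  have hS := PmCover_tame hA hK hw
  have hnum := (PmCover_num w).trans hb
  clear hb
  have hp4 := LinTao_pow hA hK 4
  have hpc := pop_card hA hK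
  generalize LinTao_pop A K = S at hS hp4 hpc
  obtain ⟨w1, hw1⟩ : ∃ w1, 3 * w + 2 = w1 := ⟨_, rfl⟩
  rw [hw1] at hS hnum
  have hL : 1 ≤ 160 * w1 := by omega
  have hcs : 16 * (160 * w1) * (2 ^ w1) ^ 3 ≤ 2 ^ (12 + 4 * w1) := by
    have h1 : w1 ≤ 2 ^ w1 := Nat.lt_two_pow_self.le
    calc 16 * (160 * w1) * (2 ^ w1) ^ 3 = 2560 * w1 * (2 ^ w1) ^ 3 := by ring
      _ ≤ 4096 * 2 ^ w1 * (2 ^ w1) ^ 3 := by gcongr; norm_num
      _ = _ := by ring
  obtain ⟨T, hT1, hT2, hTL, hST⟩ := croot_sisask S (2 ^ w1) (160 * w1) (12 + 4 * w1) hS hL hcs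
  obtain ⟨e, he, hST⟩ : ∃ e, e + 21 * w + 13 ≤ b ∧ #S ≤ 2 ^ e * #T :=
    ⟨_, hnum, by rwa [← pow_mul, ← pow_succ', add_comm] at hST⟩
  clear hnum hcs
  have hT : Sym1 T := ⟨hT1, hT2⟩
  have hT4 : T ⊆ S ^ 4 := by
    refine Subset.trans ?_ hTL
    simpa using hT.pow_mono Subset.rfl hL
  have hSA : #(S ^ 4 * A) ≤ 2 ^ (8 * w + 4) * #A := by
    refine hp4.trans (Nat.mul_le_mul_right _ ?_)
    calc (2 * K ^ 2) ^ 4 ≤ (2 * (2 ^ w) ^ 2) ^ 4 := by gcongr
      _ = _ := by ring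
  refine ⟨T, ⟨hT, fun n => ?_⟩,
    ((card_le_card hT4).trans (card_le_card_mul_right hA)).trans hSA, ?_⟩
  · have h1 : T ^ n ⊆ S ^ (4 * (n / (160 * w1) + 1)) := by
      have h2 : n ≤ 160 * w1 * (n / (160 * w1) + 1) := (Nat.lt_mul_div_succ n hL).le
      refine (hT.pow_mono Subset.rfl h2).trans ?_
      rw [pow_mul S 4, pow_mul T (160 * w1)]
      exact pow_subset_pow_left hTL
    have h3 : 4 * w1 * (n / (160 * w1)) ≤ n / 40 := by
      refine (Nat.le_div_iff_mul_le (by norm_num)).2 ?_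
      calc 4 * w1 * (n / (160 * w1)) * 40 = 160 * w1 * (n / (160 * w1)) := by ring
        _ ≤ n := Nat.mul_div_le _ _
    generalize n / (160 * w1) = d at h1 h3
    calc #(T ^ n) ≤ (2 ^ w1) ^ (4 * (d + 1)) * #S := (card_le_card h1).trans (hS.2.2 _)
      _ ≤ (2 ^ w1) ^ (4 * (d + 1)) * (2 ^ e * #T) := Nat.mul_le_mul_left _ hST
      _ = 2 ^ (4 * w1 * d + 4 * w1 + e) * #T := by
          rw [← pow_mul, ← mul_assoc, ← pow_add]
          exact congrArg (2 ^ · * #T) (by ring)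
      _ ≤ _ := Nat.mul_le_mul_right _ (Nat.pow_le_pow_right two_pos (by omega))
  · obtain ⟨C, hCA, hC, hmeet⟩ := pack A (fun a => ob T a) (fun _ => 0)
      fun a _ => ⟨a, self_mem_ob hT1 a⟩
    have hsum := pack_sum C (fun a => ob T a) (S ^ 4 * A) hC fun c hc z hz => by
      obtain ⟨v, hv, rfl⟩ := mem_ob.1 hz
      exact mul_mem_mul (hT4 hv) (hCA hc)
    simp only [PmCover_card, sum_const, smul_eq_mul] at hsum
    have hCc : #C ≤ 2 ^ b := by
      refine Nat.le_of_mul_le_mul_right ?_ hT.card_pos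
      calc #C * #T ≤ 2 ^ (8 * w + 4) * #A := hsum.trans hSA
        _ ≤ 2 ^ (8 * w + 4) * (2 * 2 ^ w * (2 ^ e * #T)) :=
            Nat.mul_le_mul_left _ (hpc.trans (Nat.mul_le_mul (Nat.mul_le_mul_left _ hw) hST))
        _ = 2 ^ (9 * w + 5 + e) * #T := by ring
        _ ≤ _ := Nat.mul_le_mul_right _ (Nat.pow_le_pow_right two_pos (by omega))
    choose! π hπ using hmeet
    refine ⟨π, fun a ha => ?_, (card_le_card ?_).trans hCc⟩
    · obtain ⟨v, hv, e1⟩ := mem_ob.1 (mem_ob_two hT Subset.rfl Subset.rfl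
        fun h => (hπ a ha).2.2 (Disjoint.symm h))
      have e2 : a * (π a)⁻¹ = v := by
        rw [mul_inv_eq_iff_eq_mul]
        exact e1.symm
      rwa [e2]
    · intro c hc
      obtain ⟨a, ha, rfl⟩ := mem_image.1 hc
      exact (hπ a ha).1

omit [Group G] [DecidableEq G] [Fintype G] in
lemma PmCover_step {ι β : Type} [DecidableEq ι] [DecidableEq β] (P : Finset ι) (B : ι → Finset β)
    (Y : Finset β) (ρ : ℕ) (h : ∀ p ∈ P, B p ⊆ Y ∧ (B p).Nonempty ∧ #Y ≤ ρ * #(B p))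
    (hP : P.Nonempty) : ∃ y ∈ Y, #P ≤ ρ * #(P.filter fun p => y ∈ B p) := by
  obtain ⟨p0, hp0⟩ := hP
  refine exists_le_of_sum_le ((h p0 hp0).2.1.mono (h p0 hp0).1) ?_
  have e : ∑ y ∈ Y, #(P.filter fun p => y ∈ B p) = ∑ p ∈ P, #(B p) := by
    simp only [card_filter]
    rw [sum_comm]
    refine sum_congr rfl fun p hp => ?_
    rw [← card_filter, filter_mem_eq_inter, inter_eq_right.2 (h p hp).1]
  rw [← mul_sum, e, mul_sum, sum_const, smul_eq_mul, mul_comm, ← smul_eq_mul, ← sum_const]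
  exact sum_le_sum fun p hp => (h p hp).2.2

omit [Group G] [DecidableEq G] [Fintype G] in
lemma PmCover_lin {ι β : Type} [DecidableEq ι] [DecidableEq β] (P : Finset ι) (B : ι → Finset β)
    (Y : Finset β) (ρ : ℕ) (h : ∀ p ∈ P, B p ⊆ Y ∧ (B p).Nonempty ∧ #Y ≤ ρ * #(B p)) (t : ℕ) :
    ∃ R ⊆ Y, #R ≤ t ∧ (2 * #(P.filter fun p => Disjoint (B p) R) ≤ #P ∨
      2 * (ρ * #(P.filter fun p => Disjoint (B p) R)) + t * #P ≤ 2 * (ρ * #P)) := by
  induction t with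
  | zero => exact ⟨∅, empty_subset _, le_rfl, Or.inr (by simp)⟩
  | succ t ih =>
    obtain ⟨R, hR, hc, h1⟩ := ih
    by_cases h2 : 2 * #(P.filter fun p => Disjoint (B p) R) ≤ #P
    · exact ⟨R, hR, by omega, Or.inl h2⟩
    have h1 := h1.resolve_left h2
    obtain ⟨y, hy, h3⟩ := PmCover_step (P.filter fun p => Disjoint (B p) R) B Y ρ
      (fun p hp => h p (mem_filter.1 hp).1) (card_pos.1 (by omega))
    refine ⟨insert y R, insert_subset hy hR, (card_insert_le _ _).trans (by omega), Or.inr ?_⟩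
    have e : (P.filter fun p => Disjoint (B p) (insert y R)) =
        (P.filter fun p => Disjoint (B p) R).filter fun p => ¬ y ∈ B p := by
      rw [filter_filter]
      exact filter_congr fun p _ => by rw [disjoint_insert_right, and_comm]
    have h4 := card_filter_add_card_filter_not (s := P.filter fun p => Disjoint (B p) R)
      fun p => y ∈ B p
    rw [← e] at h4
    have h5 := congrArg (ρ * ·) h4
    simp only [mul_add] at h5
    rw [add_mul, one_mul]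
    omega

/-- Greedy hitting set. Plan: by double counting some `y ∈ Y` meets a `1 / ρ` share of the sets
still missed; after `t` choices at most `#P * exp (- t / ρ)` are missed (compare `phase2`). -/
lemma hit {ι β : Type} [DecidableEq ι] [DecidableEq β] (P : Finset ι) (B : ι → Finset β)
    (Y : Finset β) (ρ q : ℕ) (h : ∀ p ∈ P, B p ⊆ Y ∧ (B p).Nonempty ∧ #Y ≤ ρ * #(B p))
    (hq : #P < 2 ^ q) : ∃ R ⊆ Y, #R ≤ ρ * q ∧ ∀ p ∈ P, ¬ Disjoint (B p) R := by
  induction q generalizing P with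
  | zero =>
    obtain rfl : P = ∅ := card_eq_zero.1 (by omega)
    exact ⟨∅, empty_subset _, by simp, by simp⟩
  | succ q ih =>
    rcases P.eq_empty_or_nonempty with rfl | ⟨p0, hp0⟩
    · exact ⟨∅, empty_subset _, by simp, by simp⟩
    have hρ : 0 < ρ := by
      have h1 := ((h p0 hp0).2.1.mono (h p0 hp0).1).card_pos
      exact Nat.pos_of_mul_pos_right (h1.trans_le (h p0 hp0).2.2)
    obtain ⟨R, hR, hc, h1⟩ := PmCover_lin P B Y ρ h ρ
    have h2 : 2 * #(P.filter fun p => Disjoint (B p) R) ≤ #P := by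
      refine h1.elim id fun h1 => Nat.le_of_mul_le_mul_left ?_ hρ
      rw [mul_left_comm]
      omega
    obtain ⟨R', hR', hc', h3⟩ := ih (P.filter fun p => Disjoint (B p) R)
      (fun p hp => h p (mem_filter.1 hp).1) (by rw [pow_succ] at hq; omega)
    refine ⟨R ∪ R', union_subset hR hR', (card_union_le _ _).trans ?_, fun p hp hd => ?_⟩
    · rw [mul_add, mul_one]
      omega
    · rw [disjoint_union_right] at hd
      exact h3 p (mem_filter.2 ⟨hp, hd.1⟩) hd.2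

/-- Plan: `S = LinTao_pop A K ⊆ A * A⁻¹`; `R1 ⊆ S` of size `a = sqrt #A` (`pop_card`, `2 K ≤ a`);
`hit` for the sets `R1 * {x}`, `x ∈ A`, in `Y = S * A` with `ρ = 2 K ^ 2 (a + 2)` (`LinTao_pow` with
exponent 1, `#A ≤ a (a + 2)`); `R1⁻¹ * R2 ⊆ S ^ 2 * A`. -/
theorem tight (A Γ : Finset G) (K Λ q : ℕ) (hA : A.Nonempty) (hK : #(A⁻¹ * A) ≤ K * #A)
    (h4 : 2 * K ≤ Nat.sqrt #A) (hq : #A < 2 ^ q) (h : A ⊆ wd Γ Λ) :
    ∃ R1 ⊆ wd Γ (3 * Λ), ∃ R2 ⊆ wd Γ (3 * Λ), #R1 ≤ Nat.sqrt #A ∧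
      #R2 ≤ 2 * K ^ 2 * (Nat.sqrt #A + 2) * q ∧ A ⊆ R1⁻¹ * R2 ∧ #(R1⁻¹ * R2) ≤ 4 * K ^ 4 * #A := by
  have hK1 := PmCover_one hA hK
  set S := LinTao_pop A K with hSdef
  set a := Nat.sqrt #A with ha
  have hS : S ⊆ wd Γ (Λ + Λ) := fun x hx => by
    obtain ⟨c, hc⟩ := card_pos.1
      (Nat.pos_of_mul_pos_left (hA.card_pos.trans_le (LinTao_mem.1 hx)))
    obtain ⟨c1, c2⟩ := mem_filter.1 hc
    rw [← mul_inv_cancel_right x c]
    exact wd_mul (h c2) (wd_inv (h c1))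
  have haS : a ≤ #S := by
    refine Nat.le_of_mul_le_mul_left ?_ (show 0 < a by omega)
    exact ((Nat.sqrt_le _).trans (pop_card hA hK)).trans (Nat.mul_le_mul_right _ h4)
  obtain ⟨R1, hR1, hc1⟩ := exists_subset_card_eq haS
  have hY : #(S * A) ≤ 2 * K ^ 2 * (a + 2) * a := by
    have h1 := LinTao_pow hA hK 1
    rw [pow_one, pow_one] at h1
    have h2 : #A < (a + 1) * (a + 1) := Nat.lt_succ_sqrt _
    have h3 : #A ≤ (a + 2) * a := by nlinarith
    rw [mul_assoc (2 * K ^ 2)]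
    exact h1.trans (Nat.mul_le_mul_left _ h3)
  obtain ⟨R2, hR2, hc2, hhit⟩ := hit A (fun x => ob R1 x) (S * A) (2 * K ^ 2 * (a + 2)) q
    (fun x hx => by
      refine ⟨fun z hz => ?_, card_pos.1 ?_, ?_⟩
      · obtain ⟨v, hv, rfl⟩ := mem_ob.1 hz
        exact mul_mem_mul (hR1 hv) hx
      · rw [PmCover_card]
        omega
      · rwa [PmCover_card, hc1]) hq
  refine ⟨R1, (hR1.trans hS).trans (wd_mono Subset.rfl (by omega)), R2, fun y hy => ?_, hc1.le,
    hc2, fun x hx => ?_, ?_⟩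
  · obtain ⟨s, hs, x, hx, rfl⟩ := mem_mul.1 (hR2 hy)
    exact wd_mono Subset.rfl (by omega) (wd_mul (hS hs) (h hx))
  · obtain ⟨z, z1, z2⟩ := not_disjoint_iff.1 (hhit x hx)
    obtain ⟨v, hv, rfl⟩ := mem_ob.1 z1
    rw [← inv_mul_cancel_left v x]
    exact mul_mem_mul (inv_mem_inv hv) z2
  · have h1 : R1⁻¹ * R2 ⊆ S ^ 2 * A := by
      rw [sq, mul_assoc]
      refine mul_subset_mul ?_ hR2
      rw [hSdef, ← LinTao_inv]
      exact inv_subset_inv hR1
    refine (card_le_card h1).trans ((LinTao_pow hA hK 2).trans (le_of_eq ?_))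
    ring

end Pool.Agent.Work.MP_5dd17b_co.Pm
end
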