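import Pool.Agent.Work.MP_5dd17b_co.PmCover
import Pool.Agent.Work.MP_5dd17b_co.SolUnion
import Pool.Agent.Work.MP_5dd17b_co.Main
import Mathlib
import Pool.Agent.Work.MP_5dd17b_co.LinMain

-- merged part: Pool.Agent.Work.MP_5dd17b_co.PmTL
section
/-!
Sets of slow growth in a permutation group are generated by members of a small family.
-/

set_option autoImplicit false
set_option linter.unusedSectionVars false

namespace Pool.Agent.Work.MP_5dd17b_co.Pm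

open Finset
open scoped Pointwise

variable {G Ω : Type} [Group G] [DecidableEq G] [Fintype G] [MulAction G Ω] [DecidableEq Ω]
  [Fintype Ω]

/-- A special round. Plan: if `X = ∅` take `F = ∅`, `z = 0`. In general `special` with `V = T ^ 2`,
`n = 2 (b + q + 1)` (`#(T ^ (20 n + 6)) ≤ 2 ^ (b + n / 2) #T`), `cand_sub`, `os_pow` (`y = 2 b + 2 q + 1`),
`mem_genSet` with `y1 = b + q`, `Fg' = ∅` (`cdAll_empty`), `z = (4 b + 4 q + 2) m`. -/
lemma st_special [FaithfulSMul G Ω] (Fg : Finset (ℕ × Ω × Ω)) {μ n0 b q r u : ℕ} {T W X : Finset G}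
    (hT : Slow b T) (hW : Sym1 W) (hWT : W ⊆ T ^ 2) (hX : X ⊆ T) (hr : #X ≤ r)
    (hq : X = ∅ ∨ #T ≤ 2 ^ q * #W) (hu : #W ≤ u) (hμ : u ≤ 2 ^ (μ + 6)) :
    St Fg μ n0 W ((2 * μ + 1) * (2 * Fintype.card Ω) +
      r * ((4 * μ + 25) * u + (4 * b + 4 * q + 2) * Fintype.card Ω + 1)) (W ∪ X ∪ X⁻¹) := by
  rcases hq with rfl | hq
  · exact Or.inr ⟨∅, 0, ∅, ∅, Or.inr rfl, hu.trans hμ, by simp, by simp, empty_subset _, rfl⟩
  have hV := hT.1.pow 2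
  have gr : ∀ i e : ℕ, 2 * i / 40 = e → #((T ^ 2) ^ i) ≤ 2 ^ (b + q + e) * #W := fun i e he => by
    rw [← pow_mul]
    refine (hT.2 _).trans ((Nat.mul_le_mul_left _ hq).trans (le_of_eq ?_))
    rw [he]
    ring
  obtain ⟨F, F1, F2, F3⟩ := special (Ω := Ω) hW hV hWT (2 * (b + q + 1))
    ((gr _ (b + q + 1) (by omega)).trans_lt (Nat.mul_lt_mul_of_pos_right
      (Nat.pow_lt_pow_right one_lt_two (by omega)) hW.card_pos))
  refine Or.inr ⟨∅, (4 * b + 4 * q + 2) * Fintype.card Ω, F, X, Or.inr rfl, hu.trans hμ,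
    (Nat.mul_le_mul_left _ F1).trans (Nat.le_add_right _ _),
    le_trans (by gcongr) (Nat.le_add_left _ _), fun x hx => ?_, rfl⟩
  have xV : x ∈ T ^ 2 := by
    have := hT.1.pow_mono Subset.rfl (show 1 ≤ 2 by norm_num)
    rw [pow_one] at this
    exact this (hX hx)
  have := mem_genSet (Ω := Ω) hW hV hWT xV (y := 2 * b + 2 * q + 1) (y1 := b + q)
    (gr 5 0 (by norm_num)) (Cd := cdAll ∅ W F) (fun a => by rw [cdAll_empty]; exact F3 x xV a)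
    fun a => by
      rw [cdAll_empty]
      refine (card_le_card (cand_sub hV hWT F2 a)).trans (Nat.le_of_mul_le_mul_right
        ((os_pow hW hWT _ a).trans ?_) hW.card_pos)
      refine (Nat.mul_le_mul_right _ (gr _ (b + q + 1) (by omega))).trans (le_of_eq ?_)
      ring
  rwa [show 2 * b + 2 * q + 1 + 2 * (b + q) + 1 = 4 * b + 4 * q + 2 by ring] at this

/-- Plan: induction on `i ≤ J`; a round is a move by `mem_genSet` with `V = W (j+1)`,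
`y1 = b + p j`, `y = 22 b + 2 p j + 11`, so `z = (24 b + 4 p j + 12) m ≤ 34 (p j) m`; then `free_rch`. -/
lemma chain_rch [FaithfulSMul G Ω] {T : Finset G} {b n0 cap J μ : ℕ} {W X : ℕ → Finset G}
    (h : Chain T b n0 cap J W X) (hb : 2 ≤ b) (hn0 : 20 ≤ n0) (hcap : cap ≤ 2 ^ μ) (p : ℕ → ℕ)
    (hp : ∀ j < J, b ≤ p j ∧ #(W (j + 1)) ≤ 2 ^ p j * #(W j)) (Fg : Finset (ℕ × Ω × Ω))
    (F : ℕ → Finset (Ω × Ω))
    (hF : ∀ j < J, (∀ x ∈ X j, ∀ a : Ω, x • a ∈ cdAll Fg (W j) (F j) a) ∧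
      ∀ a : Ω, #(cdAll Fg (W j) (F j) a) ≤ 2 ^ (22 * b + 2 * p j + 11) * #(ob (W j) a)) :
    Rch (St Fg μ n0) {1} (∑ j ∈ range J, ((2 * μ + 1) * #(F j) +
      3 * b * ((4 * μ + 25) * cap + 34 * p j * Fintype.card Ω + 1) + 1 +
      cap * (2 * n0 * μ + 1))) (W J) := by
  have key : ∀ i ≤ J, Rch (St Fg μ n0) {1} (∑ j ∈ range i, ((2 * μ + 1) * #(F j) +
      3 * b * ((4 * μ + 25) * cap + 34 * p j * Fintype.card Ω + 1) + 1 +
      cap * (2 * n0 * μ + 1))) (W i) := by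
    intro i
    induction i with
    | zero =>
      intro _
      rw [h.zero]
      exact Rch.base _
    | succ i ih =>
      intro hi
      have lt : i < J := hi
      have st : St Fg μ n0 (W i) ((2 * μ + 1) * #(F i) +
          3 * b * ((4 * μ + 25) * cap + 34 * p i * Fintype.card Ω + 1))
          (W i ∪ X i ∪ (X i)⁻¹) := by
        have c1 := (h.lt i).le
        have c2 := h.xcard i lt
        refine Or.inr ⟨Fg, 34 * p i * Fintype.card Ω, F i, X i, Or.inl rfl,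
          c1.trans (hcap.trans (Nat.pow_le_pow_right two_pos (by omega))), Nat.le_add_right _ _,
          le_trans (by gcongr) (Nat.le_add_left _ _), fun x hx => ?_, rfl⟩
        refine genSet_mono _ _ (Nat.mul_le_mul_right _ ?_) (mem_genSet (h.sym i) (h.sym (i + 1))
          (h.mono (Nat.le_succ i)) (h.xsub i lt hx) (y1 := b + p i) ?_ ((hF i lt).1 x hx)
          (hF i lt).2)
        · have := (hp i lt).1
          omega
        · refine (h.gr (i + 1) 5 (by omega)).trans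
            ((Nat.mul_le_mul_left _ (hp i lt).2).trans (le_of_eq ?_))
          rw [show (2 * 5 + 1) / 40 = 0 by norm_num]
          ring
      refine (free_rch Fg μ n0 cap hcap (Rch.step (ih lt.le) st) (h.free i lt)).mono (le_of_eq ?_)
      rw [sum_range_succ]
      ring
  exact key J le_rfl

lemma PmTL_num {μ b g cap m J SF Sp : ℕ} (hb : 2 ≤ b) (hbμ : b ≤ μ) (hgμ : g ≤ μ) (hcap : 2 ≤ cap)
    (hcm : cap * μ ^ 2 ≤ m) (hJ : J ≤ μ) (hF : SF ≤ (1 + 4 * (3 * b) * (6 * b + 4)) * m)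
    (hp : Sp ≤ 2 * μ) :
    (2 * μ + 1) * SF + J * (3 * b * ((4 * μ + 25) * cap)) + 102 * b * Sp * m + J * (3 * b + 1) +
      (J + 1) * (cap * (1400 * μ ^ 2 + 1)) + 2 * ((2 * μ + 1) * (2 * m)) +
      3 * b * ((4 * μ + 25) * cap) + 3 * b * (4 * b + 4 * (g + μ) + 2) * m + (3 * b + 2) +
      (2 * (b + g) + 2) * (4 * μ + 25) * (cap + 1 + 6 * b) +
      (2 * (b + g) + 2) * (4 * b + 4 * g + 2) * m + (2 * (b + g) + 2)
      ≤ 5000 * (b ^ 2 * μ + g ^ 2) * m := by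
  have hμ : 2 ≤ μ := hb.trans hbμ
  have q1 : 2 * μ ^ 2 ≤ m := (Nat.mul_le_mul_right _ hcap).trans hcm
  have q2 : 2 * μ ≤ μ ^ 2 := by nlinarith only [hb, hbμ]
  have q3 : cap ≤ cap * μ ^ 2 := Nat.le_mul_of_pos_right _ (by positivity)
  have b2 : 2 * b ≤ b ^ 2 := by nlinarith only [hb]
  have k1 : 2 * (b * μ * m) ≤ b ^ 2 * μ * m := by
    have := Nat.mul_le_mul_right (μ * m) b2
    linarith only [this]
  have k2 : 2 * (μ * m) ≤ b * μ * m := by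
    have := Nat.mul_le_mul_right (μ * m) hb
    linarith only [this]
  have k3 : 2 * (b * m) ≤ b * μ * m := by
    have := Nat.mul_le_mul_right (b * m) hμ
    linarith only [this]
  have k4 : 2 * m ≤ μ * m := Nat.mul_le_mul_right m hμ
  have k5 : 2 * (b ^ 2 * m) ≤ b ^ 2 * μ * m := by
    have := Nat.mul_le_mul_right (b ^ 2 * m) hμ
    linarith only [this]
  have t1 : (2 * μ + 1) * SF ≤ 300 * (b ^ 2 * μ * m) := by
    have a : 1 + 4 * (3 * b) * (6 * b + 4) ≤ 100 * b ^ 2 := by linarith only [hb, b2]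
    exact (Nat.mul_le_mul (show 2 * μ + 1 ≤ 3 * μ by omega)
      (hF.trans (Nat.mul_le_mul_right m a))).trans (le_of_eq (by ring))
  have t2 : J * (3 * b * ((4 * μ + 25) * cap)) ≤ 51 * (b * m) := by
    calc _ ≤ μ * (3 * b * ((17 * μ) * cap)) := by gcongr; omega
      _ = 51 * (b * (cap * μ ^ 2)) := by ring
      _ ≤ _ := by gcongr
  have t3 : 102 * b * Sp * m ≤ 204 * (b * μ * m) := by
    calc _ ≤ 102 * b * (2 * μ) * m := by gcongr
      _ = _ := by ring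
  have t4 : J * (3 * b + 1) ≤ 4 * μ ^ 2 := by
    calc _ ≤ μ * (4 * μ) := Nat.mul_le_mul hJ (by omega)
      _ = _ := by ring
  have t5 : (J + 1) * (cap * (1400 * μ ^ 2 + 1)) ≤ 2802 * (μ * m) := by
    have a : cap * (1400 * μ ^ 2 + 1) ≤ 1401 * m := by linarith only [hcm, q3]
    exact (Nat.mul_le_mul (show J + 1 ≤ 2 * μ by omega) a).trans (le_of_eq (by ring))
  have t6 : 2 * ((2 * μ + 1) * (2 * m)) ≤ 12 * (μ * m) := by
    calc _ ≤ 2 * ((3 * μ) * (2 * m)) := by gcongr; omega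
      _ = _ := by ring
  have t7 : 3 * b * ((4 * μ + 25) * cap) ≤ 51 * m := by
    calc _ ≤ 3 * μ * ((17 * μ) * cap) := by gcongr; omega
      _ = 51 * (cap * μ ^ 2) := by ring
      _ ≤ _ := by gcongr
  have t8 : 3 * b * (4 * b + 4 * (g + μ) + 2) * m ≤ 39 * (b * μ * m) := by
    calc _ ≤ 3 * b * (13 * μ) * m := by gcongr; omega
      _ = _ := by ring
  have t9 : (2 * (b + g) + 2) * (4 * μ + 25) * (cap + 1 + 6 * b) ≤ 85 * m + 595 * (b * m) := by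
    calc _ ≤ (5 * μ) * (17 * μ) * (cap + 7 * b) :=
          Nat.mul_le_mul (Nat.mul_le_mul (by omega) (by omega)) (by omega)
      _ = 85 * (cap * μ ^ 2) + 595 * (b * μ ^ 2) := by ring
      _ ≤ _ := add_le_add (Nat.mul_le_mul_left _ hcm)
          (Nat.mul_le_mul_left _ (Nat.mul_le_mul_left _ (by omega)))
  have t10 : (2 * (b + g) + 2) * (4 * b + 4 * g + 2) * m ≤ 30 * (b ^ 2 * m) + 30 * (g ^ 2 * m) := by
    have a : (2 * (b + g) + 2) * (4 * b + 4 * g + 2) ≤ 30 * b ^ 2 + 30 * g ^ 2 := by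
      have a1 : (2 * (b + g) + 2) * (4 * b + 4 * g + 2) ≤ (3 * (b + g)) * (5 * (b + g)) :=
        Nat.mul_le_mul (by omega) (by omega)
      have a2 : 2 * (b * g) ≤ b ^ 2 + g ^ 2 := by linarith only [two_mul_le_add_sq (b : ℤ) g]
      linarith only [a1, a2]
    exact (Nat.mul_le_mul_right m a).trans (le_of_eq (by ring))
  have e : 5000 * (b ^ 2 * μ + g ^ 2) * m = 5000 * (b ^ 2 * μ * m) + 5000 * (g ^ 2 * m) := by ring
  omega

/-- Plan: `n0 = 700 μ`; `chain`, `Chain.exps`, `span`, `chain_rch`, `st_special` with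
`q = b + g + μ` replaced by `g + μ` (`#T ≤ 2 ^ g cap ≤ 2 ^ (g + μ)`), `free_rch`, `st_special` with
`q = g`; all costs are at most a constant times `(b ^ 2 μ + g ^ 2) m` since `cap μ ^ 2 ≤ m`. -/
lemma tl_rch [FaithfulSMul G Ω] {μ b g cap : ℕ} (hμ : Fintype.card Ω ≤ 2 ^ μ) (hb : 2 ≤ b)
    (hbμ : b ≤ μ) (hgμ : g ≤ μ) (hcap : 2 ≤ cap) (hcm : cap * μ ^ 2 ≤ Fintype.card Ω)
    {T : Finset G} (hT : Slow b T) (hg : #T ≤ 2 ^ g * cap) :
    ∃ Fg ⊆ range (μ + 1) ×ˢ (univ : Finset (Ω × Ω)), #Fg ≤ (6 * b + 6) * Fintype.card Ω ∧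
      ∃ W : Finset G, Rch (St Fg μ (700 * μ)) {1} (5000 * (b ^ 2 * μ + g ^ 2) * Fintype.card Ω) W ∧
        #W ≤ 2 ^ (μ + 6) ∧ T ⊆ wd W (6 * (b + g) + 6) := by
  have hμ2 : 2 ≤ μ := hb.trans hbμ
  have capm : cap ≤ 2 ^ μ :=
    ((Nat.le_mul_of_pos_right _ (by positivity)).trans hcm).trans hμ
  have μlt : μ < 2 ^ μ := Nat.lt_two_pow_self
  have e6 : 2 ^ (μ + 6) = 64 * 2 ^ μ := by ring
  obtain ⟨J, W, X, hC, X1, Wf, X2, a1, a2, a3, a4, a5, a6, a7, a8, a9, a10⟩ :=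
    chain (n0 := 700 * μ) hT (by omega) hcap hg (by omega)
  obtain ⟨hJ, p, p1, p2⟩ := hC.exps hb capm
  obtain ⟨Fg, g1, g2, F, g3, g4⟩ := span (Ω := Ω) ⟨hC.zero, hC.mono, hC.sym, hC.gr⟩ (by omega) J
    (3 * b) X (fun j hj => ⟨hC.xsub j hj, hC.xcard j hj⟩) p
    (fun j hj => ⟨by have := (p1 j hj).2.1; omega, (p1 j hj).2.2⟩) μ hμ
  have r1 := chain_rch hC hb (by omega) capm p (fun j hj => ⟨(p1 j hj).1, (p1 j hj).2.2⟩) Fg F g4
  have s1 := st_special Fg (μ := μ) (n0 := 700 * μ) (q := g + μ) hT (hC.sym J) (hC.sub J) a1 a2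
    (Or.inr (hg.trans ((Nat.mul_le_mul_left _ capm).trans (by
      rw [← pow_add]
      exact Nat.le_mul_of_pos_right _ (hC.sym J).card_pos)))) (hC.lt J).le (by omega)
  have s2 := st_special Fg (μ := μ) (n0 := 700 * μ) (q := g) hT a4 a5 a7 a8
    (a9.imp id fun h => hg.trans (Nat.mul_le_mul_left _ h)) a6 (by omega)
  refine ⟨Fg, g1, g2, Wf ∪ X2 ∪ X2⁻¹,
    (Rch.step (free_rch Fg μ _ cap capm (Rch.step r1 s1) a3) s2).mono ?_, ?_,
    a10.trans (pow_subset_pow_left (subset_union_left.trans (subset_insert _ _)))⟩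
  · refine le_trans (le_of_eq ?_) (PmTL_num hb hbμ hgμ hcap hcm hJ g3 p2)
    simp only [mul_add (3 * b), sum_add_distrib, sum_const, card_range, smul_eq_mul, ← mul_sum,
      ← sum_mul]
    ring
  · have := (card_union_le (Wf ∪ X2) X2⁻¹).trans (Nat.add_le_add_right (card_union_le Wf X2) _)
    rw [card_inv] at this
    omega

/-- the family generates every set of slow growth -/
def TLF (𝒲 : Finset (Finset G)) (b g cap l : ℕ) : Prop :=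
  ∀ T : Finset G, Slow b T → #T ≤ 2 ^ g * cap → ∃ W ∈ 𝒲, T ⊆ wd W l

/-- Plan: union over the small `Fg` (`card_small`) of the reachable sets (`card_rch`, `card_St`). -/
theorem tl [FaithfulSMul G Ω] {μ b g cap : ℕ} (hμ : Fintype.card Ω ≤ 2 ^ μ) (hb : 2 ≤ b)
    (hbμ : b ≤ μ) (hgμ : g ≤ μ) (hcap : 2 ≤ cap) (hcm : cap * μ ^ 2 ≤ Fintype.card Ω) :
    ∃ 𝒲 : Finset (Finset G), #𝒲 ≤ 2 ^ (30000 * (b ^ 2 * μ + g ^ 2) * Fintype.card Ω) ∧
      (∀ W ∈ 𝒲, #W ≤ 2 ^ (μ + 6)) ∧ TLF 𝒲 b g cap (6 * (b + g) + 6) := by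
  classical
  have hμ2 : 2 ≤ μ := hb.trans hbμ
  refine ⟨((range (μ + 1) ×ˢ (univ : Finset (Ω × Ω))).powerset.filter
    fun F => #F ≤ (6 * b + 6) * Fintype.card Ω).biUnion fun Fg =>
      (univ.filter fun W : Finset G => Rch (St Fg μ (700 * μ)) {1}
        (5000 * (b ^ 2 * μ + g ^ 2) * Fintype.card Ω) W).filter fun W => #W ≤ 2 ^ (μ + 6),
    ?_, fun W hW => ?_, fun T hT hg => ?_⟩
  · refine (card_biUnion_le_card_mul _ _ _ fun Fg _ => (card_filter_le _ _).trans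
      (card_rch _ _ (card_St Fg μ _ hμ) _)).trans ?_
    have c1 : #(range (μ + 1) ×ˢ (univ : Finset (Ω × Ω))) + 1 ≤ 2 ^ (3 * μ + 1) := by
      rw [card_product, card_range, card_univ, Fintype.card_prod]
      have a : (μ + 1) * (Fintype.card Ω * Fintype.card Ω) ≤ 2 ^ μ * (2 ^ μ * 2 ^ μ) :=
        Nat.mul_le_mul Nat.lt_two_pow_self (Nat.mul_le_mul hμ hμ)
      have a' : 2 ^ (3 * μ + 1) = 2 * (2 ^ μ * (2 ^ μ * 2 ^ μ)) := by ring
      have a'' : 0 < 2 ^ μ * (2 ^ μ * 2 ^ μ) := by positivity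
      omega
    refine (Nat.mul_le_mul_right _ ((card_small _ _).trans (Nat.pow_le_pow_left c1 _))).trans ?_
    rw [← pow_mul, ← pow_add]
    refine Nat.pow_le_pow_right two_pos ?_
    have c2 : (3 * μ + 1) * (6 * b + 6) ≤ 10000 * (b ^ 2 * μ + g ^ 2) := by
      have d1 : (3 * μ + 1) * (6 * b + 6) ≤ (4 * μ) * (9 * b) := Nat.mul_le_mul (by omega) (by omega)
      have d2 : b * μ ≤ b ^ 2 * μ := Nat.mul_le_mul_right _ (Nat.le_self_pow two_ne_zero b)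
      linarith only [hb, hbμ, d1, d2, Nat.zero_le (g ^ 2), sq_nonneg ↑g]
    have c3 := Nat.mul_le_mul_right (Fintype.card Ω) c2
    linarith only [c3]
  · obtain ⟨Fg, -, h⟩ := mem_biUnion.1 hW
    exact (mem_filter.1 h).2
  · obtain ⟨Fg, g1, g2, W, w1, w2, w3⟩ := tl_rch hμ hb hbμ hgμ hcap hcm hT hg
    exact ⟨W, mem_biUnion.2 ⟨Fg, mem_filter.2 ⟨mem_powerset.2 g1, g2⟩,
      mem_filter.2 ⟨mem_filter.2 ⟨mem_univ _, w1⟩, w2⟩⟩, w3⟩

end Pool.Agent.Work.MP_5dd17b_co.Pm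
end

-- merged part: Pool.Agent.Work.MP_5dd17b_co.PmJoint
section
/-!
Joint classes: connected through colours of `Γ` or through equal labels `π`.
-/

set_option autoImplicit false
set_option linter.unusedSectionVars false

namespace Pool.Agent.Work.MP_5dd17b_co.Pm

open Finset
open scoped Pointwise

variable {G : Type} [Group G] [DecidableEq G]

/-- joint connection -/
def JConn (A Γ : Finset G) (π : G → G) : G → G → Prop :=
  Relation.ReflTransGen fun a b => Adj A Γ a b ∨ (a ∈ A ∧ b ∈ A ∧ π a = π b)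

open Classical in
/-- the joint class of `a` -/
noncomputable def jcls (A Γ : Finset G) (π : G → G) (a : G) : Finset G := A.filter (JConn A Γ π a)

lemma mem_jcls {A Γ : Finset G} {π : G → G} {a b : G} :
    b ∈ jcls A Γ π a ↔ b ∈ A ∧ JConn A Γ π a b := by
  simp [jcls]

lemma JConn.symm {A Γ : Finset G} {π : G → G} {a b : G} (h : JConn A Γ π a b) : JConn A Γ π b a := by
  induction h with
  | refl => exact Relation.ReflTransGen.refl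
  | tail _ h ih =>
    exact Relation.ReflTransGen.head
      (h.imp (fun e => ⟨e.2.1, e.1, e.2.2.symm⟩) fun e => ⟨e.2.1, e.1, e.2.2.symm⟩) ih

lemma JConn.mono {A Γ Γ' : Finset G} {π : G → G} (hΓ : Γ ⊆ Γ') {a b : G} (h : JConn A Γ π a b) :
    JConn A Γ' π a b := by
  induction h with
  | refl => exact Relation.ReflTransGen.refl
  | tail _ h ih =>
    exact Relation.ReflTransGen.tail ih
      (h.imp_left fun e => ⟨e.1, e.2.1, e.2.2.imp (@hΓ _) (@hΓ _)⟩)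

lemma JConn.of_conn {A Γ : Finset G} (π : G → G) {a b : G} (h : Conn A Γ a b) : JConn A Γ π a b := by
  induction h with
  | refl => exact Relation.ReflTransGen.refl
  | tail _ h ih => exact Relation.ReflTransGen.tail ih (Or.inl h)

lemma jcls_eq {A Γ : Finset G} {π : G → G} {a b : G} (h : JConn A Γ π a b) :
    jcls A Γ π a = jcls A Γ π b := by
  ext c
  rw [mem_jcls, mem_jcls]
  exact and_congr_right fun _ =>
    ⟨Relation.ReflTransGen.trans h.symm, Relation.ReflTransGen.trans h⟩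

/-- Plan: the second half of the proof of `merge` in SolMerge.lean, with `jcls` for `cls`. -/
lemma jmerge (A U Γ : Finset G) (π : G → G) (K s : ℕ) (hA : A.Nonempty)
    (hK : #(A⁻¹ * A) ≤ K * #A) (hU : U ⊆ A)
    (hcol : ∀ a ∈ U, s * #A ≤ 4 * #((jcls A Γ π a)⁻¹ * (U \ jcls A Γ π a))) :
    ∃ γ : G, 8 * K * #(U.image (jcls A (insert γ Γ) π)) + s * #(U.image (jcls A Γ π)) ≤
      8 * K * #(U.image (jcls A Γ π)) := by
  classical
  set 𝒞 := U.image (jcls A Γ π) with h𝒞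
  have hcol' : ∀ c ∈ 𝒞, s * #A ≤ 4 * #((A⁻¹ * A).filter fun γ => γ ∈ c⁻¹ * (U \ c)) := by
    intro c hc
    obtain ⟨a, ha, rfl⟩ := mem_image.mp hc
    exact (hcol a ha).trans (Nat.mul_le_mul_left _ (card_le_card fun γ hγ => mem_filter.mpr
      ⟨mul_subset_mul (inv_subset_inv fun _ hx => (mem_jcls.mp hx).1) (sdiff_subset.trans hU) hγ,
        hγ⟩))
  have hsum : ∑ _γ ∈ A⁻¹ * A, s * #𝒞 ≤
      ∑ γ ∈ A⁻¹ * A, 4 * K * #(𝒞.filter fun c => γ ∈ c⁻¹ * (U \ c)) := by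
    have e1 : ∑ c ∈ 𝒞, #((A⁻¹ * A).filter fun γ => γ ∈ c⁻¹ * (U \ c)) =
        ∑ γ ∈ A⁻¹ * A, #(𝒞.filter fun c => γ ∈ c⁻¹ * (U \ c)) :=
      sum_card_bipartiteAbove_eq_sum_card_bipartiteBelow fun c γ => γ ∈ c⁻¹ * (U \ c)
    have e2 := sum_le_sum hcol'
    rw [← mul_sum _ _ 4, e1, sum_const, smul_eq_mul] at e2
    rw [← mul_sum _ _ (4 * K), sum_const, smul_eq_mul]
    have e3 := Nat.mul_le_mul_right (s * #𝒞) hK
    have e4 := Nat.mul_le_mul_left K e2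
    linarith only [e3, e4]
  obtain ⟨γ, -, hγ⟩ := exists_le_of_sum_le (hA.inv.mul hA) hsum
  refine ⟨γ, ?_⟩
  set φ : Finset G → Finset G := fun c => A.filter fun b => ∃ a ∈ c, JConn A (insert γ Γ) π a b
    with hφdef
  have hφ : ∀ a ∈ A, φ (jcls A Γ π a) = jcls A (insert γ Γ) π a := fun a ha => by
    ext b
    simp only [hφdef, mem_filter, mem_jcls]
    refine and_congr_right fun _ => ⟨?_, fun hb => ⟨a, ⟨ha, .refl⟩, hb⟩⟩
    rintro ⟨x, ⟨-, hx⟩, hb⟩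
    exact (hx.mono (subset_insert _ _)).trans hb
  have him : U.image (jcls A (insert γ Γ) π) = 𝒞.image φ := by
    rw [h𝒞, image_image]
    exact image_congr fun a ha => (hφ a (hU ha)).symm
  have hJ := SolMerge_fib 𝒞 (𝒞.filter fun c => γ ∈ c⁻¹ * (U \ c)) φ (filter_subset _ _)
    fun c hc' => by
      obtain ⟨c1, c2⟩ := mem_filter.mp hc'
      obtain ⟨a, ha, rfl⟩ := mem_image.mp c1
      obtain ⟨x, hx, b, hb, e⟩ := mem_mul.mp c2
      obtain ⟨z, hz, rfl⟩ := mem_inv.mp hx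
      obtain ⟨b1, b2⟩ := mem_sdiff.mp hb
      obtain ⟨z1, z2⟩ := mem_jcls.mp hz
      refine ⟨jcls A Γ π b, mem_image_of_mem _ b1, fun e' => b2 ?_, ?_⟩
      · rw [← e']
        exact mem_jcls.mpr ⟨hU b1, .refl⟩
      · rw [hφ b (hU b1), hφ a (hU ha)]
        exact (jcls_eq ((z2.mono (subset_insert _ _)).tail
          (Or.inl ⟨z1, hU b1, Or.inl (e ▸ mem_insert_self _ _)⟩))).symm
  rw [him]
  have e := Nat.mul_le_mul_left (4 * K) hJ
  linarith only [hγ, e]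

lemma PmJoint_card (A U Γ : Finset G) (π : G → G) (hU : U ⊆ A) :
    #(U.image (jcls A Γ π)) ≤ #(A.image π) := by
  classical
  refine (card_le_card fun c hc => ?_).trans (card_image_le
    (f := fun r => A.filter fun b => ∃ a ∈ A, π a = r ∧ JConn A Γ π a b))
  obtain ⟨a, ha, rfl⟩ := mem_image.mp hc
  refine mem_image.mpr ⟨_, mem_image_of_mem _ (hU ha), ext fun b => ?_⟩
  rw [mem_filter, mem_jcls]
  refine and_congr_right fun _ => ⟨?_, fun h => ⟨a, hU ha, rfl, h⟩⟩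
  rintro ⟨x, hx, e, h⟩
  exact .head (Or.inr ⟨hU ha, hx, e.symm⟩) h

/-- Plan: as `phase2`; at the start the number of classes is at most `#(A.image π) ≤ 2 ^ q` (equal
labels give equal classes), at the end at most `2 ^ q exp (- q) < 1`. -/
theorem joint (A U Γ : Finset G) (π : G → G) (K s t q : ℕ) (hK : #(A⁻¹ * A) ≤ K * #A)
    (hU : U ⊆ A) (hU0 : U.Nonempty) (hq : 1 ≤ q) (hn : #(A.image π) ≤ 2 ^ q)
    (ht : 8 * K * q ≤ t * s)
    (hcol : ∀ Γ', Γ ⊆ Γ' → ∀ a ∈ U, 8 * #(jcls A Γ' π a) < #A →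
      s * #A ≤ 4 * #((jcls A Γ' π a)⁻¹ * (U \ jcls A Γ' π a))) :
    ∃ Γ' : Finset G, #Γ' ≤ #Γ + t ∧ ∃ a ∈ A, #A ≤ 8 * #(jcls A Γ' π a) := by
  by_contra hcon
  push Not at hcon
  have hA := hU0.mono hU
  have hK1 : 0 < K := Nat.pos_of_mul_pos_right ((hA.inv.mul hA).card_pos.trans_le hK)
  have hKr : (0 : ℝ) < 8 * K := by positivity
  have key : ∀ i, i ≤ t → ∃ Γ' : Finset G, Γ ⊆ Γ' ∧ #Γ' ≤ #Γ + i ∧
      (#(U.image (jcls A Γ' π)) : ℝ) ≤ 2 ^ q * Real.exp (-(i * (s / (8 * K)))) := by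
    intro i
    induction i with
    | zero =>
      refine fun _ => ⟨Γ, Subset.rfl, le_rfl, ?_⟩
      rw [Nat.cast_zero, zero_mul, neg_zero, Real.exp_zero, mul_one]
      exact_mod_cast (PmJoint_card A U Γ π hU).trans hn
    | succ i ih =>
      intro hi
      obtain ⟨Γ', h1, h2, h3⟩ := ih (by omega)
      obtain ⟨γ, hγ⟩ := jmerge A U Γ' π K s hA hK hU fun a ha =>
        hcol Γ' h1 a ha (hcon Γ' (by omega) a (hU ha))
      refine ⟨insert γ Γ', h1.trans (subset_insert _ _), (card_insert_le _ _).trans (by omega), ?_⟩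
      generalize #(U.image (jcls A (insert γ Γ') π)) = m' at hγ ⊢
      generalize #(U.image (jcls A Γ' π)) = m at hγ h3
      have h4 : (8 * K * m' + s * m : ℝ) ≤ 8 * K * m := by exact_mod_cast hγ
      have h5 : (m' : ℝ) ≤ (-(s / (8 * K)) + 1) * m := by
        refine le_of_mul_le_mul_left ?_ hKr
        have : 8 * (K : ℝ) * ((-(s / (8 * K)) + 1) * m) = 8 * K * m - s * m := by
          field_simp
          ring
        linarith only [h4, this]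
      refine (h5.trans (mul_le_mul_of_nonneg_right (Real.add_one_le_exp _) m.cast_nonneg)).trans
        ((mul_le_mul_of_nonneg_left h3 (Real.exp_pos _).le).trans_eq ?_)
      rw [mul_left_comm, ← Real.exp_add, Nat.cast_succ, add_one_mul, neg_add, add_comm]
  obtain ⟨Γ', -, -, h3⟩ := key t le_rfl
  have e1 : (q : ℝ) ≤ t * (s / (8 * K)) := by
    rw [← mul_div_assoc, le_div_iff₀' hKr]
    exact_mod_cast ht
  have h4 : (1 : ℝ) ≤ #(U.image (jcls A Γ' π)) := by exact_mod_cast (hU0.image _).card_pos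
  have h6 : (2 : ℝ) ^ q < Real.exp q := by
    rw [← Real.exp_one_pow]
    exact pow_lt_pow_left₀ (by linarith only [Real.exp_one_gt_d9]) (by norm_num) (by omega)
  rw [Real.exp_neg, ← div_eq_mul_inv] at h3
  exact ((div_lt_one (Real.exp_pos _)).mpr (h6.trans_le (Real.exp_le_exp.mpr e1))).not_ge
    (h4.trans h3)

/-- Plan: by induction on `i` there is `R ⊆ A.image π` containing `π a` such that every `c ∈ A` with
`π c ∈ R` is a word of length at most `(2 l + 1) (i + 1) + 1`, and `i + 1 ≤ #R` or `R` is closed under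
`Adj A Γ`. At `i = n` it is closed. -/
lemma jcls_wd (A Γ Γ0 : Finset G) (π : G → G) (l n : ℕ) (h : ∀ c ∈ A, c * (π c)⁻¹ ∈ wd Γ0 l)
    (hn : #(A.image π) ≤ n) {a : G} (ha : a ∈ A) :
    jcls A Γ π a ⊆ wd (Γ0 ∪ insert a Γ) ((2 * l + 1) * (n + 1) + 1) := by
  have s0 : Γ0 ⊆ Γ0 ∪ insert a Γ := subset_union_left
  have s1 : Γ ⊆ Γ0 ∪ insert a Γ := (subset_insert _ _).trans subset_union_right
  have same : ∀ c ∈ A, ∀ c' ∈ A, π c' = π c → ∀ L, c ∈ wd (Γ0 ∪ insert a Γ) L →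
      c' ∈ wd (Γ0 ∪ insert a Γ) (l + l + L) := fun c hc c' hc' e L hL => by
    have := wd_mul (wd_mono s0 le_rfl (wd_mul (h c' hc') (wd_inv (h c hc)))) hL
    rwa [e, show c' * (π c)⁻¹ * (c * (π c)⁻¹)⁻¹ * c = c' by group] at this
  have key : ∀ i, ∃ R ⊆ A.image π, π a ∈ R ∧
      (∀ c ∈ A, π c ∈ R → c ∈ wd (Γ0 ∪ insert a Γ) ((2 * l + 1) * (i + 1) + 1)) ∧
      (i + 1 ≤ #R ∨ ∀ b c, Adj A Γ b c → π b ∈ R → π c ∈ R) := by
    intro i
    induction i with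
    | zero =>
      exact ⟨{π a}, singleton_subset_iff.mpr (mem_image_of_mem _ ha), mem_singleton_self _,
        fun c hc e => wd_mono subset_rfl (by omega) (same a ha c hc (mem_singleton.mp e) 1
          (wd_of_mem (subset_union_right (mem_insert_self _ _)))), Or.inl (by simp)⟩
    | succ i ih =>
      obtain ⟨R, r1, r2, r3, r4⟩ := ih
      have r5 : ∀ c ∈ A, π c ∈ R → c ∈ wd (Γ0 ∪ insert a Γ) ((2 * l + 1) * (i + 1 + 1) + 1) :=
        fun c hc e => wd_mono subset_rfl (by rw [mul_add_one _ (i + 1)]; omega) (r3 c hc e)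
      by_cases hcl : ∀ b c, Adj A Γ b c → π b ∈ R → π c ∈ R
      · exact ⟨R, r1, r2, r5, Or.inr hcl⟩
      have r6 := r4.resolve_right hcl
      push Not at hcl
      obtain ⟨b, c, ⟨hb, hc, e⟩, b1, c1⟩ := hcl
      refine ⟨insert (π c) R, insert_subset (mem_image_of_mem _ hc) r1, mem_insert_of_mem r2,
        fun c' hc' e' => (mem_insert.mp e').elim (fun e' => ?_) (r5 c' hc'),
        Or.inl (by rw [card_insert_of_notMem c1]; omega)⟩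
      have e1 : b⁻¹ * c ∈ wd (Γ0 ∪ insert a Γ) 1 := e.elim (fun e => wd_of_mem (s1 e)) fun e => by
        simpa using wd_inv (wd_of_mem (s1 e))
      have e2 := wd_mul (r3 b hb b1) e1
      rw [mul_inv_cancel_left] at e2
      exact wd_mono subset_rfl (by rw [mul_add_one _ (i + 1)]; omega) (same c hc c' hc' e' _ e2)
  obtain ⟨R, r1, r2, r3, r4⟩ := key n
  have r5 := r4.resolve_left (by have := card_le_card r1; omega)
  intro b hb
  rw [mem_jcls] at hb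
  obtain ⟨hb, hc⟩ := hb
  refine r3 b hb ?_
  clear hb
  induction hc with
  | refl => exact r2
  | tail _ e ih => exact e.elim (fun e => r5 _ _ e ih) fun e => e.2.2 ▸ ih

/-- Plan: `joint` with `U = A`, `Γ = ∅`, `s = 1`, `t = 8 K q`; `jcls_wd`. -/
theorem big_one (A Γ0 : Finset G) (π : G → G) (K l q : ℕ) (hA : A.Nonempty)
    (hK : #(A⁻¹ * A) ≤ K * #A) (hq : 1 ≤ q) (hn : #(A.image π) ≤ 2 ^ q)
    (h : ∀ c ∈ A, c * (π c)⁻¹ ∈ wd Γ0 l) :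
    ∃ Y : Finset G, #Y ≤ 8 * K * q + 1 ∧
      #A ≤ 8 * #(A ∩ wd (Γ0 ∪ Y) ((2 * l + 1) * (2 ^ q + 1) + 1)) := by
  obtain ⟨Γ', h1, a, ha, h2⟩ := joint A A ∅ π K 1 (8 * K * q) q hK subset_rfl hA hq hn
    (mul_one _).ge fun Γ' _ a ha h8 => by
      have e1 := card_le_card_mul_left (t := A \ jcls A Γ' π a)
        (Nonempty.inv ⟨a, mem_jcls.mpr ⟨ha, (.refl : JConn A Γ' π a a)⟩⟩)
      have e2 := le_card_sdiff (jcls A Γ' π a) A
      omega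
  refine ⟨insert a Γ', (card_insert_le _ _).trans (by simpa using h1), h2.trans ?_⟩
  exact Nat.mul_le_mul_left _ (card_le_card (subset_inter (fun _ hx => (mem_jcls.mp hx).1)
    (jcls_wd A Γ' Γ0 π l _ h hn ha)))

/-- Plan: `phase1`, then `joint` with `U` the union of the blocks, `s = 2 ^ I`, `t = 8 K`; the
hypothesis `hcol` is the first half of the proof of `merge` (`SolMerge_col`, `JConn.of_conn`);
`I ≤ 2 ^ I ≤ K` by `le_of_lowE`; `jcls_wd`. -/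
theorem big_two (A Γ0 : Finset G) (π : G → G) (K l q I : ℕ)
    (hK : #(A⁻¹ * A) ≤ K * #A) (hq : 1 ≤ q) (hn : #(A.image π) ≤ 2 ^ q)
    (h : ∀ c ∈ A, c * (π c)⁻¹ ∈ wd Γ0 l) (hI : 7 ≤ I) (hqI : q ≤ 2 ^ I) (hk : 8 * 2 ^ I ≤ #A)
    (hE : 8 * (2 ^ I) ^ 7 * En A ≤ #A ^ 3) :
    ∃ Y : Finset G, #Y ≤ 18442 * K ∧
      #A ≤ 8 * #(A ∩ wd (Γ0 ∪ Y) ((2 * l + 1) * (2 ^ q + 1) + 1)) := by
  obtain ⟨Γ, 𝔅, g1, g2, hm⟩ := phase1 A K I hK hI hk hE
  have hI2 : I < 2 ^ I := Nat.lt_two_pow_self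
  have hA : A.Nonempty := card_pos.mp (by omega)
  have hKI := le_of_lowE hA hK hE
  have hs7 := Nat.le_self_pow (by norm_num : 7 ≠ 0) (2 ^ I)
  generalize 2 ^ I = s at *
  have hU := g2.biUnion_subset
  have e6 : #A ≤ 2 * #(𝔅.biUnion id) := by rw [g2.card_biUnion, ← mul_assoc]; exact hm
  obtain ⟨Γ', h1, a, ha, h2⟩ := joint A (𝔅.biUnion id) Γ π K s (8 * K) q hK hU
    (card_pos.mp (by omega)) hq hn (Nat.mul_le_mul_left _ hqI) fun Γ' hΓ a ha e5 => by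
      obtain ⟨Z, hZ, haZ⟩ := mem_biUnion.mp ha
      obtain ⟨z1, z2, -, z3⟩ := g2.1 Z hZ
      have e1 := SolMerge_col A Z (𝔅.biUnion id \ jcls A Γ' π a) s (by omega)
        (sdiff_subset.trans hU) z2 fun x hx y hy => (z3 x hx y hy).2
      have e3 := card_le_card (mul_subset_mul_right (t := 𝔅.biUnion id \ jcls A Γ' π a)
        (inv_subset_inv (show Z ⊆ jcls A Γ' π a from fun x hx =>
          mem_jcls.mpr ⟨z1 hx, (JConn.of_conn π (z3 a haZ x hx).1).mono hΓ⟩)))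
      have e4 := le_card_sdiff (jcls A Γ' π a) (𝔅.biUnion id)
      have e7 : 3 * #A ≤ 8 * #(𝔅.biUnion id \ jcls A Γ' π a) := by omega
      have e8 : 8 * #A ≤ s * s * #A := Nat.mul_le_mul_right _ (by nlinarith only [hq, hI, hI2, hqI])
      have e9 := Nat.mul_le_mul_left (s * s) e7
      have e10 := Nat.mul_le_mul_left s e3
      refine Nat.le_of_mul_le_mul_left ?_ (by omega : 0 < s)
      linarith only [e1, e8, e9, e10]
  refine ⟨insert a Γ', (card_insert_le _ _).trans (by omega), h2.trans ?_⟩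
  exact Nat.mul_le_mul_left _ (card_le_card (subset_inter (fun _ hx => (mem_jcls.mp hx).1)
    (jcls_wd A Γ' Γ0 π l _ h hn ha)))

/-- Plan: the proof of `finish` in Gen.lean. -/
lemma finish2 (A Γ : Finset G) (K L q : ℕ) (hA : A.Nonempty) (hD : #(A⁻¹ * A) ≤ K * #A)
    (h : #A ≤ q * #(A ∩ wd Γ L)) :
    ∃ Y : Finset G, #Y ≤ q * K ∧ A ⊆ wd (Γ ∪ Y) (2 * L + 1) := by
  have hne : (A ∩ wd Γ L).Nonempty :=
    card_pos.mp (Nat.pos_of_mul_pos_left (hA.card_pos.trans_le h))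
  obtain ⟨F, -, f2, f3⟩ := ruzsa_covering_mul (A := A⁻¹) (K := (q * K : ℕ)) hne (by
    have a2 : #(A⁻¹ * (A ∩ wd Γ L)) ≤ q * K * #(A ∩ wd Γ L) :=
      ((card_le_card (mul_subset_mul_left inter_subset_left)).trans hD).trans
        ((Nat.mul_le_mul_left K h).trans (le_of_eq (by ring)))
    exact_mod_cast a2)
  refine ⟨F⁻¹, by rw [card_inv]; exact_mod_cast f2, fun a ha => ?_⟩
  obtain ⟨x, hx, y, hy, e⟩ := mem_mul.mp (f3 (inv_mem_inv ha))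
  obtain ⟨b, hb, c, hc, rfl⟩ := mem_div.mp hy
  have := wd_mul (wd_mono subset_union_left le_rfl (wd_mul (mem_inter.mp hc).2
    (wd_inv (mem_inter.mp hb).2)))
    (wd_of_mem (subset_union_right (inv_mem_inv hx) : x⁻¹ ∈ Γ ∪ F⁻¹))
  rwa [show c * b⁻¹ * x⁻¹ = a by rw [← inv_inv a, ← e, div_eq_mul_inv]; group, ← two_mul] at this

end Pool.Agent.Work.MP_5dd17b_co.Pm
end

-- merged part: Pool.Agent.Work.MP_5dd17b_co.PmLoose
section
/-!
Loose containers.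
-/

set_option autoImplicit false
set_option linter.unusedSectionVars false

namespace Pool.Agent.Work.MP_5dd17b_co.Pm

open Finset
open scoped Pointwise

variable {G : Type} [Group G] [DecidableEq G] [Fintype G]

/-- unions of at most `j` members of the family and at most `y` further elements -/
def fam (𝒲 : Finset (Finset G)) (j y : ℕ) : Finset (Finset G) :=
  ((𝒲.powerset.filter fun S => #S ≤ j) ×ˢ ((univ : Finset G).powerset.filter fun Y => #Y ≤ y)).image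
    fun p => p.1.biUnion id ∪ p.2

lemma mem_fam {𝒲 : Finset (Finset G)} {j y : ℕ} {Γ : Finset G} :
    Γ ∈ fam 𝒲 j y ↔ ∃ S ⊆ 𝒲, #S ≤ j ∧ ∃ Y : Finset G, #Y ≤ y ∧ S.biUnion id ∪ Y = Γ := by
  simp only [fam, mem_image, mem_product, mem_filter, mem_powerset, subset_univ, true_and,
    Prod.exists]
  exact ⟨fun ⟨S, Y, ⟨⟨h1, h2⟩, h3⟩, h4⟩ => ⟨S, h1, h2, Y, h3, h4⟩,
    fun ⟨S, h1, h2, Y, h3, h4⟩ => ⟨S, Y, ⟨⟨h1, h2⟩, h3⟩, h4⟩⟩

lemma card_fam (𝒲 : Finset (Finset G)) (j y : ℕ) :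
    #(fam 𝒲 j y) ≤ (#𝒲 + 1) ^ j * (Fintype.card G + 1) ^ y := by
  refine card_image_le.trans ?_
  rw [card_product]
  exact Nat.mul_le_mul (card_small _ _) (card_small _ _)

lemma size_fam {𝒲 : Finset (Finset G)} {j y u : ℕ} (h : ∀ W ∈ 𝒲, #W ≤ u) {Γ : Finset G}
    (hΓ : Γ ∈ fam 𝒲 j y) : #Γ ≤ j * u + y := by
  obtain ⟨S, h1, h2, Y, h3, rfl⟩ := mem_fam.mp hΓ
  refine (card_union_le _ _).trans (Nat.add_le_add ?_ h3)
  exact (card_biUnion_le_card_mul _ _ u fun W hW => h W (h1 hW)).trans (Nat.mul_le_mul_right _ h2)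

lemma fam_union {𝒲 : Finset (Finset G)} {j y j' y' : ℕ} {Γ Γ' : Finset G} (h : Γ ∈ fam 𝒲 j y)
    (h' : Γ' ∈ fam 𝒲 j' y') : Γ ∪ Γ' ∈ fam 𝒲 (j + j') (y + y') := by
  obtain ⟨S, h1, h2, Y, h3, rfl⟩ := mem_fam.mp h
  obtain ⟨S', g1, g2, Y', g3, rfl⟩ := mem_fam.mp h'
  refine mem_fam.mpr ⟨S ∪ S', union_subset h1 g1, (card_union_le _ _).trans (by omega), Y ∪ Y',
    (card_union_le _ _).trans (by omega), ?_⟩
  rw [union_biUnion, union_union_union_comm]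

lemma fam_mono {𝒲 : Finset (Finset G)} {j y j' y' : ℕ} (h1 : j ≤ j') (h2 : y ≤ y') :
    fam 𝒲 j y ⊆ fam 𝒲 j' y' := fun _ h => by
  obtain ⟨S, g1, g2, Y, g3, e⟩ := mem_fam.mp h
  exact mem_fam.mpr ⟨S, g1, g2.trans h1, Y, g3.trans h2, e⟩

lemma fam_add {𝒲 : Finset (Finset G)} {j y y' : ℕ} {Γ Y : Finset G} (h : Γ ∈ fam 𝒲 j y)
    (hY : #Y ≤ y') : Γ ∪ Y ∈ fam 𝒲 j (y + y') :=
  fam_union (j' := 0) h (mem_fam.mpr ⟨∅, empty_subset _, le_rfl, Y, hY, by simp⟩)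

lemma PmLoose_cov {𝒲 : Finset (Finset G)} {b g cap l w K : ℕ} (h𝒲 : TLF 𝒲 b g cap l)
    (hb : 2 ^ 32 * (w + 1) ^ 4 ≤ b) (A : Finset G) (hA : A.Nonempty) (hK : #(A⁻¹ * A) ≤ K * #A)
    (hw : K ≤ 2 ^ w) (hg : 2 ^ (8 * w + 4) * #A ≤ 2 ^ g * cap) :
    ∃ W ∈ 𝒲, ∃ π : G → G, (∀ a ∈ A, a * (π a)⁻¹ ∈ wd W (2 * l)) ∧ #(A.image π) ≤ 2 ^ b := by
  obtain ⟨T, h1, h2, π, h3, h4⟩ := cover A K w b hA hK hw hb
  obtain ⟨W, hW, h5⟩ := h𝒲 T h1 (h2.trans hg)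
  refine ⟨W, hW, π, fun a ha => ?_, h4⟩
  have h6 := h3 a ha
  rw [sq] at h6
  obtain ⟨x, hx, y, hy, e⟩ := mem_mul.mp h6
  rw [← e, two_mul]
  exact wd_mul (h5 hx) (h5 hy)

lemma PmLoose_one {𝒲 : Finset (Finset G)} {y : ℕ} {W Y : Finset G} (hW : W ∈ 𝒲) (hY : #Y ≤ y) :
    W ∪ Y ∈ fam 𝒲 1 y :=
  mem_fam.mpr ⟨{W}, singleton_subset_iff.mpr hW, by simp, Y, hY, by simp⟩

lemma PmLoose_b {w b : ℕ} (hb : 2 ^ 32 * (w + 1) ^ 4 ≤ b) : 1 ≤ b :=
  le_trans (Nat.succ_le_of_lt (by positivity)) hb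

/-- Plan: `cover`, the family, `T ^ 2 ⊆ wd W (2 l)`, `big_one` with `q = b`. -/
theorem piece {𝒲 : Finset (Finset G)} {b g cap l w K : ℕ} (h𝒲 : TLF 𝒲 b g cap l)
    (hb : 2 ^ 32 * (w + 1) ^ 4 ≤ b) (A : Finset G) (hA : A.Nonempty) (hK : #(A⁻¹ * A) ≤ K * #A)
    (hw : K ≤ 2 ^ w) (hg : 2 ^ (8 * w + 4) * #A ≤ 2 ^ g * cap) :
    ∃ Γ ∈ fam 𝒲 1 (8 * K * b + 1), #A ≤ 8 * #(A ∩ wd Γ ((4 * l + 1) * (2 ^ b + 1) + 1)) := by
  obtain ⟨W, hW, π, h1, h2⟩ := PmLoose_cov h𝒲 hb A hA hK hw hg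
  obtain ⟨Y, h3, h4⟩ := big_one A W π K (2 * l) b hA hK (PmLoose_b hb) h2 h1
  rw [show 2 * (2 * l) = 4 * l by ring] at h4
  exact ⟨W ∪ Y, PmLoose_one hW h3, h4⟩

/-- Plan: `#(A'⁻¹ * A') ≤ 2 K * #A'`; `cover` for `A'`, the family, `big_two`, then `finish2` for `A`
with `q = 16`. -/
theorem looseB {𝒲 : Finset (Finset G)} {b g cap l w K k I : ℕ} (h𝒲 : TLF 𝒲 b g cap l)
    (hb : 2 ^ 32 * (w + 1) ^ 4 ≤ b) (A A' : Finset G) (hA : #A = 2 * k) (hA' : A' ⊆ A)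
    (hk' : #A' = k) (hK : #(A⁻¹ * A) ≤ K * #A) (hw : 2 * K ≤ 2 ^ w)
    (hg : 2 ^ (8 * w + 4) * k ≤ 2 ^ g * cap) (hI : 7 ≤ I) (hbI : b ≤ 2 ^ I) (hk : 8 * 2 ^ I ≤ k)
    (hE : 8 * (2 ^ I) ^ 7 * En A' ≤ k ^ 3) :
    ∃ Γ ∈ fam 𝒲 1 (40000 * K), A ⊆ wd Γ (2 * ((4 * l + 1) * (2 ^ b + 1) + 1) + 1) := by
  have hI0 : 0 < 2 ^ I := by positivity
  have hne' : A'.Nonempty := card_pos.mp (by omega)
  have hne : A.Nonempty := hne'.mono hA'
  have hK' : #(A'⁻¹ * A') ≤ 2 * K * #A' := by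
    refine (card_le_card (mul_subset_mul (inv_subset_inv hA') hA')).trans (hK.trans ?_)
    rw [hA, hk']
    exact le_of_eq (by ring)
  subst hk'
  obtain ⟨W, hW, π, h1, h2⟩ := PmLoose_cov h𝒲 hb A' hne' hK' hw hg
  obtain ⟨Y, h3, h4⟩ := big_two A' W π (2 * K) (2 * l) b I hK' (PmLoose_b hb) h2 h1 hI hbI hk hE
  rw [show 2 * (2 * l) = 4 * l by ring] at h4
  have h5 : #(A' ∩ wd (W ∪ Y) ((4 * l + 1) * (2 ^ b + 1) + 1)) ≤
      #(A ∩ wd (W ∪ Y) ((4 * l + 1) * (2 ^ b + 1) + 1)) :=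
    card_le_card (inter_subset_inter_right hA')
  obtain ⟨Y', h6, h7⟩ := finish2 A (W ∪ Y) K ((4 * l + 1) * (2 ^ b + 1) + 1) 16 hne hK (by omega)
  exact ⟨W ∪ Y ∪ Y', fam_mono le_rfl (by omega) (fam_add (PmLoose_one hW h3) h6), h7⟩

/-- Plan: `κ = 8 (2 ^ I) ^ 7 = 2 ^ (3 + 7 I)`. By induction on `i` there is
`Γ ∈ fam 𝒲 i (i (8 * 2 ^ (54 + 70 I) b + 1))` with `k ≤ #Z` or `i k ≤ 64 κ #Z`, `Z = A ∩ wd Γ Λ`: take
`A' ⊆ A \ Z` of size `k`, `bsg`, `piece` with `K = 2 ^ 24 κ ^ 10 = 2 ^ (54 + 70 I)`, `fam_union`. At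
`i = 64 κ`, `finish2` with `q = 2`; `2 ^ (9 + 7 I) (2 ^ (57 + 71 I) + 1) ≤ 2 ^ (80 I) ≤ K`. -/
theorem looseA {𝒲 : Finset (Finset G)} {b g cap l w K k I : ℕ} (h𝒲 : TLF 𝒲 b g cap l)
    (hb : 2 ^ 32 * (w + 1) ^ 4 ≤ b) (A : Finset G) (hk0 : 0 < k) (hA : #A = 2 * k)
    (hK : #(A⁻¹ * A) ≤ K * #A) (hw : 54 + 70 * I ≤ w)
    (hg : 2 ^ (8 * w + 4) * k ≤ 2 ^ g * cap) (hI : 34 ≤ I) (hbI : b ≤ 2 ^ I) (hKI : 2 ^ (80 * I) ≤ K)
    (hE : ∀ A' ⊆ A, #A' = k → k ^ 3 < 8 * (2 ^ I) ^ 7 * En A') :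
    ∃ Γ ∈ fam 𝒲 (2 ^ (9 + 7 * I)) (40000 * K),
      A ⊆ wd Γ (2 * ((4 * l + 1) * (2 ^ b + 1) + 1) + 1) := by
  obtain ⟨κ, hκ⟩ : ∃ κ, κ = 8 * (2 ^ I) ^ 7 := ⟨_, rfl⟩
  obtain ⟨Λ, hΛ⟩ : ∃ Λ, Λ = (4 * l + 1) * (2 ^ b + 1) + 1 := ⟨_, rfl⟩
  have hκ0 : 0 < κ := by rw [hκ]; positivity
  have e1 : 2 ^ 24 * κ ^ 10 = 2 ^ (54 + 70 * I) := by rw [hκ]; ring
  have e2 : 64 * κ = 2 ^ (9 + 7 * I) := by rw [hκ]; ring
  obtain ⟨y, hy⟩ : ∃ y, y = 8 * 2 ^ (54 + 70 * I) * b + 1 := ⟨_, rfl⟩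
  have key : ∀ i, ∃ Γ ∈ fam 𝒲 i (i * y),
      k ≤ #(A ∩ wd Γ Λ) ∨ i * k ≤ 64 * κ * #(A ∩ wd Γ Λ) := by
    intro i
    induction i with
    | zero => exact ⟨∅, mem_fam.mpr ⟨∅, empty_subset _, le_rfl, ∅, by simp, by simp⟩,
        Or.inr (by simp)⟩
    | succ i ih =>
      obtain ⟨Γ, g1, g2⟩ := ih
      by_cases hZ : k ≤ #(A ∩ wd Γ Λ)
      · exact ⟨Γ, fam_mono (Nat.le_succ i) (Nat.mul_le_mul_right _ (Nat.le_succ i)) g1, Or.inl hZ⟩
      have g3 := g2.resolve_left hZ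
      have c1 : k ≤ #(A \ wd Γ Λ) := by
        have := card_sdiff_add_card_inter A (wd Γ Λ)
        omega
      obtain ⟨A', a1, a2⟩ := exists_subset_card_eq c1
      have a3 := hE A' (a1.trans sdiff_subset) a2
      obtain ⟨B, b1, b2, b3⟩ := bsg A' κ (card_pos.mp (by omega)) (by rw [a2, hκ]; exact a3.le)
      rw [a2] at b2
      rw [e1] at b3
      have b4 : B.Nonempty := card_pos.mp (Nat.pos_of_ne_zero fun h => by
        rw [h] at b2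
        omega)
      have b5 : #B ≤ k := a2 ▸ card_le_card b1
      obtain ⟨Γ', p1, p2⟩ := piece h𝒲 hb B b4 b3 (Nat.pow_le_pow_right two_pos hw)
        ((Nat.mul_le_mul_left _ b5).trans hg)
      rw [← hy] at p1
      rw [← hΛ] at p2
      have d1 : Disjoint (A ∩ wd Γ Λ) (B ∩ wd Γ' Λ) := disjoint_left.mpr fun x hx hx' =>
        (mem_sdiff.mp (a1 (b1 (mem_inter.mp hx').1))).2 (mem_inter.mp hx).2
      have d2 : A ∩ wd Γ Λ ∪ B ∩ wd Γ' Λ ⊆ A ∩ wd (Γ ∪ Γ') Λ :=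
        union_subset (inter_subset_inter_left (wd_mono subset_union_left le_rfl))
          (inter_subset_inter (b1.trans (a1.trans sdiff_subset))
            (wd_mono subset_union_right le_rfl))
      have d3 := card_le_card d2
      rw [card_union_of_disjoint d1] at d3
      refine ⟨Γ ∪ Γ', by rw [add_one_mul]; exact fam_union g1 p1, Or.inr ?_⟩
      calc (i + 1) * k = i * k + k := add_one_mul _ _
        _ ≤ 64 * κ * #(A ∩ wd Γ Λ) + 8 * κ * (8 * #(B ∩ wd Γ' Λ)) :=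
            Nat.add_le_add g3 (b2.trans (Nat.mul_le_mul_left _ p2))
        _ = 64 * κ * (#(A ∩ wd Γ Λ) + #(B ∩ wd Γ' Λ)) := by ring
        _ ≤ _ := Nat.mul_le_mul_left _ d3
  obtain ⟨Γ, g1, g2⟩ := key (64 * κ)
  have g3 : k ≤ #(A ∩ wd Γ Λ) :=
    g2.elim id fun h => Nat.le_of_mul_le_mul_left h (by omega)
  obtain ⟨Y, y1, y2⟩ := finish2 A Γ K Λ 2 (card_pos.mp (by omega)) hK (by omega)
  rw [e2] at g1
  rw [hΛ] at y2
  refine ⟨Γ ∪ Y, fam_mono le_rfl ?_ (fam_add g1 y1), y2⟩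
  have n1 : y ≤ 2 ^ (58 + 71 * I) := by
    have n2 : 8 * 2 ^ (54 + 70 * I) * b ≤ 8 * 2 ^ (54 + 70 * I) * 2 ^ I := Nat.mul_le_mul_left _ hbI
    have n3 : 2 ^ (58 + 71 * I) = 2 * (8 * 2 ^ (54 + 70 * I) * 2 ^ I) := by ring
    have n4 : 0 < 8 * 2 ^ (54 + 70 * I) * 2 ^ I := by positivity
    omega
  have n5 : 2 ^ (9 + 7 * I) * y ≤ K :=
    calc 2 ^ (9 + 7 * I) * y ≤ 2 ^ (9 + 7 * I) * 2 ^ (58 + 71 * I) := Nat.mul_le_mul_left _ n1
      _ = 2 ^ (9 + 7 * I + (58 + 71 * I)) := (pow_add _ _ _).symm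
      _ ≤ 2 ^ (80 * I) := Nat.pow_le_pow_right two_pos (by omega)
      _ ≤ K := hKI
  omega

end Pool.Agent.Work.MP_5dd17b_co.Pm
end

-- merged part: Pool.Agent.Work.MP_5dd17b_co.PmUnion
section
/-!
The two new union bounds.
-/

set_option autoImplicit false
set_option linter.unusedSectionVars false

namespace Pool.Agent.Work.MP_5dd17b_co.Pm

open Finset
open scoped Pointwise

variable {G : Type} [Group G] [DecidableEq G] [Fintype G]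

/-- Plan: the term of index `k` in `add_pow` for `(1 / ρ + 1) ^ (ρ k) ≤ exp k ≤ 3 ^ k`. -/
lemma choose_le (ρ k n : ℕ) (hρ : 0 < ρ) (hn : n ≤ ρ * k) : n.choose k ≤ (3 * ρ) ^ k := by
  have _ := hρ
  have h1 : (n.choose k : ℝ) ≤ (n : ℝ) ^ k / k.factorial := Nat.choose_le_pow_div k n
  have h2 := Real.pow_div_factorial_le_exp (k : ℝ) (Nat.cast_nonneg k) k
  have h3 : Real.exp k ≤ 3 ^ k := by
    rw [← mul_one (k : ℝ), Real.exp_nat_mul]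
    exact pow_le_pow_left₀ (Real.exp_pos 1).le (by linarith only [Real.exp_one_lt_d9]) k
  have h4 : (n : ℝ) ≤ ρ * k := by exact_mod_cast hn
  have h5 : (n.choose k : ℝ) ≤ (3 * ρ) ^ k :=
    calc (n.choose k : ℝ) ≤ (ρ * k) ^ k / k.factorial := h1.trans (by gcongr)
      _ = (k : ℝ) ^ k / k.factorial * ρ ^ k := by rw [mul_pow]; ring
      _ ≤ 3 ^ k * ρ ^ k := mul_le_mul_of_nonneg_right (h2.trans h3) (by positivity)
      _ = _ := (mul_pow _ _ _).symm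
  exact_mod_cast h5

lemma PmUnion_pow (m : ℕ) (hm : 64 ≤ m) : 12 * (16 * (m + 1)) ^ 4 ≤ 2 ^ m := by
  induction m, hm using Nat.le_induction with
  | base => norm_num
  | succ m hm ih =>
    have h := Nat.pow_le_pow_left (show 8 * (m + 1 + 1) ≤ 9 * (m + 1) by omega) 4
    rw [mul_pow] at ih ⊢
    rw [mul_pow, mul_pow] at h
    rw [pow_succ 2 m]
    omega

/-- Plan: `48 (k + 1) ≤ 2 ^ (K k / 16)`, `12 K ^ 4 ≤ 2 ^ (K / 16)` for `K ≥ 1024`, and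
`4 (K k / 16) ≤ (K - 1) k / 2`. -/
lemma union3_num (K k : ℕ) (hK : 1024 ≤ K) (hk : 16 ≤ k) :
    12 * (k + 1) * (2 ^ (K * k / 16) * 2 ^ (K * k / 16) * (12 * K ^ 4) ^ k * 2) ≤
      2 ^ ((K - 1) * k / 2) := by
  obtain ⟨t, ht⟩ : ∃ t, t = K * k / 16 := ⟨_, rfl⟩
  have e1 : K * k = (K - 1) * k + k := by
    obtain ⟨K, rfl⟩ : ∃ K', K = K' + 1 := ⟨K - 1, by omega⟩
    rw [Nat.add_sub_cancel, add_mul, one_mul]
  have e2 : 1024 * k ≤ K * k := Nat.mul_le_mul_right _ hK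
  have e3 : 16 * (K / 16 * k) ≤ K * k := by
    rw [← mul_assoc]
    exact Nat.mul_le_mul_right _ (Nat.mul_div_le _ _)
  have a1 : (12 * K ^ 4) ^ k ≤ 2 ^ t := by
    have h1 : 12 * K ^ 4 ≤ 2 ^ (K / 16) :=
      (Nat.mul_le_mul_left _ (Nat.pow_le_pow_left (by omega) 4)).trans
        (PmUnion_pow (K / 16) (by omega))
    refine (Nat.pow_le_pow_left h1 k).trans ?_
    rw [← pow_mul]
    exact Nat.pow_le_pow_right two_pos (by omega)
  have a2 : 24 * (k + 1) ≤ 2 ^ t := by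
    have h1 : k < 2 ^ k := Nat.lt_two_pow_self
    have h2 : 2 ^ (k + 5) ≤ 2 ^ t := Nat.pow_le_pow_right two_pos (by omega)
    rw [pow_add] at h2
    omega
  rw [← ht]
  calc 12 * (k + 1) * (2 ^ t * 2 ^ t * (12 * K ^ 4) ^ k * 2)
      = 24 * (k + 1) * (2 ^ t * 2 ^ t * (12 * K ^ 4) ^ k) := by ring
    _ ≤ 2 ^ t * (2 ^ t * 2 ^ t * 2 ^ t) := Nat.mul_le_mul a2 (Nat.mul_le_mul_left _ a1)
    _ = 2 ^ (4 * t) := by ring
    _ ≤ _ := Nat.pow_le_pow_right two_pos (by omega)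

open Classical in
lemma PmUnion_one (π : G → G) (s : G → Bool) (hπ : ∀ z, #(univ.filter fun x => π x = z) ≤ 2)
    (W : Finset G) (j e : ℕ) :
    #(((powersetCard j W).filter fun A => e < #(A⁻¹ * A)).biUnion fun A =>
      univ.biUnion fun c => univ.filter fun ω => Mono π s ω A c) ≤
      (#W).choose j * (2 * (2 ^ Fintype.card G / 2 ^ (e / 2))) := by
  refine (card_biUnion_le_card_mul _ _ _ fun A hA => ?_).trans
    (Nat.mul_le_mul_right _ ((card_filter_le _ _).trans (card_powersetCard _ _).le))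
  refine (card_biUnion_le_card_mul _ _ (2 ^ Fintype.card G / 2 ^ (e / 2)) fun b _ => ?_).trans
    (by simp)
  rw [Nat.le_div_iff_mul_le (by positivity)]
  exact count_one π s 2 two_pos hπ A b _ (mem_filter.mp hA).2

open Classical in
/-- Plan: as `union2`. For each `K` the bad `ω` lie in the union over `Γ ∈ 𝓕 K`, over `R1, R2` among
the small subsets of `wd Γ (3 Λ)` (`tight`, `card_small`) with `#(R1⁻¹ * R2) ≤ 4 K ^ 4 k`, over the
`A` in `powersetCard k (R1⁻¹ * R2)` with `(K - 1) k < #(A⁻¹ * A)` (`choose_le`), and over `c`, of sets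
bounded by `count_one` with `f = 2`; `K ≤ K1 ≤ k`; `union3_num`. -/
theorem union3 (π : G → G) (s : G → Bool) (hπ : ∀ z, #(univ.filter fun x => π x = z) ≤ 2)
    (𝓕 : ℕ → Finset (Finset G)) (k K0 K1 Λ B q : ℕ) (hK0 : 1024 ≤ K0) (hk : 16 ≤ k)
    (hq : k < 2 ^ q) (hK1 : 2 * K1 ≤ Nat.sqrt k)
    (h1 : ∀ K, K0 ≤ K → K ≤ K1 → #(𝓕 K) ≤ 2 ^ (K * k / 16) ∧
      (∀ Γ ∈ 𝓕 K, #(wd Γ (3 * Λ)) + 1 ≤ 2 ^ B) ∧
      (Nat.sqrt k + 2 * K ^ 2 * (Nat.sqrt k + 2) * q) * B ≤ K * k / 16) :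
    12 * #(univ.filter fun ω => ∃ (A : Finset G) (K : ℕ), #A = k ∧ K0 ≤ K ∧ K ≤ K1 ∧
      (K - 1) * k < #(A⁻¹ * A) ∧ #(A⁻¹ * A) ≤ K * k ∧ (∃ Γ ∈ 𝓕 K, A ⊆ wd Γ Λ) ∧
      ∃ c, Mono π s ω A c) ≤ 2 ^ Fintype.card G := by
  obtain ⟨S, hS⟩ : ∃ S : ℕ → Finset (G → Bool), ∀ K, S K = (𝓕 K).biUnion fun Γ =>
      ((((wd Γ (3 * Λ)).powerset.filter fun F => #F ≤ Nat.sqrt k) ×ˢ
        ((wd Γ (3 * Λ)).powerset.filter fun F => #F ≤ 2 * K ^ 2 * (Nat.sqrt k + 2) * q)).filter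
          fun R => #(R.1⁻¹ * R.2) ≤ 4 * K ^ 4 * k).biUnion fun R =>
        ((powersetCard k (R.1⁻¹ * R.2)).filter fun A => (K - 1) * k < #(A⁻¹ * A)).biUnion fun A =>
          univ.biUnion fun c => univ.filter fun ω => Mono π s ω A c := ⟨_, fun _ => rfl⟩
  have h3 : ∀ K, K0 ≤ K → K ≤ K1 → 12 * (k + 1) * #(S K) ≤ 2 ^ Fintype.card G := by
    intro K a1 a2
    obtain ⟨b1, b2, b3⟩ := h1 K a1 a2
    obtain ⟨X, hX⟩ : ∃ X, X = 2 ^ Fintype.card G / 2 ^ ((K - 1) * k / 2) := ⟨_, rfl⟩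
    have b4 : #(S K) ≤ 2 ^ (K * k / 16) * (2 ^ (K * k / 16) * ((12 * K ^ 4) ^ k * (2 * X))) := by
      rw [hS]
      refine (card_biUnion_le_card_mul _ _ _ fun Γ hΓ => ?_).trans (Nat.mul_le_mul_right _ b1)
      refine (card_biUnion_le_card_mul _ _ ((12 * K ^ 4) ^ k * (2 * X)) fun R hR => ?_).trans
        (Nat.mul_le_mul_right _ ?_)
      · refine (PmUnion_one π s hπ _ _ _).trans ?_
        rw [← hX, show 12 * K ^ 4 = 3 * (4 * K ^ 4) by ring]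
        exact Nat.mul_le_mul_right _ (choose_le _ _ _
          (Nat.mul_pos four_pos (Nat.pow_pos (by omega))) (mem_filter.mp hR).2)
      · refine (card_filter_le _ _).trans ?_
        rw [card_product]
        refine (Nat.mul_le_mul (card_small _ _) (card_small _ _)).trans ?_
        rw [← pow_add]
        refine (Nat.pow_le_pow_left (b2 Γ hΓ) _).trans ?_
        rw [← pow_mul, mul_comm]
        exact Nat.pow_le_pow_right two_pos b3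
    calc 12 * (k + 1) * #(S K)
        ≤ 12 * (k + 1) * (2 ^ (K * k / 16) * 2 ^ (K * k / 16) * (12 * K ^ 4) ^ k * 2) * X :=
          (Nat.mul_le_mul_left _ b4).trans (le_of_eq (by ring))
      _ ≤ 2 ^ ((K - 1) * k / 2) * X := Nat.mul_le_mul_right _ (union3_num K k (by omega) hk)
      _ ≤ _ := hX ▸ Nat.mul_div_le _ _
  refine Nat.le_of_mul_le_mul_left (c := k + 1) ?_ (by omega)
  rw [← mul_assoc, mul_comm (k + 1)]
  refine (Nat.mul_le_mul_left _ ((card_le_card (t := ((range (k + 1)).filter fun K =>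
    K0 ≤ K ∧ K ≤ K1).biUnion S) fun ω hω => ?_).trans card_biUnion_le)).trans ?_
  · obtain ⟨A, K, rfl, a1, a2, a3, a4, ⟨Γ, a5, a6⟩, c, a7⟩ := (mem_filter.mp hω).2
    have a8 := Nat.sqrt_le_self #A
    obtain ⟨R1, r1, R2, r2, r3, r4, r5, r6⟩ :=
      tight A Γ K Λ q (card_pos.mp (by omega)) a4 (by omega) hq a6
    refine mem_biUnion.mpr ⟨K, mem_filter.mpr ⟨mem_range.mpr (by omega), a1, a2⟩, ?_⟩
    rw [hS]
    exact mem_biUnion.mpr ⟨Γ, a5, mem_biUnion.mpr ⟨(R1, R2), mem_filter.mpr ⟨mem_product.mpr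
      ⟨mem_filter.mpr ⟨mem_powerset.mpr r1, r3⟩, mem_filter.mpr ⟨mem_powerset.mpr r2, r4⟩⟩, r6⟩,
      mem_biUnion.mpr ⟨A, mem_filter.mpr ⟨mem_powersetCard.mpr ⟨r5, rfl⟩, a3⟩,
        mem_biUnion.mpr ⟨c, mem_univ _, mem_filter.mpr ⟨mem_univ _, a7⟩⟩⟩⟩⟩
  · rw [mul_sum]
    refine (sum_le_card_nsmul _ _ _ fun K hK =>
      h3 K (mem_filter.mp hK).2.1 (mem_filter.mp hK).2.2).trans ?_
    exact Nat.mul_le_mul_right _ ((card_filter_le _ _).trans (card_range _).le)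

open Classical in
/-- Plan: `spread` with `M = k / 16`, `j = sqrt k` gives `A ⊆ Z` with `#A = sqrt k` and
`k / 16 ≤ #(A⁻¹ * A)`; `count_one` with `e = k / 16 - 1`, `f = 2`; the number of triples `(Γ, A, c)` is
at most `2 ^ (k / 128) * 2 ^ (k / 128) * 2`. -/
theorem union4 (π : G → G) (s : G → Bool) (hπ : ∀ z, #(univ.filter fun x => π x = z) ≤ 2)
    (𝓕 : Finset (Finset G)) (k Λ B : ℕ) (hk : 1024 ≤ k) (h1 : #𝓕 ≤ 2 ^ (k / 128))
    (h2 : ∀ Γ ∈ 𝓕, #(wd Γ Λ) + 1 ≤ 2 ^ B) (h3 : Nat.sqrt k * B ≤ k / 128) :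
    12 * #(univ.filter fun ω => ∃ Γ ∈ 𝓕, ∃ Z ⊆ wd Γ Λ, k ≤ 8 * #Z ∧ ∃ c, Mono π s ω Z c) ≤
      2 ^ Fintype.card G := by
  obtain ⟨j, hj⟩ : ∃ j, j = Nat.sqrt k := ⟨_, rfl⟩
  rw [← hj] at h3
  have j1 : j * j ≤ k := hj ▸ Nat.sqrt_le k
  have j2 : k < (j + 1) * (j + 1) := hj ▸ Nat.lt_succ_sqrt k
  have j3 : 32 ≤ j := hj ▸ Nat.le_sqrt.mpr (by omega)
  have j4 : 32 * j ≤ j * j := Nat.mul_le_mul_right _ j3
  have j5 : (j + 1) * (j + 1) = j * j + 2 * j + 1 := by ring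
  obtain ⟨X, hX⟩ : ∃ X, X = 2 ^ Fintype.card G / 2 ^ ((k / 16 - 1) / 2) := ⟨_, rfl⟩
  have b1 : #(𝓕.biUnion fun Γ => ((powersetCard j (wd Γ Λ)).filter fun A =>
      k / 16 - 1 < #(A⁻¹ * A)).biUnion fun A => univ.biUnion fun c =>
        univ.filter fun ω => Mono π s ω A c) ≤ 2 ^ (k / 128) * (2 ^ (k / 128) * (2 * X)) := by
    refine (card_biUnion_le_card_mul _ _ _ fun Γ hΓ => ?_).trans (Nat.mul_le_mul_right _ h1)
    refine (PmUnion_one π s hπ _ _ _).trans ?_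
    rw [← hX]
    refine Nat.mul_le_mul_right _ ((Nat.choose_le_pow _ _).trans
      ((Nat.pow_le_pow_left ((Nat.le_succ _).trans (h2 Γ hΓ)) _).trans ?_))
    rw [← pow_mul, mul_comm]
    exact Nat.pow_le_pow_right two_pos h3
  refine (Nat.mul_le_mul_left _ ((card_le_card fun ω hω => ?_).trans b1)).trans ?_
  · obtain ⟨Γ, a1, Z, a2, a3, c, a4⟩ := (mem_filter.mp hω).2
    obtain ⟨A, c1, c2, c3⟩ := spread Z (k / 16) (by omega) j (by omega)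
    exact mem_biUnion.mpr ⟨Γ, a1, mem_biUnion.mpr ⟨A, mem_filter.mpr
      ⟨mem_powersetCard.mpr ⟨c1.trans a2, c2⟩, by omega⟩, mem_biUnion.mpr ⟨c, mem_univ _,
        mem_filter.mpr ⟨mem_univ _, fun a ha b hb => a4 a (c1 ha) b (c1 hb)⟩⟩⟩⟩
  · calc 12 * (2 ^ (k / 128) * (2 ^ (k / 128) * (2 * X)))
        ≤ 16 * (2 ^ (k / 128) * (2 ^ (k / 128) * (2 * X))) := Nat.mul_le_mul_right _ (by norm_num)
      _ = 2 ^ (5 + k / 128 + k / 128) * X := by rw [pow_add, pow_add]; ring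
      _ ≤ 2 ^ ((k / 16 - 1) / 2) * X :=
          Nat.mul_le_mul_right _ (Nat.pow_le_pow_right two_pos (by omega))
      _ ≤ _ := hX ▸ Nat.mul_div_le _ _

end Pool.Agent.Work.MP_5dd17b_co.Pm
end

-- merged part: Pool.Agent.Work.MP_5dd17b_co.PmNum
section
/-!
Numerical facts for the final assembly.
-/

set_option autoImplicit false

namespace Pool.Agent.Work.MP_5dd17b_co.Pm

/-- the growth exponent at scale `I` -/
def bb (I : ℕ) : ℕ := 2 ^ 32 * (80 * I + 81 + 1) ^ 4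

/-- the size exponent at scale `I` -/
def gx (I g0 : ℕ) : ℕ := 8 * (80 * I + 81) + 4 + g0

/-- the word length at scale `I` -/
def ln (I g0 : ℕ) : ℕ := (4 * (6 * (bb I + gx I g0) + 6) + 1) * (2 ^ bb I + 1) + 1

lemma bb_mono {I J : ℕ} (h : I ≤ J) : bb I ≤ bb J :=
  Nat.mul_le_mul_left _ (Nat.pow_le_pow_left (by omega) _)

lemma PmNum_step (x : ℕ) (h : 800 ≤ x) : (x + 80) ^ 4 ≤ 2 * x ^ 4 := by
  have h1 : 10 * (x + 80) ≤ 11 * x := by omega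
  have h2 := Nat.pow_le_pow_left h1 4
  rw [mul_pow, mul_pow] at h2
  omega

/-- Plan: `Nat.le_induction`; `(80 I + 162) ^ 4 ≤ 2 (80 I + 82) ^ 4`. -/
lemma bb_le {I : ℕ} (h : 90 ≤ I) : bb I ≤ 2 ^ I := by
  induction I, h using Nat.le_induction with
  | base => unfold bb; norm_num
  | succ I hI ih =>
    have h1 := PmNum_step (80 * I + 81 + 1) (by omega)
    have h2 : 80 * (I + 1) + 81 + 1 = 80 * I + 81 + 1 + 80 := by ring
    unfold bb at ih ⊢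
    rw [h2, pow_succ 2 I]
    omega

lemma gx_le (I g0 : ℕ) : gx I g0 ≤ bb I + g0 := by
  have : 80 * I + 81 + 1 ≤ (80 * I + 81 + 1) ^ 4 := Nat.le_self_pow (by norm_num) _
  unfold gx bb
  omega

lemma PmNum_first {I g0 μ m : ℕ} (hI : 90 ≤ I) (hμ : 1 ≤ μ) (hm : 1 ≤ m) (hg : g0 ^ 2 ≤ μ) :
    30000 * (bb I ^ 2 * μ + gx I g0 ^ 2) * m + 1 ≤ 2 ^ (18 + 2 * I) * (μ * m) := by
  have h1 := bb_le hI
  have h2 := gx_le I g0
  have h3 : 2 ^ (18 + 2 * I) = 262144 * (2 ^ I) ^ 2 := by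
    ring
  have h4 : 1 ≤ 2 ^ I := Nat.one_le_two_pow
  rw [h3]
  generalize 2 ^ I = T at *
  generalize bb I = b at *
  generalize gx I g0 = g at *
  have h5 : b ^ 2 ≤ T ^ 2 := Nat.pow_le_pow_left h1 2
  have h6 : g ^ 2 ≤ (b + g0) ^ 2 := Nat.pow_le_pow_left h2 2
  have h7 : (b + g0) ^ 2 ≤ 2 * b ^ 2 + 2 * g0 ^ 2 := by linarith only [sq_nonneg ((b : ℤ) - g0), sq_nonneg (↑b - ↑g0)]
  have h8 : 1 ≤ T ^ 2 := Nat.one_le_pow _ _ h4
  have h9 : T ^ 2 ≤ T ^ 2 * μ := Nat.le_mul_of_pos_right _ hμ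
  have h10 : μ ≤ T ^ 2 * μ := Nat.le_mul_of_pos_left _ h8
  have h11 : b ^ 2 * μ ≤ T ^ 2 * μ := Nat.mul_le_mul_right _ h5
  have h12 : b ^ 2 * μ + g ^ 2 ≤ 5 * (T ^ 2 * μ) := by omega
  have h13 : 30000 * (b ^ 2 * μ + g ^ 2) * m ≤ 30000 * (5 * (T ^ 2 * μ)) * m :=
    Nat.mul_le_mul_right _ (Nat.mul_le_mul_left _ h12)
  have h14 : 1 ≤ T ^ 2 * μ * m := Nat.mul_pos (by omega) hm
  have h15 : 30000 * (5 * (T ^ 2 * μ)) * m = 150000 * (T ^ 2 * μ * m) := by ring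
  have h16 : 262144 * T ^ 2 * (μ * m) = 262144 * (T ^ 2 * μ * m) := by ring
  omega

/-- Plan: `bb I ≤ 2 ^ I`, `gx ^ 2 ≤ 4 * 2 ^ (2 I) * μ`, `2 ^ (9 + 7 I) * 2 ^ 18 * 2 ^ (2 I) ≤ 2 ^ (80 I)`. -/
lemma num_big {I g0 μ m K D : ℕ} (hI : 90 ≤ I) (hμ : 1 ≤ μ) (hm : 1 ≤ m) (hg : g0 ^ 2 ≤ μ)
    (hK : 2 ^ (80 * I) ≤ K) (hD : 80002 ≤ D) :
    2 ^ (9 + 7 * I) * (30000 * (bb I ^ 2 * μ + gx I g0 ^ 2) * m + 1) + (μ * m + 1) * (40000 * K) ≤
      K * (2 * (8 * D * μ * m)) / 16 := by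
  have h1 := PmNum_first hI hμ hm hg
  have h2 : K * (2 * (8 * D * μ * m)) / 16 = K * D * (μ * m) := by
    rw [show K * (2 * (8 * D * μ * m)) = 16 * (K * D * (μ * m)) by ring]
    exact Nat.mul_div_cancel_left _ (by norm_num)
  rw [h2]
  have hp : 1 ≤ μ * m := Nat.mul_pos hμ hm
  generalize μ * m = P at *
  have h3 : 2 ^ (9 + 7 * I) * 2 ^ (18 + 2 * I) ≤ K := by
    rw [← pow_add]
    exact (Nat.pow_le_pow_right (by norm_num) (by omega)).trans hK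
  have h4 := Nat.mul_le_mul_left (2 ^ (9 + 7 * I)) h1
  have h5 : 2 ^ (9 + 7 * I) * (2 ^ (18 + 2 * I) * P) ≤ K * P := by
    rw [← mul_assoc]
    exact Nat.mul_le_mul_right _ h3
  have h6 : (P + 1) * (40000 * K) ≤ 80000 * (K * P) := by
    have : (P + 1) * (40000 * K) ≤ (2 * P) * (40000 * K) := Nat.mul_le_mul_right _ (by omega)
    linarith only [this]
  have h7 : 80002 * (K * P) ≤ K * D * P := by
    have := Nat.mul_le_mul_right (K * P) hD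
    linarith only [this]
  omega

lemma num_small {I g0 μ m : ℕ} (hI : 90 ≤ I) (hμ : 1 ≤ μ) (hm : 1 ≤ m) (hg : g0 ^ 2 ≤ μ) :
    (30000 * (bb I ^ 2 * μ + gx I g0 ^ 2) * m + 1) + (μ * m + 1) * (8 * 2 ^ (80 * I) * bb I + 1) ≤
      2 * (8 * 2 ^ (81 * I + 12) * μ * m) / 128 := by
  have h1 := PmNum_first hI hμ hm hg
  have h2 : 2 * (8 * 2 ^ (81 * I + 12) * μ * m) / 128 = 512 * (2 ^ (81 * I) * (μ * m)) := by
    rw [show 2 * (8 * 2 ^ (81 * I + 12) * μ * m) = 128 * (512 * (2 ^ (81 * I) * (μ * m))) by ring]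
    exact Nat.mul_div_cancel_left _ (by norm_num)
  rw [h2]
  have hp : 1 ≤ μ * m := Nat.mul_pos hμ hm
  generalize μ * m = P at *
  have h3 : 2 ^ (18 + 2 * I) ≤ 2 ^ (81 * I) := Nat.pow_le_pow_right (by norm_num) (by omega)
  have h4 : 2 ^ (80 * I) * bb I ≤ 2 ^ (81 * I) := by
    rw [show 81 * I = 80 * I + I by ring, pow_add]
    exact Nat.mul_le_mul_left _ (bb_le hI)
  have h5 : 1 ≤ 2 ^ (81 * I) := Nat.one_le_two_pow
  have h6 : 8 * 2 ^ (80 * I) * bb I + 1 ≤ 9 * 2 ^ (81 * I) := by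
    rw [mul_assoc]
    omega
  have h7 : (P + 1) * (8 * 2 ^ (80 * I) * bb I + 1) ≤ (2 * P) * (9 * 2 ^ (81 * I)) :=
    Nat.mul_le_mul (by omega) h6
  have h8 : 2 ^ (18 + 2 * I) * P ≤ 2 ^ (81 * I) * P := Nat.mul_le_mul_right _ h3
  have h9 : (2 * P) * (9 * 2 ^ (81 * I)) = 18 * (2 ^ (81 * I) * P) := by ring
  omega

/-- Plan: `μ < 2 ^ (x + 1)`, `ln ≤ 147 μ 2 ^ (bb I)`. -/
lemma num_len {I g0 μ : ℕ} (hb : 16 * bb I ≤ μ) (hg : gx I g0 ≤ μ) :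
    2 * ln I g0 + 1 ≤ 2 ^ (10 + Nat.log 2 μ + μ / 16) := by
  have h0 : 1 ≤ bb I := by unfold bb; exact Nat.mul_pos (by positivity) (by positivity)
  have h1 : μ < 2 ^ (Nat.log 2 μ + 1) := Nat.lt_pow_succ_log_self (by norm_num) μ
  have h2 : 2 ^ bb I ≤ 2 ^ (μ / 16) := Nat.pow_le_pow_right (by norm_num) (by omega)
  have h3 : 1 ≤ 2 ^ bb I := Nat.one_le_two_pow
  have h4 : 4 * (6 * (bb I + gx I g0) + 6) + 1 ≤ 73 * μ := by omega
  have h5 : 2 ^ bb I + 1 ≤ 2 * 2 ^ (μ / 16) := by omega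
  have h6 := Nat.mul_le_mul h4 h5
  have h7 : μ * 2 ^ (μ / 16) ≤ 2 ^ (Nat.log 2 μ + 1) * 2 ^ (μ / 16) := Nat.mul_le_mul_right _ h1.le
  have h8 : 1 ≤ 2 ^ (Nat.log 2 μ) * 2 ^ (μ / 16) := Nat.mul_pos (by positivity) (by positivity)
  have h9 : 2 ^ (10 + Nat.log 2 μ + μ / 16) = 1024 * (2 ^ (Nat.log 2 μ) * 2 ^ (μ / 16)) := by ring
  have h10 : 2 ^ (Nat.log 2 μ + 1) * 2 ^ (μ / 16) = 2 * (2 ^ (Nat.log 2 μ) * 2 ^ (μ / 16)) := by ring
  have h11 : 73 * μ * (2 * 2 ^ (μ / 16)) = 146 * (μ * 2 ^ (μ / 16)) := by ring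
  unfold ln
  omega

/-- Plan: `a + 2 K ^ 2 (a + 2) q ≤ 7 K ^ 2 q a` and `a * a ≤ k`. -/
lemma num_tight {k K K1 q B : ℕ} (hK : 1 ≤ K) (hK1 : K ≤ K1) (hq : 1 ≤ q) (hB : 1 ≤ B)
    (h : 112 * K1 * q * B ≤ Nat.sqrt k) :
    (Nat.sqrt k + 2 * K ^ 2 * (Nat.sqrt k + 2) * q) * B ≤ K * k / 16 := by
  rw [Nat.le_div_iff_mul_le (by norm_num)]
  have h1 : Nat.sqrt k * Nat.sqrt k ≤ k := Nat.sqrt_le k
  generalize Nat.sqrt k = a at *
  have h2 : 112 * K * q * B ≤ a :=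
    (Nat.mul_le_mul_right _ (Nat.mul_le_mul_right _ (Nat.mul_le_mul_left _ hK1))).trans h
  have h3 : 1 ≤ a := le_trans (Nat.mul_pos (Nat.mul_pos (by omega) hq) hB) h2
  have h4 : 1 ≤ K ^ 2 * q := Nat.mul_pos (by positivity) hq
  have h5 : a ≤ K ^ 2 * q * a := Nat.le_mul_of_pos_left _ h4
  have h6 : 2 * K ^ 2 * (a + 2) * q ≤ 2 * K ^ 2 * (3 * a) * q :=
    Nat.mul_le_mul_right _ (Nat.mul_le_mul_left _ (by omega))
  have h7 : 2 * K ^ 2 * (3 * a) * q = 6 * (K ^ 2 * q * a) := by ring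
  have h8 : a + 2 * K ^ 2 * (a + 2) * q ≤ 7 * (K ^ 2 * q * a) := by omega
  calc (a + 2 * K ^ 2 * (a + 2) * q) * B * 16 ≤ 7 * (K ^ 2 * q * a) * B * 16 :=
        Nat.mul_le_mul_right _ (Nat.mul_le_mul_right _ h8)
    _ = (112 * K * q * B) * (K * a) := by ring
    _ ≤ a * (K * a) := Nat.mul_le_mul_right _ h2
    _ = K * (a * a) := by ring
    _ ≤ K * k := Nat.mul_le_mul_left _ h1

/-- Plan: all factors are powers of two up to `μ < 2 ^ (x + 1)`; the exponent is at most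
`26 + 3 x + μ / 10 + μ / 16 ≤ (μ - 1) / 2`, as `2 ^ 36 (x + 1) ≤ μ`; `Nat.le_sqrt`. -/
lemma num_sqrt {μ m k : ℕ} (hb : 16 * bb (Nat.log 2 μ + 2) ≤ μ) (hm : 2 ^ μ ≤ 2 * m) (hk : m ≤ k) :
    112 * 2 ^ (μ / 10 + 1) * (2 * μ + 1) * (2 * μ * (3 * 2 ^ (10 + Nat.log 2 μ + μ / 16)) + 1) ≤
      Nat.sqrt k := by
  have h1 : μ < 2 ^ (Nat.log 2 μ + 1) := Nat.lt_pow_succ_log_self (by norm_num) μ
  generalize Nat.log 2 μ = x at *
  have h2 : 80 * (x + 2) + 81 + 1 ≤ (80 * (x + 2) + 81 + 1) ^ 4 := Nat.le_self_pow (by norm_num) _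
  have h3 : 2 * (24 + 3 * x + μ / 10 + μ / 16) + 1 ≤ μ := by
    unfold bb at hb
    omega
  have h4 : 2 * μ + 1 ≤ 2 ^ (x + 2) := by
    rw [pow_succ 2 (x + 1)]
    omega
  have h5 : 2 * μ * (3 * 2 ^ (10 + x + μ / 16)) + 1 ≤ 2 ^ (14 + 2 * x + μ / 16) := by
    have a1 : 1 ≤ 2 ^ (x + 1) * 2 ^ (10 + x + μ / 16) := Nat.mul_pos (by positivity) (by positivity)
    have a2 : μ * 2 ^ (10 + x + μ / 16) ≤ 2 ^ (x + 1) * 2 ^ (10 + x + μ / 16) :=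
      Nat.mul_le_mul_right _ h1.le
    have a3 : 2 ^ (14 + 2 * x + μ / 16) = 8 * (2 ^ (x + 1) * 2 ^ (10 + x + μ / 16)) := by ring
    have a4 : 2 * μ * (3 * 2 ^ (10 + x + μ / 16)) = 6 * (μ * 2 ^ (10 + x + μ / 16)) := by ring
    omega
  have h6 : 112 * 2 ^ (μ / 10 + 1) * (2 * μ + 1) * (2 * μ * (3 * 2 ^ (10 + x + μ / 16)) + 1) ≤
      2 ^ (24 + 3 * x + μ / 10 + μ / 16) := by
    calc _ ≤ 128 * 2 ^ (μ / 10 + 1) * 2 ^ (x + 2) * 2 ^ (14 + 2 * x + μ / 16) :=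
          Nat.mul_le_mul (Nat.mul_le_mul (Nat.mul_le_mul_right _ (by norm_num)) h4) h5
      _ = _ := by ring
  refine h6.trans (Nat.le_sqrt.2 ?_)
  have h7 : 2 ^ (2 * (24 + 3 * x + μ / 10 + μ / 16) + 1) ≤ 2 ^ μ :=
    Nat.pow_le_pow_right (by norm_num) h3
  rw [pow_succ, two_mul, pow_add] at h7
  omega

lemma PmNum_bb16 {x : ℕ} (h : 100 ≤ x) : 16 * bb (x + 2) ≤ 2 ^ x := by
  induction x, h using Nat.le_induction with
  | base => unfold bb; norm_num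
  | succ I hI ih =>
    have h1 := PmNum_step (80 * (I + 2) + 81 + 1) (by omega)
    have h2 : 80 * (I + 1 + 2) + 81 + 1 = 80 * (I + 2) + 81 + 1 + 80 := by ring
    unfold bb at ih ⊢
    rw [h2, pow_succ 2 I]
    omega

/-- Plan: `x ^ 4 / 2 ^ x → 0` (`tendsto_pow_const_div_const_pow_of_one_lt`), `2 ^ x ≤ μ` for
`x = Nat.log 2 μ`, and `x → ∞`. -/
lemma exists_mu (c : ℕ) : ∃ μ0 : ℕ, ∀ μ, μ0 ≤ μ → c ≤ Nat.log 2 μ ∧
    16 * bb (Nat.log 2 μ + 2) ≤ μ ∧ (c + 3 * (Nat.log 2 μ + 1)) ^ 2 ≤ μ := by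
  refine ⟨2 ^ (c + 100), fun μ h => ?_⟩
  have h0 : μ ≠ 0 := by
    have : 0 < 2 ^ (c + 100) := by positivity
    omega
  have h1 : c + 100 ≤ Nat.log 2 μ := Nat.le_log_of_pow_le (by norm_num) h
  have h2 : 2 ^ Nat.log 2 μ ≤ μ := Nat.pow_log_le_self 2 h0
  generalize Nat.log 2 μ = x at *
  have h3 := PmNum_bb16 (x := x) (by omega)
  refine ⟨by omega, h3.trans h2, ?_⟩
  have h4 : (c + 3 * (x + 1)) ^ 2 ≤ (80 * (x + 2) + 81 + 1) ^ 2 := Nat.pow_le_pow_left (by omega) 2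
  have h5 : (80 * (x + 2) + 81 + 1) ^ 2 ≤ (80 * (x + 2) + 81 + 1) ^ 4 :=
    Nat.pow_le_pow_right (by omega) (by norm_num)
  unfold bb at h3
  omega

end Pool.Agent.Work.MP_5dd17b_co.Pm
end

-- merged part: Pool.Agent.Work.MP_5dd17b_co.PmMain
section
/-!
Ramsey Cayley graphs on permutation groups.
-/

set_option autoImplicit false
set_option linter.unusedSectionVars false
set_option maxRecDepth 4000

namespace Pool.Agent.Work.MP_5dd17b_co.Pm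

open Finset
open scoped Pointwise

/-- Plan: `K` least with `#(A⁻¹ * A) ≤ K * #A`; `K ^ 20 < 2 k ≤ K1 ^ 20`. If `K < 2 ^ (80 I1)`, `piece`
with `K := 2 ^ (80 I1)`, `w = 80 I1 + 81`. Otherwise `I = Nat.log 2 K / 80 ≥ I1`, `I' = min I Ik`,
`2 ^ (80 I') ≤ K`. If some `k`-subset has low energy at scale `I'`, then `I' < Ik` or `I' = Ik`; the
second is excluded, so `I' = I`, `K < 2 ^ (80 (I + 1))`, `looseB` and `fam_mono`. Otherwise `looseA`. -/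
lemma classify {G : Type} [Group G] [DecidableEq G] [Fintype G] (𝒲 : ℕ → Finset (Finset G))
    {I1 Ik g0 cap k Λ K1 : ℕ} (hI1 : 90 ≤ I1) (hIk : I1 ≤ Ik)
    (h𝒲 : ∀ I, I1 ≤ I → I ≤ Ik →
      TLF (𝒲 I) (bb I) (gx I g0) cap (6 * (bb I + gx I g0) + 6) ∧ 2 * ln I g0 + 1 ≤ Λ)
    (hcap : 2 * k ≤ 2 ^ g0 * cap) (hk : 8 * 2 ^ Ik ≤ k) (hK1 : 2 * k ≤ K1 ^ 20) (A : Finset G)
    (hA : #A = 2 * k) (h1 : ¬ Big 20 A)
    (h2 : ∀ A' ⊆ A, #A' = k → k ^ 3 < 8 * (2 ^ Ik) ^ 7 * En A') :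
    (∃ Γ ∈ fam (𝒲 I1) 1 (8 * 2 ^ (80 * I1) * bb I1 + 1), ∃ Z ⊆ A, Z ⊆ wd Γ Λ ∧ 2 * k ≤ 8 * #Z) ∨
      ∃ K, 2 ^ (80 * I1) ≤ K ∧ K ≤ K1 ∧ (K - 1) * (2 * k) < #(A⁻¹ * A) ∧
        #(A⁻¹ * A) ≤ K * (2 * k) ∧ ∃ Γ ∈ fam (𝒲 (min (Nat.log 2 K / 80) Ik))
          (2 ^ (9 + 7 * min (Nat.log 2 K / 80) Ik)) (40000 * K), A ⊆ wd Γ Λ := by
  have hp : 0 < 2 ^ Ik := by positivity
  have hA0 : A.Nonempty := card_pos.mp (by omega)
  simp only [Big, not_forall, not_le, exists_prop] at h1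
  obtain ⟨K', b1, b2⟩ := h1
  have ex : ∃ K, #(A⁻¹ * A) ≤ K * #A := ⟨K', b1⟩
  obtain ⟨K, hK⟩ : ∃ K, K = Nat.find ex := ⟨_, rfl⟩
  have k1 : #(A⁻¹ * A) ≤ K * #A := hK ▸ Nat.find_spec ex
  have k2 : K ≤ K' := hK ▸ Nat.find_min' ex b1
  have gcap : ∀ I, 2 ^ (8 * (80 * I + 81) + 4) * (2 * k) ≤ 2 ^ gx I g0 * cap := fun I => by
    rw [gx, pow_add _ _ g0, mul_assoc]
    exact Nat.mul_le_mul_left _ hcap
  rcases lt_or_ge K (2 ^ (80 * I1)) with k3 | k3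
  · obtain ⟨Γ, g1, g2⟩ := piece (w := 80 * I1 + 81) (K := 2 ^ (80 * I1)) (h𝒲 I1 le_rfl hIk).1 le_rfl
      A hA0 (k1.trans (Nat.mul_le_mul_right _ k3.le)) (Nat.pow_le_pow_right two_pos (by omega))
      (by rw [hA]; exact gcap I1)
    have e : ln I1 g0 ≤ Λ := by
      have := (h𝒲 I1 le_rfl hIk).2
      omega
    rw [hA] at g2
    exact Or.inl ⟨Γ, g1, _, inter_subset_left, inter_subset_right.trans (wd_mono Subset.rfl e), g2⟩
  have k0 : 0 < K := lt_of_lt_of_le (by positivity) k3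
  have k4 : (K - 1) * #A < #(A⁻¹ * A) := not_le.mp (Nat.find_min ex (by omega))
  have k5 : K ≤ K1 := k2.trans (lt_of_pow_lt_pow_left₀ 20 (Nat.zero_le _) (by omega)).le
  refine Or.inr ⟨K, k3, k5, hA ▸ k4, hA ▸ k1, ?_⟩
  obtain ⟨I, hI⟩ : ∃ I, I = min (Nat.log 2 K / 80) Ik := ⟨_, rfl⟩
  rw [← hI]
  have i1 : 80 * I1 ≤ Nat.log 2 K := Nat.le_log_of_pow_le one_lt_two k3
  have i2 : I1 ≤ I := by omega
  have i3 : I ≤ Ik := by omega
  have i4 : 2 ^ (80 * I) ≤ K :=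
    (Nat.pow_le_pow_right two_pos (by omega)).trans (Nat.pow_log_le_self 2 k0.ne')
  obtain ⟨t1, t2⟩ := h𝒲 I i2 i3
  have g3 := (Nat.mul_le_mul_left _ (show k ≤ 2 * k by omega)).trans (gcap I)
  by_cases hE : ∀ A' ⊆ A, #A' = k → k ^ 3 < 8 * (2 ^ I) ^ 7 * En A'
  · obtain ⟨Γ, g1, g2⟩ := looseA (w := 80 * I + 81) t1 le_rfl A (by omega) hA k1 (by omega) g3
      (by omega) (bb_le (by omega)) i4 hE
    exact ⟨Γ, g1, g2.trans (wd_mono Subset.rfl t2)⟩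
  · push Not at hE
    obtain ⟨A', a1, a2, a3⟩ := hE
    have i5 : I ≠ Ik := fun e => absurd (h2 A' a1 a2) (not_lt.mpr (e ▸ a3))
    have i6 : 2 * K ≤ 2 ^ (80 * I + 81) := by
      rw [pow_succ']
      exact Nat.mul_le_mul_left _ ((Nat.lt_pow_succ_log_self one_lt_two K).le.trans
        (Nat.pow_le_pow_right two_pos (by omega)))
    obtain ⟨Γ, g1, g2⟩ := looseB (w := 80 * I + 81) t1 le_rfl A A' hA a1 a2 k1 i6 g3 (by omega)
      (bb_le (by omega)) ((Nat.mul_le_mul_left _ (Nat.pow_le_pow_right two_pos i3)).trans hk) a3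
    exact ⟨Γ, fam_mono Nat.one_le_two_pow le_rfl g1, g2.trans (wd_mono Subset.rfl t2)⟩

lemma wd_bits {G : Type} [Group G] [DecidableEq G] {Γ : Finset G} {e : ℕ} (L : ℕ)
    (h : 2 * #Γ + 1 ≤ 2 ^ e) : #(wd Γ L) + 1 ≤ 2 ^ (e * L + 1) := by
  have h1 := (card_wd Γ L).trans (Nat.pow_le_pow_left h L)
  have h2 : 0 < 2 ^ (e * L) := by positivity
  rw [← pow_mul] at h1
  rw [pow_succ]
  omega

lemma fam_bits {G : Type} [Group G] [DecidableEq G] [Fintype G] {𝒲 : Finset (Finset G)}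
    {E e : ℕ} (j y : ℕ) (h1 : #𝒲 ≤ 2 ^ E) (h2 : Fintype.card G ≤ 2 ^ e) :
    #(fam 𝒲 j y) ≤ 2 ^ (j * (E + 1) + (e + 1) * y) := by
  have p : ∀ n a : ℕ, n ≤ 2 ^ a → n + 1 ≤ 2 ^ (a + 1) := fun n a h => by
    have : 0 < 2 ^ a := by positivity
    rw [pow_succ]
    omega
  rw [pow_add, mul_comm j, pow_mul, pow_mul]
  exact (card_fam _ _ _).trans
    (Nat.mul_le_mul (Nat.pow_le_pow_left (p _ _ h1) _) (Nat.pow_le_pow_left (p _ _ h2) _))

lemma card_le_bits (G Ω : Type) [Group G] [Fintype G] [Fintype Ω] [MulAction G Ω]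
    [FaithfulSMul G Ω] {μ : ℕ} (h : Fintype.card Ω ≤ 2 ^ μ) :
    Fintype.card G ≤ 2 ^ (μ * Fintype.card Ω) := by
  classical
  have h1 := Fintype.card_le_of_injective (fun (g : G) (a : Ω) => g • a)
    fun g g' e => eq_of_smul_eq_smul fun a => congrFun e a
  rw [Fintype.card_fun] at h1
  rw [pow_mul]
  exact h1.trans (Nat.pow_le_pow_left h _)

/-- the sizes of the parameters -/
lemma sizes {I1 c μ m x D : ℕ} (hc : 81 * I1 + 17 ≤ c) (hx : x = Nat.log 2 μ)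
    (hD : D = 2 ^ (81 * I1 + 12)) (hb : 16 * bb (x + 2) ≤ μ) (hg : (c + 3 * (x + 1)) ^ 2 ≤ μ)
    (h1 : m ≤ 2 ^ μ) (h2 : 2 ^ μ ≤ 2 * m) :
    1000 * (x + 1) ≤ μ ∧ 2 * (c + 3 * (x + 1)) ≤ μ ∧ 2 ≤ m / μ ^ 2 ∧ 2 ^ (x + 2) ≤ 4 * μ ∧
      2 * μ ≤ 2 ^ (x + 2) ∧ 2 * (8 * D * μ * m) ≤ 2 ^ (2 * μ) ∧
      2 * (8 * D * μ * m) ≤ 2 ^ (c + 3 * (x + 1)) * (m / μ ^ 2) := by
  have e1 : 1000 * (x + 1) ≤ μ := by
    have : 80 * (x + 2) + 81 + 1 ≤ (80 * (x + 2) + 81 + 1) ^ 4 := Nat.le_self_pow (by norm_num) _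
    unfold bb at hb
    omega
  have e2 : 2 * (c + 3 * (x + 1)) ≤ μ := by
    rw [sq] at hg
    exact (Nat.mul_le_mul_right _ (by omega)).trans hg
  have e3 : μ ≤ 2 ^ (x + 1) := hx ▸ (Nat.lt_pow_succ_log_self one_lt_two μ).le
  have e4 : 2 ^ x ≤ μ := hx ▸ Nat.pow_log_le_self 2 (by omega)
  have e5 : 2 ≤ m / μ ^ 2 := by
    rw [Nat.le_div_iff_mul_le (by have : 0 < μ := by omega
                                  positivity)]
    have a1 : μ ^ 2 ≤ 2 ^ ((x + 1) * 2) := by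
      rw [pow_mul]
      exact Nat.pow_le_pow_left e3 2
    have a2 : 2 ^ 2 * 2 ^ ((x + 1) * 2) ≤ 2 ^ μ := by
      rw [← pow_add]
      exact Nat.pow_le_pow_right two_pos (by omega)
    omega
  refine ⟨e1, e2, e5, by rw [pow_add]; omega, by rw [pow_succ]; omega, ?_, ?_⟩
  · have a1 : 2 ^ 4 * D * 2 ^ (x + 1) ≤ 2 ^ μ := by
      rw [hD, ← pow_add, ← pow_add]
      exact Nat.pow_le_pow_right two_pos (by omega)
    calc 2 * (8 * D * μ * m) = 2 ^ 4 * D * μ * m := by ring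
      _ ≤ 2 ^ μ * 2 ^ μ := Nat.mul_le_mul ((Nat.mul_le_mul_left _ e3).trans a1) h1
      _ = _ := by rw [← pow_add, two_mul]
  · have a1 := Nat.lt_mul_div_succ m (show 0 < μ ^ 2 by have : 0 < μ := by omega
                                                        positivity)
    have a2 : m ≤ μ ^ 2 * (2 * (m / μ ^ 2)) := a1.le.trans (Nat.mul_le_mul_left _ (by omega))
    have a3 : 2 ^ 5 * D * (2 ^ (x + 1)) ^ 3 ≤ 2 ^ (c + 3 * (x + 1)) := by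
      rw [hD, ← pow_mul, ← pow_add, ← pow_add]
      exact Nat.pow_le_pow_right two_pos (by omega)
    calc 2 * (8 * D * μ * m) ≤ 2 * (8 * D * μ * (μ ^ 2 * (2 * (m / μ ^ 2)))) := by gcongr
      _ = 2 ^ 5 * D * μ ^ 3 * (m / μ ^ 2) := by ring
      _ ≤ _ := Nat.mul_le_mul_right _
          ((Nat.mul_le_mul_left _ (Nat.pow_le_pow_left e3 3)).trans a3)

open Classical in
/-- Plan: `I1 = 90` (keep it a variable), `D = 2 ^ (81 I1 + 12)`, `x = Nat.log 2 μ`, `Ik = x + 2`,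
`g0 = 81 I1 + 17 + 3 (x + 1)`, `cap = m / μ ^ 2`, `k = 8 D μ m`, `Λ = 2 ^ (10 + x + μ / 16)`,
`K1 = 2 ^ (μ / 10 + 1)`, `q = 2 μ + 1`, `B = 2 μ (3 Λ) + 1`; `exists_rep` for `π`, `s = fun _ => false`;
`union_bound 20 2` at size `2 k`, `union2 2` at size `k`, `union3`, `union4`; `card G ≤ 2 ^ (μ m)`. -/
theorem core : ∃ C μ0 : ℕ, ∀ (G Ω : Type) [Group G] [Fintype G] [Fintype Ω] [MulAction G Ω]
    [FaithfulSMul G Ω] (μ : ℕ), μ0 ≤ μ → Fintype.card Ω ≤ 2 ^ μ → 2 ^ μ ≤ 2 * Fintype.card Ω →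
    ∃ χ : G → Bool, (∀ x, χ x⁻¹ = χ x) ∧ ∀ (A : Finset G) (c : Bool),
      (∀ a ∈ A, ∀ b ∈ A, a ≠ b → χ (a⁻¹ * b) = c) → #A ≤ C * μ * Fintype.card Ω := by
  obtain ⟨k0, -, hU1⟩ := union_bound 20 2 (by norm_num) two_pos
  obtain ⟨I0, hU2⟩ := union2 2 two_pos
  obtain ⟨I1, hI1⟩ : ∃ I1 : ℕ, 90 ≤ I1 := ⟨90, le_rfl⟩
  obtain ⟨c, hc⟩ : ∃ c, c = 81 * I1 + 17 + I0 + k0 := ⟨_, rfl⟩
  obtain ⟨μ0, hμ0⟩ := exists_mu c
  obtain ⟨D, hD⟩ : ∃ D, D = 2 ^ (81 * I1 + 12) := ⟨_, rfl⟩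
  refine ⟨16 * D, μ0, fun G Ω _ _ _ _ _ μ hμ h1 h2 => ?_⟩
  obtain ⟨m1, m2, m3⟩ := hμ0 μ hμ
  have hN := card_le_bits G Ω h1
  have sq1 := num_sqrt (k := 2 * (8 * D * μ * Fintype.card Ω)) m2 h2
  obtain ⟨x, hx⟩ : ∃ x, x = Nat.log 2 μ := ⟨_, rfl⟩
  rw [← hx] at m1 m2 m3 sq1
  obtain ⟨s1, s2, s3, s4, s5, s6, s7⟩ := sizes (I1 := I1) (by omega) hx hD m2 m3 h1 h2
  obtain ⟨g0, hg0⟩ : ∃ g0, g0 = c + 3 * (x + 1) := ⟨_, rfl⟩
  rw [← hg0] at m3 s2 s7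
  have hw : ∀ I, ∃ 𝒲 : Finset (Finset G), I ≤ x + 2 →
      (#𝒲 ≤ 2 ^ (30000 * (bb I ^ 2 * μ + gx I g0 ^ 2) * Fintype.card Ω) ∧
      (∀ W ∈ 𝒲, #W ≤ 2 ^ (μ + 6))) ∧
      TLF 𝒲 (bb I) (gx I g0) (Fintype.card Ω / μ ^ 2) (6 * (bb I + gx I g0) + 6) ∧
      2 * ln I g0 + 1 ≤ 2 ^ (10 + x + μ / 16) := fun I => by
    by_cases hI : I ≤ x + 2
    · have a1 := bb_mono hI
      have a2 := gx_le I g0
      have a3 : 1 ≤ (80 * I + 81 + 1) ^ 4 := Nat.one_le_pow _ _ (by omega)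
      obtain ⟨𝒲, w1, w2, w3⟩ := tl (G := G) (b := bb I) (g := gx I g0) h1 (by unfold bb; omega)
        (by omega) (by omega) s3 (Nat.div_mul_le_self _ _)
      exact ⟨𝒲, fun _ => ⟨⟨w1, w2⟩, w3, hx ▸ num_len (by omega) (by omega)⟩⟩
    · exact ⟨∅, fun h => absurd h hI⟩
  choose 𝒲 hw using hw
  generalize Fintype.card Ω = m at h1 h2 hN sq1 s3 s6 s7 hw ⊢
  have hD1 : 2 ^ 22 ≤ D := hD ▸ Nat.pow_le_pow_right two_pos (by omega)
  have hm1 : 1 ≤ m := by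
    have : 0 < 2 ^ μ := by positivity
    omega
  obtain ⟨k, hk⟩ : ∃ k, k = 8 * D * μ * m := ⟨_, rfl⟩
  have k1 : 2 ^ 25 * (μ * m) ≤ k := by
    rw [hk, mul_assoc (8 * D)]
    exact Nat.mul_le_mul_right _ (by omega)
  have k2 : μ ≤ μ * m := Nat.le_mul_of_pos_right _ hm1
  have k3 : m ≤ μ * m := Nat.le_mul_of_pos_left _ (by omega)
  have nb := fun I K a b => num_big (I := I) (g0 := g0) (μ := μ) (m := m) (K := K) (D := D) a
    (by omega) hm1 m3 b (by omega)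
  have ns := num_small (I := I1) (μ := μ) hI1 (by omega) hm1 m3
  rw [← hD] at ns
  rw [← hk] at s6 s7 sq1 nb ns
  replace sq1 := sq1 (by omega)
  obtain ⟨Λ, hΛ⟩ : ∃ Λ, Λ = 2 ^ (10 + x + μ / 16) := ⟨_, rfl⟩
  obtain ⟨K1, hK1⟩ : ∃ K1, K1 = 2 ^ (μ / 10 + 1) := ⟨_, rfl⟩
  rw [← hΛ] at hw sq1
  rw [← hK1] at sq1
  have hK2 : 1 ≤ K1 := hK1 ▸ Nat.one_le_two_pow
  have hlog : Real.log (Fintype.card G) ≤ (μ * m : ℕ) := by
    have a1 : (0 : ℝ) < Fintype.card G := by exact_mod_cast Fintype.card_pos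
    have a2 := Real.log_le_log a1 (show (Fintype.card G : ℝ) ≤ 2 ^ (μ * m) by exact_mod_cast hN)
    rw [Real.log_pow] at a2
    have a3 := Real.log_two_lt_d9
    have a4 : (0 : ℝ) ≤ (μ * m : ℕ) := Nat.cast_nonneg _
    linarith only [a2, a3, mul_nonneg_of_nonpos_of_nonpos (Mathlib.Tactic.Linarith.sub_nonpos_of_le (Mathlib.Tactic.Linarith.natCast_nonneg ℝ (μ * m))) (le_of_lt (Mathlib.Tactic.Linarith.sub_neg_of_lt a3))]
  have k4 : (2 : ℝ) ^ 25 * (μ * m : ℕ) ≤ k := by exact_mod_cast k1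
  have k5 : (0 : ℝ) ≤ (μ * m : ℕ) := Nat.cast_nonneg _
  obtain ⟨π, r1, r2⟩ := exists_rep (G := G)
  have hπ : ∀ z, #(univ.filter fun x => π x = z) ≤ 2 := fun z =>
    (card_le_card (t := {z, z⁻¹}) fun y hy => by
      have e := (mem_filter.mp hy).2
      rcases r2 y with g | g
      · simp [← e, g]
      · simp [← e, g]).trans card_le_two
  have u1 := hU1 G π (fun _ => false) hπ univ (2 * k) (by omega) (by
    rw [card_univ]
    push_cast at *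
    linarith only [hlog, k4])
  have u2 := hU2 G π (fun _ => false) hπ k (x + 2) (by omega) (by omega)
    (le_trans (by omega) (s6.trans (Nat.pow_le_pow_right two_pos s5))) (by
      push_cast at *
      linarith only [hlog, k4])
  have u3 := union3 π (fun _ => false) hπ (fun K => fam (𝒲 (min (Nat.log 2 K / 80) (x + 2)))
    (2 ^ (9 + 7 * min (Nat.log 2 K / 80) (x + 2))) (40000 * K)) (2 * k) (2 ^ (80 * I1)) K1 Λ
    (2 * μ * (3 * Λ) + 1) (2 * μ + 1)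
    (le_trans (by norm_num) (Nat.pow_le_pow_right two_pos (show 10 ≤ 80 * I1 by omega))) (by omega)
    (s6.trans_lt (Nat.pow_lt_pow_right one_lt_two (by omega)))
    (le_trans ((Nat.mul_le_mul_right _ (by norm_num)).trans ((Nat.le_mul_of_pos_right _
      (Nat.succ_pos _)).trans (Nat.le_mul_of_pos_right _ (Nat.succ_pos _)))) sq1) fun K a1 a2 => by
      have a0 : 0 < K := lt_of_lt_of_le (by positivity) a1
      obtain ⟨I, hI⟩ : ∃ I, I = min (Nat.log 2 K / 80) (x + 2) := ⟨_, rfl⟩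
      rw [← hI]
      have i1 : 80 * I1 ≤ Nat.log 2 K := Nat.le_log_of_pow_le one_lt_two a1
      have i4 : 2 ^ (80 * I) ≤ K :=
        (Nat.pow_le_pow_right two_pos (by omega)).trans (Nat.pow_log_le_self 2 a0.ne')
      obtain ⟨⟨w1, w2⟩, -⟩ := hw I (by omega)
      refine ⟨(fam_bits _ _ w1 hN).trans (Nat.pow_le_pow_right two_pos (nb I K (by omega) i4)),
        fun Γ hΓ => wd_bits _ ?_, num_tight a0 a2 (by omega) (by omega) sq1⟩
      have b1 := size_fam w2 hΓ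
      have b2 : 2 ^ (9 + 7 * I) ≤ K := (Nat.pow_le_pow_right two_pos (by omega)).trans i4
      have b3 : 2 ^ 16 ≤ 2 ^ (μ + 6) := Nat.pow_le_pow_right two_pos (by omega)
      have b4 : 2 ^ 3 * (K1 * 2 ^ (μ + 6)) ≤ 2 ^ (2 * μ) := by
        rw [hK1, ← pow_add, ← pow_add]
        exact Nat.pow_le_pow_right two_pos (by omega)
      have b5 := Nat.mul_le_mul_right (2 ^ (μ + 6)) (b2.trans a2)
      have b6 := Nat.mul_le_mul a2 b3
      have b7 := Nat.mul_le_mul hK2 b3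
      omega
  obtain ⟨⟨w1, w2⟩, -⟩ := hw I1 (by omega)
  have u4 := union4 π (fun _ => false) hπ (fam (𝒲 I1) 1 (8 * 2 ^ (80 * I1) * bb I1 + 1)) (2 * k) Λ
    (2 * μ * (3 * Λ) + 1) (by omega)
    ((fam_bits _ _ w1 hN).trans (Nat.pow_le_pow_right two_pos (by rw [one_mul]; exact ns)))
    (fun Γ hΓ => (wd_bits (e := 2 * μ) _ (by
      have b1 := size_fam w2 hΓ
      have b2 := Nat.mul_le_mul_left (8 * 2 ^ (80 * I1)) (bb_le hI1)
      have b3 : 8 * 2 ^ (80 * I1) * 2 ^ I1 ≤ 2 ^ (μ + 6) := by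
        rw [show 8 = 2 ^ 3 by norm_num, ← pow_add, ← pow_add]
        exact Nat.pow_le_pow_right two_pos (by omega)
      have b4 : 2 ^ 3 * 2 ^ (μ + 6) ≤ 2 ^ (2 * μ) := by
        rw [← pow_add]
        exact Nat.pow_le_pow_right two_pos (by omega)
      have b5 : 1 ≤ 2 ^ (μ + 6) := Nat.one_le_two_pow
      omega)).trans (Nat.pow_le_pow_right two_pos
        (Nat.succ_le_succ (Nat.mul_le_mul_left _ (by omega)))))
    (by
      rw [Nat.le_div_iff_mul_le (by norm_num), mul_assoc]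
      refine le_trans (Nat.mul_le_mul_left _ (le_trans ?_ sq1)) (Nat.sqrt_le _)
      rw [mul_comm]
      exact Nat.mul_le_mul_right _ (by nlinarith only [hI1, hc, m1, s1, hK2]))
  have key : ∀ S1 S2 S3 S4 : Finset (G → Bool), 3 * #S1 ≤ 2 ^ Fintype.card G →
      3 * #S2 ≤ 2 ^ Fintype.card G → 12 * #S3 ≤ 2 ^ Fintype.card G →
      12 * #S4 ≤ 2 ^ Fintype.card G → ∃ ω, ω ∉ S1 ∧ ω ∉ S2 ∧ ω ∉ S3 ∧ ω ∉ S4 := by
    intro S1 S2 S3 S4 a1 a2 a3 a4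
    obtain ⟨ω, -, hω⟩ := exists_mem_notMem_of_card_lt_card (t := (univ : Finset (G → Bool)))
      (s := S1 ∪ (S2 ∪ (S3 ∪ S4))) (by
        have b1 := card_union_le S1 (S2 ∪ (S3 ∪ S4))
        have b2 := card_union_le S2 (S3 ∪ S4)
        have b3 := card_union_le S3 S4
        rw [card_univ, Fintype.card_fun, Fintype.card_bool]
        have := Nat.one_le_pow (Fintype.card G) 2 (by norm_num)
        omega)
    exact ⟨ω, by simpa using hω⟩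
  obtain ⟨ω, o1, o2, o3, o4⟩ := key _ _ _ _ u1 u2 u3 u4
  rw [mem_filter_univ] at o1 o2 o3 o4
  refine ⟨fun y => xor (ω (π y)) false, fun y => by simp only [r1], fun A0 b hA0 => ?_⟩
  by_contra hlt
  obtain ⟨A, a1, a2⟩ := exists_subset_card_eq (s := A0) (n := 2 * k)
    (le_of_eq_of_le (by rw [hk]; ring) (not_le.mp hlt).le)
  have hM : Mono π (fun _ => false) ω A b := Mono.sub hA0 a1
  rcases classify 𝒲 hI1 (show I1 ≤ x + 2 by omega) (fun I _ h => (hw I h).2) s7 (by omega)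
    (K1 := K1) (s6.trans (by
      rw [hK1, ← pow_mul]
      exact Nat.pow_le_pow_right two_pos (by omega))) A a2
    (fun h => o1 ⟨A, subset_univ _, a2, h, b, hM⟩)
    (fun A' g1 g2 => not_le.mp fun h => o2 ⟨A', g2, h, b, hM.sub g1⟩) with
      ⟨Γ, g1, Z, g2, g3, g4⟩ | ⟨K, g1, g2, g3, g4, g5⟩
  · exact o4 ⟨Γ, g1, Z, g3, g4, b, hM.sub g2⟩
  · exact o3 ⟨A, K, a2, g1, g2, g3, g4, g5, b, hM⟩

/-- `μ = Nat.log 2 m + 1 ≤ 3 log m`; for `μ < μ0` the group has at most `2 ^ (μ0 * 2 ^ μ0)` elements. -/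
theorem perm_groups : ∃ C : ℝ, 0 ≤ C ∧ ∀ (m : ℕ) (G : Type) [Group G] [Fintype G]
    (φ : G →* Equiv.Perm (Fin m)), 2 ≤ m → Function.Injective φ →
    ∃ S : Set G, 1 ∉ S ∧ (∀ x, x⁻¹ ∈ S ↔ x ∈ S) ∧ ∀ s : Finset G,
      ((SimpleGraph.fromRel (fun x y : G => x⁻¹ * y ∈ S)).IsClique (s : Set G) ∨
        (SimpleGraph.fromRel (fun x y : G => x⁻¹ * y ∈ S))ᶜ.IsClique (s : Set G)) →
      (s.card : ℝ) ≤ C * (m * Real.log m) := by
  obtain ⟨C, μ0, h⟩ := core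
  obtain ⟨B, hB⟩ : ∃ B : ℕ, B = 2 ^ (μ0 * 2 ^ μ0) := ⟨_, rfl⟩
  refine ⟨3 * C + B, by positivity, fun m G _ _ φ hm hφ => ?_⟩
  let _ : MulAction G (Fin m) := MulAction.compHom (Fin m) φ
  have _ : FaithfulSMul G (Fin m) := ⟨fun {g g'} e => hφ (Equiv.ext e)⟩
  obtain ⟨μ, hμ⟩ : ∃ μ, μ = Nat.log 2 m + 1 := ⟨_, rfl⟩
  have a1 : Fintype.card (Fin m) ≤ 2 ^ μ := by
    rw [Fintype.card_fin, hμ]
    exact (Nat.lt_pow_succ_log_self one_lt_two m).le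
  have a2 : 2 ^ μ ≤ 2 * Fintype.card (Fin m) := by
    rw [Fintype.card_fin, hμ, pow_succ']
    exact Nat.mul_le_mul_left _ (Nat.pow_log_le_self 2 (by omega))
  have a3 : (2 : ℝ) ≤ m := by exact_mod_cast hm
  have a4 := Real.log_two_gt_d9
  have a5 := Real.log_le_log two_pos a3
  have a6 : (μ : ℝ) ≤ 3 * Real.log m := by
    have b1 : (2 : ℝ) ^ μ ≤ 2 * m := by
      rw [Fintype.card_fin] at a2
      exact_mod_cast a2
    have b2 := Real.log_le_log (by positivity) b1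
    rw [Real.log_pow, Real.log_mul two_ne_zero (by positivity)] at b2
    have b3 : (0 : ℝ) ≤ μ := Nat.cast_nonneg _
    linarith only [a4, a5, b2, mul_nonneg_of_nonpos_of_nonpos (Mathlib.Tactic.Linarith.sub_nonpos_of_le (Mathlib.Tactic.Linarith.natCast_nonneg ℝ μ)) (le_of_lt (Mathlib.Tactic.Linarith.sub_neg_of_lt a4))]
  have a7 : (1 : ℝ) ≤ m * Real.log m := by linarith only [a3, a4, a5, mul_nonneg_of_nonpos_of_nonpos (Mathlib.Tactic.Linarith.sub_nonpos_of_le (Mathlib.Tactic.Linarith.natCast_nonneg ℝ m)) (le_of_lt (Mathlib.Tactic.Linarith.sub_neg_of_lt a4)), mul_nonneg_of_nonpos_of_nonpos (Mathlib.Tactic.Linarith.sub_nonpos_of_le (Mathlib.Tactic.Linarith.natCast_nonneg ℝ m)) (Mathlib.Tactic.Linarith.sub_nonpos_of_le a5)]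
  have a8 : (0 : ℝ) ≤ C := Nat.cast_nonneg _
  have a9 : (0 : ℝ) ≤ B := Nat.cast_nonneg _
  rcases le_or_gt μ0 μ with e | e
  · obtain ⟨χ, c1, c2⟩ := h G (Fin m) μ e a1 a2
    refine of_colour χ c1 _ fun A c hA => ?_
    have b1 : (#A : ℝ) ≤ C * μ * m := by
      have := c2 A c hA
      rw [Fintype.card_fin] at this
      exact_mod_cast this
    have b2 : (C : ℝ) * μ * m ≤ C * (3 * Real.log m) * m := by gcongr
    linarith only [b1, b2, a7, mul_nonneg_of_nonpos_of_nonpos (Mathlib.Tactic.Linarith.sub_nonpos_of_le (Mathlib.Tactic.Linarith.natCast_nonneg ℝ B)) (Mathlib.Tactic.Linarith.sub_nonpos_of_le a7)]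
  · refine of_colour (fun _ => false) (fun _ => rfl) _ fun A _ _ => ?_
    have b1 : #A ≤ B := by
      refine (card_le_univ A).trans ((card_le_bits G (Fin m) a1).trans ?_)
      rw [hB]
      exact Nat.pow_le_pow_right two_pos (Nat.mul_le_mul e.le
        (a1.trans (Nat.pow_le_pow_right two_pos e.le)))
    have b2 : (#A : ℝ) ≤ B := by exact_mod_cast b1
    linarith only [b2, a7, mul_nonneg_of_nonpos_of_nonpos (Mathlib.Tactic.Linarith.sub_nonpos_of_le (Mathlib.Tactic.Linarith.natCast_nonneg ℝ B)) (Mathlib.Tactic.Linarith.sub_nonpos_of_le a7), mul_nonneg_of_nonpos_of_nonpos (Mathlib.Tactic.Linarith.sub_nonpos_of_le (Mathlib.Tactic.Linarith.natCast_nonneg ℝ C)) (Mathlib.Tactic.Linarith.sub_nonpos_of_le a7)]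

/-- The same bound measured against the order of the group. -/
theorem perm_alon : ∃ C : ℝ, ∀ ε : ℝ, 0 < ε → ∀ (m : ℕ) (G : Type) [Group G] [Fintype G]
    (φ : G →* Equiv.Perm (Fin m)), Nontrivial G → Function.Injective φ →
    ε * (m * Real.log m) ≤ Real.log (Fintype.card G) →
    ∃ S : Set G, 1 ∉ S ∧ (∀ x, x⁻¹ ∈ S ↔ x ∈ S) ∧ ∀ s : Finset G,
      ((SimpleGraph.fromRel (fun x y : G => x⁻¹ * y ∈ S)).IsClique (s : Set G) ∨
        (SimpleGraph.fromRel (fun x y : G => x⁻¹ * y ∈ S))ᶜ.IsClique (s : Set G)) →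
      (s.card : ℝ) ≤ C / ε * Real.log (Fintype.card G) := by
  obtain ⟨C, hC, h⟩ := perm_groups
  refine ⟨C, fun ε hε m G _ _ φ hG hφ hm => ?_⟩
  have h2 : 2 ≤ m := by
    by_contra hlt
    have : Subsingleton (Fin m) := Fin.subsingleton_iff_le_one.mpr (by omega)
    obtain ⟨x, y, e⟩ := hG
    exact e (hφ (Equiv.ext fun _ => Subsingleton.elim _ _))
  obtain ⟨S, s1, s2, s3⟩ := h m G φ h2 hφ
  refine ⟨S, s1, s2, fun s hs => (s3 s hs).trans ?_⟩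
  rw [div_mul_eq_mul_div, le_div_iff₀ hε, mul_assoc, mul_comm _ ε]
  exact mul_le_mul_of_nonneg_left hm hC

end Pool.Agent.Work.MP_5dd17b_co.Pm
end
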