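import Pool.Agent.Work.MP_5dd17b_co.LinMain
import Pool.Agent.Work.MP_5dd17b_co.Main
import Pool.Agent.Work.MP_5dd17b_co.SolUnion

-- merged part: Pool.Agent.Work.MP_5dd17b_co.SolComm
section
/-!
In a solvable group, a large symmetric set of slow growth has many commuting elements in a power.
D is a series of subgroups like the derived series.

Plan. Write n H = #((T^2).filter (· ∈ H)), M = 2^J, u = E^2 M; E ≥ 1. (a) For m ≤ 8,
#((T^m).filter (· ∈ H)) ≤ E n H: copy `card_pow_inter` of LinDefs.lean (it only uses symmetry; or use it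
with the tame constant #T, `card_pow_le`), and T^(m+1) ⊆ T^9. If J = 0 take B = {1}. If some
commuting subset of T^2 has M elements we are done (T^2 ⊆ T^(2J)); assume not.
A state of level i is (H, Z, W): subgroups Z ≤ H ≤ D 0, every z in Z commutes with every h in H,
W ⊆ T^(2i), W ⊆ Z, 2^i ≤ #W. Note n Z < M. A state of level J finishes the proof (B = W).
(b) Step: for x in T^2, x in H, x not in Z let H' = H ⊓ centralizer {x}, Z' = Z ⊔ zpowers x (or the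
closure of Z and x; central in H' by `Subgroup.closure_induction` or a centraliser argument),
W' = W ∪ W.image (· * x), a state of level i + 1; if the conjugates y x y⁻¹ (y in T^2 ∩ H) take at most
c values then n H ≤ c E n H' (fibres: y0⁻¹ y in T^4 ∩ H').
(c) If all commutators of elements of H lie in a subgroup Q with n Q ≤ M and u^j M ≤ n H, then a state
of level i gives one of level i + j: induction on j; y x y⁻¹ = ⁅y, x⁆ x with ⁅y, x⁆ in T^8 ∩ Q, c = E M.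
(d) If (u^(J+1))^j M ≤ n H and j ≤ J, the same: let Q k = the h in H with h * z in D k for some z in Z
(a subgroup containing Z, normalised by H, commutators of Q k lie in Q (k+1), Q 0 = H, Q r ≤ Z). Take k
with T^2 ∩ Q k not inside Z and T^2 ∩ Q (k+1) inside Z. If u^j M ≤ n (Q k) use (c) for (Q k, Z, W);
otherwise take x in T^2 ∩ Q k outside Z, its conjugates lie in T^6 ∩ Q k, c = E u^J M.
Start with H = D 0, Z = ⊥, W = {1}, n H ≥ #T, and M ≤ u.
-/

set_option autoImplicit false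
set_option linter.unusedSectionVars false

namespace Pool.Agent.Work.MP_5dd17b_co

open Finset
open scoped Pointwise

variable {G : Type} [Group G] [DecidableEq G]

open Classical in
/-- the number of elements of `T ^ 2` in `H` -/
noncomputable def SolComm_n (T : Finset G) (H : Subgroup G) : ℕ := #((T ^ 2).filter (· ∈ H))

/-- a state of the greedy construction -/
def SolComm_St (T : Finset G) (D0 : Subgroup G) (i : ℕ) (H Z : Subgroup G) (W : Finset G) : Prop :=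
  Z ≤ H ∧ H ≤ D0 ∧ (∀ z ∈ Z, ∀ h ∈ H, Commute z h) ∧ W ⊆ T ^ (2 * i) ∧ (∀ w ∈ W, w ∈ Z) ∧
    2 ^ i ≤ #W

lemma SolComm_tame {T : Finset G} (h1 : 1 ∈ T) (hT : T⁻¹ = T) : Tame #T T :=
  ⟨h1, hT, fun _ => card_pow_le.trans (Nat.le_mul_of_pos_right _ (card_pos.mpr ⟨1, h1⟩))⟩

open Classical in
lemma SolComm_inter {T : Finset G} {E : ℕ} (h1 : 1 ∈ T) (hT : T⁻¹ = T) (hE : #(T ^ 9) ≤ E * #T)
    (H : Subgroup G) (m : ℕ) (hm : m ≤ 8) : #((T ^ m).filter (· ∈ H)) ≤ E * SolComm_n T H := by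
  refine Nat.le_of_mul_le_mul_left ((card_pow_inter (SolComm_tame h1 hT) H m).trans ?_)
    (card_pos.mpr ⟨1, h1⟩)
  calc _ ≤ SolComm_n T H * (E * #T) := Nat.mul_le_mul_left _
        ((card_le_card (pow_subset_pow_right h1 (by omega))).trans hE)
    _ = _ := by ring

lemma SolComm_inv {T : Finset G} (hT : T⁻¹ = T) {x : G} (hx : x ∈ T ^ 2) : x⁻¹ ∈ T ^ 2 := by
  rw [← hT, inv_pow]
  exact inv_mem_inv hx

lemma SolComm_mul {T : Finset G} {x y : G} {a b : ℕ} (hx : x ∈ T ^ a) (hy : y ∈ T ^ b) :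
    x * y ∈ T ^ (a + b) := by
  rw [pow_add]
  exact mul_mem_mul hx hy

open Classical in
lemma SolComm_exists {T : Finset G} {H Z : Subgroup G} (h : SolComm_n T Z < SolComm_n T H) :
    ∃ x ∈ T ^ 2, x ∈ H ∧ x ∉ Z := by
  obtain ⟨x, h1, h2⟩ := exists_mem_notMem_of_card_lt_card h
  rw [mem_filter] at h1 h2
  exact ⟨x, h1.1, h1.2, fun h => h2 ⟨h1.1, h⟩⟩

open Classical in
lemma SolComm_step {T : Finset G} {E i : ℕ} (h1 : 1 ∈ T) (hT : T⁻¹ = T) (hE : #(T ^ 9) ≤ E * #T)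
    {D0 H Z : Subgroup G} {W : Finset G} (h : SolComm_St T D0 i H Z W) {x : G} (hx : x ∈ T ^ 2)
    (hxH : x ∈ H) (hxZ : x ∉ Z) (V : Finset G) (hV : ∀ y ∈ T ^ 2, y ∈ H → y * x * y⁻¹ ∈ V) :
    ∃ H' Z' W', SolComm_St T D0 (i + 1) H' Z' W' ∧ H' ≤ H ∧
      SolComm_n T H ≤ E * SolComm_n T H' * #V := by
  obtain ⟨s1, s2, s3, s4, s5, s6⟩ := h
  obtain ⟨H', hH⟩ : ∃ H', H' = H ⊓ Subgroup.centralizer {x} := ⟨_, rfl⟩
  have m1 : ∀ g, g ∈ H' ↔ g ∈ H ∧ Commute x g := fun g => by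
    rw [hH, Subgroup.mem_inf, Subgroup.mem_centralizer_iff]
    simp [Commute, SemiconjBy]
  have m2 : ∀ g, g ∈ H' ⊓ Subgroup.centralizer (H' : Set G) ↔
      g ∈ H' ∧ ∀ h ∈ H', Commute h g := fun g => Iff.rfl
  have m3 : ∀ z ∈ Z, z ∈ H' ⊓ Subgroup.centralizer (H' : Set G) := fun z hz =>
    (m2 z).2 ⟨(m1 z).2 ⟨s1 hz, (s3 z hz x hxH).symm⟩, fun g hg => (s3 z hz g ((m1 g).1 hg).1).symm⟩
  have m4 : x ∈ H' ⊓ Subgroup.centralizer (H' : Set G) :=
    (m2 x).2 ⟨(m1 x).2 ⟨hxH, Commute.refl x⟩, fun g hg => ((m1 g).1 hg).2.symm⟩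
  have m5 : H' ≤ H := fun g hg => ((m1 g).1 hg).1
  refine ⟨H', H' ⊓ Subgroup.centralizer (H' : Set G), W ∪ W.image (· * x), ⟨inf_le_left,
    m5.trans s2, fun z hz g hg => (((m2 z).1 hz).2 g hg).symm, union_subset
      (s4.trans (pow_subset_pow_right h1 (by omega))) fun w hw => ?_, fun w hw => ?_, ?_⟩, m5, ?_⟩
  · obtain ⟨v, hv, rfl⟩ := mem_image.mp hw
    exact SolComm_mul (s4 hv) hx
  · rcases mem_union.mp hw with hw | hw
    · exact m3 w (s5 w hw)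
    · obtain ⟨v, hv, rfl⟩ := mem_image.mp hw
      exact mul_mem (m3 v (s5 v hv)) m4
  · rw [card_union_of_disjoint (disjoint_right.mpr fun w hw hw' => by
      obtain ⟨v, hv, rfl⟩ := mem_image.mp hw
      exact hxZ ((Z.mul_mem_cancel_left (s5 v hv)).mp (s5 _ hw'))),
      card_image_of_injective _ (mul_left_injective x), pow_succ]
    omega
  refine card_le_mul_card_image_of_maps_to (f := fun y => y * x * y⁻¹)
    (fun y hy => hV y (mem_filter.mp hy).1 (mem_filter.mp hy).2) _ fun z _ => ?_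
  rcases (((T ^ 2).filter (· ∈ H)).filter fun y => y * x * y⁻¹ = z).eq_empty_or_nonempty
    with h0 | ⟨q, hq⟩
  · rw [h0]
    simp
  obtain ⟨q1, q2⟩ := mem_filter.mp hq
  refine le_trans (card_le_card_of_injOn (fun g => q⁻¹ * g) (fun g hg => ?_)
    fun a _ b _ e => mul_left_cancel e) (SolComm_inter h1 hT hE H' 4 (by norm_num))
  obtain ⟨g1, g2⟩ := mem_filter.mp (mem_coe.mp hg)
  refine mem_coe.mpr (mem_filter.mpr ⟨SolComm_mul (SolComm_inv hT (mem_filter.mp q1).1)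
    (mem_filter.mp g1).1, (m1 _).2 ⟨H.mul_mem (H.inv_mem (mem_filter.mp q1).2)
      (mem_filter.mp g1).2, ?_⟩⟩)
  have e := g2.trans q2.symm
  calc x * (q⁻¹ * g) = q⁻¹ * (q * x * q⁻¹) * g := by group
    _ = q⁻¹ * g * x := by rw [← e]; group

lemma SolComm_fin {T : Finset G} {i : ℕ} {D0 H Z : Subgroup G} {W : Finset G}
    (h : SolComm_St T D0 i H Z W) : ∃ B ⊆ T ^ (2 * i), Comm B ∧ 2 ^ i ≤ #B :=
  ⟨W, h.2.2.2.1, fun a ha b hb => h.2.2.1 a (h.2.2.2.2.1 a ha) b (h.1 (h.2.2.2.2.1 b hb)),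
    h.2.2.2.2.2⟩

open Classical in
lemma SolComm_two {T : Finset G} {E M : ℕ} (h1 : 1 ∈ T) (hT : T⁻¹ = T) (hE : #(T ^ 9) ≤ E * #T)
    (hu : 0 < E ^ 2 * M) (hM : ∀ Z : Subgroup G, (∀ a ∈ Z, ∀ b ∈ Z, Commute a b) →
      SolComm_n T Z < M) (D0 Q : Subgroup G) (hQ : SolComm_n T Q ≤ M) (j : ℕ) :
    ∀ (i : ℕ) (H Z : Subgroup G) (W : Finset G), SolComm_St T D0 i H Z W →
      (∀ a ∈ H, ∀ b ∈ H, a * b * a⁻¹ * b⁻¹ ∈ Q) → (E ^ 2 * M) ^ j * M ≤ SolComm_n T H →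
      ∃ B ⊆ T ^ (2 * (i + j)), Comm B ∧ 2 ^ (i + j) ≤ #B := by
  induction j with
  | zero => exact fun i H Z W h _ _ => SolComm_fin h
  | succ j ih =>
    intro i H Z W h hc hn
    obtain ⟨x, x1, x2, x3⟩ := SolComm_exists (T := T) (H := H) (Z := Z)
      ((hM Z fun a ha b hb => h.2.2.1 a ha b (h.1 hb)).trans_le
        ((Nat.le_mul_of_pos_left _ (by positivity)).trans hn))
    obtain ⟨H', Z', W', s1, s2, s3⟩ := SolComm_step h1 hT hE h x1 x2 x3
      (((T ^ 8).filter (· ∈ Q)).image (· * x)) fun y y1 y2 => mem_image.mpr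
        ⟨y * x * y⁻¹ * x⁻¹, mem_filter.mpr ⟨SolComm_mul (SolComm_mul (SolComm_mul y1 x1)
          (SolComm_inv hT y1)) (SolComm_inv hT x1), hc y y2 x x2⟩, by simp⟩
    rw [show i + (j + 1) = i + 1 + j by ring]
    refine ih _ H' Z' W' s1 (fun a ha b hb => hc a (s2 ha) b (s2 hb))
      (Nat.le_of_mul_le_mul_left ?_ hu)
    calc E ^ 2 * M * ((E ^ 2 * M) ^ j * M) = (E ^ 2 * M) ^ (j + 1) * M := by ring
      _ ≤ E * SolComm_n T H' * (E * M) := hn.trans (s3.trans (Nat.mul_le_mul_left _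
          (card_image_le.trans ((SolComm_inter h1 hT hE Q 8 le_rfl).trans
            (Nat.mul_le_mul_left _ hQ)))))
      _ = _ := by ring

/-- the elements of `H` that lie in `D` up to a factor from the central subgroup `Z` -/
def SolComm_lev (H Z D : Subgroup G) (h : ∀ z ∈ Z, ∀ h ∈ H, Commute z h) : Subgroup G where
  carrier := {g | g ∈ H ∧ ∃ z ∈ Z, g * z ∈ D}
  one_mem' := ⟨H.one_mem, 1, Z.one_mem, by simp⟩
  mul_mem' := by
    rintro a b ⟨a1, z, a2, a3⟩ ⟨b1, z', b2, b3⟩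
    refine ⟨H.mul_mem a1 b1, z * z', Z.mul_mem a2 b2, ?_⟩
    have := D.mul_mem a3 b3
    rwa [mul_assoc, ← mul_assoc z, (h z a2 b b1).eq, mul_assoc, ← mul_assoc] at this
  inv_mem' := by
    rintro a ⟨a1, z, a2, a3⟩
    refine ⟨H.inv_mem a1, z⁻¹, Z.inv_mem a2, ?_⟩
    rw [← mul_inv_rev, (h z a2 a a1).eq]
    exact D.inv_mem a3

open Classical in
lemma SolComm_gen {T : Finset G} {E M J r : ℕ} (D : ℕ → Subgroup G)
    (hc : ∀ k, ∀ a ∈ D k, ∀ b ∈ D k, a * b * a⁻¹ * b⁻¹ ∈ D (k + 1))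
    (hn : ∀ k, ∀ a ∈ D k, ∀ g ∈ D 0, g * a * g⁻¹ ∈ D k) (hr : D r = ⊥)
    (h1 : 1 ∈ T) (hT : T⁻¹ = T) (hE : #(T ^ 9) ≤ E * #T)
    (hu : 0 < E ^ 2 * M) (hM : ∀ Z : Subgroup G, (∀ a ∈ Z, ∀ b ∈ Z, Commute a b) →
      SolComm_n T Z < M) (j : ℕ) (hj : j ≤ J) :
    ∀ (i : ℕ) (H Z : Subgroup G) (W : Finset G), SolComm_St T (D 0) i H Z W →
      ((E ^ 2 * M) ^ (J + 1)) ^ j * M ≤ SolComm_n T H →
      ∃ B ⊆ T ^ (2 * (i + j)), Comm B ∧ 2 ^ (i + j) ≤ #B := by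
  induction j with
  | zero => exact fun i H Z W h _ => SolComm_fin h
  | succ j ih =>
    intro i H Z W h hH
    have hZ := hM Z fun a ha b hb => h.2.2.1 a ha b (h.1 hb)
    obtain ⟨Q, hQ⟩ : ∃ Q : ℕ → Subgroup G, Q = fun k => SolComm_lev H Z (D k) h.2.2.1 := ⟨_, rfl⟩
    have m : ∀ k g, g ∈ Q k ↔ g ∈ H ∧ ∃ z ∈ Z, g * z ∈ D k := fun k g => by rw [hQ]; rfl
    have ex : ∃ k, ∀ x ∈ T ^ 2, x ∈ Q k → x ∈ Z := ⟨r, fun x _ hx => by
      obtain ⟨-, z, z1, z2⟩ := (m r x).1 hx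
      rw [hr, Subgroup.mem_bot, mul_eq_one_iff_eq_inv] at z2
      exact z2 ▸ Z.inv_mem z1⟩
    have k1 := Nat.find_spec ex
    obtain ⟨k, hk⟩ : ∃ k, Nat.find ex = k + 1 := by
      refine Nat.exists_eq_succ_of_ne_zero fun h0 => ?_
      obtain ⟨x, x1, x2, x3⟩ := SolComm_exists (T := T) (H := H) (Z := Z)
        (hZ.trans_le ((Nat.le_mul_of_pos_left _ (by positivity)).trans hH))
      rw [h0] at k1
      exact x3 (k1 x x1 ((m 0 x).2 ⟨x2, 1, Z.one_mem, by simpa using h.2.1 x2⟩))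
    have k2 := Nat.find_min ex (m := k) (by omega)
    rw [hk] at k1
    push Not at k2
    obtain ⟨x, x1, x2, x3⟩ := k2
    by_cases hb : (E ^ 2 * M) ^ (j + 1) * M ≤ SolComm_n T (Q k)
    · refine SolComm_two h1 hT hE hu hM (D 0) (Q (k + 1)) (le_trans (card_le_card fun y hy =>
        mem_filter.mpr ⟨(mem_filter.mp hy).1, k1 y (mem_filter.mp hy).1 (mem_filter.mp hy).2⟩)
          hZ.le) _ i (Q k) Z W ⟨fun z hz => (m k z).2 ⟨h.1 hz, z⁻¹, Z.inv_mem hz, by simp⟩,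
        fun g hg => h.2.1 ((m k g).1 hg).1, fun z hz g hg => h.2.2.1 z hz g ((m k g).1 hg).1,
        h.2.2.2⟩ (fun a ha b hb => ?_) hb
      obtain ⟨a1, z, a2, a3⟩ := (m k a).1 ha
      obtain ⟨b1, z', b2, b3⟩ := (m k b).1 hb
      refine (m _ _).2 ⟨H.mul_mem (H.mul_mem (H.mul_mem a1 b1) (H.inv_mem a1)) (H.inv_mem b1), 1,
        Z.one_mem, ?_⟩
      have e1 := (h.2.2.1 z a2 b b1).eq
      have e2 := (h.2.2.1 z' b2 _ (H.inv_mem (H.mul_mem a1 (h.1 a2)))).eq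
      convert hc k _ a3 _ b3 using 1
      calc a * b * a⁻¹ * b⁻¹ * 1 = a * (b * z) * (a * z)⁻¹ * z' * (b * z')⁻¹ := by group
        _ = a * z * b * ((a * z)⁻¹ * z') * (b * z')⁻¹ := by rw [← e1]; group
        _ = _ := by rw [← e2]; group
    obtain ⟨H', Z', W', s1, -, s3⟩ := SolComm_step h1 hT hE h x1 ((m k x).1 x2).1 x3
      ((T ^ 6).filter (· ∈ Q k)) fun y y1 y2 => mem_filter.mpr
        ⟨SolComm_mul (SolComm_mul y1 x1) (SolComm_inv hT y1), by
          obtain ⟨a1, z, a2, a3⟩ := (m k x).1 x2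
          refine (m _ _).2 ⟨H.mul_mem (H.mul_mem y2 a1) (H.inv_mem y2), z, a2, ?_⟩
          convert hn k _ a3 y (h.2.1 y2) using 1
          rw [mul_assoc, ← (h.2.2.1 z a2 _ (H.inv_mem y2)).eq]
          group⟩
    rw [show i + (j + 1) = i + 1 + j by ring]
    refine ih (by omega) _ H' Z' W' s1 (Nat.le_of_mul_le_mul_left ?_ (pow_pos hu (J + 1)))
    calc (E ^ 2 * M) ^ (J + 1) * (((E ^ 2 * M) ^ (J + 1)) ^ j * M)
        = ((E ^ 2 * M) ^ (J + 1)) ^ (j + 1) * M := by ring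
      _ ≤ E * SolComm_n T H' * (E * ((E ^ 2 * M) ^ (j + 1) * M)) :=
          hH.trans (s3.trans (Nat.mul_le_mul_left _ ((SolComm_inter h1 hT hE _ 6 (by norm_num)).trans
            (Nat.mul_le_mul_left _ (not_le.mp hb).le))))
      _ = (E ^ 2 * M) ^ (j + 1 + 1) * SolComm_n T H' := by ring
      _ ≤ _ := Nat.mul_le_mul_right _ (Nat.pow_le_pow_right hu (by omega))

theorem sol_comm (T : Finset G) (E J r : ℕ) (D : ℕ → Subgroup G) (hD : ∀ x ∈ T, x ∈ D 0)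
    (hc : ∀ k, ∀ a ∈ D k, ∀ b ∈ D k, a * b * a⁻¹ * b⁻¹ ∈ D (k + 1))
    (hn : ∀ k, ∀ a ∈ D k, ∀ g ∈ D 0, g * a * g⁻¹ ∈ D k) (hr : D r = ⊥)
    (h1 : 1 ∈ T) (hT : T⁻¹ = T) (hE : #(T ^ 9) ≤ E * #T)
    (h : (E ^ 2 * 2 ^ J) ^ (J ^ 2 + J + 1) ≤ #T) :
    ∃ B ⊆ T ^ (2 * J), Comm B ∧ 2 ^ J ≤ #B := by
  classical
  have h0 : 0 < #T := card_pos.mpr ⟨1, h1⟩
  have hE1 : 0 < E := by
    by_contra h2
    have := card_le_card (subset_pow h1 (show 9 ≠ 0 by norm_num))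
    rw [show E = 0 by omega] at hE
    omega
  have st : SolComm_St T (D 0) 0 (D 0) ⊥ {1} := ⟨bot_le, le_rfl, fun z hz g _ => by
    rw [Subgroup.mem_bot.mp hz]; exact Commute.one_left g, by simp, by simp, by simp⟩
  rcases Nat.eq_zero_or_pos J with rfl | hJ
  · exact SolComm_fin st
  by_cases hM : ∀ Z : Subgroup G, (∀ a ∈ Z, ∀ b ∈ Z, Commute a b) → SolComm_n T Z < 2 ^ J
  · have := SolComm_gen D hc hn hr h1 hT hE (by positivity) hM J le_rfl 0 _ _ _ st (by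
      calc ((E ^ 2 * 2 ^ J) ^ (J + 1)) ^ J * 2 ^ J
          ≤ ((E ^ 2 * 2 ^ J) ^ (J + 1)) ^ J * (E ^ 2 * 2 ^ J) :=
            Nat.mul_le_mul_left _ (Nat.le_mul_of_pos_left _ (by positivity))
        _ = (E ^ 2 * 2 ^ J) ^ (J ^ 2 + J + 1) := by ring
        _ ≤ _ := h.trans (card_le_card fun x hx =>
            mem_filter.mpr ⟨subset_pow h1 (by norm_num) hx, hD x hx⟩))
    rwa [zero_add] at this
  push Not at hM
  obtain ⟨Z, z1, z2⟩ := hM
  exact ⟨_, (filter_subset _ _).trans (pow_subset_pow_right h1 (by omega)),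
    fun a ha b hb => z1 a (mem_filter.mp ha).2 b (mem_filter.mp hb).2, z2⟩

end Pool.Agent.Work.MP_5dd17b_co
end

-- merged part: Pool.Agent.Work.MP_5dd17b_co.SolColour
section
/-!
The pigeonhole lemma and the correlated colouring relative to a subgroup.
-/

set_option autoImplicit false

namespace Pool.Agent.Work.MP_5dd17b_co

open Finset
open scoped Pointwise

variable {G : Type} [Group G] [DecidableEq G]

theorem pigeon2 (P : Subgroup G) (S Y B : Finset G) (m J e t K : ℕ) (hP : ∀ b ∈ B, b ∈ P)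
    (hY : Y ⊆ S) (hY0 : Y.Nonempty) (h1 : 1 ∈ S) (hB : B ⊆ S ^ m) (hc : Comm B)
    (hS : ∀ r, #(S ^ r) ≤ K ^ r * #Y)
    (ht : ∀ B : Finset G, Comm B → (∀ b ∈ B, b ∈ P ∧ b ^ e = 1) → #B ≤ t)
    (h : ∀ x ∈ P, (∀ j, 1 ≤ j → j ≤ J → x ^ j ∈ Y⁻¹ * Y) → x ^ e = 1) :
    #B ≤ t * K ^ ((1 + m * J) * J) := by
  have key : #(B ×ˢ Fintype.piFinset (fun _ : Fin J => Y)) ≤
      t * #(Fintype.piFinset (fun _ : Fin J => S ^ (1 + m * J))) := by
    refine card_le_mul_card_image_of_maps_to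
      (f := fun p : G × (Fin J → G) => fun j : Fin J => p.2 j * p.1 ^ (j.val + 1))
      (fun p hp => ?_) _ fun z _ => ?_
    · obtain ⟨p1, p2⟩ := mem_product.mp hp
      refine Fintype.mem_piFinset.mpr fun j => ?_
      rw [pow_add, pow_one]
      refine mul_mem_mul (hY (Fintype.mem_piFinset.mp p2 j)) ?_
      refine pow_subset_pow_right h1 (Nat.mul_le_mul_left m (show j.val + 1 ≤ J from j.2)) ?_
      rw [pow_mul]
      exact pow_mem_pow (hB p1)
    generalize hF : ((B ×ˢ Fintype.piFinset (fun _ : Fin J => Y)).filter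
      fun p : G × (Fin J → G) => (fun j : Fin J => p.2 j * p.1 ^ (j.val + 1)) = z) = F
    have hm : ∀ p ∈ F, p.1 ∈ B ∧ ∀ j : Fin J, p.2 j ∈ Y ∧ p.2 j * p.1 ^ (j.val + 1) = z j := by
      intro p hp
      rw [← hF] at hp
      obtain ⟨p1, p2⟩ := mem_filter.mp hp
      exact ⟨(mem_product.mp p1).1, fun j =>
        ⟨Fintype.mem_piFinset.mp (mem_product.mp p1).2 j, congrFun p2 j⟩⟩
    rcases F.eq_empty_or_nonempty with h0 | ⟨q, hq⟩
    · rw [h0]
      simp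
    obtain ⟨q1, q2⟩ := hm q hq
    have hinj : Set.InjOn (fun p : G × (Fin J → G) => q.1 * p.1⁻¹) F := by
      intro p hp p' hp' e1
      have e2 : p.1 = p'.1 := inv_injective (mul_left_cancel e1)
      refine Prod.ext e2 (funext fun j => ?_)
      have e3 := ((hm p hp).2 j).2.trans ((hm p' hp').2 j).2.symm
      rw [e2] at e3
      exact mul_right_cancel e3
    rw [← card_image_of_injOn hinj]
    refine ht _ (fun a ha b hb => ?_) fun a ha => ?_
    · obtain ⟨p, hp, rfl⟩ := mem_image.mp ha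
      obtain ⟨p', hp', rfl⟩ := mem_image.mp hb
      have a1 := (hm p hp).1
      have a2 := (hm p' hp').1
      exact ((Commute.refl _).mul_right (hc _ q1 _ a2).inv_right).mul_left
        ((hc _ a1 _ q1).inv_left.mul_right (hc _ a1 _ a2).inv_inv)
    · obtain ⟨p, hp, rfl⟩ := mem_image.mp ha
      obtain ⟨p1, p2⟩ := hm p hp
      have hx : q.1 * p.1⁻¹ ∈ P := mul_mem (hP _ q1) (inv_mem (hP _ p1))
      refine ⟨hx, h _ hx fun j j1 j2 => ?_⟩
      obtain ⟨j, rfl⟩ : ∃ i, j = i + 1 := ⟨j - 1, by omega⟩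
      obtain ⟨a1, a2⟩ := q2 ⟨j, j2⟩
      obtain ⟨b1, b2⟩ := p2 ⟨j, j2⟩
      have e1 : (q.1 * p.1⁻¹) ^ (j + 1) = (q.2 ⟨j, j2⟩)⁻¹ * p.2 ⟨j, j2⟩ := by
        rw [(hc _ q1 _ p1).inv_right.mul_pow, inv_pow, eq_inv_mul_iff_mul_eq, ← mul_assoc,
          mul_inv_eq_iff_eq_mul]
        exact a2.trans b2.symm
      rw [e1]
      exact mul_mem_mul (inv_mem_inv a1) b1
  rw [card_product, Fintype.card_piFinset, Fintype.card_piFinset, prod_const, prod_const,
    card_univ, Fintype.card_fin] at key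
  refine Nat.le_of_mul_le_mul_right (key.trans ?_) (pow_pos (card_pos.mpr hY0) J)
  rw [mul_assoc, pow_mul, ← mul_pow]
  exact Nat.mul_le_mul_left _ (Nat.pow_le_pow_left (hS _) _)

open Classical in
theorem colour2 [Fintype G] (P : Subgroup G) (l B : ℕ) (hl : 2 ≤ l)
    (root : ∀ y, #(univ.filter fun x => x ∈ P ∧ x ^ l = y) ≤ B) :
    ∃ (π : G → G) (s : G → Bool), (∀ x, π x⁻¹ = π x) ∧ (∀ x, s x⁻¹ = s x) ∧
      (∀ z, #(univ.filter fun x => π x = z) ≤ 2 + 2 * B) ∧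
      ∀ x ∈ P, x ^ (l ^ 3 - l) ≠ 1 → ∃ i ≤ 2, x ^ l ^ (i + 1) ≠ 1 ∧
        π (x ^ l ^ i) = π (x ^ l ^ (i + 1)) ∧ s (x ^ l ^ i) ≠ s (x ^ l ^ (i + 1)) := by
  obtain ⟨ρ, r1, r2⟩ := exists_rep (G := G)
  have r3 : ∀ x, ρ (ρ x ^ l) = ρ (x ^ l) := fun x => by
    rcases r2 x with h | h
    · rw [h]
    · rw [h, inv_pow, r1]
  obtain ⟨m, rfl⟩ : ∃ m, l = m + 1 := ⟨l - 1, by omega⟩
  have e1 : (m + 1) ^ 3 - (m + 1) = m * (m + 1) * (m + 2) := by
    rw [Nat.sub_eq_iff_eq_add (Nat.le_self_pow (by norm_num) _)]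
    ring
  rw [e1]
  obtain ⟨I, i1, i2, i3⟩ := quasi_kernel (fun v => ρ (v ^ (m + 1)))
    (univ.filter fun v => v ∈ P ∧ v ^ (m * (m + 1) * (m + 2)) ≠ 1) (by
      intro v hv h
      apply (mem_filter.mp hv).2.2
      rcases r2 (v ^ (m + 1)) with h1 | h1
      · have : v ^ m = 1 := by
          rw [h, pow_succ] at h1
          exact (mul_eq_right.mp h1.symm)
        rw [mul_assoc, pow_mul, this, one_pow]
      · have : v ^ (m + 2) = 1 := by
          rw [h] at h1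
          rw [pow_succ]
          exact mul_eq_one_iff_inv_eq.mpr h1.symm
        rw [mul_comm, pow_mul, this, one_pow])
  refine ⟨fun x => if ρ x ∈ I then ρ (x ^ (m + 1)) else ρ x, fun x => decide (ρ x ∈ I),
    fun x => by simp only [r1, inv_pow], fun x => by simp only [r1], fun z => ?_, ?_⟩
  · have : (univ.filter fun x => (if ρ x ∈ I then ρ (x ^ (m + 1)) else ρ x) = z) ⊆
        {z, z⁻¹} ∪ ((univ.filter fun x => x ∈ P ∧ x ^ (m + 1) = z) ∪
          (univ.filter fun x => x ∈ P ∧ x ^ (m + 1) = z⁻¹)) := by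
      intro x hx
      have h1 := (mem_filter.mp hx).2
      simp only [mem_union, mem_insert, mem_singleton, mem_filter, mem_univ, true_and]
      split_ifs at h1 with h2
      · have h3 : x ∈ P := by
          have := (mem_filter.mp (i1 h2)).2.1
          rcases r2 x with h | h
          · exact h ▸ this
          · exact inv_mem_iff.mp (h ▸ this)
        rcases r2 (x ^ (m + 1)) with h | h
        · exact Or.inr (Or.inl ⟨h3, h ▸ h1⟩)
        · exact Or.inr (Or.inr ⟨h3, by rw [← h1, h, inv_inv]⟩)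
      · rcases r2 x with h | h
        · exact Or.inl (Or.inl (h ▸ h1))
        · exact Or.inl (Or.inr (by rw [← h1, h, inv_inv]))
    have h2 := (card_le_card this).trans ((card_union_le _ _).trans
      (Nat.add_le_add card_le_two ((card_union_le _ _).trans (Nat.add_le_add (root _) (root _)))))
    exact h2.trans (by omega)
  · intro x hx hx2
    have key : ∀ i ≤ 2, ρ (x ^ (m + 1) ^ i) ∈ I → ∃ i ≤ 2, x ^ (m + 1) ^ (i + 1) ≠ 1 ∧
        (if ρ (x ^ (m + 1) ^ i) ∈ I then ρ ((x ^ (m + 1) ^ i) ^ (m + 1)) else ρ (x ^ (m + 1) ^ i))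
          = (if ρ (x ^ (m + 1) ^ (i + 1)) ∈ I then ρ ((x ^ (m + 1) ^ (i + 1)) ^ (m + 1))
            else ρ (x ^ (m + 1) ^ (i + 1))) ∧
        decide (ρ (x ^ (m + 1) ^ i) ∈ I) ≠ decide (ρ (x ^ (m + 1) ^ (i + 1)) ∈ I) := by
      intro i hi h
      have h1 := i2 _ h
      simp only [r3] at h1
      rw [← pow_mul, ← pow_succ] at h1
      refine ⟨i, hi, fun h2 => ?_, by rw [if_pos h, if_neg h1, ← pow_mul, ← pow_succ],
        by simp [h, h1]⟩
      apply (mem_filter.mp (i1 h)).2.2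
      have h3 : (x ^ (m + 1) ^ i) ^ (m * (m + 1) * (m + 2)) = 1 := by
        rw [← pow_mul, show (m + 1) ^ i * (m * (m + 1) * (m + 2))
          = (m + 1) ^ (i + 1) * (m * (m + 2)) by ring, pow_mul, h2, one_pow]
      rcases r2 (x ^ (m + 1) ^ i) with h4 | h4
      · rw [h4, h3]
      · rw [h4, inv_pow, h3, inv_one]
    have hv : ρ x ∈ univ.filter fun v => v ∈ P ∧ v ^ (m * (m + 1) * (m + 2)) ≠ 1 := by
      rcases r2 x with h | h
      · rw [h]
        exact mem_filter.mpr ⟨mem_univ _, hx, hx2⟩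
      · rw [h]
        exact mem_filter.mpr ⟨mem_univ _, inv_mem hx, by rwa [inv_pow, inv_ne_one]⟩
    rcases i3 _ hv with h | h | h
    · exact key 0 (by norm_num) (by simpa using h)
    · exact key 1 (by norm_num) (by simpa [r3] using h)
    · exact key 2 (by norm_num) (by simpa [r3, ← pow_mul, sq] using h)

end Pool.Agent.Work.MP_5dd17b_co
end

-- merged part: Pool.Agent.Work.MP_5dd17b_co.SolStruct
section
/-!
Sets of high energy without power patterns in a solvable subgroup are small.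
-/

set_option autoImplicit false

namespace Pool.Agent.Work.MP_5dd17b_co

open Finset
open scoped Pointwise

variable {G : Type} [Group G] [DecidableEq G]

lemma Tame.mono {K K' : ℕ} {S : Finset G} (h : Tame K S) (hK : K ≤ K') : Tame K' S :=
  ⟨h.1, h.2.1, fun m => (h.2.2 m).trans (Nat.mul_le_mul_right _ (Nat.pow_le_pow_left hK m))⟩

open Classical in
lemma Tame.card_le_index [Finite G] {K : ℕ} {S : Finset G} (h : Tame K S) (P : Subgroup G) :
    #S ≤ #((S ^ 2).filter (· ∈ P)) * P.index := by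
  have := Fintype.ofFinite (G ⧸ P)
  rw [Subgroup.index, Nat.card_eq_fintype_card, ← card_univ]
  refine card_le_mul_card_image_of_maps_to (f := fun g : G => (g : G ⧸ P))
    (fun _ _ => mem_univ _) _ fun z _ => ?_
  rcases (S.filter fun g : G => (g : G ⧸ P) = z).eq_empty_or_nonempty with h0 | ⟨q, hq⟩
  · rw [h0]
    simp
  obtain ⟨q1, q2⟩ := mem_filter.mp hq
  refine card_le_card_of_injOn (fun g => q⁻¹ * g) (fun g hg => ?_) fun a _ b _ e => mul_left_cancel e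
  obtain ⟨g1, g2⟩ := mem_filter.mp (mem_coe.mp hg)
  exact mem_coe.mpr (mem_filter.mpr ⟨h.inv_mul_mem q1 g1, QuotientGroup.eq.mp (q2.trans g2.symm)⟩)

lemma exists_series (P : Subgroup G) [Group.IsSolvable P] : ∃ (r : ℕ) (D : ℕ → Subgroup G), D 0 = P ∧
    (∀ k, ∀ a ∈ D k, ∀ b ∈ D k, a * b * a⁻¹ * b⁻¹ ∈ D (k + 1)) ∧
    (∀ k, ∀ a ∈ D k, ∀ g ∈ D 0, g * a * g⁻¹ ∈ D k) ∧ D r = ⊥ := by
  obtain ⟨r, hr⟩ := Group.IsSolvable.solvable (G := P)
  have h0 : (derivedSeries P 0).map P.subtype = P := by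
    rw [derivedSeries_zero, ← MonoidHom.range_eq_map, Subgroup.range_subtype]
  refine ⟨r, fun k => (derivedSeries P k).map P.subtype, h0, ?_, ?_, by simp [hr]⟩
  · rintro k _ ⟨a, ha, rfl⟩ _ ⟨b, hb, rfl⟩
    exact ⟨a * b * a⁻¹ * b⁻¹, Subgroup.commutator_mem_commutator ha hb, rfl⟩
  · rintro k _ ⟨a, ha, rfl⟩ _ ⟨g, -, rfl⟩
    exact ⟨g * a * g⁻¹, (derivedSeries_normal P k).conj_mem a ha g, rfl⟩

lemma exponent_le (a J L w I c y : ℕ) (hI : 1 ≤ I) (hy : y = c * I) (hc : 200 ≤ c) (h1 : 3 * a ≤ y)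
    (h2 : J ≤ y) (h3 : L ≤ y) (h4 : w ≤ y) :
    77 * I + 61 + (1 + 3 * a * (128 * L ^ 2 * w)) +
      (2 * (1 + 3 * a * (128 * L ^ 2 * w + 4)) + J) * (J ^ 2 + J + 1) ≤ 1000 * c ^ 6 * I ^ 6 := by
  have y1 : 200 * I ≤ y := hy ▸ Nat.mul_le_mul_right _ hc
  have y2 : 1 ≤ y := by omega
  have p : ∀ i j, i ≤ j → y ^ i ≤ y ^ j := fun i j h => Nat.pow_le_pow_right y2 h
  have e1 : 3 * a * (128 * L ^ 2 * w) ≤ 128 * y ^ 4 :=
    calc _ ≤ y * (128 * y ^ 2 * y) := by gcongr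
      _ = _ := by ring
  have q1 := p 1 4 (by norm_num)
  have q2 := p 1 2 (by norm_num)
  have q3 := p 4 6 (by norm_num)
  rw [pow_one] at q1 q2
  have e2 : 2 * (1 + 3 * a * (128 * L ^ 2 * w + 4)) + J ≤ 267 * y ^ 4 := by
    rw [mul_add (3 * a)]
    omega
  have e3 : J ^ 2 + J + 1 ≤ 3 * y ^ 2 := by
    have := Nat.pow_le_pow_left h2 2
    omega
  have e4 := Nat.mul_le_mul e2 e3
  rw [show 267 * y ^ 4 * (3 * y ^ 2) = 801 * y ^ 6 by ring] at e4
  rw [mul_assoc 1000, ← mul_pow, ← hy]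
  omega

open Classical in
theorem sol_struct (e Q t : ℕ) : ∃ c : ℕ, ∀ (G : Type) [Group G] [DecidableEq G] [Fintype G]
    (P : Subgroup G) [Group.IsSolvable P],
    (∀ B : Finset G, Comm B → (∀ b ∈ B, b ∈ P ∧ b ^ e = 1) → #B ≤ t) →
    ∀ (A : Finset G) (I : ℕ), 1 ≤ I → A.Nonempty → #A ^ 3 ≤ 8 * (2 ^ I) ^ 7 * En A →
    (∀ x ∈ P, (∀ j, 1 ≤ j → j ≤ Q → x ^ j ∈ A⁻¹ * A) → x ^ e = 1) →
    #A ≤ P.index * 2 ^ (c * I ^ 6) := by
  obtain ⟨q, hq⟩ : ∃ q, q = (1 + 8 * Q) * Q := ⟨_, rfl⟩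
  refine ⟨1000 * (2 * (374 * q + t) + 4000) ^ 6, fun G _ _ _ P _ ht A I hI hA hE h => ?_⟩
  obtain ⟨A', a1, a2, a3⟩ := bsg A _ hA hE
  have k1 : 8 * (2 ^ I) ^ 7 = 2 ^ (7 * I + 3) := by ring
  have k2 : 2 ^ 24 * (8 * (2 ^ I) ^ 7) ^ 10 = 2 ^ (70 * I + 54) := by ring
  rw [k2] at a3
  rw [k1] at a2
  have hA' : A'.Nonempty := by
    rw [← card_pos]
    by_contra h1
    have := hA.card_pos
    rw [show #A' = 0 by omega] at a2
    omega
  obtain ⟨S, Y, t1, t2, t3, t4, t5, t6⟩ := tao A' _ hA' a3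
  have hY : Y.Nonempty := by
    rw [← card_pos]
    by_contra h1
    have := hA'.card_pos
    rw [show #Y = 0 by omega] at t5
    omega
  obtain ⟨a, ha⟩ : ∃ a, a = 374 * I := ⟨_, rfl⟩
  have k3 : 4 * (2 ^ (70 * I + 54)) ^ 3 ≤ 2 ^ a := by
    rw [show 4 * (2 ^ (70 * I + 54)) ^ 3 = 2 ^ (210 * I + 164) by ring]
    exact Nat.pow_le_pow_right (by norm_num) (by omega)
  have t7 : ∀ m, #(S ^ m) ≤ (2 ^ a) ^ m * #Y := fun m =>
    (t6 m).trans (Nat.mul_le_mul_right _ (Nat.pow_le_pow_left k3 m))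
  have hS : Tame (2 ^ a) S :=
    ⟨t2, t3, fun r => (t7 r).trans (Nat.mul_le_mul_left _ (card_le_card t1))⟩
  have s1 := hS.card_le_index P
  have s2 := hS.inter P
  have s3 := inter_pow_subset S P 4
  obtain ⟨U, hU⟩ : ∃ U, U = (S ^ 2).filter (· ∈ P) := ⟨_, rfl⟩
  rw [← hU] at s1 s2 s3
  obtain ⟨J, hJ⟩ : ∃ J, J = a * q + t := ⟨_, rfl⟩
  obtain ⟨L, hL⟩ : ∃ L, L = 2 * J + 9 := ⟨_, rfl⟩
  obtain ⟨w, hw⟩ : ∃ w, w = 9 * a + 4 + L := ⟨_, rfl⟩
  obtain ⟨T, c1, c2, c3, c4⟩ := croot_sisask U _ L w s2 (by omega) (by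
    calc 16 * L * ((2 ^ a) ^ 3) ^ 3 ≤ 16 * 2 ^ L * ((2 ^ a) ^ 3) ^ 3 := by
          gcongr
          exact Nat.lt_two_pow_self.le
      _ = _ := by rw [hw]; ring)
  obtain ⟨r, D, d0, d1, d2, d3⟩ := exists_series P
  have c5 : ∀ m ≤ L, T ^ m ⊆ (S ^ (2 * 4)).filter (· ∈ P) := fun m hm =>
    (pow_subset_pow_right c1 hm).trans (c3.trans s3)
  obtain ⟨ee, hee⟩ : ∃ ee, ee = 1 + 3 * a * (128 * L ^ 2 * w + 4) := ⟨_, rfl⟩
  have c6 : #(T ^ 9) ≤ 2 ^ ee * #T := by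
    calc #(T ^ 9) ≤ #(U ^ 4) := card_le_card ((pow_subset_pow_right c1 (by omega)).trans c3)
      _ ≤ ((2 ^ a) ^ 3) ^ 4 * (2 * ((2 ^ a) ^ 3) ^ (128 * L ^ 2 * w) * #T) :=
          (s2.2.2 4).trans (Nat.mul_le_mul_left _ c4)
      _ = _ := by rw [hee]; ring
  have c7 : #T ≤ 2 ^ ((2 * ee + J) * (J ^ 2 + J + 1)) := by
    by_contra h1
    obtain ⟨B, b1, b2, b3⟩ := sol_comm T (2 ^ ee) J r D
      (fun x hx => d0 ▸ (mem_filter.mp (c5 1 (by omega) (by rwa [pow_one]))).2) d1 d2 d3 c1 c2 c6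
      (by
        rw [← pow_mul, ← pow_add, ← pow_mul, mul_comm ee]
        exact (not_le.mp h1).le)
    have b4 := b1.trans (c5 _ (by omega))
    have b5 := pigeon2 P S Y B 8 Q e t _ (fun b hb => (mem_filter.mp (b4 hb)).2) t1 hY t2
      (b4.trans (filter_subset _ _)) b2 t7 ht fun x hx hx2 => h x hx fun j j1 j2 =>
        mul_subset_mul (inv_subset_inv a1) a1 (t4 (hx2 j j1 j2))
    rw [← hq, ← pow_mul] at b5
    have b6 : t * 2 ^ (a * q) < 2 ^ J := by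
      rw [hJ, pow_add, mul_comm]
      exact Nat.mul_lt_mul_of_pos_left Nat.lt_two_pow_self (by positivity)
    omega
  have y1 : J ≤ (374 * q + t) * I := by
    rw [hJ, ha, add_mul]
    exact Nat.add_le_add (le_of_eq (by ring)) (Nat.le_mul_of_pos_right _ hI)
  have fin := exponent_le a J L w I (2 * (374 * q + t) + 4000) _ hI rfl (by omega)
    (by rw [add_mul]; omega) (by rw [add_mul, mul_assoc]; omega) (by rw [add_mul, mul_assoc]; omega)
    (by rw [add_mul, mul_assoc]; omega)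
  rw [← hee] at fin
  calc #A ≤ 8 * 2 ^ (7 * I + 3) * (2 * 2 ^ (70 * I + 54) * (2 * ((2 ^ a) ^ 3) ^ (128 * L ^ 2 * w) *
        2 ^ ((2 * ee + J) * (J ^ 2 + J + 1)) * P.index)) :=
        a2.trans (Nat.mul_le_mul_left _ (t5.trans (Nat.mul_le_mul_left _ ((card_le_card t1).trans
          (s1.trans (Nat.mul_le_mul_right _ (c4.trans (Nat.mul_le_mul_left _ c7))))))))
    _ = P.index * 2 ^ (77 * I + 61 + (1 + 3 * a * (128 * L ^ 2 * w)) +
        (2 * ee + J) * (J ^ 2 + J + 1)) := by ring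
    _ ≤ _ := Nat.mul_le_mul_left _ (Nat.pow_le_pow_right (by norm_num) fin)

end Pool.Agent.Work.MP_5dd17b_co
end

-- merged part: Pool.Agent.Work.MP_5dd17b_co.SolMain
section
/-!
Ramsey Cayley graphs on groups with a large solvable subgroup with few roots and little torsion.
-/

set_option autoImplicit false

namespace Pool.Agent.Work.MP_5dd17b_co

open Finset
open scoped Pointwise

lemma exists_scale (c : ℕ) (η : ℝ) (hη : 0 < η) :
    ∃ I1 : ℕ, ∀ I, I1 ≤ I → ((c * (I + 1) ^ 6 : ℕ) : ℝ) ≤ η * 2 ^ I := by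
  have h := (tendsto_pow_const_div_const_pow_of_one_lt 6 (one_lt_two (α := ℝ))).eventually
    (gt_mem_nhds (show 0 < η / (2 * c + 2) by positivity))
  obtain ⟨I1, hI⟩ := Filter.eventually_atTop.mp h
  refine ⟨I1, fun I h1 => ?_⟩
  have h2 := hI (I + 1) (by omega)
  rw [div_lt_div_iff₀ (by positivity) (by positivity), pow_succ 2] at h2
  push_cast at h2 ⊢
  have h3 : (0 : ℝ) ≤ ((I : ℝ) + 1) ^ 6 := by positivity
  linarith only [h2, h3]

open Classical in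
theorem sol_core (l B t : ℕ) (η : ℝ) (hl : 2 ≤ l) (hη : 0 < η) (hη1 : η ≤ 1) : ∃ C : ℝ, 0 ≤ C ∧
    ∀ (G : Type) [Group G] [Fintype G] (P : Subgroup G) [Group.IsSolvable P],
      (∀ y, #(univ.filter fun x => x ∈ P ∧ x ^ l = y) ≤ B) →
      (∀ Z : Finset G, Comm Z → (∀ b ∈ Z, b ∈ P ∧ b ^ (l ^ 3 - l) = 1) → #Z ≤ t) →
      (P.index : ℝ) ≤ Real.log (Fintype.card G) ^ (1 - η) → 1 ≤ Real.log (Fintype.card G) →
      ∃ χ : G → Bool, (∀ x, χ x⁻¹ = χ x) ∧ ∀ (A : Finset G) (c : Bool),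
        (∀ a ∈ A, ∀ b ∈ A, a ≠ b → χ (a⁻¹ * b) = c) → (#A : ℝ) ≤ C * Real.log (Fintype.card G) := by
  obtain ⟨I0, hU⟩ := union2 (2 + 2 * B) (by omega)
  obtain ⟨c0, hs⟩ := sol_struct (l ^ 3 - l) (l ^ 3) t
  obtain ⟨I1, hI1⟩ := exists_scale c0 η hη
  obtain ⟨k0, hk0⟩ : ∃ k0, k0 = 2 ^ 2 ^ (I0 + I1 + 4) + 1 := ⟨_, rfl⟩
  obtain ⟨C1, hC1⟩ : ∃ C1 : ℝ, C1 = 8 * (2 + 2 * B : ℕ) * 20001 := ⟨_, rfl⟩
  have hC : 1 ≤ C1 := by
    have h1 : (1 : ℝ) ≤ (2 + 2 * B : ℕ) := by exact_mod_cast (by omega)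
    rw [hC1]
    linarith only [h1]
  rw [← hC1] at hU
  refine ⟨C1 + (k0 + 1), by positivity, fun G _ _ P _ hB ht hI hX1 => ?_⟩
  obtain ⟨X, hX⟩ : ∃ X, X = Real.log (Fintype.card G) := ⟨_, rfl⟩
  rw [← hX] at hI hX1 ⊢
  obtain ⟨π, s, p1, p2, p3, p4⟩ := colour2 P l B hl hB
  obtain ⟨k, hk⟩ : ∃ k, k = ⌈C1 * X⌉₊ + k0 := ⟨_, rfl⟩
  have k1 : C1 * X ≤ k := (Nat.le_ceil _).trans (by exact_mod_cast (by omega))
  have k4 : (k : ℝ) ≤ (C1 + (k0 + 1)) * X := by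
    have := (Nat.ceil_lt_add_one (show 0 ≤ C1 * X by positivity)).le
    have h4 : (0 : ℝ) ≤ k0 + 1 := by positivity
    rw [hk]
    push_cast
    linarith only [hX1, this, mul_nonneg_of_nonpos_of_nonpos (Mathlib.Tactic.Linarith.sub_nonpos_of_le (Mathlib.Tactic.Linarith.natCast_nonneg ℝ k0)) (Mathlib.Tactic.Linarith.sub_nonpos_of_le hX1)]
  have ex : ∃ I, k ≤ 2 ^ 2 ^ I := ⟨k, Nat.lt_two_pow_self.le.trans
    (Nat.pow_le_pow_right (by norm_num) Nat.lt_two_pow_self.le)⟩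
  have i1 := Nat.find_spec ex
  have i2 : I0 + I1 + 4 < Nat.find ex := by
    by_contra h
    have := Nat.pow_le_pow_right (show 0 < 2 by norm_num)
      (Nat.pow_le_pow_right (show 0 < 2 by norm_num) (not_lt.mp h))
    omega
  obtain ⟨I, hI'⟩ : ∃ I, Nat.find ex = I + 1 := ⟨Nat.find ex - 1, by omega⟩
  have i3 := not_le.mp (Nat.find_min ex (m := I) (by omega))
  rw [hI'] at i1 i2
  have i4 : 8 * 2 ^ (I + 1) ≤ k := by
    obtain ⟨j, rfl⟩ : ∃ j, I = j + 3 := ⟨I - 3, by omega⟩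
    have h1 : j + 7 ≤ 2 ^ (j + 3) := by
      have := @Nat.lt_two_pow_self j
      rw [pow_add]
      omega
    have h2 := Nat.pow_le_pow_right (show 0 < 2 by norm_num) h1
    exact (le_of_eq (by ring)).trans (h2.trans i3.le)
  have i5 : 0 < k := (Nat.zero_le _).trans_lt i3
  have u1 := hU G π s p3 k (I + 1) (by omega) i4 i1 (by rwa [← hX])
  have key : ∀ S1 : Finset (G → Bool), 3 * #S1 ≤ 2 ^ Fintype.card G → ∃ ω, ω ∉ S1 := by
    intro S1 h1
    obtain ⟨ω, -, hω⟩ := exists_mem_notMem_of_card_lt_card (t := (univ : Finset (G → Bool)))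
      (s := S1) (by
        rw [card_univ, Fintype.card_fun, Fintype.card_bool]
        have := Nat.one_le_pow (Fintype.card G) 2 (by norm_num)
        omega)
    exact ⟨ω, hω⟩
  obtain ⟨ω, hω⟩ := key _ u1
  simp only [mem_filter, mem_univ, true_and, not_exists, not_and] at hω
  refine ⟨fun x => xor (ω (π x)) (s x), fun x => by simp only [p1, p2], fun A0 c hA0 => ?_⟩
  by_contra hlt
  obtain ⟨A, a1, a2⟩ := exists_subset_card_eq (s := A0) (n := k)
    (by exact_mod_cast (k4.trans (not_le.mp hlt).le))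
  have hm : Mono π s ω A c := Mono.sub hA0 a1
  have nb : #A ^ 3 ≤ 8 * (2 ^ (I + 1)) ^ 7 * En A :=
    a2 ▸ (not_le.mp fun h => hω A a2 h c hm).le
  have b3 := hs G P ht A (I + 1) (by omega) (card_pos.mp (a2 ▸ i5)) nb (by
    intro x hxP hx
    by_contra h
    obtain ⟨i, hi, b1, b2, b3⟩ := p4 x hxP h
    have key : ∀ j ≤ 3, x ^ l ^ j ≠ 1 → xor (ω (π (x ^ l ^ j))) (s (x ^ l ^ j)) = c := by
      intro j hj r3
      obtain ⟨u, hu, v, hv, e3⟩ := mem_mul.mp (hx (l ^ j) (Nat.one_le_pow _ _ (by omega))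
        (Nat.pow_le_pow_right (by omega) hj))
      have := hm _ (mem_inv'.mp hu) v hv fun h => r3 (by rw [← e3, ← h, mul_inv_cancel])
      rwa [inv_inv, e3] at this
    have k1 := key i (by omega) fun h => b1 (by rw [pow_succ, pow_mul, h, one_pow])
    have k2 := key (i + 1) (by omega) b1
    rw [b2] at k1
    revert k1 k2 b3
    cases ω (π (x ^ l ^ (i + 1))) <;> cases s (x ^ l ^ i) <;> cases s (x ^ l ^ (i + 1)) <;>
      cases c <;> simp)
  rw [a2] at b3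
  have r0 : (0 : ℝ) < k := by exact_mod_cast i5
  have r1 : (k : ℝ) ≤ (k : ℝ) ^ (1 - η) * 2 ^ (c0 * (I + 1) ^ 6) := by
    have h1 : (k : ℝ) ≤ P.index * 2 ^ (c0 * (I + 1) ^ 6) := by exact_mod_cast b3
    refine h1.trans (mul_le_mul_of_nonneg_right (hI.trans ?_) (by positivity))
    exact Real.rpow_le_rpow (by linarith only [hX1]) (by linarith only [hC, k1, hX1, mul_nonneg_of_nonpos_of_nonpos (Mathlib.Tactic.Linarith.sub_nonpos_of_le hC) (Mathlib.Tactic.Linarith.sub_nonpos_of_le hX1)]) (by linarith only [hη1])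
  have r2 := Real.log_le_log r0 r1
  rw [Real.log_mul (by positivity) (by positivity), Real.log_rpow r0, Real.log_pow] at r2
  have r3 : ((2 ^ I : ℕ) : ℝ) * Real.log 2 < Real.log k := by
    rw [← Real.log_pow]
    exact Real.log_lt_log (by positivity) (by exact_mod_cast i3)
  have r4 := mul_le_mul_of_nonneg_right (hI1 I (by omega)) (Real.log_pos one_lt_two).le
  push_cast at r2 r3 r4
  linarith only [r2, r4, hη, r3, mul_pos_of_neg_of_neg (Mathlib.Tactic.Linarith.sub_neg_of_lt hη) (Mathlib.Tactic.Linarith.sub_neg_of_lt r3)]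

theorem solvable_groups (l B t : ℕ) (η : ℝ) (hl : 2 ≤ l) (hη : 0 < η) : ∃ C : ℝ,
    ∀ (G : Type) [Group G] [Fintype G] (P : Subgroup G), Nontrivial G → Group.IsSolvable P →
      (∀ y : G, Nat.card {x : G // x ∈ P ∧ x ^ l = y} ≤ B) →
      (∀ H : Subgroup G, H ≤ P → (∀ x ∈ H, ∀ y ∈ H, x * y = y * x) →
        (∀ x ∈ H, x ^ (l ^ 3 - l) = 1) → Nat.card H ≤ t) →
      (P.index : ℝ) ≤ Real.log (Fintype.card G) ^ (1 - η) →
      ∃ S : Set G, 1 ∉ S ∧ (∀ x, x⁻¹ ∈ S ↔ x ∈ S) ∧ ∀ s : Finset G,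
        ((SimpleGraph.fromRel (fun x y : G => x⁻¹ * y ∈ S)).IsClique (s : Set G) ∨
          (SimpleGraph.fromRel (fun x y : G => x⁻¹ * y ∈ S))ᶜ.IsClique (s : Set G)) →
        (s.card : ℝ) ≤ C * Real.log (Fintype.card G) := by
  classical
  obtain ⟨C, hC, h⟩ := sol_core l B t (min η 1) hl (lt_min hη one_pos) (min_le_right _ _)
  refine ⟨C + 6, fun G _ _ P hG hP hB ht hI => ?_⟩
  have h2 : (2 : ℝ) ≤ Fintype.card G := by exact_mod_cast Fintype.one_lt_card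
  have h3 : 1 / 2 ≤ Real.log (Fintype.card G) :=
    le_trans (by linarith only [Real.log_two_gt_d9]) (Real.log_le_log (by norm_num) h2)
  rcases le_or_gt (Real.log (Fintype.card G)) 1 with hX | hX
  · refine ⟨∅, by simp, by simp, fun s _ => ?_⟩
    have h5 : (s.card : ℝ) ≤ Fintype.card G := by exact_mod_cast card_le_univ s
    have h6 := (Real.log_le_iff_le_exp (by linarith only [h2])).mp hX
    linarith only [hC, h3, h5, h6, Real.exp_one_lt_d9, mul_nonneg_of_nonpos_of_nonpos (Mathlib.Tactic.Linarith.sub_nonpos_of_le hC) (Mathlib.Tactic.Linarith.sub_nonpos_of_le h3)]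
  obtain ⟨χ, c1, c2⟩ := h G P
    (fun y => by
      have := hB y
      rw [Nat.card_eq_fintype_card, Fintype.card_subtype] at this
      convert this)
    (fun Z z1 z2 => by
      have z3 : ∀ x ∈ Subgroup.closure (Z : Set G), ∀ y ∈ Subgroup.closure (Z : Set G),
          Commute x y := fun x hx y hy =>
        Subgroup.closure_induction₂ (fun a b ha hb => z1 a ha b hb) (fun a _ => Commute.one_left a)
          (fun a _ => Commute.one_right a) (fun _ _ _ _ _ _ h1 h2 => h1.mul_left h2)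
          (fun _ _ _ _ _ _ h1 h2 => h1.mul_right h2) (fun _ _ _ _ h1 => h1.inv_left)
          (fun _ _ _ _ h1 => h1.inv_right) hx hy
      refine le_trans ?_ (ht (Subgroup.closure Z) ((Subgroup.closure_le _).mpr fun x hx => (z2 x hx).1)
        z3 fun x hx => Subgroup.closure_induction (fun a ha => (z2 a ha).2) (one_pow _)
          (fun a b ha hb h1 h2 => by rw [(z3 a ha b hb).mul_pow, h1, h2, one_mul])
          (fun a _ h1 => by rw [inv_pow, h1, inv_one]) hx)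
      rw [← Nat.card_eq_finsetCard]
      exact Nat.card_mono (Set.toFinite _) Subgroup.subset_closure)
    (hI.trans (Real.rpow_le_rpow_of_exponent_le hX.le (by linarith only [min_le_left η 1]))) hX.le
  exact of_colour χ c1 _ fun A c h => (c2 A c h).trans (by linarith only [hX])

end Pool.Agent.Work.MP_5dd17b_co
end
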